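import Pool.Agent.FD.CuspDefs
import Pool.Agent.FE.SizesJ

/-! # Drinfeld modules `x + g x ^ (r ^ j) - x ^ (r ^ (j + l))` of rank `j + l`: definitions
(page H/e9b03e_T6) -/

set_option autoImplicit false

namespace Pool.Agent.FF.Jl

section drinfeld

variable (F : Type*) (j l : ℕ) {H : Type*} [Field F] [Finite F] [Field H] [Algebra F H]

/-- `φ_T` -/
noncomputable def phT (g : H) : H →ₗ[F] H where
  toFun x := x + g * x ^ Nat.card F ^ j - x ^ Nat.card F ^ (j + l)
  map_add' x y := by
    rw [add_pow_card F j x y, add_pow_card F (j + l) x y]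
    ring
  map_smul' c x := by
    simp only [Algebra.smul_def, mul_pow, RingHom.id_apply, map_pow_card F (H := H) j c,
      map_pow_card F (H := H) (j + l) c]
    ring

theorem phT_apply (g x : H) :
    phT F j l g x = x + g * x ^ Nat.card F ^ j - x ^ Nat.card F ^ (j + l) := rfl

/-- `φ_N` -/
noncomputable def phN (g : H) (N : Polynomial F) : H →ₗ[F] H :=
  Polynomial.aeval (phT F j l g) N

/-- the `N`-torsion in `H` -/
noncomputable def VN (g : H) (N : Polynomial F) : Submodule F H := LinearMap.ker (phN F j l g N)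

/-- a line of the `M`-torsion: a `φ_T`-stable subspace with `r ^ deg M` elements -/
structure IsLine (g : H) (M : Polynomial F) (L : Submodule F H) : Prop where
  le : L ≤ VN F j l g M
  st : ∀ x ∈ L, phT F j l g x ∈ L
  card : Nat.card L = Nat.card F ^ M.natDegree

/-- the elements with `b(x) ≤ 0` (`b(x) = e - (r ^ j - 1) ord x`, `e = - ord g`) -/
def InV0 (g : H) (Q : DV H) (x : H) : Prop :=
  x = 0 ∨ - Q.ord g ≤ ((Nat.card F : ℤ) ^ j - 1) * Q.ord x

/-- `V_0`, the elements of the `N`-torsion with `b = 0` (`ord g < 0`) -/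
noncomputable def V0 (g : H) (Q : DV H) (N : Polynomial F) : Submodule F H where
  carrier := {x | x ∈ VN F j l g N ∧ Q.G 0 x ∧ InV0 F j g Q x}
  zero_mem' := ⟨zero_mem _, DV.G_zero _, Or.inl rfl⟩
  add_mem' := by
    rintro x y ⟨hx, hx0, hx1⟩ ⟨hy, hy0, hy1⟩
    refine ⟨add_mem hx hy, hx0.add hy0, ?_⟩
    by_cases h0 : x = 0
    · simpa [h0] using hy1
    by_cases h1 : y = 0
    · simpa [h1] using hx1
    by_cases h2 : x + y = 0
    · exact Or.inl h2
    have h3 := Q.ord_add x y h0 h1 h2
    have h4 := hx1.resolve_left h0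
    have h5 := hy1.resolve_left h1
    have h6 : (0 : ℤ) ≤ (Nat.card F : ℤ) ^ j - 1 := by
      have h7 : (1 : ℤ) ≤ (Nat.card F : ℤ) := by exact_mod_cast Nat.card_pos
      have := one_le_pow₀ (n := j) h7
      omega
    right
    rcases min_le_iff.1 h3 with h | h
    · exact h4.trans (mul_le_mul_of_nonneg_left h h6)
    · exact h5.trans (mul_le_mul_of_nonneg_left h h6)
  smul_mem' := by
    rintro c x ⟨hx, hx0, hx1⟩
    by_cases hc : c = 0
    · simp only [hc, zero_smul]
      exact ⟨zero_mem _, DV.G_zero _, Or.inl rfl⟩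
    by_cases h0 : x = 0
    · simp only [h0, smul_zero]
      exact ⟨zero_mem _, DV.G_zero _, Or.inl rfl⟩
    have hc' : algebraMap F H c ≠ 0 := by rwa [Ne, map_eq_zero]
    have h1 : Q.ord (algebraMap F H c) = 0 := RRD.ord_algebraMap Q hc
    have h2 : Q.ord (c • x) = Q.ord x := by
      rw [Algebra.smul_def, Q.ord_mul _ _ hc' h0, h1, zero_add]
    have h3 : c • x ≠ 0 := smul_ne_zero hc h0
    refine ⟨Submodule.smul_mem _ c hx, Or.inr (by rw [h2]; exact hx0.le h0), Or.inr ?_⟩
    rw [h2]
    exact hx1.resolve_left h0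

/-- the numbers of the field with `r ^ l` elements in `H` -/
def CC (F : Type*) (l : ℕ) (H : Type*) [Field H] : Set H := {ζ | ζ ^ Nat.card F ^ l = ζ}

end drinfeld

/-- The setting: `F ⊂ k`, `|k| = |F| ^ (j + l)`, `H` Galois over `k(g)`, generated by the
`N`-torsion, which is full, and the field with `r ^ l` elements. -/
structure DrS (F : Type*) (j l : ℕ) (k H : Type*) [Field F] [Finite F] [Field k] [Finite k]
    [Field H] [Algebra F k] [Algebra F H] [Algebra (RatFunc k) H] (N : Polynomial F) : Prop where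
  pos : 0 < j
  pos' : 0 < l
  cop : Nat.Coprime j l
  card : Nat.card k = Nat.card F ^ (j + l)
  tower : ∀ c : F, algebraMap F H c = algebraMap (RatFunc k) H (RatFunc.C (algebraMap F k c))
  monic : N.Monic
  one : N.eval 1 ≠ 0
  fin : FiniteDimensional (RatFunc k) H
  gal : IsGalois (RatFunc k) H
  cardV : Nat.card (VN F j l (gX k H) N) = Nat.card F ^ ((j + l) * N.natDegree)
  cardC : Nat.card (CC F l H) = Nat.card F ^ l
  gen : IntermediateField.adjoin (RatFunc k) ((VN F j l (gX k H) N : Set H) ∪ CC F l H) = ⊤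

/-- `T - 1` has order prime to `l` modulo `M` -/
def OrdG {F : Type*} [Field F] (l : ℕ) (M : Polynomial F) : Prop :=
  ∃ a : ℕ, 0 < a ∧ Nat.Coprime l a ∧ M ∣ (Polynomial.X - 1) ^ a - 1

/-- the primes used: `T - 1` has order prime to `l` modulo `M` -/
structure PrG (F : Type*) [Field F] (l : ℕ) (M : Polynomial F) : Prop where
  monic : M.Monic
  irr : Irreducible M
  one : M.eval 1 ≠ 0
  ord : OrdG l M

section lines

variable {F : Type*} {H : Type*} [Field F] [Finite F] [Field H] [Algebra F H]

/-- the data of a line tuple: `M i` distinct primes, full torsion -/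
structure LT (j l : ℕ) (g : H) {s : ℕ} (M : Fin s → Polynomial F) (L : Fin s → Submodule F H) :
    Prop where
  pr : ∀ i, PrG F l (M i)
  inj : Function.Injective M
  full : ∀ i, Nat.card (VN F j l g (M i)) = Nat.card F ^ ((j + l) * (M i).natDegree)
  line : ∀ i, IsLine F j l g (M i) (L i)

/-- `ψ(N)`, the number of line tuples (`n = j + l`) -/
noncomputable def psiN (n : ℕ) {s : ℕ} (M : Fin s → Polynomial F) : ℕ :=
  ∏ i, ∑ a ∈ Finset.range n, Nat.card F ^ (a * (M i).natDegree)

end lines

end Pool.Agent.FF.Jl
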