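import Pool.Agent.FG.Inf

/-! # Lines (63) -/

set_option autoImplicit false
set_option linter.unusedSectionVars false
set_option linter.style.haveILetI false

namespace Pool.Agent.FF.Jl

open Polynomial

/-- the number of subspaces with `q` elements of a space with `q ^ n` elements -/
theorem LnC.card_sub_one {κ V : Type*} [Field κ] [AddCommGroup V] [Module κ V] {q n : ℕ}
    (hq : 1 < q) (hκ : Nat.card κ = q) (hV : Nat.card V = q ^ n) :
    Nat.card {W : Submodule κ V // Nat.card W = q} = ∑ a ∈ Finset.range n, q ^ a := by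
  have h1 : Finite κ := Nat.finite_of_card_ne_zero (by omega)
  have h2 : Finite V := Nat.finite_of_card_ne_zero (by rw [hV]; positivity)
  have h3 : ∀ W : Submodule κ V, Nat.card W = q ↔ Module.finrank κ W = 1 := by
    intro W
    rw [Module.natCard_eq_pow_finrank (K := κ) (V := W), hκ]
    constructor
    · intro h
      have h4 : q ^ Module.finrank κ W = q ^ 1 := by rw [h, pow_one]
      exact Nat.pow_right_injective hq h4
    · intro h
      rw [h, pow_one]
  rw [Nat.card_congr (Equiv.subtypeEquivRight h3),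
    Nat.card_congr (Projectivization.equivSubmodule κ V).symm, Projectivization.card'', hκ, hV,
    Nat.geomSum_eq hq]

section

variable {F : Type*} {j l : ℕ} {H : Type*} [Field F] [Finite F] [Field H] [Algebra F H]

theorem LnC.aeval_comm (g : H) (p : F[X]) (x : H) :
    aeval (phT F j l g) p (phT F j l g x) = phT F j l g (aeval (phT F j l g) p x) := by
  have h2 := congrArg (aeval (phT F j l g)) (mul_comm p X)
  rw [map_mul, map_mul, aeval_X] at h2
  have h3 := LinearMap.congr_fun h2 x
  rw [Module.End.mul_apply, Module.End.mul_apply] at h3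
  exact h3

theorem LnC.VN_st (g : H) (M : Polynomial F) :
    ∀ x ∈ VN F j l g M, phT F j l g x ∈ VN F j l g M := by
  intro x hx
  have h1 : aeval (phT F j l g) M x = 0 := hx
  show aeval (phT F j l g) M (phT F j l g x) = 0
  rw [LnC.aeval_comm, h1, map_zero]

theorem LnC.phU_pow {g : H} {U : Submodule F H} (hU : ∀ x ∈ U, phT F j l g x ∈ U) (n : ℕ)
    (v : U) : ((((phT F j l g).restrict hU ^ n) v : U) : H) = (phT F j l g ^ n) v := by
  induction n with
  | zero => rfl
  | succ n ih =>
    rw [pow_succ', pow_succ', Module.End.mul_apply, Module.End.mul_apply, ← ih]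
    rfl

theorem LnC.aeval_phU {g : H} {U : Submodule F H} (hU : ∀ x ∈ U, phT F j l g x ∈ U)
    (p : Polynomial F) (v : U) :
    ((aeval ((phT F j l g).restrict hU) p v : U) : H) = aeval (phT F j l g) p v := by
  induction p using Polynomial.induction_on' with
  | add p q hp hq =>
    rw [map_add, map_add, LinearMap.add_apply, LinearMap.add_apply, Submodule.coe_add, hp, hq]
  | monomial n a =>
    rw [aeval_monomial, aeval_monomial, Module.End.mul_apply, Module.End.mul_apply,
      Module.algebraMap_end_apply, Module.algebraMap_end_apply, Submodule.coe_smul, LnC.phU_pow]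

/-- the action of `F[T] / M` on a stable subspace of the `M`-torsion -/
noncomputable def LnC.actU {g : H} {U : Submodule F H} (hU : ∀ x ∈ U, phT F j l g x ∈ U)
    (M : Polynomial F) (hM : U ≤ VN F j l g M) :
    (Polynomial F ⧸ Ideal.span {M}) →+* Module.End F U :=
  Ideal.Quotient.lift (Ideal.span {M})
    ((aeval ((phT F j l g).restrict hU) : F[X] →ₐ[F] _) : F[X] →+* _) (by
    intro a ha
    obtain ⟨b, rfl⟩ := Ideal.mem_span_singleton'.1 ha
    show aeval ((phT F j l g).restrict hU) (b * M) = 0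
    rw [map_mul]
    have h1 : aeval ((phT F j l g).restrict hU) M = 0 := by
      ext v
      rw [LnC.aeval_phU]
      have h2 : aeval (phT F j l g) M (v : H) = 0 := hM v.2
      rw [h2]
      rfl
    rw [h1, mul_zero])

theorem LnC.actU_mk {g : H} {U : Submodule F H} (hU : ∀ x ∈ U, phT F j l g x ∈ U)
    (M : Polynomial F) (hM : U ≤ VN F j l g M) (p : Polynomial F) (v : U) :
    ((LnC.actU hU M hM (Ideal.Quotient.mk _ p) v : U) : H) = aeval (phT F j l g) p v := by
  rw [← LnC.aeval_phU hU]
  rfl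

theorem LnC.aeval_st {g : H} {L : Submodule F H} (hL : ∀ x ∈ L, phT F j l g x ∈ L)
    (p : Polynomial F) {x : H} (hx : x ∈ L) : aeval (phT F j l g) p x ∈ L := by
  have hn : ∀ n : ℕ, (phT F j l g ^ n) x ∈ L := by
    intro n
    induction n with
    | zero => exact hx
    | succ n ih =>
      rw [pow_succ', Module.End.mul_apply]
      exact hL _ ih
  induction p using Polynomial.induction_on' with
  | add p q hp hq =>
    rw [map_add, LinearMap.add_apply]
    exact add_mem hp hq
  | monomial n a =>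
    rw [aeval_monomial, Module.End.mul_apply, Module.algebraMap_end_apply]
    exact Submodule.smul_mem _ _ (hn n)

theorem LnC.card_quot {M : Polynomial F} (hM : M.Monic) :
    Nat.card (Polynomial F ⧸ Ideal.span {M}) = Nat.card F ^ M.natDegree := by
  show Nat.card (AdjoinRoot M) = _
  have h := hM.finite_adjoinRoot
  rw [Module.natCard_eq_pow_finrank (K := F) (V := AdjoinRoot M),
    (AdjoinRoot.powerBasis' hM).finrank, AdjoinRoot.powerBasis'_dim]

/-- the number of lines in a stable subspace with `r ^ (n d)` elements -/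
theorem LnC.card_line_in {g : H} {M : Polynomial F} (hM : M.Monic) (hi : Irreducible M)
    {U : Submodule F H} (hUM : U ≤ VN F j l g M) (hU : ∀ x ∈ U, phT F j l g x ∈ U) {n : ℕ}
    (hc : Nat.card U = Nat.card F ^ (n * M.natDegree)) :
    Nat.card {L : Submodule F H // IsLine F j l g M L ∧ L ≤ U} =
      ∑ a ∈ Finset.range n, (Nat.card F ^ M.natDegree) ^ a := by
  haveI : (Ideal.span {M} : Ideal F[X]).IsMaximal :=
    PrincipalIdealRing.isMaximal_of_irreducible hi
  letI : Field (Polynomial F ⧸ Ideal.span {M}) := Ideal.Quotient.field _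
  letI : Module (Polynomial F ⧸ Ideal.span {M}) U := Module.compHom _ (LnC.actU hU M hUM)
  have hsm : ∀ (p : Polynomial F) (v : U),
      (((Ideal.Quotient.mk (Ideal.span {M}) p) • v : U) : H) = aeval (phT F j l g) p v :=
    fun p v => LnC.actU_mk hU M hUM p v
  have hd : 0 < M.natDegree := hi.natDegree_pos
  have hF : 1 < Nat.card F := Finite.one_lt_card
  have key := LnC.card_sub_one (κ := Polynomial F ⧸ Ideal.span {M}) (V := U) (n := n)
    (q := Nat.card F ^ M.natDegree) (Nat.one_lt_pow hd.ne' hF) (LnC.card_quot hM)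
    (by rw [hc, ← pow_mul, mul_comm])
  rw [← key]
  refine Nat.card_congr ?_
  let toW : ∀ L : Submodule F H, IsLine F j l g M L →
      Submodule (Polynomial F ⧸ Ideal.span {M}) U := fun L h =>
    { carrier := {v | (v : H) ∈ L}
      add_mem' := fun {a b} ha hb => add_mem (S := Submodule F H) ha hb
      zero_mem' := zero_mem L
      smul_mem' := by
        intro c v hv
        obtain ⟨p, rfl⟩ := Ideal.Quotient.mk_surjective c
        show (((Ideal.Quotient.mk (Ideal.span {M}) p) • v : U) : H) ∈ L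
        rw [hsm]
        exact LnC.aeval_st h.st p hv }
  let toL : Submodule (Polynomial F ⧸ Ideal.span {M}) U → Submodule F H := fun W =>
    { carrier := {x | ∃ h : x ∈ U, (⟨x, h⟩ : U) ∈ W}
      add_mem' := by
        rintro a b ⟨ha, ha'⟩ ⟨hb, hb'⟩
        exact ⟨add_mem ha hb, add_mem ha' hb'⟩
      zero_mem' := ⟨zero_mem _, zero_mem W⟩
      smul_mem' := by
        rintro c a ⟨ha, ha'⟩
        refine ⟨Submodule.smul_mem _ c ha, ?_⟩
        have h1 := W.smul_mem (Ideal.Quotient.mk (Ideal.span {M}) (C c)) ha'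
        have h2 : (Ideal.Quotient.mk (Ideal.span {M}) (C c)) • (⟨a, ha⟩ : U) =
            ⟨c • a, Submodule.smul_mem _ c ha⟩ := by
          apply Subtype.ext
          rw [hsm, aeval_C, Module.algebraMap_end_apply]
        rwa [h2] at h1 }
  have hst : ∀ W : Submodule (Polynomial F ⧸ Ideal.span {M}) U, ∀ x ∈ toL W,
      phT F j l g x ∈ toL W := by
    rintro W x ⟨hx, hx'⟩
    refine ⟨hU x hx, ?_⟩
    have h1 := W.smul_mem (Ideal.Quotient.mk (Ideal.span {M}) X) hx'
    have h2 : (Ideal.Quotient.mk (Ideal.span {M}) X) • (⟨x, hx⟩ : U) =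
        ⟨phT F j l g x, hU x hx⟩ := by
      apply Subtype.ext
      rw [hsm, aeval_X]
    rwa [h2] at h1
  have hcL : ∀ W : Submodule (Polynomial F ⧸ Ideal.span {M}) U,
      Nat.card (toL W) = Nat.card W := by
    intro W
    refine Nat.card_congr
      { toFun := fun x => ⟨⟨x.1, x.2.choose⟩, x.2.choose_spec⟩
        invFun := fun v => ⟨v.1.1, v.1.2, v.2⟩
        left_inv := fun _ => rfl
        right_inv := fun _ => rfl }
  have hcW : ∀ (L : Submodule F H) (h : IsLine F j l g M L), L ≤ U →
      Nat.card (toW L h) = Nat.card L := by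
    intro L h hLU
    refine Nat.card_congr
      { toFun := fun v => ⟨v.1.1, v.2⟩
        invFun := fun x => ⟨⟨x.1, hLU x.2⟩, x.2⟩
        left_inv := fun _ => rfl
        right_inv := fun _ => rfl }
  exact
    { toFun := fun L => ⟨toW L.1 L.2.1, by rw [hcW L.1 L.2.1 L.2.2, L.2.1.card]⟩
      invFun := fun W => ⟨toL W.1, ⟨fun x hx => hUM hx.choose, hst W.1, by rw [hcL, W.2]⟩,
        fun x hx => hx.choose⟩
      left_inv := by
        intro L
        apply Subtype.ext
        ext x
        exact ⟨fun h => h.choose_spec, fun h => ⟨L.2.2 h, h⟩⟩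
      right_inv := by
        intro W
        apply Subtype.ext
        ext x
        exact ⟨fun h => h.choose_spec, fun h => ⟨x.2, h⟩⟩ }

/-- the number of lines -/
theorem card_line {g : H} {M : F[X]} (hM : M.Monic) (hi : Irreducible M)
    (hV : Nat.card (VN F j l g M) = Nat.card F ^ ((j + l) * M.natDegree)) :
    Nat.card {L : Submodule F H // IsLine F j l g M L} =
      ∑ a ∈ Finset.range (j + l), Nat.card F ^ (a * M.natDegree) := by
  have h1 := LnC.card_line_in hM hi le_rfl (LnC.VN_st g M) hV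
  have h2 : ∀ a : ℕ, (Nat.card F ^ M.natDegree) ^ a = Nat.card F ^ (a * M.natDegree) := by
    intro a
    rw [← pow_mul, mul_comm]
  simp only [h2] at h1
  rw [← h1]
  exact Nat.card_congr (Equiv.subtypeEquivRight fun L => ⟨fun h => ⟨h, h.le⟩, fun h => h.1⟩)

/-- an `A`-linear map of the `M`-torsion (`M` prime) into `V_0` which vanishes on `V_0` and has
a given value -/
theorem exists_theta (hj : 0 < j) (hl : 0 < l) {g : H} {Q : DV H} (hg : Q.ord g < 0)
    {M : F[X]} (hM : M.Monic) (hi : Irreducible M) (h1 : M.eval 1 ≠ 0) {x v : H}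
    (hx : x ∈ VN F j l g M) (hx0 : x ∉ V0 F j l g Q M) (hv : v ∈ V0 F j l g Q M) :
    ∃ θ : VN F j l g M →ₗ[F] H, (∀ y, θ y ∈ V0 F j l g Q M) ∧
      (∀ y : VN F j l g M, (y : H) ∈ V0 F j l g Q M → θ y = 0) ∧ θ ⟨x, hx⟩ = v ∧
      ∀ y (hy : y ∈ VN F j l g M) (hy' : phT F j l g y ∈ VN F j l g M),
        θ ⟨phT F j l g y, hy'⟩ = phT F j l g (θ ⟨y, hy⟩) := by
  have hU := LnC.VN_st (j := j) (l := l) g M
  have hV0 : V0 F j l g Q M ≤ VN F j l g M := fun x hx => hx.1
  have hV0s : ∀ x ∈ V0 F j l g Q M, phT F j l g x ∈ V0 F j l g Q M :=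
    fun x hx => V0_st hj hl hg hx
  haveI : (Ideal.span {M} : Ideal F[X]).IsMaximal :=
    PrincipalIdealRing.isMaximal_of_irreducible hi
  letI : Field (Polynomial F ⧸ Ideal.span {M}) := Ideal.Quotient.field _
  letI : Module (Polynomial F ⧸ Ideal.span {M}) (VN F j l g M) :=
    Module.compHom _ (LnC.actU hU M le_rfl)
  have hsm : ∀ (p : Polynomial F) (v : VN F j l g M),
      (((Ideal.Quotient.mk (Ideal.span {M}) p) • v : VN F j l g M) : H) =
        aeval (phT F j l g) p v := fun p v => LnC.actU_mk hU M le_rfl p v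
  let W : Submodule (Polynomial F ⧸ Ideal.span {M}) (VN F j l g M) :=
    { carrier := {v | (v : H) ∈ V0 F j l g Q M}
      add_mem' := fun {a b} ha hb => (V0 F j l g Q M).add_mem ha hb
      zero_mem' := zero_mem (V0 F j l g Q M)
      smul_mem' := by
        intro c v hv
        obtain ⟨p, rfl⟩ := Ideal.Quotient.mk_surjective c
        show (((Ideal.Quotient.mk (Ideal.span {M}) p) • v : VN F j l g M) : H) ∈ V0 F j l g Q M
        rw [hsm]
        exact LnC.aeval_st hV0s p hv }
  have hxW : (⟨x, hx⟩ : VN F j l g M) ∉ W := hx0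
  obtain ⟨f, hf, hle⟩ := Submodule.exists_le_ker_of_notMem hxW
  have hfF : ∀ (c : F) (y : VN F j l g M),
      f (c • y) = Ideal.Quotient.mk (Ideal.span {M}) (C c) * f y := by
    intro c y
    have h2 : (Ideal.Quotient.mk (Ideal.span {M}) (C c)) • y = c • y := by
      apply Subtype.ext
      rw [hsm, aeval_C, Module.algebraMap_end_apply]
      rfl
    rw [← h2, map_smul, smul_eq_mul]
  set v' : VN F j l g M := ⟨v, hV0 hv⟩ with hv'
  let θ : VN F j l g M →ₗ[F] H :=
    { toFun := fun y => (((f y * (f ⟨x, hx⟩)⁻¹) • v' : VN F j l g M) : H)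
      map_add' := by
        intro a b
        rw [map_add, add_mul, add_smul, Submodule.coe_add]
      map_smul' := by
        intro c a
        rw [hfF, mul_assoc, mul_smul, hsm, aeval_C, Module.algebraMap_end_apply, RingHom.id_apply] }
  refine ⟨θ, fun y => ?_, fun y hy => ?_, ?_, fun y hy hy' => ?_⟩
  · exact W.smul_mem (f y * (f ⟨x, hx⟩)⁻¹) (show v' ∈ W from hv)
  · have h2 : f y = 0 := hle (show y ∈ W from hy)
    show (((f y * (f ⟨x, hx⟩)⁻¹) • v' : VN F j l g M) : H) = 0
    rw [h2, zero_mul, zero_smul]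
    rfl
  · show (((f ⟨x, hx⟩ * (f ⟨x, hx⟩)⁻¹) • v' : VN F j l g M) : H) = v
    rw [mul_inv_cancel₀ hf, one_smul]
  · show (((f ⟨phT F j l g y, hy'⟩ * (f ⟨x, hx⟩)⁻¹) • v' : VN F j l g M) : H) =
      phT F j l g (((f ⟨y, hy⟩ * (f ⟨x, hx⟩)⁻¹) • v' : VN F j l g M) : H)
    have h2 : (Ideal.Quotient.mk (Ideal.span {M}) X) • (⟨y, hy⟩ : VN F j l g M) =
        ⟨phT F j l g y, hy'⟩ := by
      apply Subtype.ext
      rw [hsm, aeval_X]
    rw [← h2, map_smul, smul_eq_mul, mul_assoc, mul_smul, hsm, aeval_X]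

/-- the same on the `N`-torsion, zero on the other components -/
theorem exists_thetaN (hj : 0 < j) (hl : 0 < l) {g : H} {Q : DV H} (hg : Q.ord g < 0)
    {s : ℕ} {M : Fin s → F[X]} (hM : ∀ i, PrG F l (M i)) (hinj : Function.Injective M)
    {i : Fin s} {x v : H} (hx : x ∈ VN F j l g (M i)) (hx0 : x ∉ V0 F j l g Q (M i))
    (hv : v ∈ V0 F j l g Q (M i)) :
    ∃ θ : VN F j l g (∏ i, M i) →ₗ[F] H, (∀ y, θ y ∈ V0 F j l g Q (∏ i, M i)) ∧
      (∀ y : VN F j l g (∏ i, M i), (y : H) ∈ V0 F j l g Q (∏ i, M i) → θ y = 0) ∧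
      (∀ y : VN F j l g (∏ i, M i), (y : H) = x → θ y = v) ∧
      (∀ i' ≠ i, ∀ y : VN F j l g (∏ i, M i), (y : H) ∈ VN F j l g (M i') → θ y = 0) ∧
      ∀ y (hy : y ∈ VN F j l g (∏ i, M i)) (hy' : phT F j l g y ∈ VN F j l g (∏ i, M i)),
        θ ⟨phT F j l g y, hy'⟩ = phT F j l g (θ ⟨y, hy⟩) := by
  classical
  set N := ∏ i, M i with hN
  have hcop : IsCoprime (∏ i' ∈ Finset.univ.erase i, M i') (M i) := by
    refine IsCoprime.prod_left fun i' hi' => ?_
    have hne : i' ≠ i := (Finset.mem_erase.1 hi').1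
    refine ((hM i').irr.isCoprime_or_dvd (M i)).resolve_right fun h => hne ?_
    have h2 : Associated (M i') (M i) := (hM i').irr.associated_of_dvd (hM i).irr h
    exact hinj (Polynomial.eq_of_monic_of_associated (hM i').monic (hM i).monic h2)
  obtain ⟨u, w, huw⟩ := hcop
  set P := ∏ i' ∈ Finset.univ.erase i, M i' with hP
  have hNP : N = P * M i := by
    rw [hN, hP, Finset.prod_erase_mul _ _ (Finset.mem_univ i)]
  -- the projection
  set b : F[X] := u * P with hb
  have hmulA : ∀ (p q : F[X]) (y : H), aeval (phT F j l g) (p * q) y =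
      aeval (phT F j l g) p (aeval (phT F j l g) q y) := by
    intro p q y
    rw [map_mul, Module.End.mul_apply]
  have hbV : ∀ y ∈ VN F j l g N, aeval (phT F j l g) b y ∈ VN F j l g (M i) := by
    intro y hy
    have h2 : aeval (phT F j l g) N y = 0 := hy
    show aeval (phT F j l g) (M i) (aeval (phT F j l g) b y) = 0
    rw [← hmulA]
    have h3 : M i * b = u * N := by rw [hb, hNP]; ring
    rw [h3, hmulA, h2, map_zero]
  have hbx : ∀ y ∈ VN F j l g (M i), aeval (phT F j l g) b y = y := by
    intro y hy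
    have h2 : aeval (phT F j l g) (M i) y = 0 := hy
    have h3 : b = 1 - w * M i := by rw [hb, ← huw]; ring
    rw [h3, map_sub, LinearMap.sub_apply, hmulA, h2, map_zero, sub_zero, map_one]
    rfl
  have hb0 : ∀ i' ≠ i, ∀ y ∈ VN F j l g (M i'), aeval (phT F j l g) b y = 0 := by
    intro i' hi' y hy
    have h2 : aeval (phT F j l g) (M i') y = 0 := hy
    obtain ⟨c, hc⟩ : M i' ∣ P := Finset.dvd_prod_of_mem _
      (Finset.mem_erase.2 ⟨hi', Finset.mem_univ i'⟩)
    have h3 : b = (u * c) * M i' := by rw [hb, hc]; ring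
    rw [h3, hmulA, h2, map_zero]
  have hle : VN F j l g (M i) ≤ VN F j l g N := by
    intro y hy
    have h2 : aeval (phT F j l g) (M i) y = 0 := hy
    show aeval (phT F j l g) N y = 0
    rw [hNP, hmulA, h2, map_zero]
  have hV0le : V0 F j l g Q (M i) ≤ V0 F j l g Q N := fun y hy => ⟨hle hy.1, hy.2⟩
  obtain ⟨θ, h1, h2, h3, h4⟩ := exists_theta hj hl hg (hM i).monic (hM i).irr (hM i).one hx hx0 hv
  refine ⟨θ ∘ₗ (((aeval (phT F j l g) b).comp (VN F j l g N).subtype).codRestrict
    (VN F j l g (M i)) fun y => hbV y y.2), fun y => hV0le (h1 _), fun y hy => ?_,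
    fun y hy => ?_, fun i' hi' y hy => ?_, fun y hy hy' => ?_⟩
  · refine h2 _ ?_
    have h5 : aeval (phT F j l g) b (y : H) ∈ V0 F j l g Q N :=
      LnC.aeval_st (fun x hx => V0_st hj hl hg hx) b hy
    exact ⟨hbV y y.2, h5.2⟩
  · rw [LinearMap.comp_apply, ← h3]
    refine congrArg θ (Subtype.ext ?_)
    show aeval (phT F j l g) b (y : H) = x
    rw [hy]
    exact hbx x hx
  · rw [LinearMap.comp_apply]
    have h5 : ((aeval (phT F j l g) b).comp (VN F j l g N).subtype).codRestrict
        (VN F j l g (M i)) (fun y => hbV y y.2) y = 0 := by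
      apply Subtype.ext
      exact hb0 i' hi' y hy
    rw [h5, map_zero]
  · rw [LinearMap.comp_apply, LinearMap.comp_apply]
    have h5 := h4 (aeval (phT F j l g) b y) (hbV y hy) (by
      rw [← LnC.aeval_comm]
      exact hbV _ hy')
    refine Eq.trans ?_ h5
    refine congrArg θ (Subtype.ext ?_)
    exact LnC.aeval_comm g b y

end

end Pool.Agent.FF.Jl
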