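import Pool.Agent.FD.CuspA
import Pool.Agent.FG.LinesC

/-! # T6: the Galois group acts on the line tuples; the degree (63) -/

set_option autoImplicit false
set_option linter.unusedSectionVars false

namespace Pool.Agent.FF.Jl

section

variable {F k H : Type} [Field F] [Finite F] [Field k] [Finite k] [Field H] [Algebra F k]
  [Algebra F H] [Algebra k H] [Algebra (RatFunc k) H] [IsScalarTower k (RatFunc k) H]

variable {s j l : ℕ} {M : Fin s → Polynomial F}

theorem CuD.sig_phT (σ : H ≃ₐ[RatFunc k] H) (x : H) :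
    σ (phT F j l (gX k H) x) = phT F j l (gX k H) (σ x) := by
  rw [phT_apply, phT_apply, map_sub, map_add, map_mul, map_pow, map_pow, AlgEquiv.commutes]

theorem CuD.sig_phN (ht : ∀ c : F, algebraMap F H c = algebraMap (RatFunc k) H
    (RatFunc.C (algebraMap F k c))) (σ : H ≃ₐ[RatFunc k] H) (N : Polynomial F) (x : H) :
    σ (phN F j l (gX k H) N x) = phN F j l (gX k H) N (σ x) := by
  unfold phN
  induction N using Polynomial.induction_on' generalizing x with
  | add p q hp hq =>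
    rw [map_add, LinearMap.add_apply, LinearMap.add_apply, map_add, hp, hq]
  | monomial n a =>
    rw [Polynomial.aeval_monomial, Module.End.mul_apply, Module.End.mul_apply,
      Module.algebraMap_end_apply, Module.algebraMap_end_apply, Algebra.smul_def,
      Algebra.smul_def, map_mul]
    congr 1
    · rw [ht a, AlgEquiv.commutes]
    · induction n generalizing x with
      | zero => rfl
      | succ n ih => rw [pow_succ, Module.End.mul_apply, Module.End.mul_apply, ih, CuD.sig_phT]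

theorem CuD.mem_VN_map (ht : ∀ c : F, algebraMap F H c = algebraMap (RatFunc k) H
    (RatFunc.C (algebraMap F k c))) (σ : H ≃ₐ[RatFunc k] H) (N : Polynomial F) (x : H) :
    σ x ∈ VN F j l (gX k H) N ↔ x ∈ VN F j l (gX k H) N := by
  unfold VN
  rw [LinearMap.mem_ker, LinearMap.mem_ker, ← CuD.sig_phN ht, map_eq_zero_iff σ σ.injective]

theorem CuD.mapS (ht : ∀ c : F, algebraMap F H c = algebraMap (RatFunc k) H
    (RatFunc.C (algebraMap F k c))) (σ : H ≃ₐ[RatFunc k] H) {M : Polynomial F}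
    {L : Submodule F H} (h : IsLine F j l (gX k H) M L) :
    IsLine F j l (gX k H) M (L.map (sigF ht σ)) where
  le := by
    rintro _ ⟨x, hx, rfl⟩
    exact (CuD.mem_VN_map ht σ M x).2 (h.le hx)
  st := by
    rintro _ ⟨x, hx, rfl⟩
    exact ⟨phT F j l (gX k H) x, h.st x hx, CuD.sig_phT σ x⟩
  card := by
    rw [← h.card]
    exact (Nat.card_congr (Submodule.equivMapOfInjective (sigF ht σ) σ.injective L).toEquiv).symm

theorem CuD.mem_V0_act (ht : ∀ c : F, algebraMap F H c = algebraMap (RatFunc k) H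
    (RatFunc.C (algebraMap F k c))) (σ : H ≃ₐ[RatFunc k] H) (Q : DV H) (N : Polynomial F) (x : H) :
    σ x ∈ V0 F j l (gX k H) (Q.act σ) N ↔ x ∈ V0 F j l (gX k H) Q N := by
  have h1 : (Q.act σ).ord (σ x) = Q.ord x := by
    show Q.ord (σ.symm (σ x)) = _
    rw [AlgEquiv.symm_apply_apply]
  have h2 : (Q.act σ).ord (gX k H) = Q.ord (gX k H) := by
    show Q.ord (σ.symm (algebraMap _ _ _)) = _
    rw [AlgEquiv.commutes]
  show (σ x ∈ VN F j l (gX k H) N ∧ (σ x = 0 ∨ 0 ≤ (Q.act σ).ord (σ x)) ∧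
    (σ x = 0 ∨ - (Q.act σ).ord (gX k H) ≤ ((Nat.card F : ℤ) ^ j - 1) * (Q.act σ).ord (σ x))) ↔
    (x ∈ VN F j l (gX k H) N ∧ (x = 0 ∨ 0 ≤ Q.ord x) ∧
    (x = 0 ∨ - Q.ord (gX k H) ≤ ((Nat.card F : ℤ) ^ j - 1) * Q.ord x))
  rw [h1, h2, CuD.mem_VN_map ht, map_eq_zero_iff σ σ.injective]

/-- the image tuple -/
theorem CuD.exists_img' (ht : ∀ c : F, algebraMap F H c = algebraMap (RatFunc k) H
    (RatFunc.C (algebraMap F k c))) (σ : H ≃ₐ[RatFunc k] H)
    {L : Fin s → Submodule F H} (hL : LT j l (gX k H) M L) :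
    ∃ L' : Fin s → Submodule F H, LT j l (gX k H) M L' ∧ actL σ L L' :=
  ⟨fun i => (L i).map (sigF ht σ), ⟨hL.pr, hL.inj, hL.full, fun i => CuD.mapS ht σ (hL.line i)⟩,
    actL_map ht σ L⟩

theorem CuD.psiN_pos (n : ℕ) (hn : 0 < n) (M : Fin s → Polynomial F) : 0 < psiN n M := by
  refine Finset.prod_pos fun i _ => ?_
  have h1 : 0 < Nat.card F := Nat.card_pos
  exact Finset.sum_pos (fun a _ => by positivity) (Finset.nonempty_range_iff.2 hn.ne')

theorem CuD.card_tuples {g : H} (hM : ∀ i, PrG F l (M i))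
    (hf : ∀ i, Nat.card (VN F j l g (M i)) = Nat.card F ^ ((j + l) * (M i).natDegree)) :
    Nat.card {L : Fin s → Submodule F H // ∀ i, IsLine F j l g (M i) (L i)} =
      psiN (j + l) M := by
  have e : {L : Fin s → Submodule F H // ∀ i, IsLine F j l g (M i) (L i)} ≃
      ∀ i, {L : Submodule F H // IsLine F j l g (M i) L} :=
    Equiv.subtypePiEquivPi (β := fun _ : Fin s => Submodule F H)
      (p := fun i L => IsLine F j l g (M i) L)
  rw [Nat.card_congr e, Nat.card_pi]
  exact Finset.prod_congr rfl fun i _ => card_line (hM i).monic (hM i).irr (hf i)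

theorem CuD.finrank_eq_index (h : DrS F j l k H (∏ i, M i)) (L : Fin s → Submodule F H) :
    Module.finrank (RatFunc k) (EL k L) = Nat.card ((H ≃ₐ[RatFunc k] H) ⧸ stL k L) := by
  have hfd : FiniteDimensional (RatFunc k) H := h.fin
  have hgal : IsGalois (RatFunc k) H := h.gal
  rw [IntermediateField.finrank_eq_fixingSubgroup_index, IntermediateField.fixingSubgroup_fixedField]
  rfl

/-- the orbit map -/
noncomputable def CuD.orbM (ht : ∀ c : F, algebraMap F H c = algebraMap (RatFunc k) H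
    (RatFunc.C (algebraMap F k c))) {L : Fin s → Submodule F H}
    (hL : ∀ i, IsLine F j l (gX k H) (M i) (L i)) (q : (H ≃ₐ[RatFunc k] H) ⧸ stL k L) :
    {L : Fin s → Submodule F H // ∀ i, IsLine F j l (gX k H) (M i) (L i)} :=
  ⟨fun i => (L i).map (sigF ht q.out), fun i => CuD.mapS ht q.out (hL i)⟩

theorem CuD.orbM_inj (ht : ∀ c : F, algebraMap F H c = algebraMap (RatFunc k) H
    (RatFunc.C (algebraMap F k c))) {L : Fin s → Submodule F H}
    (hL : ∀ i, IsLine F j l (gX k H) (M i) (L i)) : Function.Injective (CuD.orbM ht hL) := by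
  intro q q' hq
  have h0 : (fun i => (L i).map (sigF ht q.out)) = fun i => (L i).map (sigF ht q'.out) :=
    congrArg Subtype.val hq
  have h1 := actL_map ht q.out L
  have h2 := actL_map ht q'.out L
  rw [← h0] at h2
  rw [← QuotientGroup.out_eq' q, ← QuotientGroup.out_eq' q', QuotientGroup.eq]
  intro i x
  rw [h2 i x]
  exact h1.symm i _

/-- the degree, from the transitivity -/
theorem CuD.finrank_EL' (h : DrS F j l k H (∏ i, M i)) {L : Fin s → Submodule F H}
    (hL : LT j l (gX k H) M L)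
    (ha : ∀ L' : Fin s → Submodule F H, LT j l (gX k H) M L' →
      ∃ σ : H ≃ₐ[RatFunc k] H, actL σ L L') :
    Module.finrank (RatFunc k) (EL k L) = psiN (j + l) M := by
  rw [CuD.finrank_eq_index h, ← CuD.card_tuples (j := j) (g := gX k H) hL.pr hL.full]
  refine Nat.card_congr (Equiv.ofBijective (CuD.orbM h.tower hL.line)
    ⟨CuD.orbM_inj h.tower hL.line, fun L' => ?_⟩)
  obtain ⟨σ, hσ⟩ := ha L'.1 ⟨hL.pr, hL.inj, hL.full, L'.2⟩
  refine ⟨QuotientGroup.mk σ, Subtype.ext (funext fun i => ?_)⟩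
  have h1 := actL_map h.tower (QuotientGroup.mk σ : (H ≃ₐ[RatFunc k] H) ⧸ stL k L).out L
  obtain ⟨τ, hτ⟩ := QuotientGroup.mk_out_eq_mul (stL k L) σ
  show (L i).map (sigF h.tower (QuotientGroup.mk σ : (H ≃ₐ[RatFunc k] H) ⧸ stL k L).out) = L'.1 i
  ext y
  obtain ⟨x, rfl⟩ := (QuotientGroup.mk σ : (H ≃ₐ[RatFunc k] H) ⧸ stL k L).out.surjective y
  rw [← h1 i x, hτ]
  show x ∈ L i ↔ σ ((τ : H ≃ₐ[RatFunc k] H) x) ∈ L'.1 i
  rw [← hσ i, ← τ.2 i x]

end

end Pool.Agent.FF.Jl
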