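import Pool.Agent.FG.LinesC
import Pool.Agent.FD.Zero

/-! # D4: the places over `g = 0`, no ramification outside infinity (35) -/

set_option autoImplicit false
set_option linter.unusedSectionVars false

namespace Pool.Agent.FF.Jl

section

variable {F k H : Type} {j l : ℕ} [Field F] [Finite F] [Field k] [Finite k] [Field H] [Algebra F k]
  [Algebra F H] [Algebra k H] [Algebra (RatFunc k) H] [IsScalarTower k (RatFunc k) H]

/-- the torsion of a divisor -/
theorem VN_le_of_dvd (g : H) {M N : Polynomial F} (hd : M ∣ N) : VN F j l g M ≤ VN F j l g N := by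
  obtain ⟨c, rfl⟩ := hd
  intro x hx
  rw [VN, LinearMap.mem_ker] at hx ⊢
  rw [mul_comm, phN_mul, hx, map_zero]

omit [Algebra k H] [IsScalarTower k (RatFunc k) H] in
/-- the torsion is stable under automorphisms -/
theorem VN_of_aut {N : Polynomial F} (h : DrS F j l k H N) (σ : H ≃ₐ[RatFunc k] H) (N' : Polynomial F)
    {x : H} (hx : x ∈ VN F j l (gX k H) N') : σ x ∈ VN F j l (gX k H) N' := by
  let s : H →ₐ[F] H :=
    { (σ : H →+* H) with
      commutes' := fun c => by
        show σ (algebraMap F H c) = algebraMap F H c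
        rw [h.tower c]
        exact σ.commutes _ }
  have hs : ∀ y : H, s y = σ y := fun _ => rfl
  have h1 := map_phN (j := j) (l := l) s (gX k H) x N'
  rw [hs, hs, hs] at h1
  rw [VN, LinearMap.mem_ker] at hx ⊢
  rw [hx, map_zero] at h1
  have h2 : σ (gX k H) = gX k H := σ.commutes _
  rw [h2] at h1
  exact h1.symm

omit [Algebra F k] [Finite k] [Field k] [Algebra k H] [Algebra (RatFunc k) H]
  [IsScalarTower k (RatFunc k) H] [Algebra F H] in
/-- the numbers are units at all places -/
theorem CC_ord (hl : 0 < l) (Q : DV H) {x : H} (hx : x ∈ CC F l H) (h0 : x ≠ 0) :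
    Q.ord x = 0 := by
  have h1 : Q.ord (x ^ Nat.card F ^ l) = Q.ord x := by rw [show x ^ Nat.card F ^ l = x from hx]
  rw [Q.ord_pow h0] at h1
  have h2 : 1 < Nat.card F ^ l := Nat.one_lt_pow hl.ne' Finite.one_lt_card
  have h3 : (((Nat.card F ^ l : ℕ) : ℤ) - 1) * Q.ord x = 0 := by linear_combination h1
  rcases mul_eq_zero.1 h3 with h4 | h4
  · exfalso
    have h5 : (1 : ℤ) < ((Nat.card F ^ l : ℕ) : ℤ) := by exact_mod_cast h2
    omega
  · exact h4

/-- units `σ x - x` at the finite places -/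
theorem drS_unit {N : Polynomial F} (h : DrS F j l k H N) {Q : DV H} {v : DV (RatFunc k)}
    (hQ : Over Q v) (hv : v ≠ Rat.inf k) (σ : H ≃ₐ[RatFunc k] H) (hσ : σ ≠ 1) :
    ∃ x : H, IntO v x ∧ σ x - x ≠ 0 ∧ Q.ord (σ x - x) = 0 := by
  have hex : ∃ x ∈ (VN F j l (gX k H) N : Set H) ∪ CC F l H, σ x ≠ x := by
    by_contra hno
    push Not at hno
    apply hσ
    have h1 : ∀ x ∈ IntermediateField.adjoin (RatFunc k)
        ((VN F j l (gX k H) N : Set H) ∪ CC F l H), σ x = x := by
      intro x hx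
      induction hx using IntermediateField.adjoin_induction with
      | mem x hx => exact hno x hx
      | algebraMap x => exact σ.commutes x
      | add x y _ _ hx hy => rw [map_add, hx, hy]
      | inv x _ hx => rw [map_inv₀, hx]
      | mul x y _ _ hx hy => rw [map_mul, hx, hy]
    exact AlgEquiv.ext fun x => h1 x (by rw [h.gen]; trivial)
  obtain ⟨x, hx, hne⟩ := hex
  have h0 : σ x - x ≠ 0 := sub_ne_zero.2 hne
  rcases hx with hx | hx
  · refine ⟨x, fun w hw => ?_, h0, ?_⟩
    · by_cases hx0 : x = 0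
      · exact Or.inl hx0
      · exact DV.G_of_le (VN_unit h.pos h.pos' (G_gX_of_ne hw hv) h.one hx hx0).ge
    · exact VN_unit h.pos h.pos' (G_gX_of_ne hQ hv) h.one (sub_mem (VN_of_aut h σ N hx) hx) h0
  · refine ⟨x, fun w _ => ?_, h0, ?_⟩
    · by_cases hx0 : x = 0
      · exact Or.inl hx0
      · exact DV.G_of_le (CC_ord h.pos' w hx hx0).ge
    · refine CC_ord (F := F) h.pos' Q ?_ h0
      have h3 : σ x ^ Nat.card F ^ l = σ x := by rw [← map_pow, show x ^ Nat.card F ^ l = x from hx]
      have h4 := add_pow_card F l (σ x - x) x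
      rw [sub_add_cancel, h3, show x ^ Nat.card F ^ l = x from hx] at h4
      exact eq_sub_of_add_eq h4.symm

/-- `H` is unramified outside infinity -/
theorem drS_unram {N : Polynomial F} (h : DrS F j l k H N) {Q : DV H} {v : DV (RatFunc k)}
    (hQ : Over Q v) (hv : v ≠ Rat.inf k) : OverE Q v 1 := by
  have := h.fin
  have := h.gal
  exact unram hQ fun σ hσ => drS_unit h hQ hv σ hσ

/-- the torsion consists of units at the finite places -/
theorem unit_fin {N : Polynomial F} (h : DrS F j l k H N) {Q : DV H} {v : DV (RatFunc k)}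
    (hQ : Over Q v) (hv : v ≠ Rat.inf k) {N' : Polynomial F} (h1 : N'.eval 1 ≠ 0) {x : H}
    (hx : x ∈ VN F j l (gX k H) N') (h0 : x ≠ 0) : Q.ord x = 0 :=
  VN_unit h.pos h.pos' (G_gX_of_ne hQ hv) h1 hx h0

/-- the Frobenius elements over `g = 0` fix all stable subspaces of the torsion -/
theorem frob_zero {N : Polynomial F} (h : DrS F j l k H N) {Q : DV H}
    (hQ : Over Q (Rat.pt (0 : k))) :
    ∃ σ : H ≃ₐ[RatFunc k] H, (∀ a, Q.G 0 a → Q.G 1 (σ a - a ^ Nat.card k)) ∧
      ∀ L : Submodule F H, L ≤ VN F j l (gX k H) N → (∀ x ∈ L, phT F j l (gX k H) x ∈ L) →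
        ∀ x, x ∈ L ↔ σ x ∈ L := by
  have := h.fin
  have := h.gal
  have hk : 0 < Nat.card k := Nat.card_pos
  have hres : (Rat.pt (0 : k)).resCard = Nat.card k := (rational_iff k _).2 (Rat.pt_rat (0 : k))
  obtain ⟨σ, hσ⟩ := exists_frob hQ (by rw [hres]; exact hk.ne')
  rw [hres] at hσ
  refine ⟨σ, hσ, ?_⟩
  have hg1 : Q.G 1 (gX k H) := by
    refine (hQ.G_one_iff _).2 (DV.G_of_le ?_)
    have := Rat.pt_ord (0 : k)
    rw [map_zero, sub_zero] at this
    exact this.ge
  have hg0 : Q.G 0 (gX k H) := hg1.mono (by norm_num)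
  -- `σ x = x - φ_T x`
  have hfr : ∀ x ∈ VN F j l (gX k H) N, σ x = x - phT F j l (gX k H) x := by
    intro x hx
    have hst : phT F j l (gX k H) x ∈ VN F j l (gX k H) N := by
      have h1 := phN_mem (gX k H) Polynomial.X N hx
      rwa [phN, Polynomial.aeval_X] at h1
    have hm : σ x - (x - phT F j l (gX k H) x) ∈ VN F j l (gX k H) N :=
      sub_mem (VN_of_aut h σ N hx) (sub_mem hx hst)
    by_contra hne
    have hne' : σ x - (x - phT F j l (gX k H) x) ≠ 0 := sub_ne_zero.2 hne
    have h2 := VN_unit h.pos h.pos' hg0 h.one hm hne'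
    have hx0 : Q.G 0 x := by
      by_cases h3 : x = 0
      · exact Or.inl h3
      · exact DV.G_of_le (VN_unit h.pos h.pos' hg0 h.one hx h3).ge
    have h3 : Q.G 1 (σ x - (x - phT F j l (gX k H) x)) := by
      have e : σ x - (x - phT F j l (gX k H) x) =
          (σ x - x ^ Nat.card k) + gX k H * x ^ Nat.card F ^ j := by
        rw [phT_apply, h.card]
        ring
      rw [e]
      exact (hσ x hx0).add (GalAux.G_one_mul_l hg1 (GalAux.G_zero_pow hx0 _))
    have h4 := h3.le hne'
    rw [h2] at h4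
    omega
  intro L hL hLst x
  have hfin : Finite (VN F j l (gX k H) N) := finite_VN h.pos' _ h.monic.ne_zero
  have hfL : Finite L := Finite.of_injective (fun y : L => (⟨y.1, hL y.2⟩ : VN F j l (gX k H) N))
    fun y y' hy => Subtype.ext (congrArg (fun z : VN F j l (gX k H) N => (z : H)) hy)
  have hmap : ∀ y ∈ L, σ y ∈ L := fun y hy => by
    rw [hfr y (hL hy)]
    exact sub_mem hy (hLst y hy)
  refine ⟨hmap x, fun hx => ?_⟩
  let f : L → L := fun y => ⟨σ y.1, hmap _ y.2⟩
  have hinj : Function.Injective f := fun y y' hy =>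
    Subtype.ext (σ.injective (congrArg Subtype.val hy))
  obtain ⟨y, hy⟩ := (Finite.injective_iff_surjective.1 hinj) ⟨σ x, hx⟩
  have h5 : σ y.1 = σ x := congrArg Subtype.val hy
  rw [← σ.injective h5]
  exact y.2

variable {s : ℕ} {M : Fin s → Polynomial F}

/-- all places of the field of a line tuple over `g = 0` are rational and unramified -/
theorem zero_rat (h : DrS F j l k H (∏ i, M i)) {L : Fin s → Submodule F H}
    (hL : LT j l (gX k H) M L) {P : DV (EL k L)} (hP : Over P (Rat.pt (0 : k))) :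
    OverE P (Rat.pt (0 : k)) 1 ∧ P.Rat k := by
  have := h.fin
  have := h.gal
  obtain ⟨Q, hQ⟩ := exists_aboveH (K := RatFunc k) (H := H) P
  have hQ0 : Over Q (Rat.pt (0 : k)) := hQ.trans' hP
  constructor
  · have h1 := drS_unram h hQ0 (Rat.pt_ne_inf 0)
    obtain ⟨e, he⟩ := hP.overE
    obtain ⟨e', he'⟩ := hQ.overE
    have h2 : (e' : ℤ) * e = 1 := by
      obtain ⟨t, ht0, ht1⟩ := (Rat.pt (0 : k)).exists_one
      have h3 := h1.2 t
      rw [IsScalarTower.algebraMap_apply (RatFunc k) (EL k L) H, he'.2, he.2, ht1] at h3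
      push_cast at h3
      linarith
    have h3 : e' * e = 1 := by exact_mod_cast h2
    have h4 : e = 1 := Nat.eq_one_of_mul_eq_one_left h3
    rw [h4] at he
    exact he
  · obtain ⟨σ, hσ, hfix⟩ := frob_zero h hQ0
    intro a ha
    have haQ : Q.G 0 (a : H) := (hQ.G_zero_iff a).2 ha
    have hmem : σ ∈ stL k L := by
      show ∀ i x, x ∈ L i ↔ σ x ∈ L i
      intro i
      exact hfix (L i) ((hL.line i).le.trans (VN_le_of_dvd _
        (Finset.dvd_prod_of_mem _ (Finset.mem_univ i)))) (hL.line i).st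
    have h1 : σ (a : H) = a := (IntermediateField.mem_fixedField_iff _ _).1 a.2 σ hmem
    have h2 := hσ _ haQ
    rw [h1] at h2
    obtain ⟨c, hc⟩ := exists_const_of_pow (GalAux.G_one_sub_symm h2)
    refine ⟨c, (hQ.G_one_iff _).1 ?_⟩
    rw [map_sub]
    exact hc

end

end Pool.Agent.FF.Jl
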