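import Pool.Agent.FG.FV
import Pool.Agent.FG.Zero

/-! # The subspaces `V_0` span the torsion and have intersection zero (60) -/

set_option autoImplicit false

namespace Pool.Agent.FF.Jl

/-- the sum of an ultrametric function over a coset -/
theorem Irr.core {H : Type*} [AddCommGroup H] (B : H → ℤ) (V W V0 : AddSubgroup H)
    (hfin : (V : Set H).Finite) (hW : W ≤ V) (h0 : V0 ≤ W) (e : ℤ)
    (hult : ∀ a ∈ V, ∀ b ∈ V, B a < B b → B (a + b) = B b)
    (hB0 : ∀ x ∈ V0, B x = 0)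
    (hout : ∀ x ∈ V, x ∉ V0 → e < Nat.card V0 * B x)
    (hsW : ∑ᶠ x ∈ (W : Set H), B x = (Nat.card W - 1) * e)
    (hsV : ∑ᶠ x ∈ (V : Set H), B x = (Nat.card V - 1) * e) : V ≤ W := by
  classical
  have hfW : (W : Set H).Finite := hfin.subset hW
  have hf0 : (V0 : Set H).Finite := hfW.subset h0
  obtain ⟨TV, hTV⟩ : ∃ T : Finset H, ∀ x, x ∈ T ↔ x ∈ V := ⟨hfin.toFinset, fun x => by simp⟩
  obtain ⟨TW, hTW⟩ : ∃ T : Finset H, ∀ x, x ∈ T ↔ x ∈ W := ⟨hfW.toFinset, fun x => by simp⟩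
  obtain ⟨T0, hT0⟩ : ∃ T : Finset H, ∀ x, x ∈ T ↔ x ∈ V0 := ⟨hf0.toFinset, fun x => by simp⟩
  have card_eq : ∀ (U : AddSubgroup H) (T : Finset H), (∀ x, x ∈ T ↔ x ∈ U) →
      Nat.card U = T.card := by
    intro U T hT
    have h1 : (U : Set H) = (T : Set H) := by
      ext x
      simp [hT]
    have h2 : Nat.card U = (U : Set H).ncard := rfl
    rw [h2, h1, Set.ncard_coe_finset]
  have sum_eq : ∀ (U : AddSubgroup H) (T : Finset H), (∀ x, x ∈ T ↔ x ∈ U) →
      ∑ᶠ x ∈ (U : Set H), B x = ∑ x ∈ T, B x := by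
    intro U T hT
    have h1 : (U : Set H) = (T : Set H) := by
      ext x
      simp [hT]
    rw [h1, finsum_mem_coe_finset]
  rw [sum_eq W TW hTW, card_eq W TW hTW] at hsW
  rw [sum_eq V TV hTV, card_eq V TV hTV] at hsV
  simp only [card_eq V0 T0 hT0] at hout
  -- translations
  have shiftV : ∀ v ∈ V, ∑ y ∈ TV, B (y + v) = ∑ y ∈ TV, B y := by
    intro v hv
    refine Finset.sum_nbij' (fun y => y + v) (fun y => y - v) ?_ ?_ ?_ ?_ ?_
    · intro y hy
      rw [hTV] at hy ⊢
      exact add_mem hy hv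
    · intro y hy
      rw [hTV] at hy ⊢
      exact sub_mem hy hv
    · intro y _
      simp
    · intro y _
      simp
    · intro y _
      rfl
  have shiftW : ∀ (y : H), ∀ v ∈ W, ∑ w ∈ TW, B (y + v + w) = ∑ w ∈ TW, B (y + w) := by
    intro y v hv
    refine Finset.sum_nbij' (fun w => v + w) (fun w => w - v) ?_ ?_ ?_ ?_ ?_
    · intro w hw
      rw [hTW] at hw ⊢
      exact add_mem hv hw
    · intro w hw
      rw [hTW] at hw ⊢
      exact sub_mem hw hv
    · intro w _
      simp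
    · intro w _
      simp
    · intro w _
      rw [add_assoc]
  have hT0W : T0 ⊆ TW := fun x hx => (hTW x).2 (h0 ((hT0 x).1 hx))
  -- the sum over a coset outside `W`
  have key : ∀ y ∈ V, y ∉ W → ∑ w ∈ TW, B w + (e + 1) ≤ ∑ w ∈ TW, B (y + w) := by
    intro y hy hyW
    obtain ⟨v, hv, hmin⟩ := Finset.exists_min_image TW (fun w => B (y + w))
      ⟨0, (hTW 0).2 (zero_mem _)⟩
    have hvW : v ∈ W := (hTW v).1 hv
    have hyv : y + v ∈ V := add_mem hy (hW hvW)
    have hyv0 : y + v ∉ V0 := fun h => hyW (by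
      have h1 := sub_mem (h0 h) hvW
      rwa [add_sub_cancel_right] at h1)
    have h1 := hout _ hyv hyv0
    rw [← shiftW y v hvW]
    have h2 : ∀ w ∈ TW, B w + (if w ∈ T0 then B (y + v) else 0) ≤ B (y + v + w) := by
      intro w hw
      have hwW := (hTW w).1 hw
      have h3 : B (y + v) ≤ B (y + v + w) := by
        have h4 := hmin (v + w) ((hTW _).2 (add_mem hvW hwW))
        rwa [← add_assoc] at h4
      split_ifs with h4
      · rw [hB0 w ((hT0 w).1 h4), zero_add]
        exact h3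
      · rw [add_zero]
        rcases lt_or_ge (B (y + v)) (B w) with h5 | h5
        · exact (hult _ hyv _ (hW hwW) h5).ge
        · exact h5.trans h3
    have h3 := Finset.sum_le_sum h2
    rw [Finset.sum_add_distrib, ← Finset.sum_filter, Finset.sum_const, nsmul_eq_mul] at h3
    have h4 : TW.filter (· ∈ T0) = T0 := by
      ext x
      rw [Finset.mem_filter]
      exact ⟨fun h => h.2, fun h => ⟨hT0W h, h⟩⟩
    rw [h4] at h3
    linarith
  -- double counting
  have hdc : ∑ y ∈ TV, ∑ w ∈ TW, B (y + w) = TW.card * ∑ y ∈ TV, B y := by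
    rw [Finset.sum_comm]
    rw [Finset.sum_congr rfl fun w hw => shiftV w (hW ((hTW w).1 hw)), Finset.sum_const,
      nsmul_eq_mul]
  have hsplit : ∑ y ∈ TV, (∑ w ∈ TW, B w + if y ∈ TW then 0 else (e + 1)) ≤
      ∑ y ∈ TV, ∑ w ∈ TW, B (y + w) := by
    refine Finset.sum_le_sum fun y hy => ?_
    split_ifs with h1
    · rw [add_zero]
      have h2 := shiftW 0 y ((hTW y).1 h1)
      simp only [zero_add] at h2
      exact h2.ge
    · exact key y ((hTV y).1 hy) fun h => h1 ((hTW y).2 h)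
  rw [Finset.sum_add_distrib, Finset.sum_const, nsmul_eq_mul, hdc, hsV, hsW] at hsplit
  have h5 : ∑ y ∈ TV, (if y ∈ TW then (0 : ℤ) else (e + 1)) = (TV.card - TW.card) * (e + 1) := by
    have hsub : TW ⊆ TV := fun x hx => (hTV x).2 (hW ((hTW x).1 hx))
    have h6 : ∑ y ∈ TW, (if y ∈ TW then (0 : ℤ) else (e + 1)) = 0 :=
      Finset.sum_eq_zero fun y hy => if_pos hy
    have h7 : ∑ y ∈ TV \ TW, (if y ∈ TW then (0 : ℤ) else (e + 1)) = ∑ y ∈ TV \ TW, (e + 1) :=
      Finset.sum_congr rfl fun y hy => if_neg (Finset.mem_sdiff.1 hy).2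
    rw [← Finset.sum_sdiff hsub, h6, h7, add_zero, Finset.sum_const, nsmul_eq_mul,
      Finset.card_sdiff_of_subset hsub, Nat.cast_sub (Finset.card_le_card hsub)]
  rw [h5] at hsplit
  have h6 : (TV.card : ℤ) ≤ TW.card := by nlinarith
  have h7 : TW = TV := Finset.eq_of_subset_of_card_le
    (fun x hx => (hTV x).2 (hW ((hTW x).1 hx))) (by exact_mod_cast h6)
  intro x hx
  rw [← hTW, h7, hTV]
  exact hx

section

variable {F k H : Type} {j l : ℕ} [Field F] [Finite F] [Field k] [Finite k] [Field H]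
  [Algebra F k] [Algebra F H] [Algebra k H] [Algebra (RatFunc k) H]
  [IsScalarTower k (RatFunc k) H]

omit [Algebra k H] [IsScalarTower k (RatFunc k) H] in
/-- product formula: a finite set of units stable under the Galois group -/
theorem sum_ord_zero {N : Polynomial F} (h : DrS F j l k H N) (S : Finset H)
    (hS : ∀ (σ : H ≃ₐ[RatFunc k] H), ∀ x ∈ S, σ x ∈ S) (h0 : (0 : H) ∉ S)
    (hu : ∀ (Q : DV H) (v : DV (RatFunc k)), Over Q v → v ≠ Rat.inf k → ∀ x ∈ S, Q.ord x = 0)
    {Q : DV H} (hQ : Over Q (Rat.inf k)) : ∑ x ∈ S, Q.ord x = 0 := by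
  classical
  have := h.fin
  have := h.gal
  have hne : ∀ x ∈ S, x ≠ 0 := fun x hx h1 => h0 (h1 ▸ hx)
  have hfix : ∀ σ : H ≃ₐ[RatFunc k] H, σ (∏ x ∈ S, x) = ∏ x ∈ S, x := by
    intro σ
    rw [map_prod]
    have himg : S.image (fun x => σ x) = S := by
      refine Finset.eq_of_subset_of_card_le (fun x hx => ?_) ?_
      · obtain ⟨y, hy, rfl⟩ := Finset.mem_image.1 hx
        exact hS σ y hy
      · rw [Finset.card_image_of_injective _ σ.injective]
    have h1 : ∏ x ∈ S.image (fun x => σ x), x = ∏ x ∈ S, σ x :=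
      Finset.prod_image fun _ _ _ _ hxy => σ.injective hxy
    rw [← h1, himg]
  obtain ⟨f, hf⟩ := (IsGalois.mem_range_algebraMap_iff_fixed (F := RatFunc k)
    (∏ x ∈ S, x)).2 hfix
  have hP0 : (∏ x ∈ S, x) ≠ 0 := Finset.prod_ne_zero_iff.2 hne
  have hf0 : f ≠ 0 := by
    rintro rfl
    rw [map_zero] at hf
    exact hP0 hf.symm
  have hordP : ∀ Q : DV H, Q.ord (algebraMap (RatFunc k) H f) = ∑ x ∈ S, Q.ord x := fun Q => by
    rw [hf, ord_prod' S (fun x => x) hne]
  have hfin : ∀ v : DV (RatFunc k), v ≠ Rat.inf k → v.ord f = 0 := by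
    intro v hv
    obtain ⟨Q', hQ'⟩ := exists_aboveH (K := RatFunc k) (H := H) v
    obtain ⟨e, he⟩ := hQ'.overE
    have h1 := he.2 f
    rw [hordP, Finset.sum_eq_zero (hu Q' v hQ' hv)] at h1
    have h2 : (e : ℤ) ≠ 0 := by exact_mod_cast he.1.ne'
    exact (mul_eq_zero.1 h1.symm).resolve_left h2
  have hinf : (Rat.inf k).ord f = 0 := by
    rcases le_total 0 ((Rat.inf k).ord f) with h1 | h1
    · obtain ⟨c, hc⟩ := Rat.const_of_int (a := f) fun v => by
        by_cases hv : v = Rat.inf k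
        · rw [hv]
          exact DV.G_of_le h1
        · exact DV.G_of_le (hfin v hv).ge
      rw [hc]
      exact DV.ord_const _ c
    · obtain ⟨c, hc⟩ := Rat.const_of_int (a := f⁻¹) fun v => by
        by_cases hv : v = Rat.inf k
        · rw [hv]
          exact DV.G_of_le (by rw [DV.ord_inv _ hf0]; omega)
        · exact DV.G_of_le (by rw [DV.ord_inv _ hf0, hfin v hv]; rfl)
      have h2 : (Rat.inf k).ord f⁻¹ = 0 := by
        rw [hc]
        exact DV.ord_const _ c
      rw [DV.ord_inv _ hf0] at h2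
      omega
  obtain ⟨e, he⟩ := hQ.overE
  rw [← hordP, he.2, hinf, mul_zero]

omit [Algebra k H] [IsScalarTower k (RatFunc k) H] in
/-- the torsion is stable under automorphisms -/
theorem Irr.VN_of_aut {N : Polynomial F} (h : DrS F j l k H N) (σ : H ≃ₐ[RatFunc k] H)
    (N' : Polynomial F) {x : H} (hx : x ∈ VN F j l (gX k H) N') :
    σ x ∈ VN F j l (gX k H) N' := by
  let s : H →ₐ[F] H :=
    { (σ : H →+* H) with
      commutes' := fun c => by
        show σ (algebraMap F H c) = algebraMap F H c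
        rw [h.tower c]
        exact σ.commutes _ }
  have hs : ∀ y : H, s y = σ y := fun _ => rfl
  have h1 := map_phN (j := j) (l := l) s (gX k H) x N'
  rw [hs, hs, hs] at h1
  rw [VN, LinearMap.mem_ker] at hx ⊢
  rw [hx, map_zero] at h1
  have h2 : σ (gX k H) = gX k H := σ.commutes _
  rw [h2] at h1
  exact h1.symm

omit [Algebra k H] [IsScalarTower k (RatFunc k) H] in
theorem Irr.V0_of_aut {N : Polynomial F} (h : DrS F j l k H N) (σ : H ≃ₐ[RatFunc k] H)
    (N' : Polynomial F) (Q : DV H) {x : H}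
    (hx : x ∈ V0 F j l (gX k H) (Q.act σ.symm) N') : σ x ∈ V0 F j l (gX k H) Q N' := by
  obtain ⟨h1, h2, h3⟩ := hx
  have hord : ∀ y : H, (Q.act σ.symm).ord y = Q.ord (σ y) := fun y => rfl
  have hg : (Q.act σ.symm).ord (gX k H) = Q.ord (gX k H) := by
    rw [hord]
    congr 1
    exact σ.commutes _
  refine ⟨Irr.VN_of_aut h σ N' h1, ?_, ?_⟩
  · rcases h2 with h2 | h2
    · exact Or.inl (by rw [h2, map_zero])
    · exact Or.inr h2
  · rcases h3 with h3 | h3
    · exact Or.inl (by rw [h3, map_zero])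
    · rw [hg, hord] at h3
      exact Or.inr h3

omit [Finite k] [Algebra k H] [IsScalarTower k (RatFunc k) H] in
theorem Irr.ord_gX {Q : DV H} (hQ : Over Q (Rat.inf k)) : Q.ord (gX k H) < 0 := by
  obtain ⟨e, he⟩ := hQ.overE
  have h1 : Q.ord (gX k H) = e * (Rat.inf k).ord RatFunc.X := he.2 _
  rw [h1, Rat.inf_X]
  have h2 : (0 : ℤ) < e := by exact_mod_cast he.1
  linarith

theorem Irr.one_le (F : Type) [Field F] [Finite F] {j : ℕ} (hj : 0 < j) :
    (1 : ℤ) ≤ (Nat.card F : ℤ) ^ j - 1 := by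
  have h1 : (2 : ℤ) ≤ (Nat.card F : ℤ) := by exact_mod_cast Finite.one_lt_card (α := F)
  have h2 : (Nat.card F : ℤ) ^ 1 ≤ (Nat.card F : ℤ) ^ j := pow_le_pow_right₀ (by omega) hj
  rw [pow_one] at h2
  omega

variable {s : ℕ} {M : Fin s → Polynomial F}

/-- the `V_0` have intersection zero -/
theorem irr_inf (h : DrS F j l k H (∏ i, M i)) (hM : ∀ i, PrG F l (M i))
    (_hinj : Function.Injective M) (i : Fin s) {x : H}
    (hx : ∀ Q : DV H, Over Q (Rat.inf k) → x ∈ V0 F j l (gX k H) Q (M i)) : x = 0 := by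
  classical
  have := h.fin
  have := h.gal
  by_contra hx0
  have hfV : Finite (VN F j l (gX k H) (M i)) := finite_VN h.pos' _ (hM i).monic.ne_zero
  have hfin : {y : H | y ≠ 0 ∧ ∀ Q : DV H, Over Q (Rat.inf k) →
      y ∈ V0 F j l (gX k H) Q (M i)}.Finite := by
    obtain ⟨Q, hQ⟩ := exists_aboveH (K := RatFunc k) (H := H) (Rat.inf k)
    have h1 : ((VN F j l (gX k H) (M i) : Submodule F H) : Set H).Finite := Set.toFinite _
    exact h1.subset fun y hy => (hy.2 Q hQ).1
  obtain ⟨Q, hQ⟩ := exists_aboveH (K := RatFunc k) (H := H) (Rat.inf k)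
  have h1 := sum_ord_zero h hfin.toFinset (fun σ y hy => by
      rw [Set.Finite.mem_toFinset] at hy ⊢
      refine ⟨?_, fun Q hQ => Irr.V0_of_aut h σ (M i) Q (hy.2 _ (hQ.act σ.symm))⟩
      rw [Ne, map_eq_zero]
      exact hy.1)
    (fun h2 => by
      rw [Set.Finite.mem_toFinset] at h2
      exact h2.1 rfl)
    (fun Q v hQ hv y hy => by
      rw [Set.Finite.mem_toFinset] at hy
      obtain ⟨Q', hQ'⟩ := exists_aboveH (K := RatFunc k) (H := H) (Rat.inf k)
      exact unit_fin h hQ hv (hM i).one (hy.2 Q' hQ').1 hy.1) hQ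
  have hpos : ∀ y ∈ hfin.toFinset, 0 < Q.ord y := by
    intro y hy
    rw [Set.Finite.mem_toFinset] at hy
    have h2 := (hy.2 Q hQ).2.2.resolve_left hy.1
    have h3 := Irr.ord_gX hQ
    have h4 := Irr.one_le F h.pos
    by_contra h5
    push Not at h5
    have h6 : ((Nat.card F : ℤ) ^ j - 1) * Q.ord y ≤ 0 :=
      mul_nonpos_of_nonneg_of_nonpos (by omega) h5
    omega
  have h2 : 0 < ∑ y ∈ hfin.toFinset, Q.ord y :=
    Finset.sum_pos hpos ⟨x, by rw [Set.Finite.mem_toFinset]; exact ⟨hx0, hx⟩⟩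
  omega

/-- `e - (r ^ j - 1) ord x` -/
noncomputable def Irr.bb (F : Type) (j : ℕ) {H : Type} [Field H] (g : H) (Q : DV H) (x : H) : ℤ := by
  classical
  exact if x = 0 then 0 else - Q.ord g - ((Nat.card F : ℤ) ^ j - 1) * Q.ord x

theorem Irr.bb_zero (F : Type) (j : ℕ) {H : Type} [Field H] (g : H) (Q : DV H) :
    Irr.bb F j g Q 0 = 0 := by
  classical
  simp [Irr.bb]

theorem Irr.bb_ne (F : Type) (j : ℕ) {H : Type} [Field H] (g : H) (Q : DV H) {x : H}
    (hx : x ≠ 0) : Irr.bb F j g Q x = - Q.ord g - ((Nat.card F : ℤ) ^ j - 1) * Q.ord x := by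
  classical
  simp [Irr.bb, hx]

/-- the sum of `b` over a stable subspace of the torsion -/
theorem Irr.sum_bb {N : Polynomial F} (h : DrS F j l k H N) {N' : Polynomial F}
    (hN' : N'.Monic) (h1 : N'.eval 1 ≠ 0) (U : Submodule F H)
    (hU : U ≤ VN F j l (gX k H) N') (hst : ∀ σ : H ≃ₐ[RatFunc k] H, ∀ x ∈ U, σ x ∈ U)
    {Q : DV H} (hQ : Over Q (Rat.inf k)) :
    ∑ᶠ x ∈ (U : Set H), Irr.bb F j (gX k H) Q x = (Nat.card U - 1) * (- Q.ord (gX k H)) := by
  classical
  have hfV : Finite (VN F j l (gX k H) N') := finite_VN h.pos' _ hN'.ne_zero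
  have hfU : (U : Set H).Finite := (Set.toFinite
    ((VN F j l (gX k H) N' : Submodule F H) : Set H)).subset hU
  have hcoe : (U : Set H) = (hfU.toFinset : Set H) := hfU.coe_toFinset.symm
  have hmem : ∀ x, x ∈ hfU.toFinset ↔ x ∈ U := fun x => by simp
  have hcard : Nat.card U = hfU.toFinset.card := by
    have h2 : Nat.card U = (U : Set H).ncard := rfl
    rw [h2, Set.ncard_eq_toFinset_card _ hfU]
  have hzero : (0 : H) ∈ hfU.toFinset := (hmem 0).2 (zero_mem _)
  have hsum := sum_ord_zero h (hfU.toFinset.erase 0) (fun σ x hx => by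
      rw [Finset.mem_erase, hmem] at hx ⊢
      refine ⟨?_, hst σ x hx.2⟩
      rw [Ne, map_eq_zero]
      exact hx.1)
    (fun h2 => (Finset.mem_erase.1 h2).1 rfl)
    (fun Q v hQ hv x hx => by
      rw [Finset.mem_erase, hmem] at hx
      exact unit_fin h hQ hv h1 (hU hx.2) hx.1) hQ
  rw [hcoe, finsum_mem_coe_finset, ← Finset.add_sum_erase _ _ hzero, Irr.bb_zero, zero_add,
    Finset.sum_congr rfl fun x hx => Irr.bb_ne F j (gX k H) Q (Finset.mem_erase.1 hx).1,
    Finset.sum_sub_distrib, Finset.sum_const, nsmul_eq_mul, ← Finset.mul_sum, hsum, mul_zero,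
    sub_zero, hcard, Finset.card_erase_of_mem hzero,
    Nat.cast_sub (Finset.one_le_card.2 ⟨0, hzero⟩), Nat.cast_one]

omit [Finite F] in
theorem Irr.ordG_prod {s : ℕ} {M : Fin s → Polynomial F} (hM : ∀ i, PrG F l (M i))
    (hinj : Function.Injective M) : OrdG l (∏ i, M i) := by
  classical
  choose a ha hc hd using fun i => (hM i).ord
  refine ⟨∏ i, a i, Finset.prod_pos fun i _ => ha i, Nat.Coprime.prod_right fun i _ => hc i, ?_⟩
  refine Finset.prod_dvd_of_coprime (fun i _ i' _ hne => ?_) fun i _ => (hd i).trans ?_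
  · refine (hM i).irr.coprime_iff_not_dvd.2 fun h1 => hne (hinj ?_)
    exact Polynomial.eq_of_monic_of_associated (hM i).monic (hM i').monic
      ((hM i).irr.associated_of_dvd (hM i').irr h1)
  · obtain ⟨b, hb⟩ := Finset.dvd_prod_of_mem a (Finset.mem_univ i)
    rw [hb, pow_mul]
    have h1 := sub_dvd_pow_sub_pow (((Polynomial.X : Polynomial F) - 1) ^ a i) 1 b
    rwa [one_pow] at h1

/-- `|V_0(M_i)| ≥ r ^ (j d_i)` -/
theorem Irr.card_V0_ge {N : Polynomial F} (h : DrS F j l k H N) (hN : OrdG l N)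
    {A B : Polynomial F} (hA : A.Monic) (hB : B.Monic) (hAB : N = B * A)
    {Q : DV H} (hQ : Over Q (Rat.inf k)) :
    Nat.card F ^ (j * A.natDegree) ≤ Nat.card (V0 F j l (gX k H) Q A) := by
  classical
  have hg := Irr.ord_gX hQ
  have hAe : A.eval 1 ≠ 0 := fun h1 => h.one (by rw [hAB, Polynomial.eval_mul, h1, mul_zero])
  have hBe : B.eval 1 ≠ 0 := fun h1 => h.one (by rw [hAB, Polynomial.eval_mul, h1, zero_mul])
  have hcN := card_V0 h hN hQ
  have hcB := card_V0_le (F := F) h.pos h.pos' hg hB hBe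
  have hfN : Finite (VN F j l (gX k H) N) := finite_VN h.pos' _ h.monic.ne_zero
  have hfA : Finite (VN F j l (gX k H) A) := finite_VN h.pos' _ hA.ne_zero
  have hfB : Finite (VN F j l (gX k H) B) := finite_VN h.pos' _ hB.ne_zero
  have hle : ∀ N' : Polynomial F, V0 F j l (gX k H) Q N' ≤ VN F j l (gX k H) N' :=
    fun N' x hx => hx.1
  have hf0N : Finite (V0 F j l (gX k H) Q N) :=
    ((Set.toFinite ((VN F j l (gX k H) N : Submodule F H) : Set H)).subset (hle N)).to_subtype
  have hf0A : Finite (V0 F j l (gX k H) Q A) :=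
    ((Set.toFinite ((VN F j l (gX k H) A : Submodule F H) : Set H)).subset (hle A)).to_subtype
  have hf0B : Finite (V0 F j l (gX k H) Q B) :=
    ((Set.toFinite ((VN F j l (gX k H) B : Submodule F H) : Set H)).subset (hle B)).to_subtype
  -- `φ_B` maps `V_0(N)` to `V_0(A)`
  have hst : ∀ (P N' : Polynomial F), ∀ x ∈ V0 F j l (gX k H) Q N',
      phN F j l (gX k H) P x ∈ V0 F j l (gX k H) Q N' := by
    intro P N' x hx
    have h1 : ∀ n : ℕ, ((phT F j l (gX k H)) ^ n) x ∈ V0 F j l (gX k H) Q N' := by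
      intro n
      induction n with
      | zero => exact hx
      | succ n ih =>
        rw [pow_succ']
        exact V0_st h.pos h.pos' hg ih
    rw [phN, Polynomial.aeval_eq_sum_range, LinearMap.sum_apply]
    exact sum_mem fun n _ => Submodule.smul_mem _ _ (h1 n)
  have hmap : ∀ x ∈ V0 F j l (gX k H) Q N, phN F j l (gX k H) B x ∈ V0 F j l (gX k H) Q A := by
    intro x hx
    have h1 := hst B N x hx
    refine ⟨?_, h1.2⟩
    have h2 : phN F j l (gX k H) N x = 0 := hx.1
    rw [VN, LinearMap.mem_ker, ← phN_mul, mul_comm, ← hAB]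
    exact h2
  let f : V0 F j l (gX k H) Q N →ₗ[F] V0 F j l (gX k H) Q A :=
    (phN F j l (gX k H) B).restrict hmap
  have hker : ∀ x : V0 F j l (gX k H) Q N, f x = 0 → (x : H) ∈ V0 F j l (gX k H) Q B := by
    intro x hx
    refine ⟨?_, x.2.2⟩
    rw [VN, LinearMap.mem_ker]
    exact congrArg Subtype.val hx
  have h1 : Nat.card (LinearMap.ker f) * Nat.card (LinearMap.range f) =
      Nat.card (V0 F j l (gX k H) Q N) := by
    rw [← Nat.card_congr (LinearMap.quotKerEquivRange f).toEquiv]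
    exact (Submodule.card_eq_card_quotient_mul_card (LinearMap.ker f)).symm
  have h2 : Nat.card (LinearMap.ker f) ≤ Nat.card (V0 F j l (gX k H) Q B) :=
    Nat.card_le_card_of_injective (fun x : LinearMap.ker f =>
      (⟨x.1.1, hker x.1 x.2⟩ : V0 F j l (gX k H) Q B)) fun x y hxy =>
        Subtype.ext (Subtype.ext (congrArg (fun z : V0 F j l (gX k H) Q B => (z : H)) hxy))
  have h3 : Nat.card (LinearMap.range f) ≤ Nat.card (V0 F j l (gX k H) Q A) :=
    Nat.card_le_card_of_injective (fun x : LinearMap.range f => x.1) Subtype.val_injective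
  have h4 : Nat.card F ^ (j * N.natDegree) ≤
      Nat.card F ^ (j * B.natDegree) * Nat.card (V0 F j l (gX k H) Q A) := by
    rw [← hcN, ← h1]
    exact Nat.mul_le_mul (h2.trans hcB) h3
  have h5 : N.natDegree = B.natDegree + A.natDegree := by
    rw [hAB, hB.natDegree_mul hA]
  rw [h5, mul_add, pow_add] at h4
  exact Nat.le_of_mul_le_mul_left h4 (pow_pos Nat.card_pos _)

/-- the `V_0` span the torsion -/
theorem irr_sup (h : DrS F j l k H (∏ i, M i)) (hM : ∀ i, PrG F l (M i))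
    (hinj : Function.Injective M) (i : Fin s) (W : Submodule F H)
    (hW : ∀ Q : DV H, Over Q (Rat.inf k) → V0 F j l (gX k H) Q (M i) ≤ W) :
    VN F j l (gX k H) (M i) ≤ W := by
  classical
  have := h.fin
  have := h.gal
  have hfV : Finite (VN F j l (gX k H) (M i)) := finite_VN h.pos' _ (hM i).monic.ne_zero
  let U : Submodule F H := ⨆ (Q : DV H) (_ : Over Q (Rat.inf k)), V0 F j l (gX k H) Q (M i)
  have hUW : U ≤ W := iSup₂_le hW
  have hUV : U ≤ VN F j l (gX k H) (M i) := iSup₂_le fun Q _ x hx => hx.1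
  have h0U : ∀ Q : DV H, Over Q (Rat.inf k) → V0 F j l (gX k H) Q (M i) ≤ U := fun Q hQ =>
    le_iSup₂_of_le Q hQ le_rfl
  have hUst : ∀ σ : H ≃ₐ[RatFunc k] H, ∀ x ∈ U, σ x ∈ U := by
    intro σ
    let s : H →ₗ[F] H :=
      { toFun := σ
        map_add' := map_add σ
        map_smul' := fun c x => by
          rw [Algebra.smul_def, map_mul, h.tower c]
          have h1 : σ (algebraMap (RatFunc k) H (RatFunc.C (algebraMap F k c))) =
              algebraMap (RatFunc k) H (RatFunc.C (algebraMap F k c)) := σ.commutes _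
          rw [h1, ← h.tower c, RingHom.id_apply, Algebra.smul_def] }
    have h1 : U ≤ U.comap s := iSup₂_le fun Q hQ x hx => by
      show σ x ∈ U
      refine h0U (Q.act σ) (hQ.act σ) (Irr.V0_of_aut h σ (M i) (Q.act σ) ?_)
      have h2 : (Q.act σ).act σ.symm = Q := by
        ext y
        show Q.ord (σ.symm (σ.symm.symm y)) = Q.ord y
        rw [AlgEquiv.symm_symm, AlgEquiv.symm_apply_apply]
      rw [h2]
      exact hx
    exact fun x hx => h1 hx
  obtain ⟨Q, hQ⟩ := exists_aboveH (K := RatFunc k) (H := H) (Rat.inf k)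
  have hg := Irr.ord_gX hQ
  have hj1 := Irr.one_le F h.pos
  have hl1 := Irr.one_le F h.pos'
  -- `OrdG` for the product
  have hN : OrdG l (∏ i, M i) := Irr.ordG_prod hM hinj
  have hge : Nat.card F ^ (j * (M i).natDegree) ≤ Nat.card (V0 F j l (gX k H) Q (M i)) :=
    Irr.card_V0_ge h hN (hM i).monic
      (B := ∏ i' ∈ Finset.univ.erase i, M i')
      (Polynomial.monic_prod_of_monic _ _ fun i' _ => (hM i').monic)
      (by rw [mul_comm]; exact (Finset.mul_prod_erase _ _ (Finset.mem_univ i)).symm) hQ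
  have hord : ∀ x ∈ VN F j l (gX k H) (M i), x ∉ V0 F j l (gX k H) Q (M i) →
      - Q.ord (gX k H) < Nat.card (V0 F j l (gX k H) Q (M i)) * Irr.bb F j (gX k H) Q x := by
    intro x hx hx0
    have hne : x ≠ 0 := fun h1 => hx0 (by rw [h1]; exact zero_mem _)
    have h1 := inf_out h.pos h.pos' hg (hM i).monic (hM i).one hx hx0
    rw [Irr.bb_ne F j (gX k H) Q hne]
    set E : ℤ := - Q.ord (gX k H) with hE
    set b : ℤ := E - ((Nat.card F : ℤ) ^ j - 1) * Q.ord x with hb
    have hE0 : 0 < E := by omega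
    have h2 : (Nat.card F : ℤ) ^ l - 1 < (Nat.card F : ℤ) ^ (j + l) - 1 := by
      have h3 : (Nat.card F : ℤ) ^ l < (Nat.card F : ℤ) ^ (j + l) :=
        pow_lt_pow_right₀ (by exact_mod_cast Finite.one_lt_card (α := F)) (by have := h.pos; omega)
      omega
    have h3 : ((Nat.card F : ℤ) ^ l - 1) * E <
        (Nat.card F : ℤ) ^ (j * (M i).natDegree) * (((Nat.card F : ℤ) ^ l - 1) * b) :=
      (mul_lt_mul_of_pos_right h2 hE0).trans_le h1
    have h4 : ((Nat.card F : ℤ) ^ l - 1) * E <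
        ((Nat.card F : ℤ) ^ l - 1) * ((Nat.card F : ℤ) ^ (j * (M i).natDegree) * b) := by
      calc _ < _ := h3
        _ = _ := by ring
    have h5 := lt_of_mul_lt_mul_left h4 (by omega)
    have hp : (0 : ℤ) < (Nat.card F : ℤ) ^ (j * (M i).natDegree) := by
      have : (0 : ℤ) < (Nat.card F : ℤ) := by exact_mod_cast Nat.card_pos
      positivity
    have hb0 : 0 < b := by
      by_contra h6
      push Not at h6
      have h7 := mul_nonpos_of_nonneg_of_nonpos hp.le h6
      omega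
    refine h5.trans_le (mul_le_mul_of_nonneg_right ?_ hb0.le)
    exact_mod_cast hge
  have hb0 : ∀ x ∈ V0 F j l (gX k H) Q (M i), Irr.bb F j (gX k H) Q x = 0 := by
    intro x hx
    by_cases hx0 : x = 0
    · rw [hx0, Irr.bb_zero]
    · rw [Irr.bb_ne F j (gX k H) Q hx0, inf_V0 h.pos h.pos' hg (hM i).monic (hM i).one hx hx0,
        sub_self]
  have hbnn : ∀ x ∈ VN F j l (gX k H) (M i), 0 ≤ Irr.bb F j (gX k H) Q x := by
    intro x hx
    by_cases hx0 : x ∈ V0 F j l (gX k H) Q (M i)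
    · exact (hb0 x hx0).ge
    · by_contra h6
      push Not at h6
      have h7 : (Nat.card (V0 F j l (gX k H) Q (M i)) : ℤ) * Irr.bb F j (gX k H) Q x ≤ 0 :=
        mul_nonpos_of_nonneg_of_nonpos (by positivity) h6.le
      have h8 := hord x hx hx0
      omega
  have hult : ∀ a ∈ VN F j l (gX k H) (M i), ∀ b ∈ VN F j l (gX k H) (M i),
      Irr.bb F j (gX k H) Q a < Irr.bb F j (gX k H) Q b →
      Irr.bb F j (gX k H) Q (a + b) = Irr.bb F j (gX k H) Q b := by
    intro a ha b hb hab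
    by_cases ha0 : a = 0
    · rw [ha0, zero_add]
    by_cases hb0' : b = 0
    · rw [hb0', Irr.bb_zero] at hab
      exact absurd (hbnn a ha) (not_le.2 hab)
    rw [Irr.bb_ne F j _ Q ha0, Irr.bb_ne F j _ Q hb0'] at hab
    have h1 : Q.ord b < Q.ord a := by
      have h2 : ((Nat.card F : ℤ) ^ j - 1) * Q.ord b < ((Nat.card F : ℤ) ^ j - 1) * Q.ord a := by
        omega
      exact lt_of_mul_lt_mul_left h2 (by omega)
    have h2 := Q.ord_add_eq_min ha0 hb0' h1.ne'
    rw [min_eq_right h1.le] at h2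
    rw [Irr.bb_ne F j _ Q h2.1, Irr.bb_ne F j _ Q hb0', h2.2]
  have hVst : ∀ σ : H ≃ₐ[RatFunc k] H, ∀ x ∈ VN F j l (gX k H) (M i),
      σ x ∈ VN F j l (gX k H) (M i) := fun σ x hx => Irr.VN_of_aut h σ _ hx
  have hfin := Irr.core (Irr.bb F j (gX k H) Q) (VN F j l (gX k H) (M i)).toAddSubgroup
    U.toAddSubgroup (V0 F j l (gX k H) Q (M i)).toAddSubgroup
    (Set.toFinite ((VN F j l (gX k H) (M i) : Submodule F H) : Set H)) (fun x hx => hUV hx)
    (fun x hx => h0U Q hQ hx) (- Q.ord (gX k H)) hult hb0 hord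
    (Irr.sum_bb h (hM i).monic (hM i).one U hUV hUst hQ)
    (Irr.sum_bb h (hM i).monic (hM i).one _ le_rfl hVst hQ)
  exact fun x hx => hUW (hfin hx)

end

end Pool.Agent.FF.Jl
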