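import Mathlib

/-! # Transitivity from transvections (12): pure algebra -/

set_option autoImplicit false

namespace Pool.Agent.FF.Jl

/-- a vector space is not the union of two proper subspaces, relative form -/
private theorem tra_avoid {F X : Type*} [Field F] [AddCommGroup X] [Module F X]
    {U A B : Submodule F X} (hA : ¬ U ≤ A) (hB : ¬ U ≤ B) : ∃ v ∈ U, v ∉ A ∧ v ∉ B := by
  obtain ⟨a, haU, haA⟩ := SetLike.not_le_iff_exists.mp hA
  obtain ⟨b, hbU, hbB⟩ := SetLike.not_le_iff_exists.mp hB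
  by_cases haB : a ∈ B
  · by_cases hbA : b ∈ A
    · refine ⟨a + b, U.add_mem haU hbU, fun h => haA ?_, fun h => hbB ?_⟩
      · exact (A.add_mem_iff_left hbA).mp h
      · exact (B.add_mem_iff_right haB).mp h
    · exact ⟨b, hbU, hbA, hbB⟩
  · exact ⟨a, haU, haA, haB⟩

/-- `R` is an equivalence relation on the vectors; if `U` is in the family, `x ∉ U`, `u ∈ U`
then `x ~ x + u`; the family spans and has intersection zero, and no member of it contains
another one. Then all nonzero vectors are equivalent. -/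
theorem trans_all {F X ι : Type*} [Field F] [AddCommGroup X] [Module F X]
    (U : ι → Submodule F X) (hU : ∀ i i', U i ≤ U i' → U i = U i')
    (hinf : ∀ x, (∀ i, x ∈ U i) → x = 0) (hsup : ⨆ i, U i = ⊤)
    (R : X → X → Prop) (hR : Equivalence R)
    (hstep : ∀ i x u, x ∉ U i → u ∈ U i → R x (x + u)) {x y : X} (hx : x ≠ 0) (hy : y ≠ 0) :
    R x y := by
  -- two vectors of a member outside another member
  have h1 : ∀ i i', U i ≠ U i' → ∀ u u', u ∈ U i → u' ∈ U i → u ∉ U i' → u' ∉ U i' → R u u' := by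
    intro i i' hne u u' hu hu' hn hn'
    have h2 : ¬ U i' ≤ U i := fun h => hne (hU i' i h).symm
    obtain ⟨w, hw, hwn⟩ := SetLike.not_le_iff_exists.mp h2
    have h3 : R u (u + w) := hstep i' u w hn hw
    have h4 : R u' (u' + w) := hstep i' u' w hn' hw
    have h5 : R (u + w) (u + w + (u' - u)) :=
      hstep i (u + w) (u' - u) (fun h => hwn (((U i).add_mem_iff_right hu).mp h))
        ((U i).sub_mem hu' hu)
    have h6 : u + w + (u' - u) = u' + w := by abel
    rw [h6] at h5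
    exact hR.trans h3 (hR.trans h5 (hR.symm h4))
  -- all nonzero vectors of a member
  have h2 : ∀ i u u', u ∈ U i → u' ∈ U i → u ≠ 0 → u' ≠ 0 → R u u' := by
    intro i u u' hu hu' h0 h0'
    have hex : ∀ u, u ≠ 0 → ∃ i, u ∉ U i := by
      intro u h
      by_contra hno
      push Not at hno
      exact h (hinf u hno)
    obtain ⟨a, ha⟩ := hex u h0
    obtain ⟨b, hb⟩ := hex u' h0'
    have hA : ¬ U i ≤ U a := fun h => ha (h hu)
    have hB : ¬ U i ≤ U b := fun h => hb (h hu')
    obtain ⟨v, hv, hva, hvb⟩ := tra_avoid hA hB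
    exact hR.trans (h1 i a (fun h => hA h.le) u v hu hv ha hva)
      (h1 i b (fun h => hB h.le) v u' hv hu' hvb hb)
  -- two members
  have h3 : ∀ i i' u u', u ∈ U i → u' ∈ U i' → u ≠ 0 → u' ≠ 0 → R u u' := by
    intro i i' u u' hu hu' h0 h0'
    by_cases hne : U i = U i'
    · rw [← hne] at hu'
      exact h2 i u u' hu hu' h0 h0'
    · obtain ⟨v, hv, hv'⟩ := SetLike.not_le_iff_exists.mp fun h : U i ≤ U i' => hne (hU i i' h)
      obtain ⟨w, hw, hw'⟩ := SetLike.not_le_iff_exists.mp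
        fun h : U i' ≤ U i => hne (hU i' i h).symm
      have hv0 : v ≠ 0 := fun h => hv' (h ▸ (U i').zero_mem)
      have hw0 : w ≠ 0 := fun h => hw' (h ▸ (U i).zero_mem)
      have h4 : R v (v + w) := hstep i' v w hv' hw
      have h5 : R w (w + v) := hstep i w v hw' hv
      rw [add_comm] at h5
      exact hR.trans (h2 i u v hu hv h0 hv0)
        (hR.trans h4 (hR.trans (hR.symm h5) (h2 i' w u' hw hu' hw0 h0')))
  -- every nonzero vector is equivalent to a nonzero vector of a member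
  have h4 : ∀ z : X, ∀ x' : X, (x' = 0 ∨ ∃ i, ∃ u ∈ U i, u ≠ 0 ∧ R x' u) →
      (x' + z = 0 ∨ ∃ i, ∃ u ∈ U i, u ≠ 0 ∧ R (x' + z) u) := by
    intro z
    have hz : z ∈ ⨆ i, U i := by
      rw [hsup]
      exact Submodule.mem_top
    refine Submodule.iSup_induction U (motive := fun z : X => ∀ x' : X,
      (x' = 0 ∨ ∃ i, ∃ u ∈ U i, u ≠ 0 ∧ R x' u) →
      (x' + z = 0 ∨ ∃ i, ∃ u ∈ U i, u ≠ 0 ∧ R (x' + z) u)) hz ?_ ?_ ?_
    · intro i u hu x' hx'
      by_cases hxi : x' ∈ U i
      · by_cases h0 : x' + u = 0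
        · exact Or.inl h0
        · exact Or.inr ⟨i, x' + u, (U i).add_mem hxi hu, h0, hR.refl _⟩
      · rcases hx' with hx' | ⟨j, v, hv, hv0, hxv⟩
        · exact absurd (hx' ▸ (U i).zero_mem) hxi
        · exact Or.inr ⟨j, v, hv, hv0, hR.trans (hR.symm (hstep i x' u hxi hu)) hxv⟩
    · intro x' hx'
      rwa [add_zero]
    · intro a b ha hb x' hx'
      rw [← add_assoc]
      exact hb _ (ha _ hx')
  have h5 : ∀ x : X, x ≠ 0 → ∃ i, ∃ u ∈ U i, u ≠ 0 ∧ R x u := by
    intro x hx
    have h6 := h4 x 0 (Or.inl rfl)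
    rw [zero_add] at h6
    exact h6.resolve_left hx
  obtain ⟨i, u, hu, hu0, hxu⟩ := h5 x hx
  obtain ⟨i', u', hu', hu0', hyu⟩ := h5 y hy
  exact hR.trans hxu (hR.trans (h3 i i' u u' hu hu' hu0 hu0') (hR.symm hyu))

end Pool.Agent.FF.Jl
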