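import Pool.Agent.FG.Full
import Pool.Agent.FG.Irr
import Pool.Agent.FG.TrA
import Pool.Agent.FG.CuspDeg

/-! # All line tuples are conjugate; the degree (49) -/

set_option autoImplicit false
set_option linter.style.haveILetI false

namespace Pool.Agent.FF.Jl

open Polynomial

section

variable {F H : Type*} {j l : ℕ} [Field F] [Finite F] [Field H] [Algebra F H]

/-- a nonzero element of a line generates it -/
theorem CuG.gen {g : H} {M : F[X]} (hM : M.Monic) (hi : Irreducible M) {L : Submodule F H}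
    (hL : IsLine F j l g M L) {x y : H} (hx : x ∈ L) (hx0 : x ≠ 0) (hy : y ∈ L) :
    ∃ p : F[X], aeval (phT F j l g) p x = y := by
  haveI : (Ideal.span {M} : Ideal F[X]).IsMaximal :=
    PrincipalIdealRing.isMaximal_of_irreducible hi
  letI : Field (Polynomial F ⧸ Ideal.span {M}) := Ideal.Quotient.field _
  let f : (Polynomial F ⧸ Ideal.span {M}) → L := fun c => LnC.actU hL.st M hL.le c ⟨x, hx⟩
  have hinj : Function.Injective f := by
    intro c c' hc
    by_contra hne
    have h1 : LnC.actU hL.st M hL.le (c - c') ⟨x, hx⟩ = 0 := by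
      rw [map_sub, LinearMap.sub_apply]
      exact sub_eq_zero.2 hc
    have h2 : (c - c')⁻¹ * (c - c') = 1 := inv_mul_cancel₀ (sub_ne_zero.2 hne)
    have h3 : LnC.actU hL.st M hL.le ((c - c')⁻¹ * (c - c')) ⟨x, hx⟩ = 0 := by
      rw [map_mul, Module.End.mul_apply, h1, map_zero]
    rw [h2, map_one, Module.End.one_apply] at h3
    exact hx0 (congrArg Subtype.val h3)
  have hF : 0 < Nat.card F := Nat.card_pos
  have hfinL : Finite L := Nat.finite_of_card_ne_zero (by rw [hL.card]; positivity)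
  have hfinQ : Finite (Polynomial F ⧸ Ideal.span {M}) :=
    Nat.finite_of_card_ne_zero (by rw [LnC.card_quot hM]; positivity)
  have hbij : Function.Bijective f :=
    (Nat.bijective_iff_injective_and_card f).2 ⟨hinj, by rw [LnC.card_quot hM, hL.card]⟩
  obtain ⟨c, hc⟩ := hbij.2 ⟨y, hy⟩
  obtain ⟨p, rfl⟩ := Ideal.Quotient.mk_surjective c
  refine ⟨p, ?_⟩
  have h4 := congrArg Subtype.val hc
  rw [← LnC.actU_mk hL.st M hL.le p ⟨x, hx⟩]
  exact h4

/-- two lines with a common nonzero element are equal -/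
theorem CuG.unique {g : H} {M : F[X]} (hM : M.Monic) (hi : Irreducible M)
    {L L' : Submodule F H} (hL : IsLine F j l g M L) (hL' : IsLine F j l g M L') {x : H}
    (hx : x ∈ L) (hx' : x ∈ L') (hx0 : x ≠ 0) : L = L' := by
  refine le_antisymm ?_ ?_
  · intro y hy
    obtain ⟨p, rfl⟩ := CuG.gen hM hi hL hx hx0 hy
    exact LnC.aeval_st hL'.st p hx'
  · intro y hy
    obtain ⟨p, rfl⟩ := CuG.gen hM hi hL' hx' hx0 hy
    exact LnC.aeval_st hL.st p hx

/-- a line has a nonzero element -/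
theorem CuG.exists_ne {g : H} {M : F[X]} (hi : Irreducible M) {L : Submodule F H}
    (hL : IsLine F j l g M L) : ∃ x ∈ L, x ≠ 0 := by
  by_contra hno
  push Not at hno
  have h1 : Nat.card L = 1 := by
    rw [Nat.card_eq_one_iff_unique]
    exact ⟨⟨fun a b => Subtype.ext ((hno a.1 a.2).trans (hno b.1 b.2).symm)⟩, ⟨0⟩⟩
  have h2 := hL.card
  rw [h1] at h2
  have h3 : 1 < Nat.card F ^ M.natDegree :=
    Nat.one_lt_pow hi.natDegree_pos.ne' Finite.one_lt_card
  omega

end

section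

variable {F k H : Type} {j l : ℕ} [Field F] [Finite F] [Field k] [Finite k] [Field H]
  [Algebra F k] [Algebra F H] [Algebra k H] [Algebra (RatFunc k) H]
  [IsScalarTower k (RatFunc k) H]

variable {s : ℕ} {M : Fin s → Polynomial F}

/-- the nonzero elements of one component are conjugate over the others -/
theorem trans_one (h : DrS F j l k H (∏ i, M i)) (hM : ∀ i, PrG F l (M i))
    (hinj : Function.Injective M) {i : Fin s} {x y : H} (hx : x ∈ VN F j l (gX k H) (M i))
    (hx0 : x ≠ 0) (hy : y ∈ VN F j l (gX k H) (M i)) (hy0 : y ≠ 0) :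
    ∃ σ : H ≃ₐ[RatFunc k] H, σ x = y ∧
      ∀ i' ≠ i, ∀ y ∈ VN F j l (gX k H) (M i'), σ y = y := by
  have hfd := h.fin
  have hgal := h.gal
  have hfV : Finite (VN F j l (gX k H) (M i)) := finite_VN h.pos' _ (hM i).monic.ne_zero
  let V := VN F j l (gX k H) (M i)
  let U : {Q : DV H // Over Q (Rat.inf k)} → Submodule F V := fun Q =>
    (V0 F j l (gX k H) Q.1 (M i)).comap V.subtype
  let R : V → V → Prop := fun a b => ∃ σ : H ≃ₐ[RatFunc k] H, σ a = b ∧
    ∀ i' ≠ i, ∀ y ∈ VN F j l (gX k H) (M i'), σ y = y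
  have hR : Equivalence R :=
    { refl := fun a => ⟨1, rfl, fun _ _ _ _ => rfl⟩
      symm := by
        rintro a b ⟨σ, h1, h2⟩
        refine ⟨σ.symm, ?_, fun i' hi' y hy => ?_⟩
        · rw [← h1]
          exact σ.symm_apply_apply _
        · have h3 := h2 i' hi' y hy
          nth_rewrite 1 [← h3]
          exact σ.symm_apply_apply _
      trans := by
        rintro a b c ⟨σ, h1, h2⟩ ⟨τ, h3, h4⟩
        refine ⟨σ.trans τ, ?_, fun i' hi' y hy => ?_⟩
        · show τ (σ a) = c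
          rw [h1, h3]
        · show τ (σ y) = y
          rw [h2 i' hi' y hy, h4 i' hi' y hy] }
  have hcard : ∀ Q Q' : {Q : DV H // Over Q (Rat.inf k)}, Nat.card (U Q) = Nat.card (U Q') := by
    intro Q Q'
    obtain ⟨σ, hσ⟩ := exists_act_eq Q.2 Q'.2
    refine Nat.card_congr
      { toFun := fun v => ⟨⟨σ v.1.1, (CuD.mem_VN_map h.tower σ _ _).2 v.1.2⟩, ?_⟩
        invFun := fun w => ⟨⟨σ.symm w.1.1, ?_⟩, ?_⟩
        left_inv := fun v => Subtype.ext (Subtype.ext (σ.symm_apply_apply _))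
        right_inv := fun w => Subtype.ext (Subtype.ext (σ.apply_symm_apply _)) }
    · show σ v.1.1 ∈ V0 F j l (gX k H) Q'.1 (M i)
      rw [hσ]
      exact (CuD.mem_V0_act h.tower σ Q.1 _ _).2 v.2
    · rw [← CuD.mem_VN_map h.tower σ, σ.apply_symm_apply]
      exact w.1.2
    · show σ.symm w.1.1 ∈ V0 F j l (gX k H) Q.1 (M i)
      rw [← CuD.mem_V0_act h.tower σ Q.1, σ.apply_symm_apply, ← hσ]
      exact w.2
  have hU : ∀ Q Q', U Q ≤ U Q' → U Q = U Q' := by
    intro Q Q' hle
    have h1 : ((U Q : Submodule F V) : Set V) = U Q' := by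
      refine Set.eq_of_subset_of_ncard_le hle ?_ (Set.toFinite _)
      exact (hcard Q' Q).le
    exact SetLike.coe_injective h1
  have hinf : ∀ v : V, (∀ Q, v ∈ U Q) → v = 0 := by
    intro v hv
    exact Subtype.ext (irr_inf h hM hinj i fun Q hQ => hv ⟨Q, hQ⟩)
  have hsup : ⨆ Q, U Q = ⊤ := by
    rw [eq_top_iff]
    intro v _
    have h1 : V ≤ (⨆ Q, U Q).map V.subtype := by
      refine irr_sup h hM hinj i _ fun Q hQ => ?_
      intro z hz
      refine ⟨⟨z, hz.1⟩, ?_, rfl⟩
      exact Submodule.mem_iSup_of_mem (⟨Q, hQ⟩ : {Q : DV H // Over Q (Rat.inf k)}) hz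
    obtain ⟨w, hw, hwv⟩ := h1 v.2
    have h2 : w = v := Subtype.ext hwv
    rw [← h2]
    exact hw
  have hstep : ∀ (Q : {Q : DV H // Over Q (Rat.inf k)}) (a u : V), a ∉ U Q → u ∈ U Q →
      R a (a + u) := by
    intro Q a u ha hu
    obtain ⟨σ, h1, h2⟩ := exists_trans h hM hinj Q.2 a.2 ha hu
    exact ⟨σ, h1, h2⟩
  obtain ⟨σ, h1, h2⟩ := trans_all U hU hinf hsup R hR hstep
    (x := ⟨x, hx⟩) (y := ⟨y, hy⟩) (fun h0 => hx0 (congrArg Subtype.val h0))
    (fun h0 => hy0 (congrArg Subtype.val h0))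
  exact ⟨σ, h1, h2⟩

/-- all components at once -/
theorem CuG.trans_fin (h : DrS F j l k H (∏ i, M i)) (hM : ∀ i, PrG F l (M i))
    (hinj : Function.Injective M) {x y : Fin s → H} (hx : ∀ i, x i ∈ VN F j l (gX k H) (M i))
    (hx0 : ∀ i, x i ≠ 0) (hy : ∀ i, y i ∈ VN F j l (gX k H) (M i)) (hy0 : ∀ i, y i ≠ 0)
    (S : Finset (Fin s)) :
    ∃ σ : H ≃ₐ[RatFunc k] H, (∀ i ∈ S, σ (x i) = y i) ∧
      ∀ i ∉ S, ∀ z ∈ VN F j l (gX k H) (M i), σ z = z := by
  classical
  induction S using Finset.induction_on with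
  | empty => exact ⟨1, by simp, fun _ _ _ _ => rfl⟩
  | insert a S ha ih =>
    obtain ⟨σ, h1, h2⟩ := ih
    obtain ⟨τ, h3, h4⟩ := trans_one h hM hinj (hx a) (hx0 a) (hy a) (hy0 a)
    refine ⟨σ.trans τ, ?_, ?_⟩
    · intro i hi
      rw [Finset.mem_insert] at hi
      show τ (σ (x i)) = y i
      rcases hi with rfl | hi
      · rw [h2 i ha _ (hx i), h3]
      · have hne : i ≠ a := fun h0 => ha (h0 ▸ hi)
        rw [h1 i hi, h4 i hne _ (hy i)]
    · intro i hi z hz
      rw [Finset.mem_insert, not_or] at hi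
      show τ (σ z) = z
      rw [h2 i hi.2 z hz, h4 i hi.1 z hz]

/-- all line tuples are conjugate -/
theorem exists_actL (h : DrS F j l k H (∏ i, M i)) {L L' : Fin s → Submodule F H}
    (hL : LT j l (gX k H) M L) (hL' : LT j l (gX k H) M L') :
    ∃ σ : H ≃ₐ[RatFunc k] H, actL σ L L' := by
  choose x hx hx0 using fun i => CuG.exists_ne (hL.pr i).irr (hL.line i)
  choose y hy hy0 using fun i => CuG.exists_ne (hL.pr i).irr (hL'.line i)
  obtain ⟨σ, h1, -⟩ := CuG.trans_fin h hL.pr hL.inj (fun i => (hL.line i).le (hx i)) hx0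
    (fun i => (hL'.line i).le (hy i)) hy0 Finset.univ
  refine ⟨σ, ?_⟩
  have h2 : (fun i => (L i).map (sigF h.tower σ)) = L' := by
    funext i
    refine CuG.unique (hL.pr i).monic (hL.pr i).irr (CuD.mapS h.tower σ (hL.line i)) (hL'.line i)
      (x := y i) ⟨x i, hx i, h1 i (Finset.mem_univ i)⟩ (hy i) (hy0 i)
  rw [← h2]
  exact actL_map h.tower σ L

/-- the degree -/
theorem finrank_EL (h : DrS F j l k H (∏ i, M i)) {L : Fin s → Submodule F H}
    (hL : LT j l (gX k H) M L) :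
    Module.finrank (RatFunc k) (EL k L) = psiN (j + l) M :=
  CuD.finrank_EL' h hL fun _ hL' => exists_actL h hL hL'

/-- the image of a line tuple is a line tuple -/
theorem exists_img (h : DrS F j l k H (∏ i, M i)) (σ : H ≃ₐ[RatFunc k] H)
    {L : Fin s → Submodule F H} (hL : LT j l (gX k H) M L) :
    ∃ L' : Fin s → Submodule F H, LT j l (gX k H) M L' ∧ actL σ L L' :=
  CuD.exists_img' h.tower σ hL

end

end Pool.Agent.FF.Jl
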