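import Pool.Agent.FG.CuspDeg

/-! # T6: line tuples are conjugate if the elements of one component are (63) -/

set_option autoImplicit false
set_option linter.unusedSectionVars false

namespace Pool.Agent.FF.Jl

open Polynomial

section

variable {F : Type*} {j l : ℕ} {H : Type*} [Field F] [Finite F] [Field H] [Algebra F H]

/-- a line is generated by each nonzero element -/
theorem CuD.gen_line {g : H} {M : F[X]} (hM : M.Monic) (hi : Irreducible M)
    {L : Submodule F H} (hL : IsLine F j l g M L) {x y : H} (hx : x ∈ L) (hx0 : x ≠ 0)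
    (hy : y ∈ L) : ∃ p : F[X], aeval (phT F j l g) p x = y := by
  have hmem : ∀ p : F[X], aeval (phT F j l g) p x ∈ L := fun p => LnC.aeval_st hL.st p hx
  let f : (Fin M.natDegree → F) → L := fun c =>
    ⟨aeval (phT F j l g) ((degreeLTEquiv F M.natDegree).symm c : F[X]) x, hmem _⟩
  have hfin : Finite L := Nat.finite_of_card_ne_zero (by
    rw [hL.card]
    have : 0 < Nat.card F := Nat.card_pos
    positivity)
  have hinj : Function.Injective f := by
    intro c c' hcc
    have h1 : aeval (phT F j l g) ((degreeLTEquiv F M.natDegree).symm c : F[X]) x =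
        aeval (phT F j l g) ((degreeLTEquiv F M.natDegree).symm c' : F[X]) x :=
      congrArg Subtype.val hcc
    have hd : ((degreeLTEquiv F M.natDegree).symm c : F[X]) -
        ((degreeLTEquiv F M.natDegree).symm c' : F[X]) ∈ degreeLT F M.natDegree :=
      Submodule.sub_mem _ (Subtype.prop _) (Subtype.prop _)
    generalize hp : ((degreeLTEquiv F M.natDegree).symm c : F[X]) = p at h1 hd
    generalize hp' : ((degreeLTEquiv F M.natDegree).symm c' : F[X]) = p' at h1 hd
    have h0 : p - p' = 0 := by
      by_contra hne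
      have h2 : ¬ M ∣ p - p' := by
        intro hdvd
        have h3 := natDegree_le_of_dvd hdvd hne
        have h4 := (mem_degreeLT.1 hd)
        rw [degree_eq_natDegree hne] at h4
        have h5 : (p - p').natDegree < M.natDegree := by exact_mod_cast h4
        omega
      obtain ⟨a, b, hab⟩ := (hi.isCoprime_or_dvd (p - p')).resolve_right h2
      have hMx : aeval (phT F j l g) M x = 0 := hL.le hx
      have hpx : aeval (phT F j l g) (p - p') x = 0 := by
        rw [map_sub, LinearMap.sub_apply, h1, sub_self]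
      have h6 : aeval (phT F j l g) (a * M + b * (p - p')) x = x := by
        rw [hab, map_one]
        rfl
      rw [map_add, map_mul, map_mul, LinearMap.add_apply, Module.End.mul_apply,
        Module.End.mul_apply, hMx, hpx, map_zero, map_zero, add_zero] at h6
      exact hx0 h6.symm
    have h7 : (degreeLTEquiv F M.natDegree).symm c = (degreeLTEquiv F M.natDegree).symm c' :=
      Subtype.ext (by rw [hp, hp']; exact sub_eq_zero.1 h0)
    exact (degreeLTEquiv F M.natDegree).symm.injective h7
  have hb := hinj.bijective_of_nat_card_le (by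
    rw [hL.card, Nat.card_fun, Nat.card_eq_fintype_card (α := Fin M.natDegree), Fintype.card_fin])
  obtain ⟨c, hc⟩ := hb.2 ⟨y, hy⟩
  exact ⟨_, congrArg Subtype.val hc⟩

theorem CuD.exists_ne {g : H} {M : F[X]} (hi : Irreducible M) {L : Submodule F H}
    (hL : IsLine F j l g M L) : ∃ x ∈ L, x ≠ 0 := by
  by_contra hcon
  push Not at hcon
  have h1 : L = ⊥ := (Submodule.eq_bot_iff L).2 hcon
  have h2 := hL.card
  rw [h1] at h2
  have h3 : Nat.card (⊥ : Submodule F H) = 1 := Nat.card_unique
  have h4 : 1 < Nat.card F ^ M.natDegree :=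
    Nat.one_lt_pow hi.natDegree_pos.ne' Finite.one_lt_card
  omega

end

section

variable {F k H : Type} {j l : ℕ} [Field F] [Finite F] [Field k] [Finite k] [Field H]
  [Algebra F k] [Algebra F H] [Algebra k H] [Algebra (RatFunc k) H]
  [IsScalarTower k (RatFunc k) H]

variable {s : ℕ} {M : Fin s → Polynomial F}

/-- all line tuples are conjugate -/
theorem CuD.exists_actL' (h : DrS F j l k H (∏ i, M i))
    (htr : ∀ (i : Fin s) (x y : H), x ∈ VN F j l (gX k H) (M i) → x ≠ 0 →
      y ∈ VN F j l (gX k H) (M i) → y ≠ 0 →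
      ∃ σ : H ≃ₐ[RatFunc k] H, σ x = y ∧
        ∀ i' ≠ i, ∀ z ∈ VN F j l (gX k H) (M i'), σ z = z)
    {L L' : Fin s → Submodule F H}
    (hL : LT j l (gX k H) M L) (hL' : LT j l (gX k H) M L') :
    ∃ σ : H ≃ₐ[RatFunc k] H, actL σ L L' := by
  classical
  choose x hx hx0 using fun i => CuD.exists_ne (hL.pr i).irr (hL.line i)
  choose y hy hy0 using fun i => CuD.exists_ne (hL.pr i).irr (hL'.line i)
  choose τ hτ hτ' using fun i => htr i (x i) (y i) ((hL.line i).le (hx i)) (hx0 i)
    ((hL'.line i).le (hy i)) (hy0 i)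
  have key : ∀ J : Finset (Fin s), ∃ σ : H ≃ₐ[RatFunc k] H, (∀ i ∈ J, σ (x i) = y i) ∧
      ∀ i, i ∉ J → ∀ z ∈ VN F j l (gX k H) (M i), σ z = z := by
    intro J
    induction J using Finset.induction_on with
    | empty =>
      exact ⟨1, fun i hi => absurd hi (Finset.notMem_empty i), fun i _ z _ => rfl⟩
    | insert i J hi ih =>
      obtain ⟨σ, h1, h2⟩ := ih
      refine ⟨τ i * σ, fun i' hi' => ?_, fun i' hi' z hz => ?_⟩
      · rw [AlgEquiv.mul_apply]
        rcases Finset.mem_insert.1 hi' with rfl | hi'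
        · rw [h2 i' hi _ ((hL.line i').le (hx i')), hτ i']
        · have hne : i' ≠ i := fun h3 => hi (h3 ▸ hi')
          rw [h1 i' hi', hτ' i i' hne _ ((hL'.line i').le (hy i'))]
      · rw [AlgEquiv.mul_apply]
        have h3 : i' ≠ i := fun h4 => hi' (Finset.mem_insert.2 (Or.inl h4))
        have h4 : i' ∉ J := fun h5 => hi' (Finset.mem_insert.2 (Or.inr h5))
        rw [h2 i' h4 z hz, hτ' i i' h3 z hz]
  obtain ⟨σ, hσ, -⟩ := key Finset.univ
  refine ⟨σ, fun i z => ⟨fun hz => ?_, fun hz => ?_⟩⟩
  · obtain ⟨p, rfl⟩ := CuD.gen_line (hL.pr i).monic (hL.pr i).irr (hL.line i) (hx i) (hx0 i) hz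
    have h1 : σ (aeval (phT F j l (gX k H)) p (x i)) = aeval (phT F j l (gX k H)) p (σ (x i)) :=
      CuD.sig_phN h.tower σ p (x i)
    rw [h1, hσ i (Finset.mem_univ i)]
    exact LnC.aeval_st (hL'.line i).st p (hy i)
  · obtain ⟨p, hp⟩ := CuD.gen_line (hL.pr i).monic (hL.pr i).irr (hL'.line i) (hy i) (hy0 i) hz
    have h1 : σ (aeval (phT F j l (gX k H)) p (x i)) = aeval (phT F j l (gX k H)) p (σ (x i)) :=
      CuD.sig_phN h.tower σ p (x i)
    rw [← hσ i (Finset.mem_univ i), ← h1] at hp
    rw [← σ.injective hp]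
    exact LnC.aeval_st (hL.line i).st p (hx i)

end

end Pool.Agent.FF.Jl
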