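import Pool.Agent.FG.Ram
import Pool.Agent.FD.Lag

/-! # The different of a subextension from the inertia group of a Galois extension (88) -/

set_option autoImplicit false
set_option linter.unusedSectionVars false
set_option linter.unusedVariables false

namespace Pool.Agent.FF

section

variable {K E H : Type*} [Field K] [Field E] [Field H] [Algebra K E] [Algebra K H] [Algebra E H]
  [IsScalarTower K E H]

/-- the data of the inertia group: `W` and the jumps -/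
structure Jmp (Q : DV H) (W : Finset (H ≃ₐ[K] H)) (w : ℕ) (c1 B e : ℤ) : Prop where
  card : W.card ≤ w
  pos : 0 < w
  hc : 0 < c1
  hB : 0 ≤ B
  out : ∀ ρ : H ≃ₐ[K] H, Inert Q ρ → ρ ≠ 1 → ∀ ϖ : H, Q.ord ϖ = 1 → ρ ∉ W → Q.ord (ϖ - ρ ϖ) ≤ 1
  wild : ∀ ρ : H ≃ₐ[K] H, Inert Q ρ → ρ ≠ 1 → ∀ ϖ : H, Q.ord ϖ = 1 → ρ ∈ W →
    (w : ℤ) * (c1 * (Q.ord (ϖ - ρ ϖ) - 1)) ≤ B * e

open Classical in
/-- the fibre of an embedding in the inertia group -/
noncomputable def Jmp.fib [Fintype (H ≃ₐ[K] H)] (Q : DV H) (τ : E →ₐ[K] H) :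
    Finset (H ≃ₐ[K] H) :=
  Finset.univ.filter (fun ρ : H ≃ₐ[K] H => Inert Q ρ ∧ ∀ x : E, ρ (algebraMap E H x) = τ x)

theorem Jmp.mem_fib [Fintype (H ≃ₐ[K] H)] {Q : DV H} {τ : E →ₐ[K] H} {ρ : H ≃ₐ[K] H} :
    ρ ∈ Jmp.fib Q τ ↔ Inert Q ρ ∧ ∀ x : E, ρ (algebraMap E H x) = τ x := by
  classical
  rw [Jmp.fib, Finset.mem_filter]
  exact ⟨fun h => h.2, fun h => ⟨Finset.mem_univ _, h⟩⟩

theorem Jmp.inert_one (Q : DV H) : Inert Q (1 : H ≃ₐ[K] H) := by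
  intro a _
  show Q.G 1 (a - a)
  rw [sub_self]
  exact DV.G_zero _

/-- the sum of the jumps over a set of elements of the inertia group -/
theorem Jmp.sum_le {Q : DV H} {W : Finset (H ≃ₐ[K] H)} {w : ℕ} {c1 B e : ℤ}
    (hW : Jmp Q W w c1 B e) (he : 0 ≤ e) {ϖ : H} (hϖ : Q.ord ϖ = 1) (S : Finset (H ≃ₐ[K] H))
    (hS : ∀ ρ ∈ S, Inert Q ρ ∧ ρ ≠ 1) {n : ℤ} (hn : (S.card : ℤ) ≤ n) :
    c1 * ∑ ρ ∈ S, Q.ord (ϖ - ρ ϖ) ≤ c1 * n + B * e := by
  classical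
  have hw : (0 : ℤ) < w := by exact_mod_cast hW.pos
  have hBe : 0 ≤ B * e := mul_nonneg hW.hB he
  have h1 : ∀ ρ ∈ S, (w : ℤ) * (c1 * Q.ord (ϖ - ρ ϖ)) ≤
      (w : ℤ) * c1 + (if ρ ∈ W then B * e else 0) := by
    intro ρ hρ
    by_cases h : ρ ∈ W
    · rw [if_pos h]
      have h2 := hW.wild ρ (hS ρ hρ).1 (hS ρ hρ).2 ϖ hϖ h
      linarith
    · rw [if_neg h, add_zero]
      have h2 := hW.out ρ (hS ρ hρ).1 (hS ρ hρ).2 ϖ hϖ h
      refine mul_le_mul_of_nonneg_left ?_ hw.le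
      calc c1 * Q.ord (ϖ - ρ ϖ) ≤ c1 * 1 := mul_le_mul_of_nonneg_left h2 hW.hc.le
        _ = c1 := mul_one _
  have h2 : (w : ℤ) * (c1 * ∑ ρ ∈ S, Q.ord (ϖ - ρ ϖ)) ≤ (w : ℤ) * (c1 * n + B * e) := by
    rw [Finset.mul_sum, Finset.mul_sum]
    refine (Finset.sum_le_sum h1).trans ?_
    rw [Finset.sum_add_distrib, ← Finset.sum_filter, Finset.sum_const, Finset.sum_const,
      nsmul_eq_mul, nsmul_eq_mul]
    have h3 : ((S.filter (fun ρ => ρ ∈ W)).card : ℤ) ≤ w := by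
      have h4 : (S.filter (fun ρ => ρ ∈ W)).card ≤ W.card :=
        Finset.card_le_card fun ρ hρ => (Finset.mem_filter.1 hρ).2
      exact_mod_cast h4.trans hW.card
    have h4 : ((S.filter (fun ρ => ρ ∈ W)).card : ℤ) * (B * e) ≤ w * (B * e) :=
      mul_le_mul_of_nonneg_right h3 hBe
    have h5 : (S.card : ℤ) * (w * c1) ≤ n * (w * c1) :=
      mul_le_mul_of_nonneg_right hn (mul_nonneg hw.le hW.hc.le)
    linarith
  exact le_of_mul_le_mul_left h2 hw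

variable [FiniteDimensional K H] [IsGalois K H]

/-- the elements which separate the embeddings -/
theorem Jmp.exists_y (k : Type*) [Field k] [Finite k] [Algebra k K] [Algebra k E]
    [Algebra k H] [IsScalarTower k K H] [IsScalarTower k E H] [Fintype (H ≃ₐ[K] H)] {Q : DV H} {P : DV E} {v : DV K} (hQ : Over Q P) (hP : Over P v)
    (hv : v.resCard ≠ 0) {ϖ : H} (hϖ : Q.ord ϖ = 1) (τ : E →ₐ[K] H)
    (hτ : τ ≠ IsScalarTower.toAlgHom K E H) :
    ∃ y : E, IntO v y ∧ algebraMap E H y - τ y ≠ 0 ∧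
      Q.ord (algebraMap E H y - τ y) ≤ ∑ ρ ∈ Jmp.fib Q τ, Q.ord (ϖ - ρ ϖ) := by
  classical
  have : FiniteDimensional E H := FiniteDimensional.right K E H
  have : FiniteDimensional K E := FiniteDimensional.left K E H
  have : Algebra.IsSeparable K E := Algebra.isSeparable_tower_bot_of_isSeparable K E H
  by_cases hin : ∃ ρ : H ≃ₐ[K] H, Inert Q ρ ∧ ∀ x : E, ρ (algebraMap E H x) = τ x
  swap
  · obtain ⟨y, hy, hy0, hy1⟩ := exists_unit_of_not_inert (E := E) hQ hP hv τ hin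
    refine ⟨y, hy, hy0, ?_⟩
    have h1 : Jmp.fib Q τ = ∅ := by
      rw [Finset.eq_empty_iff_forall_notMem]
      intro ρ hρ
      exact hin ⟨ρ, Jmp.mem_fib.1 hρ⟩
    rw [h1, Finset.sum_empty, hy1]
  obtain ⟨π, hπ, hπI⟩ := exists_unif (K := K) (E := E) hP
  have h1 := Jl.ram_le k hQ hP hv hϖ hπ τ hin hτ
  refine ⟨π, hπI, h1.1, h1.2.trans (le_of_eq ?_)⟩
  unfold Jmp.fib
  refine Finset.sum_congr rfl fun ρ _ => ?_
  rw [← neg_sub, Q.ord_neg]

theorem Jmp.card_fib_id {Q : DV H} {P : DV E} {e' : ℕ} (hQ : OverE Q P e')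
    (hP : P.resCard ≠ 0) [Fintype (H ≃ₐ[K] H)] :
    e' ≤ (Jmp.fib Q (IsScalarTower.toAlgHom K E H)).card := by
  classical
  have : FiniteDimensional E H := FiniteDimensional.right K E H
  have : IsGalois E H := IsGalois.tower_top_of_isGalois K E H
  have h1 := card_inertia hQ hP
  let Φ : {s : H ≃ₐ[E] H // Inert Q s} → Jmp.fib Q (IsScalarTower.toAlgHom K E H) := fun s =>
    ⟨s.1.restrictScalars K, Jmp.mem_fib.2 ⟨fun a ha => s.2 a ha, fun x => s.1.commutes x⟩⟩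
  have hΦ : Function.Injective Φ := by
    intro s s' hss
    refine Subtype.ext (AlgEquiv.ext fun a => ?_)
    exact DFunLike.congr_fun (congrArg Subtype.val hss) a
  have h2 := Nat.card_le_card_of_injective Φ hΦ
  rw [h1] at h2
  simpa using h2

/-- the bound for the different -/
theorem Jmp.bound (k : Type*) [Field k] [Finite k] [Algebra k K] [Algebra k E] [Algebra k H]
    [IsScalarTower k K H] [IsScalarTower k E H]
    {Q : DV H} {P : DV E} {v : DV K} {e' eP : ℕ} (hQ : OverE Q P e') (hP : OverE P v eP)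
    (hv : v.resCard ≠ 0) {W : Finset (H ≃ₐ[K] H)} {w : ℕ} {c1 B : ℤ}
    (hW : Jmp Q W w c1 B (e' * eP)) {a : E}
    (ha : ∀ b : E, IntO v b → v.G 0 (Algebra.trace K E (a * b))) (ha0 : a ≠ 0) :
    c1 * (- P.ord a) ≤ c1 * ((eP : ℤ) - 1) + B * eP := by
  classical
  have : FiniteDimensional E H := FiniteDimensional.right K E H
  have : FiniteDimensional K E := FiniteDimensional.left K E H
  have : Algebra.IsSeparable K E := Algebra.isSeparable_tower_bot_of_isSeparable K E H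
  have hFH : Fintype (H ≃ₐ[K] H) := Fintype.ofFinite _
  have hFE : Fintype (E →ₐ[K] H) := Fintype.ofFinite _
  have hQP : Over Q P := hQ.over
  have hPv : Over P v := hP.over
  have hQv : Over Q v := hQP.trans' hPv
  obtain ⟨T, e, f, -, hT, hTf, -⟩ := sum_ef (E := E) v hv
  have hPres : P.resCard ≠ 0 := by
    rw [(hTf P ((hT P).2 hPv)).2.2]
    exact pow_ne_zero _ hv
  obtain ⟨ϖ, hϖ0, hϖ⟩ := Q.exists_one
  obtain ⟨ι, hι⟩ : ∃ ι : E →ₐ[K] H, ι = IsScalarTower.toAlgHom K E H := ⟨_, rfl⟩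
  have hex : ∀ τ : E →ₐ[K] H, ∃ y : E, IntO v y ∧ (τ ≠ ι → algebraMap E H y - τ y ≠ 0 ∧
      Q.ord (algebraMap E H y - τ y) ≤ ∑ ρ ∈ Jmp.fib Q τ, Q.ord (ϖ - ρ ϖ)) := by
    intro τ
    by_cases hτ : τ = ι
    · exact ⟨0, fun w _ => DV.G_zero _, fun h1 => absurd hτ h1⟩
    · obtain ⟨y, hy, hy1, hy2⟩ := Jmp.exists_y (E := E) k hQP hPv hv hϖ τ (by rwa [hι] at hτ)
      exact ⟨y, hy, fun _ => ⟨hy1, hy2⟩⟩
  choose y hy hy2 using hex
  have h1 := lag (E := E) hQv ha y hy (fun τ => ∑ ρ ∈ Jmp.fib Q τ, Q.ord (ϖ - ρ ϖ))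
    (fun τ hτ => by
      rw [← hι] at hτ
      exact hy2 τ hτ)
  rw [← hι] at h1
  have ha0' : algebraMap E H a ≠ 0 := by rwa [Ne, map_eq_zero]
  have h2 := h1.le ha0'
  rw [hQ.2] at h2
  -- the sum over the inertia group
  obtain ⟨res, hres⟩ : ∃ res : (H ≃ₐ[K] H) → (E →ₐ[K] H),
      ∀ ρ (x : E), res ρ x = ρ (algebraMap E H x) :=
    ⟨fun ρ => (ρ : H →ₐ[K] H).comp (IsScalarTower.toAlgHom K E H), fun ρ x => rfl⟩
  obtain ⟨I, hI⟩ : ∃ I : Finset (H ≃ₐ[K] H), I = Finset.univ.filter fun ρ => Inert Q ρ := ⟨_, rfl⟩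
  obtain ⟨S, hS⟩ : ∃ S : Finset (H ≃ₐ[K] H), S = I.filter fun ρ => res ρ ≠ ι := ⟨_, rfl⟩
  have hfib : ∀ τ ∈ Finset.univ.erase ι, Jmp.fib Q τ = S.filter fun ρ => res ρ = τ := by
    intro τ hτ
    ext ρ
    rw [Jmp.mem_fib, Finset.mem_filter, hS, Finset.mem_filter, hI, Finset.mem_filter]
    constructor
    · rintro ⟨h3, h4⟩
      have h5 : res ρ = τ := AlgHom.ext fun x => by rw [hres, h4]
      exact ⟨⟨⟨Finset.mem_univ _, h3⟩, by rw [h5]; exact Finset.ne_of_mem_erase hτ⟩, h5⟩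
    · rintro ⟨⟨⟨-, h3⟩, -⟩, h4⟩
      exact ⟨h3, fun x => by rw [← hres, h4]⟩
  have hsum : ∑ τ ∈ Finset.univ.erase ι, ∑ ρ ∈ Jmp.fib Q τ, Q.ord (ϖ - ρ ϖ) =
      ∑ ρ ∈ S, Q.ord (ϖ - ρ ϖ) := by
    rw [Finset.sum_congr rfl fun τ hτ => by rw [hfib τ hτ]]
    refine Finset.sum_fiberwise_of_maps_to (fun ρ hρ => ?_) _
    rw [hS, Finset.mem_filter] at hρ
    exact Finset.mem_erase.2 ⟨hρ.2, Finset.mem_univ _⟩
  rw [hsum] at h2
  have hcard : (S.card : ℤ) ≤ e' * ((eP : ℤ) - 1) := by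
    have hIc : I.card = e' * eP := by
      have h3 := card_inertia (IneAux.overE_trans hQ hP) hv
      rw [Nat.card_eq_fintype_card, Fintype.card_subtype] at h3
      rw [hI, ← h3]
    have h3 := Jmp.card_fib_id (K := K) hQ hPres
    rw [← hι] at h3
    have h4 : Jmp.fib Q ι = I.filter fun ρ => res ρ = ι := by
      ext ρ
      rw [Jmp.mem_fib, Finset.mem_filter, hI, Finset.mem_filter]
      constructor
      · rintro ⟨h5, h6⟩
        exact ⟨⟨Finset.mem_univ _, h5⟩, AlgHom.ext fun x => by rw [hres, h6]⟩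
      · rintro ⟨⟨-, h5⟩, h6⟩
        exact ⟨h5, fun x => by rw [← hres, h6]⟩
    rw [h4] at h3
    have h5 := Finset.card_filter_add_card_filter_not (s := I) (fun ρ => res ρ = ι)
    rw [hIc] at h5
    have h6 : S.card = (I.filter fun ρ => ¬ res ρ = ι).card := by rw [hS]
    have h7 : S.card + e' ≤ e' * eP := by omega
    have h8 : (S.card : ℤ) + e' ≤ e' * eP := by exact_mod_cast h7
    linarith
  have hSin : ∀ ρ ∈ S, Inert Q ρ ∧ ρ ≠ 1 := by
    intro ρ hρ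
    rw [hS, Finset.mem_filter, hI, Finset.mem_filter] at hρ
    refine ⟨hρ.1.2, ?_⟩
    rintro rfl
    refine hρ.2 (AlgHom.ext fun x => ?_)
    rw [hres, hι]
    rfl
  have hee : (0 : ℤ) ≤ (e' : ℤ) * eP := by positivity
  have h3 := hW.sum_le hee hϖ S hSin hcard
  have he1 : (0 : ℤ) < e' := by exact_mod_cast hQ.1
  have h4 : (e' : ℤ) * (c1 * (- P.ord a)) ≤ e' * (c1 * ((eP : ℤ) - 1) + B * eP) := by
    have h5 : c1 * (- (e' * P.ord a)) ≤ c1 * ∑ ρ ∈ S, Q.ord (ϖ - ρ ϖ) :=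
      mul_le_mul_of_nonneg_left (by linarith) hW.hc.le
    linarith
  exact le_of_mul_le_mul_left h4 he1

/-- one embedding -/
theorem Jmp.one (k : Type*) [Field k] [Finite k] [Algebra k K] [Algebra k E] [Algebra k H]
    [IsScalarTower k K H] [IsScalarTower k E H]
    {Q : DV H} {P : DV E} {v : DV K} {e' eP : ℕ} (hQ : OverE Q P e') (hP : OverE P v eP)
    (hv : v.resCard ≠ 0) {W : Finset (H ≃ₐ[K] H)} {w : ℕ} {c1 B : ℤ}
    (hW : Jmp Q W w c1 B (e' * eP)) (τ : E →ₐ[K] H) (hτ : τ ≠ IsScalarTower.toAlgHom K E H) :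
    ∃ y : E, IntO v y ∧ algebraMap E H y - τ y ≠ 0 ∧
      c1 * Q.ord (algebraMap E H y - τ y) ≤ (c1 + B) * (e' * eP) := by
  classical
  have : FiniteDimensional E H := FiniteDimensional.right K E H
  have : FiniteDimensional K E := FiniteDimensional.left K E H
  have hFH : Fintype (H ≃ₐ[K] H) := Fintype.ofFinite _
  have hQP : Over Q P := hQ.over
  have hPv : Over P v := hP.over
  obtain ⟨ϖ, hϖ0, hϖ⟩ := Q.exists_one
  obtain ⟨y, hy, hy1, hy2⟩ := Jmp.exists_y (E := E) k hQP hPv hv hϖ τ hτ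
  refine ⟨y, hy, hy1, ?_⟩
  have hcard : ((Jmp.fib Q τ).card : ℤ) ≤ e' * eP := by
    have h3 := card_inertia (IneAux.overE_trans hQ hP) hv
    rw [Nat.card_eq_fintype_card, Fintype.card_subtype] at h3
    have h4 : (Jmp.fib Q τ).card ≤ (Finset.univ.filter fun ρ : H ≃ₐ[K] H => Inert Q ρ).card :=
      Finset.card_le_card fun ρ hρ => Finset.mem_filter.2 ⟨Finset.mem_univ _, (Jmp.mem_fib.1 hρ).1⟩
    rw [h3] at h4
    exact_mod_cast h4
  have hSin : ∀ ρ ∈ Jmp.fib Q τ, Inert Q ρ ∧ ρ ≠ 1 := by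
    intro ρ hρ
    rw [Jmp.mem_fib] at hρ
    refine ⟨hρ.1, ?_⟩
    rintro rfl
    refine hτ (AlgHom.ext fun x => ?_)
    rw [← hρ.2]
    rfl
  have hee : (0 : ℤ) ≤ (e' : ℤ) * eP := by positivity
  have h3 := hW.sum_le hee hϖ _ hSin hcard
  have h5 : c1 * Q.ord (algebraMap E H y - τ y) ≤ c1 * ∑ ρ ∈ Jmp.fib Q τ, Q.ord (ϖ - ρ ϖ) :=
    mul_le_mul_of_nonneg_left hy2 hW.hc.le
  linarith

end

end Pool.Agent.FF
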