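import Pool.Agent.FG.FV
import Pool.Agent.FF.RatAd

/-! # The wild inertia group at infinity, as it is used for the genus (42; words of 88) -/

set_option autoImplicit false

namespace Pool.Agent.FF.Jl

section

variable {F k H : Type} {j l : ℕ} [Field F] [Finite F] [Field k] [Finite k] [Field H]
  [Algebra F k] [Algebra F H] [Algebra k H] [Algebra (RatFunc k) H]
  [IsScalarTower k (RatFunc k) H]

omit [Algebra F H] [Finite F] [Field F] [Algebra k H] [Algebra (RatFunc k) H]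
  [IsScalarTower k (RatFunc k) H] [Algebra F k] [Field k] [Finite k] in
theorem overSelf (Q : DV H) : Over (K := H) Q Q :=
  ⟨1, one_pos, fun a _ => by rw [one_mul]; rfl⟩

theorem wild {N : Polynomial F} (h : DrS F j l k H N) (hN : OrdG l N) {Q : DV H}
    (hQ : Over Q (Rat.inf k)) : ∃ W : Finset (H ≃ₐ[RatFunc k] H),
      W.card ≤ Nat.card F ^ (j * l * N.natDegree) ∧
      ∀ ρ : H ≃ₐ[RatFunc k] H, Inert Q ρ → ρ ≠ 1 → ∀ ϖ : H, Q.ord ϖ = 1 →
        (ρ ∉ W → Q.ord (ϖ - ρ ϖ) ≤ 1) ∧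
        (ρ ∈ W → (Nat.card F : ℤ) ^ (j * l * N.natDegree) *
          (((Nat.card F : ℤ) ^ j - 1) * ((Nat.card F : ℤ) ^ l - 1) * (Q.ord (ϖ - ρ ϖ) - 1)) ≤
            ((Nat.card F : ℤ) ^ (j + l) - 1) * (- Q.ord (gX k H))) := by
  classical
  have hfd := h.fin
  have hgal := h.gal
  have hinf : (Rat.inf k).resCard ≠ 0 := by
    rw [Rat.resCard_inf]
    exact Nat.card_pos.ne'
  have hFT : Fintype (H ≃ₐ[RatFunc k] H) := Fintype.ofFinite _
  refine ⟨Finset.univ.filter fun ρ => ρ ∈ wildG (RatFunc k) Q, ?_, ?_⟩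
  · rw [← card_wild h hN hQ]
    exact (Nat.subtype_card _ (by simp)).ge
  · intro ρ hρ hne ϖ hϖ
    have hsub : Q.ord (ϖ - ρ ϖ) = Q.ord (ρ ϖ - ϖ) := by
      rw [← neg_sub, Q.ord_neg]
    refine ⟨fun hw => ?_, fun hw => ?_⟩
    · rw [Finset.mem_filter, not_and] at hw
      rw [hsub]
      exact (tame_le hQ hinf hϖ hρ (hw (Finset.mem_univ _))).2
    · have hw' : ρ ∈ wildG (RatFunc k) Q := (Finset.mem_filter.1 hw).2
      have hD : 0 < N.natDegree := by
        by_contra hcon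
        have h0 : N.natDegree = 0 := by omega
        have h1 := card_wild h hN hQ
        rw [h0, mul_zero, pow_zero] at h1
        have h2 := Nat.card_eq_one_iff_unique.1 h1
        have h3 := h2.1
        exact hne (congrArg Subtype.val (Subsingleton.elim
          (⟨ρ, hw'⟩ : wildG (RatFunc k) Q) 1))
      obtain ⟨z, hz0, -, hz1, hz2⟩ := exists_z h hN hD hQ
      obtain ⟨h1, h2⟩ := hz2 ρ hw' hne
      have hQres : Q.resCard ≠ 0 := by
        obtain ⟨T, e, f, -, hT, hTf, -⟩ := sum_ef (E := H) (Rat.inf k) hinf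
        rw [(hTf Q ((hT Q).2 hQ)).2.2]
        exact pow_ne_zero _ hinf
      have h3 := (hρ.pi_min_k (E := H) k (overSelf Q) hQres (π := ϖ) hϖ (z := z)
        (by
          intro h4
          exact h1 (sub_eq_zero.2 h4))).2
      have h4 : ρ z / z - 1 = (ρ z - z) / z := by
        field_simp
      change Q.ord (ϖ - ρ ϖ) ≤ Q.ord ϖ + Q.ord (ρ z / z - 1) at h3
      rw [h4, Q.ord_div h1 hz0, hϖ] at h3
      have hr : (1 : ℤ) ≤ (Nat.card F : ℤ) := by exact_mod_cast Nat.card_pos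
      have hrj : (0 : ℤ) ≤ (Nat.card F : ℤ) ^ j - 1 := by
        have := one_le_pow₀ (n := j) hr
        omega
      have hrl : (0 : ℤ) ≤ (Nat.card F : ℤ) ^ l - 1 := by
        have := one_le_pow₀ (n := l) hr
        omega
      rw [← hz1]
      refine mul_le_mul_of_nonneg_left ?_ (by positivity)
      calc ((Nat.card F : ℤ) ^ j - 1) * ((Nat.card F : ℤ) ^ l - 1) * (Q.ord (ϖ - ρ ϖ) - 1)
          ≤ ((Nat.card F : ℤ) ^ j - 1) * ((Nat.card F : ℤ) ^ l - 1) *
            (Q.ord (ρ z - z) - Q.ord z) :=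
            mul_le_mul_of_nonneg_left (by linarith) (mul_nonneg hrj hrl)
        _ = ((Nat.card F : ℤ) ^ l - 1) * (((Nat.card F : ℤ) ^ j - 1) * Q.ord (ρ z - z) -
            ((Nat.card F : ℤ) ^ j - 1) * Q.ord z) := by ring
        _ = _ := by rw [h2]

end

end Pool.Agent.FF.Jl
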