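import Pool.Agent.FG.Zero
import Pool.Agent.FG.Cusp
import Pool.Agent.FG.WildS
import Pool.Agent.FG.IneSum
import Pool.Agent.FD.RHB
import Pool.Agent.FD.DGen
import Pool.Agent.FF.RatAd
import Pool.Agent.FF.Bridge

/-! # Genus and points of the field of a line tuple (88) -/

set_option autoImplicit false
set_option linter.unusedSectionVars false
set_option linter.unusedVariables false

namespace Pool.Agent.FF.Jl

section

variable {F k H : Type} {j l : ℕ} [Field F] [Finite F] [Field k] [Finite k] [Field H]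
  [Algebra F k] [Algebra F H] [Algebra k H] [Algebra (RatFunc k) H]
  [IsScalarTower k (RatFunc k) H]

/-- the numbers `r ^ j - 1`, `r ^ l - 1` -/
theorem DGn.nums {r : ℤ} (hr : 2 ≤ r) {j l : ℕ} (hj : 0 < j) (hl : 0 < l) :
    2 ≤ r ^ j ∧ 2 ≤ r ^ l ∧ 0 < (r ^ j - 1) * (r ^ l - 1) ∧ 0 ≤ r ^ (j + l) - 1 ∧
      r ^ (j + l) - 1 ≤ 3 * ((r ^ j - 1) * (r ^ l - 1)) ∧
      (r ^ (j + l) - 1) - (r ^ j - 1) * (r ^ l - 1) = r ^ j + r ^ l - 2 := by
  have h1 : r ≤ r ^ j := le_self_pow₀ (by linarith) hj.ne'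
  have h2 : r ≤ r ^ l := le_self_pow₀ (by linarith) hl.ne'
  have h3 : 2 ≤ r ^ j := hr.trans h1
  have h4 : 2 ≤ r ^ l := hr.trans h2
  refine ⟨h3, h4, mul_pos (by linarith) (by linarith), ?_, ?_, ?_⟩
  · rw [pow_add]
    nlinarith
  · rw [pow_add]
    nlinarith
  · rw [pow_add]
    ring

/-- the jumps at infinity -/
theorem DGn.jmp {N : Polynomial F} (h : DrS F j l k H N) (hN : OrdG l N) {Q : DV H}
    (hQ : Over Q (Rat.inf k)) {e : ℤ} (he : - Q.ord (gX k H) = e) :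
    ∃ W : Finset (H ≃ₐ[RatFunc k] H), Jmp Q W (Nat.card F ^ (j * l * N.natDegree))
      (((Nat.card F : ℤ) ^ j - 1) * ((Nat.card F : ℤ) ^ l - 1))
      ((Nat.card F : ℤ) ^ (j + l) - 1) e := by
  have hr : (2 : ℤ) ≤ Nat.card F := by
    have : 1 < Nat.card F := Finite.one_lt_card
    exact_mod_cast this
  obtain ⟨-, -, h3, h4, -, -⟩ := DGn.nums hr h.pos h.pos'
  obtain ⟨W, hW, hall⟩ := wild h hN hQ
  refine ⟨W, hW, pow_pos Nat.card_pos _, h3, h4, fun ρ hρ hne ϖ hϖ hw => ?_,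
    fun ρ hρ hne ϖ hϖ hw => ?_⟩
  · exact (hall ρ hρ hne ϖ hϖ).1 hw
  · have h5 := (hall ρ hρ hne ϖ hϖ).2 hw
    rw [he] at h5
    push_cast
    exact h5

open Classical in
/-- the sum over the inertia group at infinity -/
theorem sum_inert {N : Polynomial F} (h : DrS F j l k H N) (hN : OrdG l N)
    [Fintype (H ≃ₐ[RatFunc k] H)] {Q : DV H} (hQ : Over Q (Rat.inf k)) {π : H}
    (hπ : Q.ord π = 1) :
    (((Nat.card F : ℤ) ^ j - 1) * ((Nat.card F : ℤ) ^ l - 1)) *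
      ∑ ρ ∈ Finset.univ.filter (fun ρ : H ≃ₐ[RatFunc k] H => Inert Q ρ ∧ ρ ≠ 1),
        Q.ord (ρ π - π) ≤
    (((Nat.card F : ℤ) ^ j - 1) * ((Nat.card F : ℤ) ^ l - 1) +
      ((Nat.card F : ℤ) ^ (j + l) - 1)) * (- Q.ord (gX k H)) := by
  have hfd := h.fin
  have hgal := h.gal
  have hinf : (Rat.inf k).resCard ≠ 0 := by
    rw [Rat.resCard_inf]
    exact Nat.card_pos.ne'
  obtain ⟨e, he⟩ := hQ.overE
  have hordg : - Q.ord (gX k H) = e := by
    rw [he.2, Rat.inf_X]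
    ring
  obtain ⟨W, hW⟩ := DGn.jmp h hN hQ hordg
  have hc : ((Finset.univ.filter (fun ρ : H ≃ₐ[RatFunc k] H => Inert Q ρ ∧ ρ ≠ 1)).card : ℤ)
      ≤ e := by
    have h3 := card_inertia he hinf
    rw [Nat.card_eq_fintype_card, Fintype.card_subtype] at h3
    have h4 : (Finset.univ.filter (fun ρ : H ≃ₐ[RatFunc k] H => Inert Q ρ ∧ ρ ≠ 1)).card ≤
        (Finset.univ.filter fun ρ : H ≃ₐ[RatFunc k] H => Inert Q ρ).card :=
      Finset.card_le_card fun ρ hρ => by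
        rw [Finset.mem_filter] at hρ ⊢
        exact ⟨hρ.1, hρ.2.1⟩
    rw [h3] at h4
    exact_mod_cast h4
  have h1 := hW.sum_le (by positivity) hπ _ (fun ρ hρ => (Finset.mem_filter.1 hρ).2) hc
  rw [hordg]
  have h2 : ∑ ρ ∈ Finset.univ.filter (fun ρ : H ≃ₐ[RatFunc k] H => Inert Q ρ ∧ ρ ≠ 1),
      Q.ord (ρ π - π) = ∑ ρ ∈ Finset.univ.filter (fun ρ : H ≃ₐ[RatFunc k] H =>
        Inert Q ρ ∧ ρ ≠ 1), Q.ord (π - ρ π) :=
    Finset.sum_congr rfl fun ρ _ => by rw [← neg_sub, Q.ord_neg]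
  rw [h2]
  linarith

variable {s : ℕ} {M : Fin s → Polynomial F}

theorem DGn.stL_of_fix (h : DrS F j l k H (∏ i, M i)) {L : Fin s → Submodule F H}
    {σ : H ≃ₐ[RatFunc k] H} (hσ : ∀ x : EL k L, σ x = x) : σ ∈ stL k L := by
  have hfd := h.fin
  rw [← IntermediateField.fixingSubgroup_fixedField (stL k L)]
  intro x
  exact hσ x

theorem DGn.exists_zero (h : DrS F j l k H (∏ i, M i)) {L : Fin s → Submodule F H}
    (hL : LT j l (gX k H) M L) : ∃ R : DV (EL k L), Over R (Rat.pt (0 : k)) ∧ R.Rat k := by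
  have hfd := h.fin
  obtain ⟨R, hR⟩ := exists_above (L := EL k L) (Rat.pt (0 : k))
  exact ⟨R, hR, (zero_rat h hL hR).2⟩

theorem DGn.tower (L : Fin s → Submodule F H) : IsScalarTower k (EL k L) H :=
  IsScalarTower.of_algebraMap_eq fun c => by
    rw [IsScalarTower.algebraMap_apply k (RatFunc k) H,
      IsScalarTower.algebraMap_apply k (RatFunc k) (EL k L)]
    rfl

/-- the order of `g` -/
theorem DGn.ord_g {L : Fin s → Submodule F H} {P : DV (EL k L)} {eP : ℕ}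
    (hP : OverE P (Rat.inf k) eP) {Q : DV H} {e' : ℕ} (hQ : OverE Q P e') :
    - Q.ord (gX k H) = (e' : ℤ) * eP := by
  have h4 : Q.ord (algebraMap (EL k L) H (gX k (EL k L))) = e' * P.ord (gX k (EL k L)) := hQ.2 _
  have h5 : P.ord (gX k (EL k L)) = eP * (Rat.inf k).ord RatFunc.X := hP.2 _
  have h6 : Q.ord (gX k H) = e' * P.ord (gX k (EL k L)) := h4
  rw [h6, h5, Rat.inf_X]
  ring

/-- every `σ` outside the stabiliser moves some integral element by at most `4 e` -/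
theorem dgen_inf (h : DrS F j l k H (∏ i, M i)) {L : Fin s → Submodule F H}
    (hL : LT j l (gX k H) M L) {Q : DV H} (hQ : Over Q (Rat.inf k)) {σ : H ≃ₐ[RatFunc k] H}
    (hσ : σ ∉ stL k L) : ∃ y : EL k L, IntO (Rat.inf k) y ∧ (y : H) - σ y ≠ 0 ∧
      Q.ord ((y : H) - σ y) ≤ 4 * (- Q.ord (gX k H)) := by
  classical
  have hfd := h.fin
  have hgal := h.gal
  have hEH : FiniteDimensional (EL k L) H := FiniteDimensional.right (RatFunc k) (EL k L) H
  have hinf : (Rat.inf k).resCard ≠ 0 := by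
    rw [Rat.resCard_inf]
    exact Nat.card_pos.ne'
  have hr : (2 : ℤ) ≤ Nat.card F := by
    have : 1 < Nat.card F := Finite.one_lt_card
    exact_mod_cast this
  obtain ⟨-, -, h3, h4, h5, -⟩ := DGn.nums hr h.pos h.pos'
  obtain ⟨P, hP⟩ := exists_below (K := EL k L) Q
  have hPK : Over P (Rat.inf k) := by
    obtain ⟨v', hv'⟩ := exists_below (K := RatFunc k) P
    have h1 := (hP.trans' hv').unique hQ
    rwa [h1] at hv'
  obtain ⟨e', he'⟩ := hP.overE
  obtain ⟨eP, heP⟩ := hPK.overE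
  have hordg := DGn.ord_g heP he'
  obtain ⟨W, hW⟩ := DGn.jmp h (ordG_prod hL.pr hL.inj) hQ hordg
  obtain ⟨τ, hτ⟩ : ∃ τ : EL k L →ₐ[RatFunc k] H, ∀ x, τ x = σ (algebraMap (EL k L) H x) :=
    ⟨(σ : H →ₐ[RatFunc k] H).comp (IsScalarTower.toAlgHom (RatFunc k) (EL k L) H), fun x => rfl⟩
  have hne : τ ≠ IsScalarTower.toAlgHom (RatFunc k) (EL k L) H := by
    intro h1
    refine hσ (DGn.stL_of_fix h fun x => ?_)
    have h2 := hτ x
    rw [h1] at h2
    exact h2.symm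
  have htow : IsScalarTower k (EL k L) H := DGn.tower L
  obtain ⟨y, hy, hy0, h1⟩ := Jmp.one (E := EL k L) k he' heP hinf hW τ hne
  have hyy : algebraMap (EL k L) H y - τ y = (y : H) - σ y := by
    rw [hτ]
    rfl
  rw [hyy] at hy0 h1
  refine ⟨y, hy, hy0, ?_⟩
  rw [hordg]
  have h6 : (((Nat.card F : ℤ) ^ j - 1) * ((Nat.card F : ℤ) ^ l - 1)) * Q.ord ((y : H) - σ y) ≤
      (((Nat.card F : ℤ) ^ j - 1) * ((Nat.card F : ℤ) ^ l - 1)) * (4 * ((e' : ℤ) * eP)) := by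
    refine h1.trans ?_
    have h7 : (0 : ℤ) ≤ (e' : ℤ) * eP := by positivity
    have h8 := mul_le_mul_of_nonneg_right h5 h7
    linarith
  exact le_of_mul_le_mul_left h6 h3

/-- the places over `g = 0` -/
theorem DGn.pts (h : DrS F j l k H (∏ i, M i)) {L : Fin s → Submodule F H}
    (hL : LT j l (gX k H) M L) :
    ∃ T : Finset (DV (EL k L)), T.card = psiN (j + l) M ∧ ∀ P ∈ T, P.Rat k := by
  classical
  have hfd := h.fin
  have hgal := h.gal
  have hpt : (Rat.pt (0 : k)).resCard ≠ 0 := by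
    rw [Rat.resCard_pt]
    exact Nat.card_pos.ne'
  obtain ⟨T, e, f, -, hT, hTf, hsum⟩ := sum_ef (E := EL k L) (Rat.pt (0 : k)) hpt
  refine ⟨T, ?_, fun P hP => (zero_rat h hL ((hT P).1 hP)).2⟩
  rw [finrank_EL h hL] at hsum
  rw [← hsum, Finset.card_eq_sum_ones]
  refine Finset.sum_congr rfl fun w hw => ?_
  obtain ⟨h1, h2⟩ := zero_rat h hL ((hT w).1 hw)
  obtain ⟨h3, h4, h5⟩ := hTf w hw
  have h6 : e w = 1 := by
    obtain ⟨t, _, ht1⟩ := (Rat.pt (0 : k)).exists_one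
    have h7 := h1.2 t
    rw [h3.2 t, ht1] at h7
    push_cast at h7
    omega
  have h7 : f w = 1 := by
    have h8 : w.resCard = Nat.card k := by
      rw [← DV.card_Res]
      exact h2.card_Res
    rw [h8, Rat.resCard_pt] at h5
    have h9 : Nat.card k ^ 1 = Nat.card k ^ f w := by rw [pow_one]; exact h5
    exact (Nat.pow_right_injective (Finite.one_lt_card (α := k)) h9).symm
  rw [h6, h7]

/-- `2 G - 2 ≤ (1 / (r ^ j - 1) + 1 / (r ^ l - 1)) ψ` -/
theorem dgen (h : DrS F j l k H (∏ i, M i)) {L : Fin s → Submodule F H}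
    (hL : LT j l (gX k H) M L) : IsFF k (EL k L) ∧ ∃ G : ℕ, Cv k (EL k L) G ∧
      2 * ((Nat.card F ^ j - 1) * (Nat.card F ^ l - 1)) * G ≤
        (Nat.card F ^ j + Nat.card F ^ l - 2) * psiN (j + l) M +
          2 * ((Nat.card F ^ j - 1) * (Nat.card F ^ l - 1)) ∧
      ∃ T : Finset (DV (EL k L)), T.card = psiN (j + l) M ∧ ∀ P ∈ T, P.Rat k := by
  classical
  have hfd := h.fin
  have hgal := h.gal
  have hEH : FiniteDimensional (EL k L) H := FiniteDimensional.right (RatFunc k) (EL k L) H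
  obtain ⟨R, -, hR⟩ := DGn.exists_zero h hL
  obtain ⟨hff, G, C⟩ := exists_cv (k := k) (E := EL k L) hR
  refine ⟨hff, G, C, ?_, DGn.pts h hL⟩
  obtain ⟨r, hrr⟩ : ∃ r : ℤ, r = (Nat.card F : ℤ) := ⟨_, rfl⟩
  have hr1 : 1 < Nat.card F := Finite.one_lt_card
  have hr : 2 ≤ r := by
    rw [hrr]
    exact_mod_cast hr1
  obtain ⟨hrj, hrl, hc1p', hBp', -, hBc'⟩ := DGn.nums hr h.pos h.pos'
  have hinf : (Rat.inf k).resCard ≠ 0 := by
    rw [Rat.resCard_inf]
    exact Nat.card_pos.ne'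
  obtain ⟨c1, hc1⟩ : ∃ c1, c1 = (r ^ j - 1) * (r ^ l - 1) := ⟨_, rfl⟩
  obtain ⟨B, hB⟩ : ∃ B, B = r ^ (j + l) - 1 := ⟨_, rfl⟩
  have hc1p : 0 < c1 := by rw [hc1]; exact hc1p'
  have hBp : 0 ≤ B := by rw [hB]; exact hBp'
  have hBc : B - c1 = r ^ j + r ^ l - 2 := by rw [hB, hc1]; exact hBc'
  obtain ⟨S, e, f, hSne, hS, hSf, hsum⟩ := sum_ef (E := EL k L) (Rat.inf k) hinf
  obtain ⟨ψ, hψ⟩ : ∃ ψ : ℕ, ψ = psiN (j + l) M := ⟨_, rfl⟩
  have hfr : Module.finrank (RatFunc k) (EL k L) = psiN (j + l) M := finrank_EL h hL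
  rw [hfr, ← hψ] at hsum
  let D : DV (EL k L) →₀ ℤ :=
    Finsupp.onFinset S (fun P => if P ∈ S then ((c1 + B) * (e P : ℤ)) / c1 else 0)
    (fun P hP => by
      by_contra hcon
      exact hP (if_neg hcon))
  have hDS : ∀ P ∈ S, D P = ((c1 + B) * (e P : ℤ)) / c1 := fun P hP => if_pos hP
  have hDn : ∀ P, P ∉ S → D P = 0 := fun P hP => if_neg hP
  have hdeg : c1 * RRD.degZ k D ≤ (c1 + B) * (ψ : ℤ) := by
    rw [RRD.degZ, Finsupp.onFinset_sum _ (fun P => by ring), Finset.mul_sum]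
    have h1 : ∀ P ∈ S, c1 * ((if P ∈ S then ((c1 + B) * (e P : ℤ)) / c1 else 0) *
        (RRD.deg k P : ℤ)) ≤ (c1 + B) * ((e P * f P : ℕ) : ℤ) := by
      intro P hP
      rw [if_pos hP]
      have h2 : RRD.deg k P = f P := by
        have h3 := (hSf P hP).2.2
        rw [Rat.resCard_inf] at h3
        show Nat.log (Nat.card k) (Nat.card P.Res) = f P
        rw [DV.card_Res, h3, Nat.log_pow (Finite.one_lt_card (α := k))]
      rw [h2]
      have h3 : c1 * (((c1 + B) * (e P : ℤ)) / c1) ≤ (c1 + B) * (e P : ℤ) :=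
        Int.mul_ediv_self_le hc1p.ne'
      have h4 := mul_le_mul_of_nonneg_right h3 (by positivity : (0 : ℤ) ≤ (f P : ℤ))
      push_cast
      calc c1 * (((c1 + B) * (e P : ℤ)) / c1 * (f P : ℤ))
          = c1 * (((c1 + B) * (e P : ℤ)) / c1) * (f P : ℤ) := by ring
        _ ≤ (c1 + B) * (e P : ℤ) * (f P : ℤ) := h4
        _ = (c1 + B) * ((e P : ℤ) * f P) := by ring
    refine (Finset.sum_le_sum h1).trans ?_
    rw [← Finset.mul_sum, ← Nat.cast_sum, hsum]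
  have hmain := rhb (k := k) (E := EL k L) C hR D ?_
  · rw [hfr, ← hψ] at hmain
    rw [← hψ]
    have h1 : c1 * (2 * (G : ℤ) + 2 * (ψ : ℤ)) ≤ c1 * (RRD.degZ k D + 2) :=
      mul_le_mul_of_nonneg_left hmain hc1p.le
    have h4 : 1 ≤ Nat.card F ^ j := Nat.one_le_pow _ _ (by omega)
    have h4' : 1 ≤ Nat.card F ^ l := Nat.one_le_pow _ _ (by omega)
    have h3 : ((2 * ((Nat.card F ^ j - 1) * (Nat.card F ^ l - 1)) * G : ℕ) : ℤ) =
        2 * c1 * G := by
      push_cast [Nat.cast_sub h4, Nat.cast_sub h4']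
      rw [hc1, hrr]
    have h5 : (((Nat.card F ^ j + Nat.card F ^ l - 2) * ψ +
        2 * ((Nat.card F ^ j - 1) * (Nat.card F ^ l - 1)) : ℕ) : ℤ) = (B - c1) * ψ + 2 * c1 := by
      have h6 : 2 ≤ Nat.card F ^ j + Nat.card F ^ l := by omega
      push_cast [Nat.cast_sub h4, Nat.cast_sub h4', Nat.cast_sub h6]
      rw [hBc, hc1, hrr]
    have h6 : 2 * c1 * (G : ℤ) ≤ (B - c1) * ψ + 2 * c1 := by linarith
    rw [← h3, ← h5] at h6
    exact_mod_cast h6
  · intro v a ha P hP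
    obtain ⟨Q, hQ⟩ := exists_aboveH (K := RatFunc k) (H := H) P
    by_cases ha0 : a = 0
    · rw [ha0]
      exact DV.G_zero _
    by_cases hv : v = Rat.inf k
    · rw [hv] at ha hP
      have hPS : P ∈ S := (hS P).2 hP
      rw [hDS P hPS]
      obtain ⟨e', he'⟩ := hQ.overE
      obtain ⟨W, hW⟩ := DGn.jmp h (ordG_prod hL.pr hL.inj) (hQ.trans' hP)
        (DGn.ord_g (hSf P hPS).1 he')
      have htow : IsScalarTower k (EL k L) H := DGn.tower L
      have h1 := Jmp.bound (E := EL k L) k he' (hSf P hPS).1 hinf hW ha ha0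
      rw [← hrr, ← hc1, ← hB] at h1
      refine DV.G_of_le ?_
      have h2 : - P.ord a ≤ ((c1 + B) * (e P : ℤ)) / c1 := by
        rw [Int.le_ediv_iff_mul_le hc1p]
        linarith
      linarith
    · have hPS : P ∉ S := fun h1 => hv (hP.unique ((hS P).1 h1))
      rw [hDn P hPS, neg_zero]
      have hQv : Over Q v := hQ.trans' hP
      exact (hQ.G_zero_iff a).1 (unram_trace (E := EL k L) hQv
        (fun σ hσ => drS_unit h hQv hv σ hσ) ha)

end

end Pool.Agent.FF.Jl
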