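import Pool.Agent.FG.HOne
import Pool.Agent.FE.DrinA

/-! # The curves over the field with `r ^ (j + l)` elements (93) -/

set_option autoImplicit false

namespace Pool.Agent.FF.Jl

section

variable {F k H : Type} {j l : ℕ} [Field F] [Finite F] [Field k] [Finite k] [Field H]
  [Algebra F k] [Algebra F H] [Algebra k H] [Algebra (RatFunc k) H]
  [IsScalarTower k (RatFunc k) H]

variable {s : ℕ} {M : Fin s → Polynomial F}

/-- a line tuple -/
theorem exists_LT (h : DrS F j l k H (∏ i, M i)) (hM : ∀ i, PrG F l (M i))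
    (hinj : Function.Injective M) :
    ∃ L : Fin s → Submodule F H, LT j l (gX k H) M L := by
  have hfull : ∀ i, Nat.card (VN F j l (gX k H) (M i)) =
      Nat.card F ^ ((j + l) * (M i).natDegree) :=
    fun i => card_VN_dvd h.pos' (gX k H) h.monic (hM i).monic
      (Finset.dvd_prod_of_mem M (Finset.mem_univ i)) h.cardV
  have hex : ∀ i, ∃ L : Submodule F H, IsLine F j l (gX k H) (M i) L := by
    intro i
    have h1 := card_line (hM i).monic (hM i).irr (hfull i)
    have h2 : Nat.card {L : Submodule F H // IsLine F j l (gX k H) (M i) L} ≠ 0 := by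
      rw [h1]
      have h3 : 0 < j + l := by have := h.pos; omega
      exact (Finset.sum_pos (fun i _ => pow_pos Nat.card_pos _) ⟨0, Finset.mem_range.2 h3⟩).ne'
    obtain ⟨⟨L, hL⟩⟩ := (Nat.card_ne_zero.1 h2).1
    exact ⟨L, hL⟩
  choose L hL using hex
  exact ⟨L, hM, hinj, hfull, hL⟩

/-- `H₁` is unramified outside infinity -/
theorem hOne_unram (h : DrS F j l k H (∏ i, M i)) (Q : DV (HOne j l H k M))
    (v : DV (RatFunc k)) (hQ : Over Q v) (hv : v ≠ Rat.inf k) : OverE Q v 1 := by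
  have := h.fin
  have := h.gal
  obtain ⟨R, hR⟩ := exists_aboveH (K := RatFunc k) (H := H) Q
  have h1 : Over R v := hR.trans' hQ
  have h2 := drS_unram h h1 hv
  obtain ⟨e, he⟩ := hR.overE
  obtain ⟨f, hf⟩ := hQ.overE
  have h3 : OverE R v (e * f) := by
    refine ⟨Nat.mul_pos he.1 hf.1, fun a => ?_⟩
    rw [IsScalarTower.algebraMap_apply (RatFunc k) (HOne j l H k M) H, he.2, hf.2]
    push_cast
    ring
  have h4 := h3.e_unique h2
  have h5 : f = 1 := Nat.eq_one_of_mul_eq_one_left h4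
  rwa [h5] at hf

theorem EL_many (h : DrS F j l k H (∏ i, M i)) {L : Fin s → Submodule F H}
    (hL : LT j l (gX k H) M L) {G : ℕ} (hC : Cv k (EL k L) G) {m : ℕ}
    (hm : 4 * (5 + 4 * ((j + l) ^ 2 + l) + (j + l)) * (dgM M Finset.univ + 1) ≤ m) :
    ∃ Q : Finset (DV (EL k L)), (∀ v ∈ Q, v.deg (Nat.card k) = m) ∧
      Nat.card k ^ m ≤ 2 * m * Q.card := by
  have := h.fin
  have := h.gal
  obtain ⟨⟨R, hR⟩, G1, C1, hG1⟩ := hOne_cv h hL
  have hgal := hOne_galois (M := M) h
  have hle := EL_le_HOne h hL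
  let _ : Algebra (EL k L) (HOne j l H k M) := (IntermediateField.inclusion hle).toAlgebra
  have : IsScalarTower (RatFunc k) (EL k L) (HOne j l H k M) :=
    IsScalarTower.of_algebraMap_eq' rfl
  have := Fintype.ofFinite F
  obtain ⟨p, hp⟩ := CharP.exists F
  obtain ⟨a, hpp, hc⟩ := FiniteField.card F p
  have : Fact p.Prime := ⟨hpp⟩
  have hck : CharP k p := charP_of_injective_algebraMap (algebraMap F k).injective p
  rw [← Nat.card_eq_fintype_card] at hc
  have hr : 2 ≤ Nat.card F := one_lt_card F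
  have hn : Module.finrank (RatFunc k) (HOne j l H k M) ≤
      Nat.card F ^ (((j + l) ^ 2 + l) * (dgM M Finset.univ + 1)) := by
    have h0 : (j + l) ^ 2 * dgM M Finset.univ + l ≤
        ((j + l) ^ 2 + l) * (dgM M Finset.univ + 1) := by nlinarith
    refine le_trans ?_ ((finrank_H h hL).trans (Nat.pow_le_pow_right (by omega) h0))
    rw [← Module.finrank_mul_finrank (RatFunc k) (HOne j l H k M) H]
    have : FiniteDimensional (HOne j l H k M) H := FiniteDimensional.right (RatFunc k) _ _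
    exact Nat.le_mul_of_pos_right _ Module.finrank_pos
  have hE : Module.finrank (RatFunc k) (EL k L) ≤
      Module.finrank (RatFunc k) (HOne j l H k M) := by
    rw [← Module.finrank_mul_finrank (RatFunc k) (EL k L) (HOne j l H k M)]
    have : FiniteDimensional (EL k L) (HOne j l H k M) := FiniteDimensional.right (RatFunc k) _ _
    exact Nat.le_mul_of_pos_right _ Module.finrank_pos
  -- the exponents
  have hw2 : 2 ≤ j + l := by have := h.pos; have := h.pos'; omega
  have hm' : 2 * (5 + 4 * ((j + l) ^ 2 + l) + (j + l)) * (dgM M Finset.univ + 1 + 1) ≤ m := by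
    refine le_trans ?_ hm
    have h0 : 2 * (5 + 4 * ((j + l) ^ 2 + l) + (j + l)) * (dgM M Finset.univ + 1 + 1) ≤
      2 * (5 + 4 * ((j + l) ^ 2 + l) + (j + l)) * (2 * (dgM M Finset.univ + 1)) :=
      Nat.mul_le_mul_left _ (by omega)
    refine h0.trans (le_of_eq ?_)
    ring
  set N : ℕ := (a : ℕ) * ((j + l) * m) with hN
  have hqm : Nat.card k ^ m = p ^ N := by
    rw [h.card, hc, ← pow_mul, ← pow_mul, hN, ← mul_assoc]
  have hee : p ^ ((N + 1) / 2) * p ^ (N / 2) = Nat.card k ^ m := by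
    rw [hqm, ← pow_add]
    congr 1
    omega
  have hs1 : Nat.card F ^ ((j + l) * m / 2) ≤ p ^ ((N + 1) / 2) := by
    rw [hc, ← pow_mul]
    refine Nat.pow_le_pow_right hpp.pos ?_
    have h1 : (a : ℕ) * ((j + l) * m / 2) * 2 ≤ N := by
      rw [hN, mul_assoc]
      exact Nat.mul_le_mul_left _ (Nat.div_mul_le_self _ 2)
    omega
  have hs2 : p ^ ((N + 1) / 2) ≤ Nat.card F ^ ((j + l) * m / 2 + 1) := by
    rw [hc, ← pow_mul]
    refine Nat.pow_le_pow_right hpp.pos ?_
    have h1 : N + a ≤ (a : ℕ) * ((j + l) * m / 2 + 1) * 2 := by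
      have h2 : (j + l) * m + 1 ≤ ((j + l) * m / 2 + 1) * 2 := by omega
      calc N + a = (a : ℕ) * ((j + l) * m + 1) := by rw [hN]; ring
        _ ≤ (a : ℕ) * (((j + l) * m / 2 + 1) * 2) := Nat.mul_le_mul_left _ h2
        _ = _ := by ring
    have h3 := a.pos
    omega
  obtain ⟨h1, h2⟩ := drin_numX hr hw2 hn hG1 Module.finrank_pos hm' hs1 hs2
  have hm1 : 1 ≤ m := by
    refine le_trans ?_ hm'
    exact Nat.one_le_iff_ne_zero.2 (by positivity)
  have hwt : WtX k (EL k L) m (p ^ ((N + 1) / 2))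
      (Module.finrank (RatFunc k) (HOne j l H k M) * (2 * G1 + 3)) :=
    chebX (p := p) (e := (N + 1) / 2) (e' := N / 2) C1 hR (hOne_unram h) hm1 rfl rfl
      (Nat.pow_le_pow_right hpp.pos (by omega)) hee h1
  refine exists_manyX hC.resCard_ne hm1 hwt (few_fin (m / 2)) ?_
  have h3 : (Nat.card F ^ (j + l)) ^ m = Nat.card k ^ m := by rw [h.card]
  rw [h3] at h2
  refine le_trans ?_ h2
  refine Nat.mul_le_mul_left _ (Nat.add_le_add_right (Nat.mul_le_mul_left _ ?_) _)
  rw [h.card]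
  exact Nat.mul_le_mul_right _ hE

end

theorem drin (F : Type) {j l : ℕ} (hj : 0 < j) (hl : 0 < l) (hjl : Nat.Coprime j l) (k : Type)
    [Field F] [Finite F] [Field k] [Finite k] [Algebra F k]
    (hk : Nat.card k = Nat.card F ^ (j + l)) :
    ∃ A : ℕ, ∀ (s : ℕ) (M : Fin s → Polynomial F), (∀ i, PrG F l (M i)) →
      Function.Injective M →
      ∃ (E : Type) (_ : Field E) (_ : Algebra k E) (G : ℕ) (T : Finset (DV E)),
        IsFF k E ∧ Cv k E G ∧
        2 * ((Nat.card F ^ j - 1) * (Nat.card F ^ l - 1)) * G ≤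
          (Nat.card F ^ j + Nat.card F ^ l - 2) * psiN (j + l) M +
            2 * ((Nat.card F ^ j - 1) * (Nat.card F ^ l - 1)) ∧
        T.card = psiN (j + l) M ∧ (∀ P ∈ T, P.Rat k) ∧
        ∀ m : ℕ, A * (dgM M Finset.univ + 1) ≤ m → ∃ Q : Finset (DV E),
          (∀ v ∈ Q, v.deg (Nat.card k) = m) ∧ Nat.card k ^ m ≤ 2 * m * Q.card := by
  refine ⟨4 * (5 + 4 * ((j + l) ^ 2 + l) + (j + l)), fun s M hM hinj => ?_⟩
  have hN : (∏ i, M i).Monic := Polynomial.monic_prod_of_monic _ _ fun i _ => (hM i).monic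
  have hN1 : (∏ i, M i).eval 1 ≠ 0 := by
    rw [Polynomial.eval_prod]
    exact Finset.prod_ne_zero_iff.2 fun i _ => (hM i).one
  obtain ⟨H, iH, iFH, ikH, iRH, iT, h⟩ := exists_drS F hj hl hjl k hk hN hN1
  obtain ⟨L, hL⟩ := exists_LT h hM hinj
  obtain ⟨hFF, G, hC, hG, T, hT, hTr⟩ := dgen h hL
  exact ⟨EL k L, inferInstance, inferInstance, G, T, hFF, hC, hG, hT, hTr, fun m hm =>
    EL_many h hL hC hm⟩

end Pool.Agent.FF.Jl
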