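import Pool.Agent.FG.Base

/-! # D0: the torsion field (64) -/

set_option autoImplicit false

namespace Pool.Agent.FF.Jl

section

variable {F : Type*} {j l : ℕ} {H : Type*} [Field F] [Finite F] [Field H] [Algebra F H]

theorem phN_mul (g : H) (M N : Polynomial F) (x : H) : phN F j l g (M * N) x = phN F j l g M (phN F j l g N x) := by
  rw [phN, phN, phN, map_mul]
  rfl

/-- the torsion is stable under `φ_N` -/
theorem phN_mem (g : H) (M N : Polynomial F) {x : H} (hx : x ∈ VN F j l g N) : phN F j l g M x ∈ VN F j l g N := by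
  rw [VN, LinearMap.mem_ker] at hx ⊢
  rw [← phN_mul, mul_comm, phN_mul, hx, map_zero]

theorem card_cast_zero : ((Nat.card F : ℕ) : H) = 0 := by
  have := Fintype.ofFinite F
  have h1 : ((Nat.card F : ℕ) : F) = 0 := by
    rw [Nat.card_eq_fintype_card]
    exact FiniteField.cast_card_eq_zero F
  have h2 := congrArg (algebraMap F H) h1
  rwa [map_natCast, map_zero] at h2

/-- the polynomial of the iterate `φ_T ^ n` -/
noncomputable def Pit (F : Type*) (j l : ℕ) {H : Type*} [Field F] [Field H] (g : H) : ℕ → Polynomial H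
  | 0 => Polynomial.X
  | n + 1 => Pit F j l g n + Polynomial.C g * Pit F j l g n ^ Nat.card F ^ j -
    Pit F j l g n ^ Nat.card F ^ (j + l)

theorem Pit_eval (g : H) (n : ℕ) (x : H) : (Pit F j l g n).eval x = ((phT F j l g) ^ n) x := by
  induction n with
  | zero => simp [Pit]
  | succ n ih =>
    rw [Pit, pow_succ' (phT F j l g) n, Module.End.mul_apply, phT_apply, ← ih]
    simp

omit [Algebra F H] in
theorem Pit_deg (hl : 0 < l) (g : H) (n : ℕ) : (Pit F j l g n).natDegree = Nat.card F ^ ((j + l) * n) ∧ Pit F j l g n ≠ 0 := by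
  have h1 : 1 < Nat.card F := one_lt_card F
  induction n with
  | zero =>
    rw [Pit]
    exact ⟨by simp, Polynomial.X_ne_zero⟩
  | succ n ih =>
    obtain ⟨h2, h3⟩ := ih
    have hpos : 0 < Nat.card F ^ ((j + l) * n) := pow_pos (by omega) _
    have hd : (Pit F j l g n ^ Nat.card F ^ (j + l)).natDegree = Nat.card F ^ ((j + l) * (n + 1)) := by
      rw [Polynomial.natDegree_pow, h2, ← pow_add]
      congr 1
      ring
    have hexp : (j + l) * (n + 1) = (j + l) * n + (j + l) := by ring
    have hlt1 : Nat.card F ^ ((j + l) * n) < Nat.card F ^ ((j + l) * (n + 1)) :=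
      Nat.pow_lt_pow_right h1 (by omega)
    have hlt2 : Nat.card F ^ j * Nat.card F ^ ((j + l) * n) <
        Nat.card F ^ ((j + l) * (n + 1)) := by
      rw [← pow_add]
      exact Nat.pow_lt_pow_right h1 (by omega)
    have hlow : (Pit F j l g n + Polynomial.C g * Pit F j l g n ^ Nat.card F ^ j).natDegree <
        (Pit F j l g n ^ Nat.card F ^ (j + l)).natDegree := by
      rw [hd]
      refine lt_of_le_of_lt (Polynomial.natDegree_add_le _ _) (max_lt ?_ ?_)
      · rw [h2]
        exact hlt1
      · refine lt_of_le_of_lt (Polynomial.natDegree_C_mul_le _ _) ?_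
        rw [Polynomial.natDegree_pow, h2]
        exact hlt2
    have hnd : (Pit F j l g (n + 1)).natDegree = Nat.card F ^ ((j + l) * (n + 1)) := by
      rw [Pit, Polynomial.natDegree_sub_eq_right_of_natDegree_lt hlow, hd]
    refine ⟨hnd, fun h0 => ?_⟩
    rw [h0, Polynomial.natDegree_zero] at hnd
    exact absurd hnd.symm (pow_pos (by omega) _).ne'

theorem Pit_deriv (hj : 0 < j) (g : H) (n : ℕ) : Polynomial.derivative (Pit F j l g n) = 1 := by
  have h0 : ((Nat.card F : ℕ) : H) = 0 := card_cast_zero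
  have hj' : j ≠ 0 := by omega
  induction n with
  | zero => simp [Pit]
  | succ n ih =>
    rw [Pit, Polynomial.derivative_sub, Polynomial.derivative_add, ih, Polynomial.derivative_C_mul,
      Polynomial.derivative_pow, Polynomial.derivative_pow, Nat.cast_pow, Nat.cast_pow, h0,
      zero_pow hj', zero_pow (by omega)]
    simp

/-- the polynomial of `φ_N` -/
noncomputable def TorP (F : Type*) (j l : ℕ) {H : Type*} [Field F] [Field H] [Algebra F H] (g : H)
    (N : Polynomial F) : Polynomial H :=
  ∑ i ∈ Finset.range (N.natDegree + 1), Polynomial.C (algebraMap F H (N.coeff i)) * Pit F j l g i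

theorem phN_eq_sum (g : H) (N : Polynomial F) (x : H) : phN F j l g N x =
    ∑ i ∈ Finset.range (N.natDegree + 1), algebraMap F H (N.coeff i) * ((phT F j l g) ^ i) x := by
  rw [phN, Polynomial.aeval_eq_sum_range, LinearMap.sum_apply]
  refine Finset.sum_congr rfl fun i _ => ?_
  rw [LinearMap.smul_apply, Algebra.smul_def]

theorem TorP_eval (g : H) (N : Polynomial F) (x : H) : (TorP F j l g N).eval x = phN F j l g N x := by
  rw [TorP, Polynomial.eval_finsetSum, phN_eq_sum]
  refine Finset.sum_congr rfl fun i _ => ?_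
  rw [Polynomial.eval_mul, Polynomial.eval_C, Pit_eval]

theorem TorP_deg (hl : 0 < l) (g : H) {N : Polynomial F} (hN : N ≠ 0) :
    (TorP F j l g N).natDegree = Nat.card F ^ ((j + l) * N.natDegree) ∧ TorP F j l g N ≠ 0 := by
  have h1 : 1 < Nat.card F := one_lt_card F
  have hc : algebraMap F H (N.coeff N.natDegree) ≠ 0 := by
    rw [Ne, map_eq_zero]
    exact Polynomial.leadingCoeff_ne_zero.2 hN
  have htop : (Polynomial.C (algebraMap F H (N.coeff N.natDegree)) * Pit F j l g N.natDegree).natDegree =
      Nat.card F ^ ((j + l) * N.natDegree) := by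
    rw [Polynomial.natDegree_C_mul hc, (Pit_deg hl g N.natDegree).1]
  have hnd : (TorP F j l g N).natDegree = Nat.card F ^ ((j + l) * N.natDegree) := by
    rw [TorP, Finset.sum_range_succ]
    rcases Nat.eq_zero_or_pos N.natDegree with h0 | h0
    · rw [h0, Finset.sum_range_zero, zero_add, ← h0]
      exact htop
    · rw [Polynomial.natDegree_add_eq_right_of_natDegree_lt, htop]
      rw [htop]
      refine lt_of_le_of_lt (Polynomial.natDegree_sum_le_of_forall_le _ _ fun i hi => ?_)
        (show Nat.card F ^ ((j + l) * (N.natDegree - 1)) < _ from Nat.pow_lt_pow_right h1 (by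
          exact Nat.mul_lt_mul_of_pos_left (by omega) (by omega)))
      refine (Polynomial.natDegree_C_mul_le _ _).trans ?_
      rw [(Pit_deg hl g i).1]
      have := Finset.mem_range.1 hi
      exact Nat.pow_le_pow_right (by omega) (Nat.mul_le_mul_left _ (by omega))
  refine ⟨hnd, fun h0 => ?_⟩
  rw [h0, Polynomial.natDegree_zero] at hnd
  exact absurd hnd.symm (pow_pos (by omega) _).ne'

theorem TorP_deriv (hj : 0 < j) (g : H) (N : Polynomial F) :
    Polynomial.derivative (TorP F j l g N) = Polynomial.C (algebraMap F H (N.eval 1)) := by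
  rw [TorP, Polynomial.derivative_sum, Polynomial.eval_eq_sum_range, map_sum, map_sum]
  refine Finset.sum_congr rfl fun i _ => ?_
  rw [Polynomial.derivative_C_mul, Pit_deriv hj, mul_one, one_pow, mul_one]

open Classical in
theorem VN_subset (hl : 0 < l) (g : H) {N : Polynomial F} (hN : N ≠ 0) :
    (VN F j l g N : Set H) = ((TorP F j l g N).roots.toFinset : Set H) := by
  classical
  ext x
  rw [Finset.mem_coe, Multiset.mem_toFinset, Polynomial.mem_roots (TorP_deg hl g hN).2,
    Polynomial.IsRoot.def, TorP_eval, SetLike.mem_coe, VN, LinearMap.mem_ker]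

theorem finite_VN (hl : 0 < l) (g : H) {N : Polynomial F} (hN : N ≠ 0) : Finite (VN F j l g N) := by
  classical
  have h : (VN F j l g N : Set H).Finite := by
    rw [VN_subset hl g hN]
    exact Finset.finite_toSet _
  exact h.to_subtype

theorem card_VN_le (hl : 0 < l) (g : H) {N : Polynomial F} (hN : N ≠ 0) :
    Nat.card (VN F j l g N) ≤ Nat.card F ^ ((j + l) * N.natDegree) := by
  classical
  have h1 : Nat.card (VN F j l g N) = (TorP F j l g N).roots.toFinset.card := by
    have h2 : Nat.card (VN F j l g N) = (VN F j l g N : Set H).ncard := rfl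
    rw [h2, VN_subset hl g hN, Set.ncard_coe_finset]
  rw [h1, ← (TorP_deg hl g hN).1]
  exact (Multiset.toFinset_card_le _).trans (Polynomial.card_roots' _)

/-- a divisor of `N` has full torsion if `N` has -/
theorem card_VN_dvd (hl : 0 < l) (g : H) {M N : Polynomial F} (hN : N.Monic) (hM : M.Monic) (hd : M ∣ N)
    (h : Nat.card (VN F j l g N) = Nat.card F ^ ((j + l) * N.natDegree)) :
    Nat.card (VN F j l g M) = Nat.card F ^ ((j + l) * M.natDegree) := by
  obtain ⟨M', rfl⟩ := hd
  have hM' : M' ≠ 0 := fun h0 => hN.ne_zero (by rw [h0, mul_zero])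
  have hf1 := finite_VN (j := j) (l := l) hl g hM.ne_zero
  have hf2 := finite_VN (j := j) (l := l) hl g hM'
  have hf3 := finite_VN (j := j) (l := l) hl g hN.ne_zero
  -- the map `φ_M'` from the `M M'`-torsion to the `M`-torsion
  let f : VN F j l g (M * M') →ₗ[F] VN F j l g M :=
    { toFun := fun x => ⟨phN F j l g M' x.1, by
        rw [VN, LinearMap.mem_ker, ← phN_mul]
        exact LinearMap.mem_ker.1 x.2⟩
      map_add' := fun x y => Subtype.ext (by simp)
      map_smul' := fun c x => Subtype.ext (by simp) }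
  have hker : Nat.card (LinearMap.ker f) ≤ Nat.card (VN F j l g M') := by
    refine Nat.card_le_card_of_injective (fun x => ⟨x.1.1, ?_⟩) fun x y hxy => ?_
    · have := LinearMap.mem_ker.1 x.2
      rw [VN, LinearMap.mem_ker]
      exact congrArg Subtype.val this
    · have h9 : (x.1.1 : H) = y.1.1 := congrArg (fun u : VN F j l g M' => (u : H)) hxy
      exact Subtype.ext (Subtype.ext h9)
  have hcard : Nat.card (VN F j l g (M * M')) = Nat.card (LinearMap.ker f) * Nat.card (LinearMap.range f) := by
    have h1 := Submodule.card_eq_card_quotient_mul_card (LinearMap.ker f)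
    rw [h1, Nat.card_congr f.quotKerEquivRange.toEquiv, mul_comm]
  have hrange : Nat.card (LinearMap.range f) ≤ Nat.card (VN F j l g M) :=
    Nat.card_le_card_of_injective Subtype.val Subtype.val_injective
  have h2 := card_VN_le (j := j) (l := l) hl g hM'
  have h3 := card_VN_le (j := j) (l := l) hl g hM.ne_zero
  have hdeg : (M * M').natDegree = M.natDegree + M'.natDegree :=
    Polynomial.natDegree_mul hM.ne_zero hM'
  rw [hdeg, mul_add, pow_add] at h
  have h4 : Nat.card F ^ ((j + l) * M.natDegree) * Nat.card F ^ ((j + l) * M'.natDegree) ≤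
      Nat.card (VN F j l g M) * Nat.card F ^ ((j + l) * M'.natDegree) := by
    rw [← h, hcard, mul_comm]
    exact Nat.mul_le_mul hrange (hker.trans h2)
  exact le_antisymm h3 (Nat.le_of_mul_le_mul_right h4 (pow_pos (by
    have : 1 < Nat.card F := one_lt_card F
    omega) _))

theorem SplitJ_two_le (hj : 0 < j) : (2 : ℤ) ≤ (Nat.card F : ℤ) ^ j := by
  have h1 : 1 < Nat.card F := one_lt_card F
  have hr : (2 : ℤ) ≤ Nat.card F := by exact_mod_cast h1
  obtain ⟨i, rfl⟩ := Nat.exists_eq_succ_of_ne_zero (show j ≠ 0 by omega)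
  have h2 : (1 : ℤ) ≤ (Nat.card F : ℤ) ^ i := one_le_pow₀ (by linarith)
  rw [pow_succ]
  nlinarith

theorem phT_pow_G (hj : 0 < j) {g : H} {Q : DV H} (hg : Q.G 0 g) {x : H} (hx : 0 < Q.ord x)
    (n : ℕ) : Q.G (Q.ord x + 1) (((phT F j l g) ^ n) x - x) := by
  have h1 : 1 < Nat.card F := one_lt_card F
  induction n with
  | zero => simpa using Q.G_zero _
  | succ n ih =>
    rw [pow_succ' (phT F j l g) n, Module.End.mul_apply, phT_apply]
    set y := ((phT F j l g) ^ n) x
    have hy : Q.G (Q.ord x) y := by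
      have h2 := (ih.mono (show Q.ord x ≤ Q.ord x + 1 by omega)).add (Q.G_ord x)
      rwa [sub_add_cancel] at h2
    have h2 : y + g * y ^ Nat.card F ^ j - y ^ Nat.card F ^ (j + l) - x =
        (y - x) + (g * y ^ Nat.card F ^ j - y ^ Nat.card F ^ (j + l)) := by ring
    rw [h2]
    have hr : (2 : ℤ) ≤ (Nat.card F ^ j : ℕ) := by
      push_cast
      exact SplitJ_two_le hj
    have hr2 : (2 : ℤ) ≤ (Nat.card F ^ (j + l) : ℕ) := by
      push_cast
      exact SplitJ_two_le (show 0 < j + l by omega)
    refine ih.add (DV.G.sub ?_ ?_)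
    · refine (hg.mul (hy.pow (Nat.card F ^ j))).mono ?_
      nlinarith
    · refine (hy.pow (Nat.card F ^ (j + l))).mono ?_
      nlinarith

theorem phT_pow_ord (hl : 0 < l) {g : H} {Q : DV H} (hg : Q.G 0 g) {x : H} (hx0 : x ≠ 0) (hx : Q.ord x < 0)
    (n : ℕ) : ((phT F j l g) ^ n) x ≠ 0 ∧
      Q.ord (((phT F j l g) ^ n) x) = (Nat.card F : ℤ) ^ ((j + l) * n) * Q.ord x := by
  have h1 : 1 < Nat.card F := one_lt_card F
  have hr : (2 : ℤ) ≤ Nat.card F := by exact_mod_cast h1
  induction n with
  | zero => simpa using hx0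
  | succ n ih =>
    obtain ⟨h2, h3⟩ := ih
    rw [pow_succ' (phT F j l g) n, Module.End.mul_apply, phT_apply]
    set y := ((phT F j l g) ^ n) x
    have hy : Q.ord y < 0 := by
      rw [h3]
      have : (0 : ℤ) < (Nat.card F : ℤ) ^ ((j + l) * n) := by positivity
      exact mul_neg_of_pos_of_neg this hx
    have hne : -(y ^ Nat.card F ^ (j + l)) ≠ 0 := neg_ne_zero.2 (pow_ne_zero _ h2)
    have ho : Q.ord (-(y ^ Nat.card F ^ (j + l))) = (Nat.card F : ℤ) ^ (j + l) * Q.ord y := by
      rw [Q.ord_neg, Q.ord_pow h2]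
      push_cast
      ring
    have h4 : Q.G (Q.ord (-(y ^ Nat.card F ^ (j + l))) + 1) (y + g * y ^ Nat.card F ^ j) := by
      rw [ho]
      have hrj : (1 : ℤ) ≤ (Nat.card F : ℤ) ^ j := one_le_pow₀ (by linarith)
      have hr4 : (2 : ℤ) ≤ (Nat.card F : ℤ) ^ (j + l) :=
        SplitJ_two_le (show 0 < j + l by omega)
      have hrl : (2 : ℤ) ≤ (Nat.card F : ℤ) ^ l := SplitJ_two_le hl
      have hrr : (1 : ℤ) ≤ (Nat.card F : ℤ) ^ (j + l) - (Nat.card F : ℤ) ^ j := by
        rw [pow_add]
        nlinarith
      have h6 := mul_le_mul_of_nonpos_right hr4 hy.le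
      have h7 := mul_le_mul_of_nonpos_right hrr hy.le
      refine DV.G.add ((Q.G_ord y).mono ?_) ((hg.mul ((Q.G_ord y).pow (Nat.card F ^ j))).mono ?_)
      · linarith
      · push_cast
        linarith
    have h5 := Q.ord_add_of_lt hne h4
    have e : y + g * y ^ Nat.card F ^ j - y ^ Nat.card F ^ (j + l) =
        -(y ^ Nat.card F ^ (j + l)) + (y + g * y ^ Nat.card F ^ j) := by ring
    rw [e]
    refine ⟨h5.1, ?_⟩
    rw [h5.2, ho, h3]
    ring

theorem SplitA_G_sum {Q : DV H} {n : ℤ} {ι : Type*} (T : Finset ι) (f : ι → H)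
    (h : ∀ i ∈ T, Q.G n (f i)) : Q.G n (∑ i ∈ T, f i) := by
  classical
  induction T using Finset.induction_on with
  | empty => simpa using DV.G_zero n
  | insert a s ha ih =>
    rw [Finset.sum_insert ha]
    exact (h a (Finset.mem_insert_self _ _)).add (ih fun i hi => h i (Finset.mem_insert_of_mem hi))

theorem SplitA_G_const (Q : DV H) (c : F) : Q.G 0 (algebraMap F H c) := by
  by_cases hc : c = 0
  · rw [hc, map_zero]
    exact Q.G_zero 0
  · exact DV.G_of_le (RRD.ord_algebraMap Q hc).ge

/-- torsion elements are units where `g` is integral -/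
theorem VN_unit (hj : 0 < j) (hl : 0 < l) {g : H} {Q : DV H} (hg : Q.G 0 g) {N : Polynomial F}
    (h1 : N.eval 1 ≠ 0) {x : H} (hx : x ∈ VN F j l g N) (h0 : x ≠ 0) : Q.ord x = 0 := by
  have hN : N ≠ 0 := fun h => h1 (by rw [h, Polynomial.eval_zero])
  have hr : 1 < Nat.card F := one_lt_card F
  have hx' : phN F j l g N x = 0 := LinearMap.mem_ker.1 hx
  rw [phN_eq_sum] at hx'
  rcases lt_trichotomy (Q.ord x) 0 with hlt | heq | hgt
  · exfalso
    rw [Finset.sum_range_succ] at hx'
    obtain ⟨h2, h3⟩ := phT_pow_ord (F := F) (j := j) (l := l) hl hg h0 hlt N.natDegree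
    have hc : algebraMap F H (N.coeff N.natDegree) ≠ 0 := by
      rw [Ne, map_eq_zero]
      exact Polynomial.leadingCoeff_ne_zero.2 hN
    have hc0 : Q.ord (algebraMap F H (N.coeff N.natDegree)) = 0 :=
      RRD.ord_algebraMap Q (Polynomial.leadingCoeff_ne_zero.2 hN)
    have hne := mul_ne_zero hc h2
    have ho : Q.ord (algebraMap F H (N.coeff N.natDegree) * ((phT F j l g) ^ N.natDegree) x) =
        (Nat.card F : ℤ) ^ ((j + l) * N.natDegree) * Q.ord x := by
      rw [Q.ord_mul _ _ hc h2, hc0, zero_add, h3]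
    have hlow : Q.G (Q.ord (algebraMap F H (N.coeff N.natDegree) *
        ((phT F j l g) ^ N.natDegree) x) + 1) (∑ i ∈ Finset.range N.natDegree,
          algebraMap F H (N.coeff i) * ((phT F j l g) ^ i) x) := by
      refine SplitA_G_sum _ _ fun i hi => ?_
      have hi' := Finset.mem_range.1 hi
      obtain ⟨h4, h5⟩ := phT_pow_ord (F := F) (j := j) (l := l) hl hg h0 hlt i
      refine ((SplitA_G_const Q (N.coeff i)).mul (Q.G_ord (((phT F j l g) ^ i) x))).mono ?_
      rw [ho, h5, zero_add]
      have h6 : (Nat.card F : ℤ) ^ ((j + l) * i) < (Nat.card F : ℤ) ^ ((j + l) * N.natDegree) :=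
        pow_lt_pow_right₀ (by exact_mod_cast hr) (Nat.mul_lt_mul_of_pos_left hi' (by omega))
      nlinarith
    have h7 := (Q.ord_add_of_lt hne hlow).1
    rw [add_comm] at h7
    exact h7 hx'
  · exact heq
  · exfalso
    have h2 : ∑ i ∈ Finset.range (N.natDegree + 1),
        algebraMap F H (N.coeff i) * ((phT F j l g) ^ i) x =
        algebraMap F H (N.eval 1) * x + ∑ i ∈ Finset.range (N.natDegree + 1),
        algebraMap F H (N.coeff i) * (((phT F j l g) ^ i) x - x) := by
      rw [Polynomial.eval_eq_sum_range, map_sum, Finset.sum_mul, ← Finset.sum_add_distrib]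
      refine Finset.sum_congr rfl fun i _ => ?_
      rw [one_pow, mul_one]
      ring
    rw [h2] at hx'
    have hc : algebraMap F H (N.eval 1) ≠ 0 := by rwa [Ne, map_eq_zero]
    have hne := mul_ne_zero hc h0
    have ho : Q.ord (algebraMap F H (N.eval 1) * x) = Q.ord x := by
      rw [Q.ord_mul _ _ hc h0, RRD.ord_algebraMap Q h1, zero_add]
    refine (Q.ord_add_of_lt hne ?_).1 hx'
    rw [ho]
    refine SplitA_G_sum _ _ fun i _ => ?_
    have h3 := (SplitA_G_const Q (N.coeff i)).mul (phT_pow_G (F := F) (l := l) hj hg hgt i)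
    rwa [zero_add] at h3

end

/-- ring homomorphisms over `F` commute with `φ_N` -/
theorem map_phN {F H H' : Type*} {j l : ℕ} [Field F] [Finite F] [Field H] [Field H'] [Algebra F H]
    [Algebra F H'] (s : H →ₐ[F] H') (g x : H) (N : Polynomial F) :
    s (phN F j l g N x) = phN F j l (s g) N (s x) := by
  have h : ∀ i : ℕ, s (((phT F j l g) ^ i) x) = ((phT F j l (s g)) ^ i) (s x) := by
    intro i
    induction i with
    | zero => simp
    | succ i ih =>
      rw [pow_succ' (phT F j l g) i, pow_succ' (phT F j l (s g)) i, Module.End.mul_apply,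
        Module.End.mul_apply, ← ih, phT_apply, phT_apply]
      simp
  rw [phN_eq_sum, phN_eq_sum, map_sum]
  refine Finset.sum_congr rfl fun i _ => ?_
  rw [map_mul, h, AlgHom.commutes]

theorem Pit_map {F K0 H : Type*} {j l : ℕ} [Field F] [Finite F] [Field K0] [Field H] (s : K0 →+* H) (g : K0)
    (n : ℕ) : (Pit F j l g n).map s = Pit F j l (s g) n := by
  induction n with
  | zero => simp [Pit]
  | succ n ih => simp [Pit, ih]

theorem TorP_map {F K0 H : Type*} {j l : ℕ} [Field F] [Finite F] [Field K0] [Field H] [Algebra F K0]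
    [Algebra F H] (s : K0 →ₐ[F] H) (g : K0) (N : Polynomial F) :
    (TorP F j l g N).map (s : K0 →+* H) = TorP F j l (s g) N := by
  rw [TorP, TorP, Polynomial.map_sum]
  refine Finset.sum_congr rfl fun i _ => ?_
  rw [Polynomial.map_mul, Polynomial.map_C, Pit_map]
  congr 2
  exact s.commutes _

theorem aeval_X_pow_sub {K0 H : Type*} [Field K0] [Field H] [Algebra K0 H] (n : ℕ) (x : H) :
    Polynomial.aeval x (Polynomial.X ^ n - Polynomial.X : Polynomial K0) = x ^ n - x := by
  rw [map_sub, map_pow, Polynomial.aeval_X]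

theorem exists_drS (F : Type) {j l : ℕ} (hj : 0 < j) (hl : 0 < l) (hjl : Nat.Coprime j l)
    (k : Type) [Field F] [Finite F] [Field k] [Finite k] [Algebra F k]
    (hk : Nat.card k = Nat.card F ^ (j + l)) {N : Polynomial F} (hN : N.Monic)
    (h1 : N.eval 1 ≠ 0) :
    ∃ (H : Type) (_ : Field H) (_ : Algebra F H) (_ : Algebra k H) (_ : Algebra (RatFunc k) H)
      (_ : IsScalarTower k (RatFunc k) H), DrS F j l k H N := by
  classical
  have hF : 1 < Nat.card F := one_lt_card F
  have hql : 1 < Nat.card F ^ l := Nat.one_lt_pow hl.ne' hF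
  set P : Polynomial (RatFunc k) := TorP F j l (RatFunc.X : RatFunc k) N with hP
  have hPd := TorP_deg (F := F) (j := j) (l := l) hl (RatFunc.X : RatFunc k) hN.ne_zero
  have hsep : P.Separable := by
    rw [Polynomial.separable_def, hP, TorP_deriv hj]
    have hc : algebraMap F (RatFunc k) (N.eval 1) ≠ 0 := by rwa [Ne, map_eq_zero]
    exact ⟨0, Polynomial.C (algebraMap F (RatFunc k) (N.eval 1))⁻¹, by
      rw [zero_mul, zero_add, ← Polynomial.C_mul, inv_mul_cancel₀ hc, Polynomial.C_1]⟩
  set R : Polynomial (RatFunc k) := Polynomial.X ^ Nat.card F ^ l - Polynomial.X with hR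
  have hRd : R.natDegree = Nat.card F ^ l := FiniteField.X_pow_card_sub_X_natDegree_eq _ hql
  have hR0 : R ≠ 0 := FiniteField.X_pow_card_sub_X_ne_zero _ hql
  have hRsep : R.Separable := by
    have h2 : ((Nat.card F : ℕ) : RatFunc k) = 0 := card_cast_zero (F := F)
    rw [Polynomial.separable_def, hR, Polynomial.derivative_sub, Polynomial.derivative_X_pow,
      Polynomial.derivative_X, Nat.cast_pow, h2, zero_pow hl.ne', Polynomial.C_0, zero_mul, zero_sub]
    exact ⟨0, -1, by ring⟩
  have hPR : P * R ≠ 0 := mul_ne_zero hPd.2 hR0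
  let H := (P * R).SplittingField
  have htow : IsScalarTower F (RatFunc k) H := inferInstance
  have hspl : (P * R).IsSplittingField (RatFunc k) H := inferInstance
  have hset : (VN F j l (gX k H) N : Set H) = P.rootSet H := by
    ext x
    have h2 : P.map (algebraMap (RatFunc k) H) = TorP F j l (gX k H) N :=
      TorP_map (IsScalarTower.toAlgHom F (RatFunc k) H) RatFunc.X N
    rw [Polynomial.mem_rootSet_of_ne hPd.2, Polynomial.aeval_def, Polynomial.eval₂_eq_eval_map, h2,
      TorP_eval, SetLike.mem_coe, VN, LinearMap.mem_ker]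
  have hsetR : CC F l H = R.rootSet H := by
    ext x
    have h3 : Polynomial.aeval x R = x ^ Nat.card F ^ l - x := aeval_X_pow_sub _ x
    rw [Polynomial.mem_rootSet_of_ne hR0, h3, sub_eq_zero]
    rfl
  have hun : (P * R).rootSet H = (VN F j l (gX k H) N : Set H) ∪ CC F l H := by
    ext x
    rw [hset, hsetR, Set.mem_union, Polynomial.mem_rootSet_of_ne hPR,
      Polynomial.mem_rootSet_of_ne hPd.2, Polynomial.mem_rootSet_of_ne hR0, map_mul, mul_eq_zero]
  have hgen : IntermediateField.adjoin (RatFunc k)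
      ((VN F j l (gX k H) N : Set H) ∪ CC F l H) = ⊤ := by
    rw [← hun]
    exact ((isSplittingField_iff_intermediateField).1 hspl).2
  have hsp := Polynomial.IsSplittingField.splits H (P * R)
  have hfin : FiniteDimensional (RatFunc k) H :=
    Polynomial.IsSplittingField.finiteDimensional H (P * R)
  have hnor : Normal (RatFunc k) H := Normal.of_isSplittingField (P * R)
  have hsepH : Algebra.IsSeparable (RatFunc k) H := by
    have h2 : Algebra.IsSeparable (RatFunc k) (IntermediateField.adjoin (RatFunc k)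
        ((VN F j l (gX k H) N : Set H) ∪ CC F l H)) := by
      rw [IntermediateField.isSeparable_adjoin_iff_isSeparable]
      intro x hx
      rcases hx with hx | hx
      · rw [hset, Polynomial.mem_rootSet_of_ne hPd.2] at hx
        exact hsep.of_dvd (minpoly.dvd _ _ hx)
      · rw [hsetR, Polynomial.mem_rootSet_of_ne hR0] at hx
        exact hRsep.of_dvd (minpoly.dvd _ _ hx)
    rw [hgen] at h2
    exact AlgEquiv.Algebra.isSeparable IntermediateField.topEquiv
  refine ⟨H, inferInstance, inferInstance, inferInstance, inferInstance, inferInstance, ?_⟩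
  refine ⟨hj, hl, hjl, hk, fun c => ?_, hN, h1, hfin, ⟨⟩, ?_, ?_, hgen⟩
  · rw [IsScalarTower.algebraMap_apply F (RatFunc k) H]
    rfl
  · have h2 : Nat.card (VN F j l (gX k H) N) = (VN F j l (gX k H) N : Set H).ncard := rfl
    rw [h2, hset, ← hPd.1, Set.ncard_eq_toFinset_card', Set.toFinset_card]
    exact Polynomial.card_rootSet_eq_natDegree hsep
      (Polynomial.Splits.of_dvd hsp (Polynomial.map_ne_zero hPR)
        (Polynomial.map_dvd _ (dvd_mul_right P R)))
  · rw [hsetR, ← hRd, Nat.card_coe_set_eq, Set.ncard_eq_toFinset_card', Set.toFinset_card]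
    exact Polynomial.card_rootSet_eq_natDegree hRsep
      (Polynomial.Splits.of_dvd hsp (Polynomial.map_ne_zero hPR)
        (Polynomial.map_dvd _ (dvd_mul_left R P)))

end Pool.Agent.FF.Jl
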