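import Pool.Agent.FG.FVD
import Pool.Agent.FG.Base
import Pool.Agent.FG.Split

/-! # T6: the span of the torsion over the field with `r ^ l` elements (31) -/

set_option autoImplicit false
set_option linter.unusedSectionVars false

namespace Pool.Agent.FF.FVl

open InfJ

section

variable {F : Type*} {H : Type*} [Field F] [Finite F] [Field H] [Algebra F H] {j l : ℕ} {g : H}

theorem InL.zero (l : ℕ) : InL F l (0 : H) := by
  have : 0 < Nat.card F := Nat.card_pos
  exact zero_pow (pow_ne_zero _ this.ne')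

theorem InL.one (l : ℕ) : InL F l (1 : H) := one_pow _

theorem InL.mul {x y : H} (hx : InL F l x) (hy : InL F l y) : InL F l (x * y) := by
  unfold InL at *
  rw [mul_pow, hx, hy]

theorem InL.inv {x : H} (hx : InL F l x) : InL F l x⁻¹ := by
  unfold InL at *
  rw [inv_pow, hx]

theorem InL.add {x y : H} (hx : InL F l x) (hy : InL F l y) : InL F l (x + y) := by
  unfold InL at *
  rw [add_pow_card F l x y, hx, hy]

theorem InL.sub {x y : H} (hx : InL F l x) (hy : InL F l y) : InL F l (x - y) := by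
  unfold InL at *
  rw [sub_pow F, hx, hy]

theorem InL.const (c : F) : InL F l (algebraMap F H c) := map_pow_card F (H := H) l c

theorem InL.pow {x : H} (hx : InL F l x) (n : ℕ) : InL F l (x ^ n) := by
  unfold InL at *
  rw [← pow_mul, mul_comm, pow_mul, hx]

/-- the `r ^ (l n)`-th power -/
theorem InL.iter {x : H} (hx : InL F l x) (n : ℕ) : x ^ Nat.card F ^ (l * n) = x := by
  induction n with
  | zero => rw [mul_zero, pow_zero, pow_one]
  | succ n ih => rw [mul_add, mul_one, pow_add, pow_mul, ih]; exact hx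

/-- the roots of order `r ^ j` -/
theorem InL.root {x : H} (hl : 1 ≤ l) (hx : InL F l x) (j : ℕ) :
    ∃ y : H, InL F l y ∧ y ^ Nat.card F ^ j = x := by
  refine ⟨x ^ Nat.card F ^ (l * j - j), hx.pow _, ?_⟩
  rw [← pow_mul, ← pow_add]
  have h1 : j ≤ l * j := Nat.le_mul_of_pos_left _ (by omega)
  rw [Nat.sub_add_cancel h1]
  exact hx.iter j

/-- `z ^ (r ^ u) = z`, `z ^ (r ^ v) = z`, `u`, `v` coprime -/
theorem pow_card_of_coprime {z : H} {u v : ℕ} (huv : Nat.Coprime u v)
    (hu : z ^ Nat.card F ^ u = z) (hv : z ^ Nat.card F ^ v = z) : z ^ Nat.card F = z := by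
  have h1 : ∀ n : ℕ, (fun x : H => x ^ Nat.card F)^[n] z = z ^ Nat.card F ^ n := by
    intro n
    induction n with
    | zero => simp
    | succ n ih => rw [Function.iterate_succ_apply', ih, ← pow_mul, ← pow_succ]
  have h2 : Function.IsPeriodicPt (fun x : H => x ^ Nat.card F) u z := by
    show (fun x : H => x ^ Nat.card F)^[u] z = z
    rw [h1, hu]
  have h3 : Function.IsPeriodicPt (fun x : H => x ^ Nat.card F) v z := by
    show (fun x : H => x ^ Nat.card F)^[v] z = z
    rw [h1, hv]
  have h4 := h2.gcd h3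
  rw [huv] at h4
  have h5 : (fun x : H => x ^ Nat.card F)^[1] z = z := h4
  rwa [h1, pow_one] at h5

theorem exists_const {z : H} (hz : z ^ Nat.card F = z) : ∃ c : F, algebraMap F H c = z := by
  classical
  have := Fintype.ofFinite F
  have h6 : (Polynomial.X ^ Nat.card F - Polynomial.X : Polynomial F) =
      ∏ c : F, (Polynomial.X - Polynomial.C c) := by
    rw [Nat.card_eq_fintype_card]
    have h8 : (Polynomial.X ^ Fintype.card F - Polynomial.X : Polynomial F).natDegree =
        Fintype.card F := FiniteField.X_pow_card_sub_X_natDegree_eq F Fintype.one_lt_card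
    have h9 : (Polynomial.X ^ Fintype.card F - Polynomial.X : Polynomial F).Monic :=
      Polynomial.monic_X_pow_sub (by
        rw [Polynomial.degree_X]
        exact_mod_cast Fintype.one_lt_card)
    have h10 := Polynomial.prod_multiset_X_sub_C_of_monic_of_roots_card_eq h9 (by
      rw [FiniteField.roots_X_pow_card_sub_X, h8]
      rfl)
    rw [FiniteField.roots_X_pow_card_sub_X] at h10
    exact h10.symm
  have h7 := congrArg (Polynomial.aeval z) h6
  rw [map_sub, map_pow, Polynomial.aeval_X, map_prod, hz, sub_self] at h7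
  obtain ⟨c, -, hc⟩ := Finset.prod_eq_zero_iff.1 h7.symm
  refine ⟨c, ?_⟩
  rw [map_sub, Polynomial.aeval_X, Polynomial.aeval_C] at hc
  exact (sub_eq_zero.1 hc).symm

theorem InL.pow_R {x : H} (hx : InL F l x) (i : ℕ) : InL F l (x ^ Nat.card F ^ i) := hx.pow _

/-- iterates of `ψ` -/
theorem psi_pow_mul {z : H} (hz : InL F l z) (x : H) (i : ℕ) :
    ((psi F j l g) ^ i) (z * x) = z ^ Nat.card F ^ (j * i) * ((psi F j l g) ^ i) x := by
  induction i with
  | zero => simp
  | succ i ih =>
    rw [pow_succ', Module.End.mul_apply, Module.End.mul_apply, ih, psi_mul g (hz.pow_R _),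
      ← pow_mul, ← pow_add]
    congr 3

open scoped Classical in
/-- **disjointness** -/
theorem disj (hjl : Nat.Coprime j l) {a : ℕ} (hal : Nat.Coprime l a)
    {m : ℕ} (v : Fin m → H) (hv : ∀ i, ((psi F j l g) ^ a) (v i) = v i)
    (hli : LinearIndependent F v) (n : ℕ) (ζ : Fin m → H) (hζ : ∀ i, InL F l (ζ i))
    (hn : (Finset.univ.filter fun i => ζ i ≠ 0).card ≤ n) (h0 : ∑ i, ζ i * v i = 0) : ζ = 0 := by
  classical
  induction n generalizing ζ with
  | zero =>
    funext i
    by_contra hi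
    have h1 : i ∈ Finset.univ.filter fun i => ζ i ≠ 0 := Finset.mem_filter.2 ⟨Finset.mem_univ _, hi⟩
    have h2 := Finset.card_pos.2 ⟨i, h1⟩
    omega
  | succ n ih =>
    by_contra hne
    obtain ⟨i0, hi0⟩ := Function.ne_iff.1 hne
    have hi0 : ζ i0 ≠ 0 := hi0
    set ξ : Fin m → H := fun i => (ζ i0)⁻¹ * ζ i with hξ
    have hξL : ∀ i, InL F l (ξ i) := fun i => (hζ i0).inv.mul (hζ i)
    have hξ0 : ∑ i, ξ i * v i = 0 := by
      have : ∑ i, ξ i * v i = (ζ i0)⁻¹ * ∑ i, ζ i * v i := by
        rw [Finset.mul_sum]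
        exact Finset.sum_congr rfl fun i _ => by rw [hξ]; ring
      rw [this, h0, mul_zero]
    have hξi : ξ i0 = 1 := by rw [hξ]; exact inv_mul_cancel₀ hi0
    have h1 : ∑ i, (ξ i) ^ Nat.card F ^ (j * a) * v i = 0 := by
      have h2 := congrArg (fun y => ((psi F j l g) ^ a) y) hξ0
      simp only [map_sum, map_zero] at h2
      rw [← h2]
      refine Finset.sum_congr rfl fun i _ => ?_
      rw [psi_pow_mul (hξL i), hv]
    have h2 : (fun i => (ξ i) ^ Nat.card F ^ (j * a) - ξ i) = 0 := by
      refine ih _ (fun i => ((hξL i).pow_R _).sub (hξL i)) ?_ ?_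
      · have h3 : (Finset.univ.filter fun i => (ξ i) ^ Nat.card F ^ (j * a) - ξ i ≠ 0) ⊆
            (Finset.univ.filter fun i => ζ i ≠ 0).erase i0 := by
          intro i hi
          rw [Finset.mem_filter] at hi
          rw [Finset.mem_erase, Finset.mem_filter]
          refine ⟨?_, Finset.mem_univ _, ?_⟩
          · rintro rfl
            exact hi.2 (by rw [hξi, one_pow, sub_self])
          · intro h4
            refine hi.2 ?_
            have h5 : ξ i = 0 := by rw [hξ]; simp only [h4, mul_zero]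
            rw [h5]
            have h6 := (InL.zero (F := F) (H := H) (j * a))
            unfold InL at h6
            rw [h6, sub_self]
        have h4 := Finset.card_le_card h3
        have h7 : i0 ∈ Finset.univ.filter fun i => ζ i ≠ 0 :=
          Finset.mem_filter.2 ⟨Finset.mem_univ _, hi0⟩
        rw [Finset.card_erase_of_mem h7] at h4
        omega
      · simp only [sub_mul, Finset.sum_sub_distrib]
        rw [h1, hξ0, sub_zero]
    have h3 : ∀ i, ∃ c : F, algebraMap F H c = ξ i := by
      intro i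
      refine exists_const (pow_card_of_coprime (u := j * a) (v := l) ?_ ?_ (hξL i))
      · exact Nat.Coprime.mul_left hjl hal.symm
      · have := congrFun h2 i
        simpa [sub_eq_zero] using this
    choose c hc using h3
    have h4 : ∑ i, c i • v i = 0 := by
      rw [← hξ0]
      exact Finset.sum_congr rfl fun i _ => by rw [Algebra.smul_def, hc]
    have h5 := Fintype.linearIndependent_iff.1 hli c h4 i0
    have h6 := hc i0
    rw [h5, map_zero, hξi] at h6
    exact zero_ne_one h6

/-- the span over the field with `r ^ l` elements -/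
noncomputable def ext (F : Type*) (l : ℕ) {H : Type*} [Field F] [Finite F] [Field H] [Algebra F H]
    (V : Submodule F H) : Submodule F H where
  carrier := (AddSubmonoid.closure {y | ∃ z v : H, InL F l z ∧ v ∈ V ∧ y = z * v} : Set H)
  zero_mem' := zero_mem _
  add_mem' hx hy := add_mem hx hy
  smul_mem' := by
    intro c x hx
    refine AddSubmonoid.closure_induction (motive := fun x _ => c • x ∈
      (AddSubmonoid.closure {y | ∃ z v : H, InL F l z ∧ v ∈ V ∧ y = z * v} : Set H))
      ?_ ?_ ?_ hx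
    · rintro _ ⟨z, v, hz, hv, rfl⟩
      refine AddSubmonoid.subset_closure ⟨algebraMap F H c * z, v, (InL.const c).mul hz, hv, ?_⟩
      rw [Algebra.smul_def, mul_assoc]
    · rw [smul_zero]
      exact zero_mem _
    · intro x y _ _ hx hy
      rw [smul_add]
      exact add_mem hx hy

theorem mem_ext {V : Submodule F H} {z v : H} (hz : InL F l z) (hv : v ∈ V) :
    z * v ∈ ext F l V := AddSubmonoid.subset_closure ⟨z, v, hz, hv, rfl⟩

theorem le_ext {V : Submodule F H} : V ≤ ext F l V := fun v hv => by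
  have := mem_ext (l := l) (InL.one (F := F) l) hv
  rwa [one_mul] at this

theorem ext_ind {V : Submodule F H} {p : H → Prop} (h0 : p 0)
    (hadd : ∀ x ∈ ext F l V, ∀ y ∈ ext F l V, p x → p y → p (x + y))
    (hmul : ∀ z v : H, InL F l z → v ∈ V → p (z * v)) {y : H} (hy : y ∈ ext F l V) : p y := by
  refine AddSubmonoid.closure_induction (motive := fun x _ => p x) ?_ h0 ?_ hy
  · rintro _ ⟨z, v, hz, hv, rfl⟩
    exact hmul z v hz hv
  · intro x y hx hy hpx hpy
    exact hadd x hx y hy hpx hpy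

theorem ext_mul {V : Submodule F H} {z y : H} (hz : InL F l z) (hy : y ∈ ext F l V) :
    z * y ∈ ext F l V := by
  refine ext_ind (p := fun y => z * y ∈ ext F l V) ?_ ?_ ?_ hy
  · rw [mul_zero]
    exact zero_mem _
  · intro x _ y _ hx hy
    rw [mul_add]
    exact add_mem hx hy
  · intro z' v hz' hv
    rw [← mul_assoc]
    exact mem_ext (hz.mul hz') hv

theorem ext_psi {V : Submodule F H} (hV : ∀ v ∈ V, psi F j l g v ∈ V) {y : H}
    (hy : y ∈ ext F l V) : psi F j l g y ∈ ext F l V := by
  refine ext_ind (p := fun y => psi F j l g y ∈ ext F l V) ?_ ?_ ?_ hy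
  · rw [map_zero]
    exact zero_mem _
  · intro x _ y _ hx hy
    rw [map_add]
    exact add_mem hx hy
  · intro z v hz hv
    rw [psi_mul g hz]
    exact mem_ext (hz.pow_R _) (hV v hv)

theorem ext_surj (hl : 1 ≤ l) {V : Submodule F H}
    (hV : ∀ v ∈ V, ∃ w ∈ V, psi F j l g w = v) {y : H}
    (hy : y ∈ ext F l V) : ∃ x ∈ ext F l V, psi F j l g x = y := by
  refine ext_ind (p := fun y => ∃ x ∈ ext F l V, psi F j l g x = y) ?_ ?_ ?_ hy
  · exact ⟨0, zero_mem _, map_zero _⟩
  · rintro _ _ _ _ ⟨a, ha, rfl⟩ ⟨b, hb, rfl⟩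
    exact ⟨a + b, add_mem ha hb, map_add _ _ _⟩
  · intro z v hz hv
    obtain ⟨w, hw, rfl⟩ := hV v hv
    obtain ⟨z', hz', rfl⟩ := hz.root hl j
    exact ⟨z' * w, mem_ext hz' hw, psi_mul g hz' w⟩

theorem finite_L (hL : Nat.card {z : H // InL F l z} = Nat.card F ^ l) :
    Finite {z : H // InL F l z} := by
  apply Nat.finite_of_card_ne_zero
  rw [hL]
  exact pow_ne_zero _ Nat.card_pos.ne'

/-- coordinates -/
theorem ext_coord {V : Submodule F H} {m : ℕ} (v : Fin m → H)
    (hv : ∀ x ∈ V, ∃ c : Fin m → F, x = ∑ i, c i • v i) {y : H} (hy : y ∈ ext F l V) :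
    ∃ ζ : Fin m → H, (∀ i, InL F l (ζ i)) ∧ y = ∑ i, ζ i * v i := by
  refine ext_ind (p := fun y => ∃ ζ : Fin m → H, (∀ i, InL F l (ζ i)) ∧ y = ∑ i, ζ i * v i)
    ?_ ?_ ?_ hy
  · exact ⟨fun _ => 0, fun _ => InL.zero l, by simp⟩
  · rintro _ _ _ _ ⟨a, ha, rfl⟩ ⟨b, hb, rfl⟩
    refine ⟨fun i => a i + b i, fun i => (ha i).add (hb i), ?_⟩
    rw [← Finset.sum_add_distrib]
    exact Finset.sum_congr rfl fun i _ => by ring
  · intro z x hz hx
    obtain ⟨c, rfl⟩ := hv x hx
    refine ⟨fun i => z * algebraMap F H (c i), fun i => hz.mul (InL.const _), ?_⟩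
    rw [Finset.mul_sum]
    exact Finset.sum_congr rfl fun i _ => by rw [Algebra.smul_def, mul_assoc]

theorem finite_ext (hL : Nat.card {z : H // InL F l z} = Nat.card F ^ l) {V : Submodule F H}
    {m : ℕ} (v : Fin m → H)
    (hv : ∀ x ∈ V, ∃ c : Fin m → F, x = ∑ i, c i • v i) : Finite (ext F l V) := by
  have := finite_L hL
  have h1 : ((ext F l V : Submodule F H) : Set H) ⊆
      Set.range fun ζ : Fin m → {z : H // InL F l z} => ∑ i, (ζ i : H) * v i := by
    intro y hy
    obtain ⟨ζ, hζ, rfl⟩ := ext_coord v hv hy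
    exact ⟨fun i => ⟨ζ i, hζ i⟩, rfl⟩
  exact ((Set.finite_range _).subset h1).to_subtype

/-- the number of elements -/
theorem card_ext (hL : Nat.card {z : H // InL F l z} = Nat.card F ^ l) {V : Submodule F H}
    {m : ℕ} (v : Fin m → H) (hvV : ∀ i, v i ∈ V)
    (hv : ∀ x ∈ V, ∃ c : Fin m → F, x = ∑ i, c i • v i)
    (hdis : ∀ ζ : Fin m → H, (∀ i, InL F l (ζ i)) → ∑ i, ζ i * v i = 0 → ζ = 0) :
    Nat.card (ext F l V) = (Nat.card F ^ l) ^ m := by
  have := finite_L hL
  let f : (Fin m → {z : H // InL F l z}) → ext F l V := fun ζ =>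
    ⟨∑ i, (ζ i : H) * v i, sum_mem fun i _ => mem_ext (ζ i).2 (hvV i)⟩
  have hf : Function.Bijective f := by
    constructor
    · intro a b hab
      have h1 : ∑ i, (a i : H) * v i = ∑ i, (b i : H) * v i :=
        congrArg (fun z : ext F l V => (z : H)) hab
      have h2 := hdis (fun i => (a i : H) - b i) (fun i => (a i).2.sub (b i).2) (by
        simp only [sub_mul, Finset.sum_sub_distrib]
        rw [h1, sub_self])
      funext i
      exact Subtype.ext (sub_eq_zero.1 (congrFun h2 i))
    · rintro ⟨y, hy⟩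
      obtain ⟨ζ, hζ, rfl⟩ := ext_coord v hv hy
      exact ⟨fun i => ⟨ζ i, hζ i⟩, rfl⟩
  rw [← Nat.card_eq_of_bijective f hf, Nat.card_fun, hL, Nat.card_fin]

/-- a polynomial in `ψ ^ l` -/
theorem ext_pol {V : Submodule F H} {P : Polynomial F}
    (hP : ∀ v ∈ V, Polynomial.aeval (psi F j l g ^ l) P v = 0) {y : H} (hy : y ∈ ext F l V) :
    Polynomial.aeval (psi F j l g ^ l) P y = 0 := by
  refine ext_ind (p := fun y => Polynomial.aeval (psi F j l g ^ l) P y = 0) ?_ ?_ ?_ hy
  · rw [map_zero]
  · intro x _ y _ hx hy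
    rw [map_add, hx, hy, add_zero]
  · intro z v hz hv
    have h1 : ∀ i : ℕ, ((psi F j l g ^ l) ^ i) (z * v) = z * ((psi F j l g ^ l) ^ i) v := by
      intro i
      rw [← pow_mul, psi_pow_mul hz, show j * (l * i) = l * (j * i) by ring, hz.iter]
    rw [aeval_sum]
    have h2 := hP v hv
    rw [aeval_sum] at h2
    rw [← mul_zero z, ← h2, Finset.mul_sum]
    refine Finset.sum_congr rfl fun i _ => ?_
    rw [h1, mul_smul_comm]

/-- a monic polynomial of degree `deg N` in `(T - 1) ^ l` divisible by `N` -/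
theorem exists_charpoly (l : ℕ) {N : Polynomial F} (hN : N.Monic) : ∃ P : Polynomial F,
    P.Monic ∧ P.natDegree = N.natDegree ∧ N ∣ P.comp ((Polynomial.X - 1) ^ l) := by
  let B := AdjoinRoot.powerBasis' hN
  have hfd : Module.Finite F (AdjoinRoot N) := B.finite
  have hfr : Module.Free F (AdjoinRoot N) := Module.Free.of_basis B.basis
  let u : AdjoinRoot N := AdjoinRoot.mk N ((Polynomial.X - 1) ^ l)
  let f : AdjoinRoot N →ₗ[F] AdjoinRoot N := Algebra.lmul F (AdjoinRoot N) u
  refine ⟨f.charpoly, f.charpoly_monic, ?_, ?_⟩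
  · rw [LinearMap.charpoly_natDegree, B.finrank, AdjoinRoot.powerBasis'_dim]
  · have h1 : Polynomial.aeval f f.charpoly = 0 := f.aeval_self_charpoly
    have h2 : Polynomial.aeval f f.charpoly =
        Algebra.lmul F (AdjoinRoot N) (Polynomial.aeval u f.charpoly) := by
      exact Polynomial.aeval_algHom_apply (Algebra.lmul F (AdjoinRoot N)) u f.charpoly
    rw [h1] at h2
    have h3 := congrArg (fun φ : AdjoinRoot N →ₗ[F] AdjoinRoot N => φ 1) h2
    simp only [LinearMap.zero_apply, Algebra.coe_lmul_eq_mul, LinearMap.mul_apply', mul_one] at h3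
    rw [← AdjoinRoot.mk_eq_zero, Polynomial.comp_eq_aeval]
    have h4 : AdjoinRoot.mk N (Polynomial.aeval ((Polynomial.X - 1) ^ l) f.charpoly) =
        Polynomial.aeval u f.charpoly := by
      exact (Polynomial.aeval_algHom_apply (AdjoinRoot.mkₐ N) ((Polynomial.X - 1) ^ l)
        f.charpoly).symm
    rw [h4]
    exact h3.symm

end

end Pool.Agent.FF.FVl
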