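import Pool.Agent.FG.FVE
import Pool.Agent.FG.FVC

/-! # T6: generation of a finite space stable under `ψ` by a deep element (31) -/

set_option autoImplicit false
set_option linter.unusedSectionVars false

namespace Pool.Agent.FF.FVl

open InfJ

section

variable {F : Type*} {H : Type*} [Field F] [Finite F] [Field H] [Algebra F H] {j l D : ℕ} {g : H}
  {A : Submodule F H} {Q : DV H}

theorem InL.ord (hl : 1 ≤ l) {c : H} (hc : InL F l c) (h0 : c ≠ 0) : Q.ord c = 0 := by
  have hS := two_le_pow F hl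
  have h1 : Q.ord (c ^ Nat.card F ^ l) = Q.ord c := by rw [show c ^ Nat.card F ^ l = c from hc]
  rw [Q.ord_pow h0] at h1
  push_cast at h1
  have h2 : ((Nat.card F : ℤ) ^ l - 1) * Q.ord c = 0 := by linear_combination h1
  rcases mul_eq_zero.1 h2 with h3 | h3
  · omega
  · exact h3

theorem F0_mul (h : St F j l g D A) {c : H} (hc : InL F l c) {x : H}
    (hx : x ∈ F0 F j g Q A) : c * x ∈ F0 F j g Q A := by
  by_cases hc0 : c = 0
  · rw [hc0, zero_mul]
    exact zero_mem _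
  by_cases hx0 : x = 0
  · rw [hx0, mul_zero]
    exact zero_mem _
  refine ⟨h.mul c hc x hx.1, Or.inr ?_⟩
  rw [bL, Q.ord_mul _ _ hc0 hx0, hc.ord h.hl hc0, zero_add]
  exact hx.2.resolve_left hx0

theorem F0_psi (h : St F j l g D A) (hg : Q.ord g < 0) {x : H}
    (hx : x ∈ F0 F j g Q A) : psi F j l g x ∈ F0 F j g Q A := by
  have hR := two_le_pow F h.hj
  have hS := two_le_pow F h.hl
  by_cases hx0 : x = 0
  · rw [hx0, map_zero]
    exact zero_mem _
  have h1 := F0_ord h hg hx hx0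
  have hpos : 0 < Q.ord x := by
    by_contra h2
    push Not at h2
    nlinarith
  obtain ⟨h2, h3⟩ := step h hg hx0 (lt_of_lt_of_le hg (by
    have : (0 : ℤ) ≤ (Nat.card F : ℤ) ^ j * ((Nat.card F : ℤ) ^ l - 1) :=
      mul_nonneg (by omega) (by omega)
    exact mul_nonneg this hpos.le))
  refine ⟨h.st x hx.1, Or.inr ?_⟩
  rw [h3, show bL F j g Q x = 0 by rw [bL]; linarith, mul_zero]

/-- the iterates of a deep element -/
theorem deep_iter (h : St F j l g D A) (hg : Q.ord g < 0) {z : H} (hz : z ∈ A) (hz0 : z ≠ 0)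
    (hb : 0 < bL F j g Q z) (hv : ((Nat.card F : ℤ) ^ j) ^ (l * D) *
      (((Nat.card F : ℤ) ^ l - 1) * bL F j g Q z) = eL F j l g Q) (t : ℕ) (ht : t < l * D) :
    ∃ i, ((psi F j l g) ^ i) z ∈ UT F j l g Q A t ∧
      ((psi F j l g) ^ i) z ∉ UT F j l g Q A (t + 1) := by
  have hR := two_le_pow F h.hj
  have hS := two_le_pow F h.hl
  have hval : ∀ {x : H} {u : ℕ}, x ∈ A → x ≠ 0 → 0 < bL F j g Q x →
      ((Nat.card F : ℤ) ^ j) ^ (u + 1) * (((Nat.card F : ℤ) ^ l - 1) * bL F j g Q x) =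
        eL F j l g Q → x ∈ UT F j l g Q A u ∧ x ∉ UT F j l g Q A (u + 1) := by
    intro x u hx hx0 hbx hu
    refine ⟨⟨hx, Or.inr hu.le⟩, fun h1 => ?_⟩
    have h2 := h1.2.resolve_left hx0
    have h3 : ((Nat.card F : ℤ) ^ j) ^ (u + 1) * (((Nat.card F : ℤ) ^ l - 1) * bL F j g Q x) <
        ((Nat.card F : ℤ) ^ j) ^ (u + 1 + 1) * (((Nat.card F : ℤ) ^ l - 1) * bL F j g Q x) :=
      mul_lt_mul_of_pos_right (pow_lt_pow_right₀ (by omega) (by omega)) (mul_pos (by omega) hbx)
    rw [hu] at h3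
    exact absurd h2 (not_le.2 h3)
  obtain ⟨s, hs⟩ : ∃ s, l * D = t + 1 + s := ⟨l * D - (t + 1), by omega⟩
  refine ⟨s, ?_⟩
  -- the iterate is in layer `t`
  have key : ∀ i u : ℕ, l * D = u + 1 + i → ((psi F j l g) ^ i) z ∈ UT F j l g Q A u ∧
      ((psi F j l g) ^ i) z ∉ UT F j l g Q A (u + 1) := by
    intro i
    induction i with
    | zero =>
      intro u hu
      rw [pow_zero, Module.End.one_apply]
      rw [hu, add_zero] at hv
      exact hval hz hz0 hb hv
    | succ i ih =>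
      intro u hu
      obtain ⟨h1, h2⟩ := ih (u + 1) (by omega)
      rw [pow_succ', Module.End.mul_apply]
      exact UT_step h hg h1 h2
  exact key s t hs

/-- a deep element and `F_0` generate -/
theorem gen (h : St F j l g D A) (hg : Q.ord g < 0) {z : H} (hz : z ∈ A) (hz0 : z ≠ 0)
    (hb : 0 < bL F j g Q z) (hv : ((Nat.card F : ℤ) ^ j) ^ (l * D) *
      (((Nat.card F : ℤ) ^ l - 1) * bL F j g Q z) = eL F j l g Q) {Y : Submodule F H}
    (hYm : ∀ c : H, InL F l c → ∀ y ∈ Y, c * y ∈ Y) (hYp : ∀ y ∈ Y, psi F j l g y ∈ Y)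
    (hzY : z ∈ Y) (hF : F0 F j g Q A ≤ Y) : A ≤ Y := by
  have hit : ∀ i : ℕ, ((psi F j l g) ^ i) z ∈ Y := by
    intro i
    induction i with
    | zero => simpa using hzY
    | succ i ih =>
      rw [pow_succ', Module.End.mul_apply]
      exact hYp _ ih
  have key : ∀ s ≤ l * D, UT F j l g Q A (l * D - s) ≤ Y := by
    intro s
    induction s with
    | zero =>
      intro _
      rw [Nat.sub_zero]
      exact (UT_top_le h hg).trans hF
    | succ s ih =>
      intro hs y hy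
      obtain ⟨i, h1, h2⟩ := deep_iter h hg hz hz0 hb hv (l * D - (s + 1)) (by omega)
      obtain ⟨c, hc, h3⟩ := exists_c h hg (l * D - (s + 1)) h1 h2 hy
      rw [show l * D - (s + 1) + 1 = l * D - s by omega] at h3
      have h4 := ih (by omega) h3
      have h5 := add_mem h4 (hYm c hc _ (hit i))
      rwa [sub_add_cancel] at h5
  have h1 := key (l * D) le_rfl
  rwa [Nat.sub_self, UT_zero h hg] at h1

/-- below the deep element there is only `F_0` -/
theorem mem_F0_of_lt (h : St F j l g D A) (hg : Q.ord g < 0) {z : H}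
    (hv : ((Nat.card F : ℤ) ^ j) ^ (l * D) *
      (((Nat.card F : ℤ) ^ l - 1) * bL F j g Q z) = eL F j l g Q) {y : H} (hy : y ∈ A)
    (hlt : bL F j g Q y < bL F j g Q z) : y ∈ F0 F j g Q A := by
  have hR := two_le_pow F h.hj
  have hS := two_le_pow F h.hl
  refine ⟨hy, ?_⟩
  by_contra hno
  rw [not_or] at hno
  obtain ⟨h0, h1⟩ := hno
  push Not at h1
  obtain ⟨t, ht, h2⟩ := exists_val h hg hy h0 h1
  rw [← hv] at h2
  have h3 : ((Nat.card F : ℤ) ^ j) ^ (t + 1) * (((Nat.card F : ℤ) ^ l - 1) * bL F j g Q y) ≤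
      ((Nat.card F : ℤ) ^ j) ^ (l * D) * (((Nat.card F : ℤ) ^ l - 1) * bL F j g Q y) :=
    mul_le_mul_of_nonneg_right (pow_le_pow_right₀ (by omega) (by omega))
      (mul_nonneg (by omega) h1.le)
  have h4 : ((Nat.card F : ℤ) ^ j) ^ (l * D) * (((Nat.card F : ℤ) ^ l - 1) * bL F j g Q y) <
      ((Nat.card F : ℤ) ^ j) ^ (l * D) * (((Nat.card F : ℤ) ^ l - 1) * bL F j g Q z) :=
    mul_lt_mul_of_pos_left (mul_lt_mul_of_pos_left hlt (by omega)) (by positivity)
  linarith

end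

end Pool.Agent.FF.FVl
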