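import Pool.Agent.FG.Ram

/-! # The wild inertia group (37) -/

set_option autoImplicit false

namespace Pool.Agent.FF.Jl

section

variable {K H : Type*} [Field K] [Field H] [Algebra K H]

/-- the wild inertia group -/
def wildG (K : Type*) {H : Type*} [Field K] [Field H] [Algebra K H] (Q : DV H) :
    Subgroup (H ≃ₐ[K] H) where
  carrier := {σ | Inert Q σ ∧ ∀ z : H, z ≠ 0 → Q.G 1 (σ z / z - 1)}
  mul_mem' := by
    rintro a b ⟨ha, ha'⟩ ⟨hb, hb'⟩
    have hab : Inert Q (a * b) := by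
      intro x hx
      have h1 : (a * b) x - x = (a (b x) - b x) + (b x - x) := by
        rw [AlgEquiv.mul_apply]
        ring
      rw [h1]
      exact (ha _ ((hb.G 0 x).2 hx)).add (hb x hx)
    refine ⟨hab, fun z hz => ?_⟩
    have hbz : b z ≠ 0 := by rwa [Ne, map_eq_zero]
    have h1 : (a * b) z / z - 1 = (a (b z) / b z - 1) * (b z / z - 1) +
        (a (b z) / b z - 1) + (b z / z - 1) := by
      rw [AlgEquiv.mul_apply]
      field_simp
      ring
    rw [h1]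
    have h2 := ha' _ hbz
    have h3 := hb' _ hz
    exact ((((h2.mul h3).mono (by norm_num)).add h2).add h3)
  one_mem' := by
    refine ⟨fun x _ => ?_, fun z hz => ?_⟩
    · rw [AlgEquiv.one_apply, sub_self]
      exact DV.G_zero _
    · rw [AlgEquiv.one_apply, div_self hz, sub_self]
      exact DV.G_zero _
  inv_mem' := by
    rintro a ⟨ha, ha'⟩
    have hi : ∀ x, a (a⁻¹ x) = x := fun x => by
      rw [← AlgEquiv.mul_apply, mul_inv_cancel, AlgEquiv.one_apply]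
    refine ⟨fun x hx => ?_, fun z hz => ?_⟩
    · have h1 : Q.G 0 (a⁻¹ x) := (ha.G 0 _).1 (by rw [hi]; exact hx)
      have h2 := (ha _ h1).neg
      rw [hi, neg_sub] at h2
      exact h2
    · have hz' : a⁻¹ z ≠ 0 := by rwa [Ne, map_eq_zero]
      have h1 := ha' _ hz'
      rw [hi] at h1
      have h2 : Q.G 0 (a⁻¹ z / z) := by
        have h3 : Q.ord (a⁻¹ z) = Q.ord z := by
          rw [← ha.ord (a⁻¹ z), hi]
        exact DV.G_of_le (by rw [Q.ord_div hz' hz, h3, sub_self])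
      have h3 : a⁻¹ z / z - 1 = - ((z / a⁻¹ z - 1) * (a⁻¹ z / z)) := by
        field_simp
        ring
      rw [h3]
      have h4 := (h1.mul h2).neg
      rwa [add_zero] at h4

theorem mem_wildG {Q : DV H} {σ : H ≃ₐ[K] H} :
    σ ∈ wildG K Q ↔ Inert Q σ ∧ ∀ z : H, z ≠ 0 → Q.G 1 (σ z / z - 1) := Iff.rfl

/-! the units that are `1` at the place -/

theorem WildAux.ne {Q : DV H} {x : H} (h : Q.G 1 (x - 1)) : x ≠ 0 := by
  rintro rfl
  rw [zero_sub] at h
  have h2 := h.le (neg_ne_zero.2 one_ne_zero)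
  rw [Q.ord_neg_one] at h2
  omega

theorem WildAux.ord {Q : DV H} {x : H} (h : Q.G 1 (x - 1)) : Q.ord x = 0 := by
  have h1 := (DV.ord_add_of_lt (v := Q) (a := (1 : H)) (b := x - 1) one_ne_zero
    (by rw [Q.ord_one, zero_add]; exact h)).2
  rwa [add_sub_cancel, Q.ord_one] at h1

theorem WildAux.mul {Q : DV H} {x y : H} (hx : Q.G 1 (x - 1)) (hy : Q.G 1 (y - 1)) :
    Q.G 1 (x * y - 1) := by
  have h1 : x * y - 1 = (x - 1) * (y - 1) + (x - 1) + (y - 1) := by ring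
  rw [h1]
  exact (((hx.mul hy).mono (by norm_num)).add hx).add hy

theorem WildAux.inv {Q : DV H} {x : H} (hx : Q.G 1 (x - 1)) : Q.G 1 (x⁻¹ - 1) := by
  have h0 := WildAux.ne hx
  have h1 : x⁻¹ - 1 = -((x - 1) * x⁻¹) := by
    field_simp
    ring
  have h2 : Q.G 0 x⁻¹ := DV.G_of_le (by rw [Q.ord_inv h0, WildAux.ord hx, neg_zero])
  have h3 := (hx.mul h2).neg
  rw [add_zero] at h3
  rw [h1]
  exact h3

theorem WildAux.pow {Q : DV H} {x : H} (hx : Q.G 1 (x - 1)) (n : ℕ) : Q.G 1 (x ^ n - 1) := by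
  induction n with
  | zero =>
    rw [pow_zero, sub_self]
    exact DV.G_zero _
  | succ n ih =>
    rw [pow_succ]
    exact WildAux.mul ih hx

theorem WildAux.zpow {Q : DV H} {x : H} (hx : Q.G 1 (x - 1)) (n : ℤ) : Q.G 1 (x ^ n - 1) := by
  cases n with
  | ofNat n =>
    rw [Int.ofNat_eq_natCast, zpow_natCast]
    exact WildAux.pow hx n
  | negSucc n =>
    rw [zpow_negSucc]
    exact WildAux.inv (WildAux.pow hx _)

theorem WildAux.unit {Q : DV H} {ρ : H ≃ₐ[K] H} (hρ : Inert Q ρ) {u : H} (hu : u ≠ 0)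
    (hu0 : Q.ord u = 0) : Q.G 1 (ρ u / u - 1) := by
  have h1 : ρ u / u - 1 = (ρ u - u) * u⁻¹ := by
    field_simp
  have h2 : Q.G 0 u⁻¹ := DV.G_of_le (by rw [Q.ord_inv hu, hu0, neg_zero])
  have h3 := (hρ u (DV.G_of_le hu0.ge)).mul h2
  rw [add_zero] at h3
  rw [h1]
  exact h3

theorem WildAux.all {Q : DV H} {π : H} (hπ : Q.ord π = 1) {ρ : H ≃ₐ[K] H} (hρ : Inert Q ρ)
    (h : Q.G 1 (ρ π / π - 1)) : ρ ∈ wildG K Q := by
  have hπ0 : π ≠ 0 := by
    rintro rfl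
    rw [Q.ord_zero] at hπ
    omega
  refine ⟨hρ, fun z hz => ?_⟩
  have hp : π ^ Q.ord z ≠ 0 := zpow_ne_zero _ hπ0
  have hu : z / π ^ Q.ord z ≠ 0 := div_ne_zero hz hp
  have hu0 : Q.ord (z / π ^ Q.ord z) = 0 := by
    rw [Q.ord_div hz hp, Q.ord_zpow hπ0, hπ, mul_one, sub_self]
  have h1 := WildAux.mul (WildAux.unit hρ hu hu0) (WildAux.zpow h (Q.ord z))
  have h2 : ρ z / z = ρ (z / π ^ Q.ord z) / (z / π ^ Q.ord z) * (ρ π / π) ^ Q.ord z := by
    have h3 : ρ π ≠ 0 := by rwa [Ne, map_eq_zero]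
    have h4 : (ρ π) ^ Q.ord z ≠ 0 := zpow_ne_zero _ h3
    rw [map_div₀, map_zpow₀, div_zpow]
    field_simp
  rw [h2]
  exact h1

/-- (w0) a tame element of the inertia group -/
theorem tame_le [FiniteDimensional K H] [IsGalois K H] {Q : DV H} {v : DV K} (hQ : Over Q v)
    (hv : v.resCard ≠ 0) {π : H} (hπ : Q.ord π = 1) {ρ : H ≃ₐ[K] H} (hρ : Inert Q ρ)
    (hw : ρ ∉ wildG K Q) : ρ π - π ≠ 0 ∧ Q.ord (ρ π - π) ≤ 1 := by
  have hπ0 : π ≠ 0 := by
    rintro rfl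
    rw [Q.ord_zero] at hπ
    omega
  have h1 : ¬ Q.G 2 (ρ π - π) := by
    intro h2
    refine hw (WildAux.all hπ hρ ?_)
    have h3 : ρ π / π - 1 = (ρ π - π) * π⁻¹ := by
      field_simp
    have h4 : Q.G (-1) π⁻¹ := DV.G_of_le (by rw [Q.ord_inv hπ0, hπ])
    have h5 := h2.mul h4
    rw [h3]
    exact h5.mono (by norm_num)
  have h2 := DV.ne_zero_of_not_G h1
  refine ⟨h2, ?_⟩
  have h3 := (DV.not_G h2).1 h1
  omega

/-- the inertia group -/
def WildAux.inertG (K : Type*) {H : Type*} [Field K] [Field H] [Algebra K H] (Q : DV H) :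
    Subgroup (H ≃ₐ[K] H) where
  carrier := {σ | Inert Q σ}
  mul_mem' := by
    rintro a b ha hb
    intro x hx
    have h1 : (a * b) x - x = (a (b x) - b x) + (b x - x) := by
      rw [AlgEquiv.mul_apply]
      ring
    rw [h1]
    have hb' : Inert Q b := hb
    exact (ha _ ((hb'.G 0 x).2 hx)).add (hb x hx)
  one_mem' := by
    intro x _
    rw [AlgEquiv.one_apply, sub_self]
    exact DV.G_zero _
  inv_mem' := by
    intro a ha
    have ha' : Inert Q a := ha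
    have hi : ∀ x, a (a⁻¹ x) = x := fun x => by
      rw [← AlgEquiv.mul_apply, mul_inv_cancel, AlgEquiv.one_apply]
    intro x hx
    have h1 : Q.G 0 (a⁻¹ x) := (ha'.G 0 _).1 (by rw [hi]; exact hx)
    have h2 := (ha' _ h1).neg
    rw [hi, neg_sub] at h2
    exact h2

/-- (w1) the tame index is prime to the characteristic -/
theorem exists_tame [FiniteDimensional K H] [IsGalois K H] {p : ℕ} [Fact p.Prime] [CharP H p]
    {Q : DV H} {v : DV K} {e : ℕ} (hQ : OverE Q v e) (hv : v.resCard ≠ 0) :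
    ∃ t : ℕ, e = Nat.card (wildG K Q) * t ∧ ¬ p ∣ t := by
  classical
  obtain ⟨π, hπ0, hπ⟩ := Q.exists_one
  -- a homomorphism modulo the place
  have hmul : ∀ a b : H ≃ₐ[K] H, Inert Q a → Inert Q b →
      Q.G 1 ((a * b) π / π / ((a π / π) * (b π / π)) - 1) := by
    intro a b ha hb
    have hbπ : b π ≠ 0 := by rwa [Ne, map_eq_zero]
    have haπ : a π ≠ 0 := by rwa [Ne, map_eq_zero]
    have h1 : (a * b) π / π / ((a π / π) * (b π / π)) = a (b π / π) / (b π / π) := by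
      rw [AlgEquiv.mul_apply, map_div₀]
      have haπ' : a (b π) ≠ 0 := by rwa [Ne, map_eq_zero]
      field_simp
    rw [h1]
    exact WildAux.unit ha (div_ne_zero hbπ hπ0) (by rw [Q.ord_div hbπ hπ0, hb.ord, sub_self])
  have hpow : ∀ (a : H ≃ₐ[K] H), Inert Q a → ∀ n : ℕ, Inert Q (a ^ n) ∧
      Q.G 1 ((a ^ n) π / π / (a π / π) ^ n - 1) := by
    intro a ha n
    have haπ : a π / π ≠ 0 := div_ne_zero (by rwa [Ne, map_eq_zero]) hπ0
    induction n with
    | zero =>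
      refine ⟨(WildAux.inertG K Q).one_mem, ?_⟩
      rw [pow_zero, pow_zero, AlgEquiv.one_apply, div_self hπ0, div_one, sub_self]
      exact DV.G_zero _
    | succ n ih =>
      refine ⟨(WildAux.inertG K Q).pow_mem ha _, ?_⟩
      have h1 := WildAux.mul (hmul (a ^ n) a ih.1 ha) ih.2
      have hanπ : (a ^ n) π / π ≠ 0 := div_ne_zero (by rwa [Ne, map_eq_zero]) hπ0
      have h2 : (a ^ (n + 1)) π / π / (a π / π) ^ (n + 1) =
          (a ^ n * a) π / π / ((a ^ n) π / π * (a π / π)) * ((a ^ n) π / π / (a π / π) ^ n) := by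
        rw [pow_succ a n, pow_succ (a π / π) n]
        generalize (a ^ n * a) π / π = A
        generalize (a ^ n) π / π = B at hanπ ⊢
        generalize a π / π = C at haπ ⊢
        field_simp
      rw [h2]
      exact h1
  -- the quotient
  have hle : wildG K Q ≤ WildAux.inertG K Q := fun σ hσ => hσ.1
  have hfin : Finite (WildAux.inertG K Q) := inferInstance
  let W : Subgroup (WildAux.inertG K Q) := (wildG K Q).subgroupOf (WildAux.inertG K Q)
  have hcI : Nat.card (WildAux.inertG K Q) = e := card_inertia hQ hv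
  have hcW : Nat.card W = Nat.card (wildG K Q) :=
    Nat.card_congr (Subgroup.subgroupOfEquivOfLe hle).toEquiv
  have hmemW : ∀ σ : WildAux.inertG K Q, Q.G 1 ((σ : H ≃ₐ[K] H) π / π - 1) → σ ∈ W := fun σ hσ =>
    Subgroup.mem_subgroupOf.2 (WildAux.all hπ σ.2 hσ)
  have hofW : ∀ σ : WildAux.inertG K Q, σ ∈ W → Q.G 1 ((σ : H ≃ₐ[K] H) π / π - 1) := fun σ hσ =>
    (Subgroup.mem_subgroupOf.1 hσ).2 π hπ0
  have hnorm : W.Normal := by
    refine ⟨fun w hw g => hmemW _ ?_⟩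
    have hwi : Inert Q (w : H ≃ₐ[K] H) := w.2
    have hgi : Inert Q (g : H ≃ₐ[K] H) := g.2
    have hgi' : Inert Q ((g : H ≃ₐ[K] H)⁻¹) := (g⁻¹).2
    have hgwi : Inert Q ((g : H ≃ₐ[K] H) * (w : H ≃ₐ[K] H)) := (g * w).2
    have h1 := hmul _ _ hgwi hgi'
    have h2 := hmul _ _ hgi hwi
    have h3 := hmul _ _ hgi hgi'
    have h4 := hofW w hw
    rw [mul_inv_cancel, AlgEquiv.one_apply, div_self hπ0] at h3
    have hne : ∀ σ : H ≃ₐ[K] H, σ π / π ≠ 0 := fun σ =>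
      div_ne_zero (by rwa [Ne, map_eq_zero]) hπ0
    have h5 := WildAux.mul (WildAux.mul (WildAux.mul h1 h2) (WildAux.inv h3)) h4
    have h6 : ((g * w * g⁻¹ : WildAux.inertG K Q) : H ≃ₐ[K] H) π / π =
        ((g : H ≃ₐ[K] H) * (w : H ≃ₐ[K] H) * (g : H ≃ₐ[K] H)⁻¹) π / π /
          (((g : H ≃ₐ[K] H) * (w : H ≃ₐ[K] H)) π / π * (((g : H ≃ₐ[K] H)⁻¹) π / π)) *
        (((g : H ≃ₐ[K] H) * (w : H ≃ₐ[K] H)) π / π / ((g : H ≃ₐ[K] H) π / π * ((w : H ≃ₐ[K] H) π / π))) *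
        (1 / ((g : H ≃ₐ[K] H) π / π * (((g : H ≃ₐ[K] H)⁻¹) π / π)))⁻¹ *
        ((w : H ≃ₐ[K] H) π / π) := by
      have e1 : ((g * w * g⁻¹ : WildAux.inertG K Q) : H ≃ₐ[K] H) =
        (g : H ≃ₐ[K] H) * (w : H ≃ₐ[K] H) * (g : H ≃ₐ[K] H)⁻¹ := rfl
      rw [e1]
      have n1 := hne ((g : H ≃ₐ[K] H) * (w : H ≃ₐ[K] H))
      have n2 := hne ((g : H ≃ₐ[K] H)⁻¹)
      have n3 := hne (g : H ≃ₐ[K] H)
      have n4 := hne (w : H ≃ₐ[K] H)
      generalize ((g : H ≃ₐ[K] H) * (w : H ≃ₐ[K] H) * (g : H ≃ₐ[K] H)⁻¹) π / π = A0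
      generalize ((g : H ≃ₐ[K] H) * (w : H ≃ₐ[K] H)) π / π = A1 at n1 ⊢
      generalize ((g : H ≃ₐ[K] H)⁻¹) π / π = A2 at n2 ⊢
      generalize (g : H ≃ₐ[K] H) π / π = A3 at n3 ⊢
      generalize (w : H ≃ₐ[K] H) π / π = A4 at n4 ⊢
      field_simp
    rw [h6]
    exact h5
  refine ⟨Nat.card (WildAux.inertG K Q ⧸ W), ?_, fun hp => ?_⟩
  · rw [← hcI, ← hcW, mul_comm]
    exact Subgroup.card_eq_card_quotient_mul_card_subgroup W
  · obtain ⟨x, hx⟩ := exists_prime_orderOf_dvd_card' p hp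
    obtain ⟨σ, rfl⟩ := QuotientGroup.mk_surjective x
    have h1 : σ ^ p ∈ W := by
      rw [← QuotientGroup.eq_one_iff, QuotientGroup.mk_pow, ← hx, pow_orderOf_eq_one]
    have hσi : Inert Q (σ : H ≃ₐ[K] H) := σ.2
    have h2 := hofW _ h1
    have h3 := (hpow _ hσi p).2
    have hne : (σ : H ≃ₐ[K] H) π / π ≠ 0 := div_ne_zero (by rwa [Ne, map_eq_zero]) hπ0
    have h4 := WildAux.mul (WildAux.inv h3) h2
    have h5 : ((((σ : H ≃ₐ[K] H) ^ p) π / π / ((σ : H ≃ₐ[K] H) π / π) ^ p)⁻¹ *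
        (((σ ^ p : WildAux.inertG K Q) : H ≃ₐ[K] H) π / π)) = ((σ : H ≃ₐ[K] H) π / π) ^ p := by
      have e1 : ((σ ^ p : WildAux.inertG K Q) : H ≃ₐ[K] H) = (σ : H ≃ₐ[K] H) ^ p := rfl
      rw [e1]
      have n1 : ((σ : H ≃ₐ[K] H) ^ p) π / π ≠ 0 := div_ne_zero (by rwa [Ne, map_eq_zero]) hπ0
      generalize ((σ : H ≃ₐ[K] H) ^ p) π / π = A0 at n1 ⊢
      field_simp
    rw [h5] at h4
    have h6 : Q.G 1 ((σ : H ≃ₐ[K] H) π / π - 1) := by
      rw [← one_pow (M := H) p, ← sub_pow_char] at h4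
      rcases h4 with h7 | h7
      · exact Or.inl (pow_eq_zero_iff (Fact.out : p.Prime).ne_zero |>.1 h7)
      · by_cases h8 : (σ : H ≃ₐ[K] H) π / π - 1 = 0
        · exact Or.inl h8
        · refine Or.inr ?_
          rw [Q.ord_pow h8] at h7
          by_contra h9
          push Not at h9
          have h10 : (0 : ℤ) ≤ p := Int.natCast_nonneg p
          nlinarith
    have h7 : (QuotientGroup.mk σ : WildAux.inertG K Q ⧸ W) = 1 :=
      (QuotientGroup.eq_one_iff σ).2 (hmemW σ h6)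
    rw [h7, orderOf_one] at hx
    exact (Fact.out : p.Prime).one_lt.ne hx

end

end Pool.Agent.FF.Jl
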