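import Pool.Agent.FG.Inf
import Pool.Agent.FG.Wild
import Pool.Agent.FG.FVG
import Pool.Agent.FF.RatAd

/-! # The wild inertia group at infinity (31, 81; page H/e9b03e_T6_31) -/

set_option autoImplicit false
set_option linter.unusedSectionVars false

namespace Pool.Agent.FF.Jl

namespace FVA

open FVl

section general

variable {F : Type*} {H : Type*} [Field F] [Finite F] [Field H] [Algebra F H] {j l : ℕ} {g : H}

theorem psi_eq (g : H) : psi F j l g = phT F j l g - 1 := by
  refine LinearMap.ext fun x => ?_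
  rw [LinearMap.sub_apply, Module.End.one_apply, psi_apply, phT_apply]
  ring

theorem VN_phT {N : Polynomial F} {x : H} (hx : x ∈ VN F j l g N) :
    phT F j l g x ∈ VN F j l g N := by
  have := phN_mem g Polynomial.X N hx
  rwa [phN, Polynomial.aeval_X] at this

theorem psi_V {N : Polynomial F} {x : H} (hx : x ∈ VN F j l g N) :
    psi F j l g x ∈ VN F j l g N := by
  rw [psi_eq, LinearMap.sub_apply, Module.End.one_apply]
  exact sub_mem (VN_phT hx) hx

theorem psi_surj {N : Polynomial F} (h1 : N.eval 1 ≠ 0) {x : H} (hx : x ∈ VN F j l g N) :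
    ∃ w ∈ VN F j l g N, psi F j l g w = x := by
  have hc : IsCoprime (Polynomial.X - Polynomial.C 1) N := by
    refine ((Polynomial.irreducible_X_sub_C (1 : F)).coprime_iff_not_dvd).2 fun h => h1 ?_
    exact Polynomial.dvd_iff_isRoot.1 h
  obtain ⟨a, b, hab⟩ := hc
  refine ⟨phN F j l g a x, phN_mem g a N hx, ?_⟩
  have h2 : psi F j l g = phN F j l g (Polynomial.X - Polynomial.C 1) := by
    rw [psi_eq, phN, map_sub, Polynomial.aeval_X, map_one, map_one]
  rw [h2, ← phN_mul, mul_comm]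
  have h3 : phN F j l g (a * (Polynomial.X - Polynomial.C 1) + b * N) x = x := by
    rw [hab, phN, map_one, Module.End.one_apply]
  have h4 : phN F j l g (a * (Polynomial.X - Polynomial.C 1) + b * N) x =
      phN F j l g (a * (Polynomial.X - Polynomial.C 1)) x + phN F j l g (b * N) x := by
    rw [phN, map_add, LinearMap.add_apply]
    rfl
  have h5 : phN F j l g (b * N) x = 0 := by
    rw [phN_mul, LinearMap.mem_ker.1 hx, map_zero]
  rw [h4, h5, add_zero] at h3
  exact h3

theorem psi_pow_V {N : Polynomial F} {a : ℕ} (ha : N ∣ (Polynomial.X - 1) ^ a - 1) {x : H}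
    (hx : x ∈ VN F j l g N) : ((psi F j l g) ^ a) x = x := by
  obtain ⟨M, hM⟩ := ha
  have h1 : phN F j l g ((Polynomial.X - 1) ^ a - 1) x = 0 := by
    rw [hM, mul_comm, phN_mul, LinearMap.mem_ker.1 hx, map_zero]
  rw [phN, map_sub, map_pow, map_sub, Polynomial.aeval_X, map_one, ← psi_eq,
    LinearMap.sub_apply, Module.End.one_apply, sub_eq_zero] at h1
  exact h1

theorem psi_pol {N P : Polynomial F} (hP : N ∣ P.comp ((Polynomial.X - 1) ^ l)) {x : H}
    (hx : x ∈ VN F j l g N) : Polynomial.aeval (psi F j l g ^ l) P x = 0 := by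
  obtain ⟨M, hM⟩ := hP
  have h1 : phN F j l g (P.comp ((Polynomial.X - 1) ^ l)) x = 0 := by
    rw [hM, mul_comm, phN_mul, LinearMap.mem_ker.1 hx, map_zero]
  rw [phN, Polynomial.aeval_comp, map_pow, map_sub, Polynomial.aeval_X, map_one, ← psi_eq] at h1
  exact h1

theorem finite_V (hl : 0 < l) {N : Polynomial F} (hN : N ≠ 0) : Finite (VN F j l g N) :=
  finite_VN hl g hN

/-- a basis of the torsion -/
theorem exists_basis (W : Submodule F H) [Finite W] : ∃ (m : ℕ) (v : Fin m → H),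
    (∀ i, v i ∈ W) ∧ LinearIndependent F v ∧ (∀ x ∈ W, ∃ c : Fin m → F, x = ∑ i, c i • v i) ∧
      Nat.card W = Nat.card F ^ m := by
  have hfd : Module.Finite F W := Module.Finite.of_finite
  let b := Module.finBasis F W
  refine ⟨_, fun i => (b i : H), fun i => (b i).2, ?_, fun x hx => ?_, ?_⟩
  · exact b.linearIndependent.map' W.subtype (Submodule.ker_subtype W)
  · refine ⟨fun i => b.repr ⟨x, hx⟩ i, ?_⟩
    have h1 := congrArg (fun w : W => (w : H)) (b.sum_repr ⟨x, hx⟩)
    simp only [Submodule.coe_sum, Submodule.coe_smul] at h1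
    exact h1.symm
  · exact Module.natCard_eq_pow_finrank (K := F) (V := W)

/-- the span of the torsion is stable -/
theorem st (hj : 0 < j) (hl : 0 < l) {N : Polynomial F} (hN : N.Monic) (h1 : N.eval 1 ≠ 0)
    (hL : Nat.card {z : H // InL F l z} = Nat.card F ^ l) :
    St F j l g N.natDegree (ext F l (VN F j l g N)) := by
  have hf := finite_V (j := j) (g := g) hl hN.ne_zero
  obtain ⟨m, v, hvV, -, hv, -⟩ := exists_basis (VN F j l g N)
  have hfin := finite_ext hL v hv
  obtain ⟨P, hPm, hPd, hP⟩ := exists_charpoly l hN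
  refine ⟨hj, hl, hL, hfin, fun z hz x hx => ext_mul hz hx,
    fun x hx => ext_psi (fun v hv => psi_V hv) hx, ?_, P, hPm, hPd,
    fun x hx => ext_pol (fun v hv => psi_pol hP hv) hx⟩
  -- injectivity
  let f : ext F l (VN F j l g N) → ext F l (VN F j l g N) := fun x =>
    ⟨psi F j l g x, ext_psi (fun v hv => psi_V hv) x.2⟩
  have hs : Function.Surjective f := by
    rintro ⟨y, hy⟩
    obtain ⟨x, hx, rfl⟩ := ext_surj (j := j) (g := g) hl (fun v hv => psi_surj h1 hv) hy
    exact ⟨⟨x, hx⟩, rfl⟩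
  have hi := Finite.injective_iff_surjective.2 hs
  intro x hx h0
  have h2 : f ⟨x, hx⟩ = f ⟨0, zero_mem _⟩ := Subtype.ext (by
    show psi F j l g x = psi F j l g 0
    rw [h0, map_zero])
  exact congrArg (fun w : ext F l (VN F j l g N) => (w : H)) (hi h2)

/-- the number of elements of a span -/
theorem card_ext_sub (hjl : Nat.Coprime j l) {N : Polynomial F} (hN : OrdG l N)
    (hL : Nat.card {z : H // InL F l z} = Nat.card F ^ l) (W : Submodule F H) [Finite W]
    (hW : W ≤ VN F j l g N) : Nat.card (ext F l W) = Nat.card W ^ l := by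
  obtain ⟨a, -, hal, ha⟩ := hN
  obtain ⟨m, v, hvV, hli, hv, hc⟩ := exists_basis W
  rw [card_ext hL v hvV hv fun ζ hζ h0 => disj (j := j) (g := g) hjl hal v
    (fun i => psi_pow_V ha (hW (hvV i))) hli _ ζ hζ le_rfl h0, hc, ← pow_mul, ← pow_mul, mul_comm]

/-- a basis of the field with `r ^ l` elements -/
theorem exists_sum (hL : Nat.card {z : H // InL F l z} = Nat.card F ^ l) :
    ∃ ζ : Fin l → H, (∀ i, InL F l (ζ i)) ∧ ∀ (V : Submodule F H) (x : H), x ∈ ext F l V →
      ∃ y : Fin l → H, (∀ i, y i ∈ V) ∧ x = ∑ i, ζ i * y i := by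
  have hfin := finite_L hL
  let L : Submodule F H :=
    { carrier := {z | InL F l z}
      zero_mem' := InL.zero l
      add_mem' := fun hx hy => InL.add hx hy
      smul_mem' := fun c x hx => by
        show InL F l (c • x)
        rw [Algebra.smul_def]
        exact (InL.const c).mul hx }
  have hfL : Finite L := hfin
  have hcL : Nat.card L = Nat.card F ^ l := hL
  obtain ⟨m, v, hvL, -, hv, hm⟩ := exists_basis L
  rw [hcL] at hm
  have hr : 1 < Nat.card F := Finite.one_lt_card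
  have hml : l = m := Nat.pow_right_injective hr hm
  subst hml
  refine ⟨v, hvL, fun V x hx => ?_⟩
  refine ext_ind (p := fun x => ∃ y : Fin l → H, (∀ i, y i ∈ V) ∧ x = ∑ i, v i * y i)
    ?_ ?_ ?_ hx
  · exact ⟨fun _ => 0, fun _ => zero_mem _, by simp⟩
  · rintro _ _ _ _ ⟨a, ha, rfl⟩ ⟨b, hb, rfl⟩
    refine ⟨fun i => a i + b i, fun i => add_mem (ha i) (hb i), ?_⟩
    rw [← Finset.sum_add_distrib]
    exact Finset.sum_congr rfl fun i _ => by ring
  · intro z x hz hx
    obtain ⟨c, hc⟩ := hv z hz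
    refine ⟨fun i => c i • x, fun i => Submodule.smul_mem _ _ hx, ?_⟩
    rw [hc, Finset.sum_mul]
    exact Finset.sum_congr rfl fun i _ => by rw [smul_mul_assoc, mul_smul_comm]

end general

section

variable {F k H : Type} {j l : ℕ} [Field F] [Finite F] [Field k] [Finite k] [Field H]
  [Algebra F k] [Algebra F H] [Algebra k H] [Algebra (RatFunc k) H]
  [IsScalarTower k (RatFunc k) H]

theorem ord_g {Q : DV H} (hQ : Over Q (Rat.inf k)) : Q.ord (gX k H) < 0 := by
  obtain ⟨e, he, h⟩ := hQ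
  have h1 : Q.ord (gX k H) = e * (Rat.inf k).ord RatFunc.X := h _ RatFunc.X_ne_zero
  rw [h1, Rat.inf_X]
  linarith

theorem cardL {N : Polynomial F} (h : DrS F j l k H N) :
    Nat.card {z : H // InL F l z} = Nat.card F ^ l := h.cardC

theorem cardA {N : Polynomial F} (h : DrS F j l k H N) (hN : OrdG l N) :
    Nat.card (ext F l (VN F j l (gX k H) N)) =
      (Nat.card F ^ l) ^ ((j + l) * N.natDegree) := by
  have hf := finite_V (j := j) (g := gX k H) h.pos' h.monic.ne_zero
  rw [card_ext_sub h.cop hN (cardL h) _ le_rfl, h.cardV, ← pow_mul, ← pow_mul, mul_comm]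

theorem stA {N : Polynomial F} (h : DrS F j l k H N) :
    St F j l (gX k H) N.natDegree (ext F l (VN F j l (gX k H) N)) :=
  st h.pos h.pos' h.monic h.one (cardL h)

theorem aut_g (σ : H ≃ₐ[RatFunc k] H) : σ (gX k H) = gX k H := σ.commutes _

theorem aut_psi (σ : H ≃ₐ[RatFunc k] H) (x : H) :
    σ (psi F j l (gX k H) x) = psi F j l (gX k H) (σ x) := by
  rw [psi_apply, psi_apply, map_sub, map_mul, map_pow, map_pow, aut_g]

theorem aut_L (σ : H ≃ₐ[RatFunc k] H) {z : H} (hz : InL F l z) : InL F l (σ z) := by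
  unfold InL at *
  rw [← map_pow, hz]

theorem aut_const {N : Polynomial F} (h : DrS F j l k H N) (σ : H ≃ₐ[RatFunc k] H) (c : F) :
    σ (algebraMap F H c) = algebraMap F H c := by
  rw [h.tower]
  exact σ.commutes _

theorem aut_V {N : Polynomial F} (h : DrS F j l k H N) (σ : H ≃ₐ[RatFunc k] H) {x : H}
    (hx : x ∈ VN F j l (gX k H) N) : σ x ∈ VN F j l (gX k H) N := by
  let s : H →ₐ[F] H :=
    { toRingHom := (σ : H →+* H)
      commutes' := fun c => aut_const h σ c }
  have h1 : ∀ y : H, s y = σ y := fun _ => rfl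
  have h2 := map_phN (j := j) (l := l) s (gX k H) x N
  rw [h1, h1, h1, aut_g, LinearMap.mem_ker.1 hx, map_zero] at h2
  exact LinearMap.mem_ker.2 h2.symm

theorem aut_A {N : Polynomial F} (h : DrS F j l k H N) (σ : H ≃ₐ[RatFunc k] H) {x : H}
    (hx : x ∈ ext F l (VN F j l (gX k H) N)) : σ x ∈ ext F l (VN F j l (gX k H) N) := by
  refine ext_ind (p := fun x => σ x ∈ ext F l (VN F j l (gX k H) N)) ?_ ?_ ?_ hx
  · rw [map_zero]
    exact zero_mem _
  · intro x _ y _ hx hy
    rw [map_add]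
    exact add_mem hx hy
  · intro z v hz hv
    rw [map_mul]
    exact mem_ext (aut_L σ hz) (aut_V h σ hv)

/-- the inertia group fixes the field with `r ^ l` elements -/
theorem inert_L (hl : 1 ≤ l) {Q : DV H} {σ : H ≃ₐ[RatFunc k] H} (hσ : Inert Q σ) {z : H}
    (hz : InL F l z) : σ z = z := by
  by_contra hne
  have h0 : z ≠ 0 := by
    rintro rfl
    exact hne (map_zero _)
  have h1 := hσ z (DV.G_of_le (hz.ord hl h0).ge)
  have h2 : InL F l (σ z - z) := (aut_L σ hz).sub hz
  have h3 : σ z - z ≠ 0 := sub_ne_zero.2 hne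
  have h4 := h1.le h3
  rw [h2.ord hl h3] at h4
  omega

/-- the set of elements moved into `F_0` -/
def Y1 (F : Type) {k H : Type} [Field F] [Finite F] [Field k] [Field H] [Algebra F H]
    [Algebra (RatFunc k) H] (σ : H ≃ₐ[RatFunc k] H) (hc : ∀ c : F, σ (algebraMap F H c) =
      algebraMap F H c) (B : Submodule F H) : Submodule F H where
  carrier := {y | σ y - y ∈ B}
  zero_mem' := by
    show σ 0 - 0 ∈ B
    rw [map_zero, sub_zero]
    exact zero_mem _
  add_mem' := by
    intro x y hx hy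
    show σ (x + y) - (x + y) ∈ B
    rw [map_add, add_sub_add_comm]
    exact add_mem hx hy
  smul_mem' := by
    intro c x hx
    show σ (c • x) - c • x ∈ B
    rw [Algebra.smul_def, map_mul, hc, ← mul_sub, ← Algebra.smul_def]
    exact Submodule.smul_mem _ c hx

theorem lt_of_wild {Q : DV H} {σ : H ≃ₐ[RatFunc k] H} (hσ : σ ∈ wildG (RatFunc k) Q) {y : H}
    (hy : y ≠ 0) (h1 : σ y - y ≠ 0) : Q.ord y < Q.ord (σ y - y) := by
  have h2 := (mem_wildG.1 hσ).2 y hy
  have h3 : σ y / y - 1 = (σ y - y) / y := by field_simp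
  rw [h3] at h2
  have h4 := h2.le (div_ne_zero h1 hy)
  rw [Q.ord_div h1 hy] at h4
  omega

variable {N : Polynomial F} {Q : DV H} {σ : H ≃ₐ[RatFunc k] H}

/-- the wild inertia group is trivial on `F_0` -/
theorem wild_F0 (h : DrS F j l k H N) (hg : Q.ord (gX k H) < 0)
    (hσ : σ ∈ wildG (RatFunc k) Q) {y : H}
    (hy : y ∈ F0 F j (gX k H) Q (ext F l (VN F j l (gX k H) N))) : σ y = y := by
  by_contra hne
  have h1 : σ y - y ≠ 0 := sub_ne_zero.2 hne
  have h0 : y ≠ 0 := by
    rintro rfl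
    exact hne (map_zero _)
  have h2 := lt_of_wild hσ h0 h1
  have h3 := ord_le (stA h) hg (sub_mem (aut_A h σ hy.1) hy.1) h1
  have h4 := F0_ord (stA h) hg hy h0
  have hR := InfJ.two_le_pow F h.pos
  rw [← h4] at h3
  have h5 := le_of_mul_le_mul_left h3 (by omega)
  omega

theorem bL_lt (h : DrS F j l k H N) (hσ : σ ∈ wildG (RatFunc k) Q) {y : H}
    (hy : y ≠ 0) (h1 : σ y - y ≠ 0) :
    bL F j (gX k H) Q (σ y - y) < bL F j (gX k H) Q y := by
  have h2 := lt_of_wild hσ hy h1
  have hR := InfJ.two_le_pow F h.pos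
  rw [bL, bL]
  have := mul_lt_mul_of_pos_left h2 (by omega : (0 : ℤ) < (Nat.card F : ℤ) ^ j - 1)
  linarith

/-- the wild inertia group moves everything into `F_0` -/
theorem wild_A (h : DrS F j l k H N) (hN : OrdG l N) (hg : Q.ord (gX k H) < 0)
    (hσ : σ ∈ wildG (RatFunc k) Q) {y : H} (hy : y ∈ ext F l (VN F j l (gX k H) N)) :
    σ y - y ∈ F0 F j (gX k H) Q (ext F l (VN F j l (gX k H) N)) := by
  rcases Nat.eq_zero_or_pos N.natDegree with hD | hD
  · have h1 := cardA h hN
    rw [hD, mul_zero, pow_zero] at h1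
    have h2 : y = 0 := by
      have h3 := (Nat.card_eq_one_iff_unique.1 h1).1
      exact congrArg (fun w : ext F l (VN F j l (gX k H) N) => (w : H))
        (h3.elim ⟨y, hy⟩ ⟨0, zero_mem _⟩)
    rw [h2, map_zero, sub_zero]
    exact zero_mem _
  obtain ⟨z, hz, hz0, hb, hv⟩ := exists_deep (Q := Q) (stA h) hg (cardA h hN) hD
  have hzF : σ z - z ∈ F0 F j (gX k H) Q (ext F l (VN F j l (gX k H) N)) := by
    by_cases h0 : σ z - z = 0
    · rw [h0]
      exact zero_mem _
    · exact mem_F0_of_lt (stA h) hg hv (sub_mem (aut_A h σ hz) hz) (bL_lt h hσ hz0 h0)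
  have hgen := gen (stA h) hg hz hz0 hb hv
    (Y := Y1 F σ (aut_const h σ) (F0 F j (gX k H) Q (ext F l (VN F j l (gX k H) N)))) ?_ ?_
    hzF ?_
  · exact hgen hy
  · intro c hc y hy
    show σ (c * y) - c * y ∈ F0 F j (gX k H) Q (ext F l (VN F j l (gX k H) N))
    rw [map_mul, inert_L h.pos' (mem_wildG.1 hσ).1 hc, ← mul_sub]
    exact F0_mul (stA h) hc hy
  · intro y hy
    show σ (psi F j l (gX k H) y) - psi F j l (gX k H) y ∈
      F0 F j (gX k H) Q (ext F l (VN F j l (gX k H) N))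
    rw [aut_psi, ← map_sub]
    exact F0_psi (stA h) hg hy
  · intro y hy
    show σ y - y ∈ F0 F j (gX k H) Q (ext F l (VN F j l (gX k H) N))
    rw [wild_F0 h hg hσ hy, sub_self]
    exact zero_mem _

/-- an automorphism which fixes the torsion and the constants is trivial -/
theorem eq_one (h : DrS F j l k H N) (h1 : ∀ x ∈ VN F j l (gX k H) N, σ x = x)
    (h2 : ∀ z : H, InL F l z → σ z = z) : σ = 1 := by
  have h3 : (⊤ : IntermediateField (RatFunc k) H) ≤
      IntermediateField.fixedField (Subgroup.zpowers σ) := by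
    rw [← h.gen, IntermediateField.adjoin_le_iff]
    intro x hx
    have hx' : σ x = x := by
      rcases hx with hx | hx
      · exact h1 x hx
      · exact h2 x hx
    rintro ⟨τ, hτ⟩
    obtain ⟨n, rfl⟩ := Subgroup.mem_zpowers_iff.1 hτ
    show (σ ^ n) x = x
    have h4 : σ ∈ MulAction.stabilizer (H ≃ₐ[RatFunc k] H) x := hx'
    exact zpow_mem h4 n
  refine AlgEquiv.ext fun x => ?_
  have h4 := h3 (IntermediateField.mem_top (x := x))
  exact h4 ⟨σ, Subgroup.mem_zpowers σ⟩

/-- an element of the wild inertia group which fixes a deep element is trivial -/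
theorem wild_eq_one (h : DrS F j l k H N) (hg : Q.ord (gX k H) < 0)
    (hσ : σ ∈ wildG (RatFunc k) Q) {z : H} (hz : z ∈ ext F l (VN F j l (gX k H) N))
    (hz0 : z ≠ 0) (hb : 0 < bL F j (gX k H) Q z)
    (hv : ((Nat.card F : ℤ) ^ j) ^ (l * N.natDegree) *
      (((Nat.card F : ℤ) ^ l - 1) * bL F j (gX k H) Q z) = eL F j l (gX k H) Q)
    (hσz : σ z = z) : σ = 1 := by
  have hgen := gen (stA h) hg hz hz0 hb hv (Y := Y1 F σ (aut_const h σ) ⊥) ?_ ?_ ?_ ?_
  · refine eq_one h (fun x hx => ?_) fun z hz => inert_L h.pos' (mem_wildG.1 hσ).1 hz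
    have h1 := hgen (le_ext hx)
    exact sub_eq_zero.1 ((Submodule.mem_bot F).1 h1)
  · intro c hc y hy
    have hy' : σ y - y ∈ (⊥ : Submodule F H) := hy
    rw [Submodule.mem_bot] at hy'
    show σ (c * y) - c * y ∈ (⊥ : Submodule F H)
    rw [map_mul, inert_L h.pos' (mem_wildG.1 hσ).1 hc, ← mul_sub, hy', mul_zero]
    exact zero_mem _
  · intro y hy
    have hy' : σ y - y ∈ (⊥ : Submodule F H) := hy
    rw [Submodule.mem_bot] at hy'
    show σ (psi F j l (gX k H) y) - psi F j l (gX k H) y ∈ (⊥ : Submodule F H)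
    rw [aut_psi, ← map_sub, hy', map_zero]
    exact zero_mem _
  · show σ z - z ∈ (⊥ : Submodule F H)
    rw [hσz, sub_self]
    exact zero_mem _
  · intro y hy
    show σ y - y ∈ (⊥ : Submodule F H)
    rw [wild_F0 h hg hσ hy, sub_self]
    exact zero_mem _

theorem mem_V0 (h : DrS F j l k H N) (hg : Q.ord (gX k H) < 0) {y : H}
    (hy : y ∈ VN F j l (gX k H) N)
    (h1 : y ∈ F0 F j (gX k H) Q (ext F l (VN F j l (gX k H) N))) :
    y ∈ V0 F j l (gX k H) Q N := by
  by_cases h0 : y = 0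
  · rw [h0]
    exact zero_mem _
  have h2 := F0_ord (stA h) hg h1 h0
  refine ⟨hy, DV.G_of_le ?_, Or.inr h2.ge⟩
  by_contra h3
  push Not at h3
  have := InfJ.two_le_pow F h.pos
  nlinarith

theorem V0_F0 {y : H} (hy : y ∈ V0 F j l (gX k H) Q N) :
    y ∈ F0 F j (gX k H) Q (ext F l (VN F j l (gX k H) N)) := by
  refine ⟨le_ext hy.1, ?_⟩
  rcases hy.2.2 with h1 | h1
  · exact Or.inl h1
  · right
    rw [bL]
    linarith

theorem V0_le : V0 F j l (gX k H) Q N ≤ VN F j l (gX k H) N := fun _ hy => hy.1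

theorem finite_V0 (h : DrS F j l k H N) : Finite (V0 F j l (gX k H) Q N) := by
  have hf := finite_V (j := j) (g := gX k H) h.pos' h.monic.ne_zero
  have h1 : (V0 F j l (gX k H) Q N : Set H).Finite :=
    (Set.toFinite (VN F j l (gX k H) N : Set H)).subset V0_le
  exact h1.to_subtype

/-- `ext V_0 ⊆ F_0` -/
theorem ext_V0_le (h : DrS F j l k H N) :
    ext F l (V0 F j l (gX k H) Q N) ≤
      F0 F j (gX k H) Q (ext F l (VN F j l (gX k H) N)) := by
  intro x hx
  refine ext_ind (p := fun x => x ∈ F0 F j (gX k H) Q (ext F l (VN F j l (gX k H) N)))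
    (zero_mem _) ?_ ?_ hx
  · intro x _ y _ hx hy
    exact add_mem hx hy
  · intro z v hz hv
    exact F0_mul (stA h) hz (V0_F0 hv)

/-- the moves of a deep element -/
theorem card_wild_le (h : DrS F j l k H N) (hN : OrdG l N) (hg : Q.ord (gX k H) < 0) :
    Nat.card (wildG (RatFunc k) Q) ≤ Nat.card F ^ (j * l * N.natDegree) := by
  have := h.fin
  rcases Nat.eq_zero_or_pos N.natDegree with hD | hD
  · have h1 := h.cardV
    rw [hD, mul_zero, pow_zero] at h1
    rw [hD, mul_zero, pow_zero]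
    have h2 : ∀ x ∈ VN F j l (gX k H) N, x = 0 := by
      intro x hx
      have h3 := (Nat.card_eq_one_iff_unique.1 h1).1
      exact congrArg (fun w : VN F j l (gX k H) N => (w : H)) (h3.elim ⟨x, hx⟩ ⟨0, zero_mem _⟩)
    have h4 : wildG (RatFunc k) Q = ⊥ := by
      rw [Subgroup.eq_bot_iff_forall]
      intro σ hσ
      refine eq_one h (fun x hx => ?_) fun z hz => inert_L h.pos' (mem_wildG.1 hσ).1 hz
      rw [h2 x hx, map_zero]
    rw [h4, Subgroup.card_bot]
  obtain ⟨z, hz, hz0, hb, hv⟩ := exists_deep (Q := Q) (stA h) hg (cardA h hN) hD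
  have hfin : Finite (F0 F j (gX k H) Q (ext F l (VN F j l (gX k H) N))) :=
    finite_F0 (stA h)
  have h1 := (card_UT (Q := Q) (stA h) hg (cardA h hN) (Nat.zero_le _)).2
  have h2 : Nat.card (wildG (RatFunc k) Q) ≤
      Nat.card (F0 F j (gX k H) Q (ext F l (VN F j l (gX k H) N))) := by
    refine Nat.card_le_card_of_injective
      (fun σ : wildG (RatFunc k) Q => (⟨σ.1 z - z, wild_A h hN hg σ.2 hz⟩ :
        F0 F j (gX k H) Q (ext F l (VN F j l (gX k H) N)))) ?_
    intro σ τ hστ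
    have h3 : σ.1 z - z = τ.1 z - z := congrArg (fun w : F0 F j (gX k H) Q
      (ext F l (VN F j l (gX k H) N)) => (w : H)) hστ
    have h4 : σ.1 z = τ.1 z := sub_left_injective h3
    have h5 : (τ⁻¹ * σ).1 z = z := by
      show τ.1.symm (σ.1 z) = z
      rw [h4, AlgEquiv.symm_apply_apply]
    have h6 := wild_eq_one h hg (τ⁻¹ * σ).2 hz hz0 hb hv h5
    have h7 : τ⁻¹ * σ = 1 := Subtype.ext h6
    exact (inv_mul_eq_one.1 h7).symm
  rw [h1, ← pow_mul] at h2
  refine h2.trans (le_of_eq ?_)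
  congr 1
  ring

theorem exists_overE (hQ : Over Q (Rat.inf k)) : ∃ e : ℕ, OverE Q (Rat.inf k) e ∧
    (e : ℤ) = - Q.ord (gX k H) := by
  obtain ⟨e, he, h⟩ := hQ
  have h1 : ((e.toNat : ℕ) : ℤ) = e := Int.toNat_of_nonneg he.le
  refine ⟨e.toNat, ⟨by omega, fun a => ?_⟩, ?_⟩
  · by_cases ha : a = 0
    · rw [ha, map_zero, Q.ord_zero, (Rat.inf k).ord_zero, mul_zero]
    · rw [h a ha, h1]
  · have h2 : Q.ord (gX k H) = e * (Rat.inf k).ord RatFunc.X := h _ RatFunc.X_ne_zero
    rw [h2, h1, Rat.inf_X]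
    ring

/-- the exact order of the wild inertia group -/
theorem card_wild' (h : DrS F j l k H N) (hN : OrdG l N) (hQ : Over Q (Rat.inf k)) :
    Nat.card (wildG (RatFunc k) Q) = Nat.card F ^ (j * l * N.natDegree) := by
  have := h.fin
  have := h.gal
  have hg := ord_g hQ
  refine le_antisymm (card_wild_le h hN hg) ?_
  obtain ⟨e, hE, he⟩ := exists_overE hQ
  obtain ⟨p, hp⟩ := CharP.exists F
  have hpr : p.Prime := CharP.char_is_prime F p
  have : Fact p.Prime := ⟨hpr⟩
  have hpH : CharP H p := charP_of_injective_algebraMap (algebraMap F H).injective p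
  obtain ⟨t, ht, hpt⟩ := exists_tame (p := p) hE (by
    rw [Rat.resCard_inf]
    exact Nat.card_pos.ne')
  obtain ⟨n, hn⟩ : ∃ n : ℕ, Nat.card F = p ^ n := by
    cases nonempty_fintype F
    obtain ⟨n, -, hn⟩ := FiniteField.card F p
    exact ⟨n, by rw [Nat.card_eq_fintype_card, hn]⟩
  have hdvd : Nat.card F ^ (j * l * N.natDegree) ∣ e := by
    rcases Nat.eq_zero_or_pos N.natDegree with hD | hD
    · rw [hD, mul_zero, pow_zero]
      exact one_dvd _
    obtain ⟨z, hz, hz0, hb, hv⟩ := exists_deep (Q := Q) (stA h) hg (cardA h hN) hD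
    rw [eL, ← he, ← pow_mul] at hv
    have h1 : ((Nat.card F : ℤ) ^ (j * (l * N.natDegree))) ∣
        ((Nat.card F : ℤ) ^ j * (Nat.card F : ℤ) ^ l - 1) * e := ⟨_, hv.symm⟩
    have h2 : IsCoprime ((Nat.card F : ℤ) ^ (j * (l * N.natDegree)))
        ((Nat.card F : ℤ) ^ j * (Nat.card F : ℤ) ^ l - 1) := by
      apply IsCoprime.pow_left
      obtain ⟨c, hc⟩ : ∃ c, j = c + 1 := ⟨j - 1, by have := h.pos; omega⟩
      refine ⟨(Nat.card F : ℤ) ^ c * (Nat.card F : ℤ) ^ l, -1, ?_⟩
      rw [hc, pow_succ]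
      ring
    have h3 := h2.dvd_of_dvd_mul_left h1
    rw [← mul_assoc] at h3
    exact_mod_cast h3
  have hcop : Nat.Coprime (Nat.card F ^ (j * l * N.natDegree)) t := by
    rw [hn, ← pow_mul]
    exact Nat.Coprime.pow_left _ ((Nat.Prime.coprime_iff_not_dvd hpr).2 hpt)
  rw [ht] at hdvd
  exact Nat.le_of_dvd Nat.card_pos (hcop.dvd_of_dvd_mul_right hdvd)

/-- the order of `V_0` -/
theorem card_V0' (h : DrS F j l k H N) (hN : OrdG l N) (hQ : Over Q (Rat.inf k)) :
    Nat.card (V0 F j l (gX k H) Q N) = Nat.card F ^ (j * N.natDegree) := by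
  have := h.fin
  have hg := ord_g hQ
  have hf0 := finite_V0 (Q := Q) h
  refine le_antisymm (card_V0_le h.pos h.pos' hg h.monic h.one) ?_
  rcases Nat.eq_zero_or_pos N.natDegree with hD | hD
  · rw [hD, mul_zero, pow_zero]
    exact Nat.card_pos
  obtain ⟨z, hz, hz0, hb, hv⟩ := exists_deep (Q := Q) (stA h) hg (cardA h hN) hD
  obtain ⟨ζ, hζ, hsum⟩ := FVA.exists_sum (cardL h)
  obtain ⟨x, hx, hzx⟩ := hsum _ z hz
  have h1 : Nat.card (wildG (RatFunc k) Q) ≤ Nat.card (Fin l → V0 F j l (gX k H) Q N) := by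
    refine Nat.card_le_card_of_injective
      (fun (σ : wildG (RatFunc k) Q) (i : Fin l) => (⟨σ.1 (x i) - x i,
        mem_V0 h hg (sub_mem (aut_V h σ.1 (hx i)) (hx i))
          (wild_A h hN hg σ.2 (le_ext (hx i)))⟩ : V0 F j l (gX k H) Q N)) ?_
    intro σ τ hστ
    have h3 : ∀ i, σ.1 (x i) = τ.1 (x i) := by
      intro i
      have h4 : σ.1 (x i) - x i = τ.1 (x i) - x i :=
        congrArg (fun w : V0 F j l (gX k H) Q N => (w : H)) (congrFun hστ i)
      exact sub_left_injective h4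
    have h4 : σ.1 z = τ.1 z := by
      rw [hzx, map_sum, map_sum]
      refine Finset.sum_congr rfl fun i _ => ?_
      rw [map_mul, map_mul, h3 i, inert_L h.pos' (mem_wildG.1 σ.2).1 (hζ i),
        inert_L h.pos' (mem_wildG.1 τ.2).1 (hζ i)]
    have h5 : (τ⁻¹ * σ).1 z = z := by
      show τ.1.symm (σ.1 z) = z
      rw [h4, AlgEquiv.symm_apply_apply]
    have h6 := wild_eq_one h hg (τ⁻¹ * σ).2 hz hz0 hb hv h5
    have h7 : τ⁻¹ * σ = 1 := Subtype.ext h6
    exact (inv_mul_eq_one.1 h7).symm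
  rw [Nat.card_fun, Nat.card_fin, card_wild' h hN hQ,
    show j * l * N.natDegree = j * N.natDegree * l by ring, pow_mul] at h1
  exact (Nat.pow_le_pow_iff_left h.pos'.ne').1 h1

/-- `F_0` is spanned by `V_0` -/
theorem F0_eq (h : DrS F j l k H N) (hN : OrdG l N) (hQ : Over Q (Rat.inf k)) :
    F0 F j (gX k H) Q (ext F l (VN F j l (gX k H) N)) ≤ ext F l (V0 F j l (gX k H) Q N) := by
  have hg := ord_g hQ
  have hf0 := finite_V0 (Q := Q) h
  have hfin : Finite (F0 F j (gX k H) Q (ext F l (VN F j l (gX k H) N))) :=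
    finite_F0 (stA h)
  have h1 := (card_UT (Q := Q) (stA h) hg (cardA h hN) (Nat.zero_le _)).2
  have h2 := card_ext_sub h.cop hN (cardL h) _ (V0_le (F := F) (k := k) (H := H) (j := j) (l := l)
    (N := N) (Q := Q))
  rw [card_V0' h hN hQ, ← pow_mul] at h2
  rw [← pow_mul] at h1
  have h3 : (ext F l (V0 F j l (gX k H) Q N) : Set H) =
      (F0 F j (gX k H) Q (ext F l (VN F j l (gX k H) N)) : Set H) := by
    have hfs : (F0 F j (gX k H) Q (ext F l (VN F j l (gX k H) N)) : Set H).Finite :=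
      Set.toFinite _
    refine Set.Finite.eq_of_subset_of_card_le hfs (ext_V0_le h) ?_
    have h4 : Nat.card (F0 F j (gX k H) Q (ext F l (VN F j l (gX k H) N))) ≤
        Nat.card (ext F l (V0 F j l (gX k H) Q N)) := by
      rw [h1, h2]
      refine le_of_eq ?_
      congr 1
      ring
    exact h4
  intro y hy
  have h4 : y ∈ (F0 F j (gX k H) Q (ext F l (VN F j l (gX k H) N)) : Set H) := hy
  rw [← h3] at h4
  exact h4

end

end FVA

section

variable {F k H : Type} {j l : ℕ} [Field F] [Finite F] [Field k] [Finite k] [Field H]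
  [Algebra F k] [Algebra F H] [Algebra k H] [Algebra (RatFunc k) H]
  [IsScalarTower k (RatFunc k) H]

open FVl FVA

/-- the test element -/
theorem exists_z {N : Polynomial F} (h : DrS F j l k H N) (hN : OrdG l N)
    (hD : 0 < N.natDegree) {Q : DV H} (hQ : Over Q (Rat.inf k)) : ∃ z : H, z ≠ 0 ∧
      (∃ ζ x : Fin l → H, (∀ i, ζ i ∈ CC F l H) ∧ (∀ i, x i ∈ VN F j l (gX k H) N) ∧
        z = ∑ i, ζ i * x i ∧ ∀ Y : Submodule F H, (∀ i, x i ∈ Y) →
          V0 F j l (gX k H) Q N ≤ Y → (∀ y ∈ Y, phT F j l (gX k H) y ∈ Y) →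
            VN F j l (gX k H) N ≤ Y) ∧
      (Nat.card F : ℤ) ^ (j * l * N.natDegree) * (((Nat.card F : ℤ) ^ l - 1) *
        (- Q.ord (gX k H) - ((Nat.card F : ℤ) ^ j - 1) * Q.ord z)) =
          ((Nat.card F : ℤ) ^ (j + l) - 1) * (- Q.ord (gX k H)) ∧
      ∀ σ ∈ wildG (RatFunc k) Q, σ ≠ 1 → σ z - z ≠ 0 ∧
        ((Nat.card F : ℤ) ^ j - 1) * Q.ord (σ z - z) = - Q.ord (gX k H) := by
  have := h.fin
  have hg := ord_g hQ
  obtain ⟨z, hz, hz0, hb, hv⟩ := exists_deep (Q := Q) (stA h) hg (cardA h hN) hD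
  obtain ⟨ζ, hζ, hsum⟩ := FVA.exists_sum (cardL h)
  obtain ⟨x, hx, hzx⟩ := hsum _ z hz
  refine ⟨z, hz0, ⟨ζ, x, hζ, hx, hzx, fun Y hY hY0 hYT => ?_⟩, ?_, fun σ hσ hne => ?_⟩
  · -- generation
    have hfV := finite_V (j := j) (g := gX k H) h.pos' h.monic.ne_zero
    have hfY : Finite (Y ⊓ VN F j l (gX k H) N : Submodule F H) := by
      have h1 : ((Y ⊓ VN F j l (gX k H) N : Submodule F H) : Set H).Finite :=
        (Set.toFinite (VN F j l (gX k H) N : Set H)).subset fun y hy => hy.2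
      exact h1.to_subtype
    have hpsi : ∀ y ∈ Y ⊓ VN F j l (gX k H) N, psi F j l (gX k H) y ∈
        Y ⊓ VN F j l (gX k H) N := by
      intro y hy
      rw [psi_eq, LinearMap.sub_apply, Module.End.one_apply]
      exact ⟨sub_mem (hYT y hy.1) hy.1, sub_mem (VN_phT hy.2) hy.2⟩
    have hA : ext F l (VN F j l (gX k H) N) ≤ ext F l (Y ⊓ VN F j l (gX k H) N) := by
      refine gen (stA h) hg hz hz0 hb hv (fun c hc y hy => ext_mul hc hy)
        (fun y hy => ext_psi hpsi hy) ?_ ?_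
      · rw [hzx]
        exact sum_mem fun i _ => mem_ext (hζ i) ⟨hY i, hx i⟩
      · refine (F0_eq h hN hQ).trans fun y hy => ?_
        refine ext_ind (p := fun y => y ∈ ext F l (Y ⊓ VN F j l (gX k H) N))
          (zero_mem _) (fun a _ b _ ha hb => add_mem ha hb) (fun c v hc hv => ?_) hy
        exact mem_ext hc ⟨hY0 hv, hv.1⟩
    have h1 := card_ext_sub h.cop hN (cardL h) (Y ⊓ VN F j l (gX k H) N) inf_le_right
    have h2 := card_ext_sub h.cop hN (cardL h) (VN F j l (gX k H) N) le_rfl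
    obtain ⟨m, v, hvV, -, hvs, -⟩ := exists_basis (Y ⊓ VN F j l (gX k H) N : Submodule F H)
    have hfe := finite_ext (cardL h) v hvs
    have h3 : Nat.card (ext F l (VN F j l (gX k H) N)) ≤
        Nat.card (ext F l (Y ⊓ VN F j l (gX k H) N)) :=
      Nat.card_le_card_of_injective (fun x => (⟨x.1, hA x.2⟩ :
        ext F l (Y ⊓ VN F j l (gX k H) N)))
        fun a b hab => Subtype.ext (congrArg (fun w : ext F l (Y ⊓ VN F j l (gX k H) N) =>
          (w : H)) hab)
    rw [h1, h2] at h3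
    have h4 := (Nat.pow_le_pow_iff_left h.pos'.ne').1 h3
    have h5 : ((Y ⊓ VN F j l (gX k H) N : Submodule F H) : Set H) =
        (VN F j l (gX k H) N : Set H) :=
      Set.Finite.eq_of_subset_of_card_le (Set.toFinite _) (fun y hy => hy.2) h4
    intro y hy
    have h6 : y ∈ (VN F j l (gX k H) N : Set H) := hy
    rw [← h5] at h6
    exact h6.1
  · rw [← pow_mul, show j * (l * N.natDegree) = j * l * N.natDegree by ring, bL, eL] at hv
    rw [pow_add]
    exact hv
  · have h1 : σ z - z ≠ 0 := fun h1 =>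
      hne (wild_eq_one h hg hσ hz hz0 hb hv (sub_eq_zero.1 h1))
    exact ⟨h1, F0_ord (stA h) hg (wild_A h hN hg hσ hz) h1⟩

/-- the wild inertia group acts trivially on `V / V_0` -/
theorem wild_sub {N : Polynomial F} (h : DrS F j l k H N) (hN : OrdG l N) {Q : DV H}
    (hQ : Over Q (Rat.inf k)) {σ : H ≃ₐ[RatFunc k] H} (hσ : σ ∈ wildG (RatFunc k) Q) {y : H}
    (hy : y ∈ VN F j l (gX k H) N) : σ y - y ∈ V0 F j l (gX k H) Q N :=
  mem_V0 h (ord_g hQ) (sub_mem (aut_V h σ hy) hy) (wild_A h hN (ord_g hQ) hσ (le_ext hy))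

/-- the order of the wild inertia group -/
theorem card_wild {N : Polynomial F} (h : DrS F j l k H N) (hN : OrdG l N) {Q : DV H}
    (hQ : Over Q (Rat.inf k)) :
    Nat.card (wildG (RatFunc k) Q) = Nat.card F ^ (j * l * N.natDegree) :=
  card_wild' h hN hQ

/-- `|V_0| = r ^ (j D)` -/
theorem card_V0 {N : Polynomial F} (h : DrS F j l k H N) (hN : OrdG l N) {Q : DV H}
    (hQ : Over Q (Rat.inf k)) :
    Nat.card (V0 F j l (gX k H) Q N) = Nat.card F ^ (j * N.natDegree) :=
  card_V0' h hN hQ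

end

end Pool.Agent.FF.Jl
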