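import Pool.Agent.FE.Inf0

/-! # T6: the map `ψ = φ_T - 1` and finite spaces stable under it (31): definitions

`r = |F|`, `R = r ^ j`, `S = r ^ l`, `ψ(x) = g x ^ R - x ^ (R S)`. -/

set_option autoImplicit false

namespace Pool.Agent.FF.FVl

open InfJ

section

variable {F : Type*} {H : Type*} [Field F] [Finite F] [Field H] [Algebra F H]

/-- `ψ = φ_T - 1` -/
noncomputable def psi (F : Type*) (j l : ℕ) {H : Type*} [Field F] [Finite F] [Field H]
    [Algebra F H] (g : H) : H →ₗ[F] H where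
  toFun x := g * x ^ Nat.card F ^ j - x ^ Nat.card F ^ (j + l)
  map_add' x y := by
    rw [add_pow_card F j x y, add_pow_card F (j + l) x y]
    ring
  map_smul' c x := by
    simp only [Algebra.smul_def, mul_pow, RingHom.id_apply, map_pow_card F (H := H) j c,
      map_pow_card F (H := H) (j + l) c]
    ring

theorem psi_apply (j l : ℕ) (g x : H) :
    psi F j l g x = g * x ^ Nat.card F ^ j - x ^ Nat.card F ^ (j + l) := rfl

/-- the elements of the field with `r ^ l` elements -/
def InL (F : Type*) (l : ℕ) {H : Type*} [Field H] (z : H) : Prop := z ^ Nat.card F ^ l = z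

/-- `ψ` is semilinear -/
theorem psi_mul {j l : ℕ} (g : H) {z : H} (hz : InL F l z) (x : H) :
    psi F j l g (z * x) = z ^ Nat.card F ^ j * psi F j l g x := by
  have h : z ^ Nat.card F ^ (j + l) = z ^ Nat.card F ^ j := by
    rw [add_comm, pow_add, pow_mul, show z ^ Nat.card F ^ l = z from hz]
  rw [psi_apply, psi_apply, mul_pow, mul_pow, h]
  ring

/-- a finite space stable under `ψ` (injective on it) and the field with `r ^ l` elements;
`D` bounds the degree of a polynomial in `ψ ^ l` which kills it -/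
structure St (F : Type*) (j l : ℕ) {H : Type*} [Field F] [Finite F] [Field H] [Algebra F H]
    (g : H) (D : ℕ) (A : Submodule F H) : Prop where
  hj : 1 ≤ j
  hl : 1 ≤ l
  hL : Nat.card {z : H // InL F l z} = Nat.card F ^ l
  fin : Finite A
  mul : ∀ z : H, InL F l z → ∀ x ∈ A, z * x ∈ A
  st : ∀ x ∈ A, psi F j l g x ∈ A
  inj : ∀ x ∈ A, psi F j l g x = 0 → x = 0
  pol : ∃ P : Polynomial F, P.Monic ∧ P.natDegree = D ∧
    ∀ x ∈ A, Polynomial.aeval (psi F j l g ^ l) P x = 0

/-- `(R - 1) e b(x)`, `e = - ord g` -/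
noncomputable def bL (F : Type*) (j : ℕ) {H : Type*} [Field H] (g : H) (Q : DV H) (x : H) : ℤ :=
  - Q.ord g - ((Nat.card F : ℤ) ^ j - 1) * Q.ord x

/-- `(R - 1) (S - 1) R e b_1` -/
noncomputable def eL (F : Type*) (j l : ℕ) {H : Type*} [Field H] (g : H) (Q : DV H) : ℤ :=
  ((Nat.card F : ℤ) ^ j * (Nat.card F : ℤ) ^ l - 1) * (- Q.ord g)

/-- the elements with `b(x) ≤ b_1 R ^ (- t)` -/
def InT (F : Type*) (j l : ℕ) {H : Type*} [Field H] (g : H) (Q : DV H) (t : ℕ) (x : H) : Prop :=
  x = 0 ∨ ((Nat.card F : ℤ) ^ j) ^ (t + 1) * (((Nat.card F : ℤ) ^ l - 1) * bL F j g Q x) ≤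
    eL F j l g Q

/-- `F_0`: the elements with `b(x) ≤ 0` -/
noncomputable def F0 (F : Type*) (j : ℕ) {H : Type*} [Field F] [Finite F] [Field H] [Algebra F H]
    (g : H) (Q : DV H) (A : Submodule F H) : Submodule F H where
  carrier := {x | x ∈ A ∧ (x = 0 ∨ bL F j g Q x ≤ 0)}
  zero_mem' := ⟨zero_mem _, Or.inl rfl⟩
  add_mem' := by
    rintro x y ⟨hx, hx1⟩ ⟨hy, hy1⟩
    refine ⟨add_mem hx hy, ?_⟩
    by_cases h0 : x = 0
    · simpa [h0] using hy1
    by_cases h1 : y = 0
    · simpa [h1] using hx1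
    by_cases h2 : x + y = 0
    · exact Or.inl h2
    have h3 := Q.ord_add x y h0 h1 h2
    have h4 := hx1.resolve_left h0
    have h5 := hy1.resolve_left h1
    have h6 : (0 : ℤ) ≤ (Nat.card F : ℤ) ^ j - 1 := by
      have h7 : (1 : ℤ) ≤ (Nat.card F : ℤ) := by exact_mod_cast Nat.card_pos
      have := one_le_pow₀ (n := j) h7
      omega
    right
    rw [bL] at h4 h5 ⊢
    rcases min_le_iff.1 h3 with h | h
    · have := mul_le_mul_of_nonneg_left h h6
      linarith
    · have := mul_le_mul_of_nonneg_left h h6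
      linarith
  smul_mem' := by
    rintro c x ⟨hx, hx1⟩
    by_cases hc : c = 0
    · simp only [hc, zero_smul]
      exact ⟨zero_mem _, Or.inl rfl⟩
    by_cases h0 : x = 0
    · simp only [h0, smul_zero]
      exact ⟨zero_mem _, Or.inl rfl⟩
    refine ⟨Submodule.smul_mem _ c hx, Or.inr ?_⟩
    rw [bL, ord_smul Q hc h0]
    exact hx1.resolve_left h0

/-- `U_t` -/
noncomputable def UT (F : Type*) (j l : ℕ) {H : Type*} [Field F] [Finite F] [Field H] [Algebra F H]
    (g : H) (Q : DV H) (A : Submodule F H) (t : ℕ) : Submodule F H where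
  carrier := {x | x ∈ A ∧ InT F j l g Q t x}
  zero_mem' := ⟨zero_mem _, Or.inl rfl⟩
  add_mem' := by
    rintro x y ⟨hx, hx1⟩ ⟨hy, hy1⟩
    refine ⟨add_mem hx hy, ?_⟩
    by_cases h0 : x = 0
    · simpa [h0] using hy1
    by_cases h1 : y = 0
    · simpa [h1] using hx1
    by_cases h2 : x + y = 0
    · exact Or.inl h2
    have h3 := Q.ord_add x y h0 h1 h2
    have h4 := hx1.resolve_left h0
    have h5 := hy1.resolve_left h1
    have h1F : (1 : ℤ) ≤ (Nat.card F : ℤ) := by exact_mod_cast Nat.card_pos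
    have h6 : (0 : ℤ) ≤ (Nat.card F : ℤ) ^ j - 1 := by
      have := one_le_pow₀ (n := j) h1F
      omega
    have h7 : (0 : ℤ) ≤ ((Nat.card F : ℤ) ^ j) ^ (t + 1) := by positivity
    have h8 : (0 : ℤ) ≤ (Nat.card F : ℤ) ^ l - 1 := by
      have := one_le_pow₀ (n := l) h1F
      omega
    right
    rcases min_le_iff.1 h3 with h | h
    · refine le_trans (mul_le_mul_of_nonneg_left (mul_le_mul_of_nonneg_left ?_ h8) h7) h4
      rw [bL, bL]
      have := mul_le_mul_of_nonneg_left h h6
      linarith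
    · refine le_trans (mul_le_mul_of_nonneg_left (mul_le_mul_of_nonneg_left ?_ h8) h7) h5
      rw [bL, bL]
      have := mul_le_mul_of_nonneg_left h h6
      linarith
  smul_mem' := by
    rintro c x ⟨hx, hx1⟩
    by_cases hc : c = 0
    · simp only [hc, zero_smul]
      exact ⟨zero_mem _, Or.inl rfl⟩
    by_cases h0 : x = 0
    · simp only [h0, smul_zero]
      exact ⟨zero_mem _, Or.inl rfl⟩
    refine ⟨Submodule.smul_mem _ c hx, Or.inr ?_⟩
    rw [bL, ord_smul Q hc h0]
    exact hx1.resolve_left h0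

end

end Pool.Agent.FF.FVl
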