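import Pool.Agent.FG.Lay

/-! # T6: the layers of a finite space stable under `ψ`: cardinalities (31) -/

set_option autoImplicit false

namespace Pool.Agent.FF.FVl

open InfJ

section

variable {F : Type*} {H : Type*} [Field F] [Finite F] [Field H] [Algebra F H] {j l D : ℕ} {g : H}
  {A : Submodule F H} {Q : DV H}

theorem F0_ord (h : St F j l g D A) (hg : Q.ord g < 0) {x : H} (hx : x ∈ F0 F j g Q A)
    (h0 : x ≠ 0) : ((Nat.card F : ℤ) ^ j - 1) * Q.ord x = - Q.ord g := by
  refine le_antisymm (ord_le h hg hx.1 h0) ?_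
  have h1 := hx.2.resolve_left h0
  rw [bL] at h1
  linarith

/-- at most `R ^ (l D)` elements in `F_0` -/
theorem card_F0_le (h : St F j l g D A) (hg : Q.ord g < 0) :
    Nat.card (F0 F j g Q A) ≤ (Nat.card F ^ j) ^ (l * D) := by
  classical
  have hr := two_le F
  have hR := two_le_pow F h.hj
  have hrN : 1 < Nat.card F := Finite.one_lt_card
  have hjp := h.hj
  have hlp := h.hl
  have hRN : 1 < Nat.card F ^ j := Nat.one_lt_pow (by omega) hrN
  have hRl : 1 < (Nat.card F ^ j) ^ l := Nat.one_lt_pow (by omega) hRN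
  have hfA := h.fin
  obtain ⟨N, hNm, hND, hN0⟩ := h.pol
  by_cases htriv : ∃ x₀ ∈ F0 F j g Q A, x₀ ≠ 0
  swap
  · push Not at htriv
    have h2 : F0 F j g Q A = ⊥ := (Submodule.eq_bot_iff _).2 htriv
    rw [h2, Nat.card_unique]
    exact Nat.one_le_pow _ _ (by omega)
  obtain ⟨x₀, hx₀, hx00⟩ := htriv
  have hm := F0_ord h hg hx₀ hx00
  set m := Q.ord x₀ with hm'
  have hm1 : 1 ≤ m := by
    by_contra h
    push Not at h
    nlinarith
  have hV0' : ∀ x ∈ F0 F j g Q A, x ≠ 0 → Q.ord x = m := by
    intro x hx h0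
    have h2 := F0_ord h hg hx h0
    rw [← hm] at h2
    exact mul_left_cancel₀ (by omega) h2
  have hg0 : g ≠ 0 := by
    rintro rfl
    rw [Q.ord_zero] at hg
    omega
  let γ : ℕ → H := fun i => Nat.rec 1 (fun _ a => g * a ^ Nat.card F ^ j) i
  have hγ0 : γ 0 = 1 := rfl
  have hγs : ∀ i, γ (i + 1) = g * γ i ^ Nat.card F ^ j := fun i => rfl
  have hγne : ∀ i, γ i ≠ 0 := by
    intro i
    induction i with
    | zero => rw [hγ0]; exact one_ne_zero
    | succ i ih => rw [hγs]; exact mul_ne_zero hg0 (pow_ne_zero _ ih)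
  have hγord : ∀ i, Q.ord (γ i) = - (((Nat.card F : ℤ) ^ j) ^ i - 1) * m := by
    intro i
    induction i with
    | zero => rw [hγ0, Q.ord_one]; ring
    | succ i ih =>
      rw [hγs, Q.ord_mul _ _ hg0 (pow_ne_zero _ (hγne i)), Q.ord_pow (hγne i), ih, pow_succ]
      push_cast
      linear_combination hm
  have hδ : ∀ x ∈ F0 F j g Q A, ∀ i : ℕ, Q.G m (((psi F j l g) ^ i) x) ∧
      Q.G (m + 1) (((psi F j l g) ^ i) x - γ i * x ^ (Nat.card F ^ j) ^ i) := by
    intro x hx i
    induction i with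
    | zero =>
      rw [pow_zero, Module.End.one_apply, hγ0, pow_zero, pow_one, one_mul, sub_self]
      refine ⟨?_, DV.G_zero _⟩
      by_cases h0 : x = 0
      · exact Or.inl h0
      · exact Or.inr (hV0' x hx h0).ge
    | succ i ih =>
      obtain ⟨ih1, ih2⟩ := ih
      rw [pow_succ', Module.End.mul_apply]
      set y := ((psi F j l g) ^ i) x with hy
      have h6 : (2 : ℤ) ≤ (Nat.card F : ℤ) ^ (j + l) := two_le_pow F (by omega)
      have h7 : Q.G (m + 1) (y ^ Nat.card F ^ (j + l)) := (ih1.pow _).mono (by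
        push_cast
        nlinarith)
      refine ⟨?_, ?_⟩
      · rw [psi_apply]
        refine DV.G.sub (((DV.G_ord g).mul (ih1.pow _)).mono ?_) (h7.mono (by omega))
        push_cast
        nlinarith
      have h2 : psi F j l g y - γ (i + 1) * x ^ (Nat.card F ^ j) ^ (i + 1) =
          g * (y - γ i * x ^ (Nat.card F ^ j) ^ i) ^ Nat.card F ^ j -
            y ^ Nat.card F ^ (j + l) := by
        have e : x ^ (Nat.card F ^ j) ^ (i + 1) =
            (x ^ (Nat.card F ^ j) ^ i) ^ Nat.card F ^ j := by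
          rw [pow_succ (Nat.card F ^ j) i, pow_mul]
        rw [psi_apply, hγs, sub_pow F, mul_pow, e]
        ring
      rw [h2]
      refine DV.G.sub (((DV.G_ord g).mul (ih2.pow _)).mono ?_) h7
      push_cast
      nlinarith
  -- the polynomial
  set n : ℕ → F := fun i => N.coeff i with hn
  set c : ℕ → H := fun i =>
    algebraMap F H (n i) * (γ (l * i) * x₀ ^ (Nat.card F ^ j) ^ (l * i) / x₀) with hc
  have hunit : ∀ i, Q.ord (γ i * x₀ ^ (Nat.card F ^ j) ^ i / x₀) = 0 := by
    intro i
    rw [Q.ord_div (mul_ne_zero (hγne i) (pow_ne_zero _ hx00)) hx00,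
      Q.ord_mul _ _ (hγne i) (pow_ne_zero _ hx00), hγord, Q.ord_pow hx00, ← hm']
    push_cast
    ring
  set P : Polynomial H := ∑ i ∈ Finset.range (D + 1),
    Polynomial.C (c i) * Polynomial.X ^ ((Nat.card F ^ j) ^ (l * i)) with hP
  have hcoeff : ∀ k, P.coeff k = ∑ i ∈ Finset.range (D + 1),
      if k = (Nat.card F ^ j) ^ (l * i) then c i else 0 := by
    intro k
    rw [hP, Polynomial.finsetSum_coeff]
    refine Finset.sum_congr rfl fun i _ => ?_
    rw [Polynomial.coeff_C_mul_X_pow]
  have hcG : ∀ i, Q.G 0 (c i) := by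
    intro i
    have h2 := (RRD.G_algebraMap Q (n i)).mul (DV.G_of_le (hunit (l * i)).ge)
    rwa [zero_add] at h2
  have hP0 : ∀ k, Q.G 0 (P.coeff k) := by
    intro k
    rw [hcoeff]
    refine G_sum _ _ fun i _ => ?_
    split_ifs
    · exact hcG i
    · exact DV.G_zero _
  have hinj : Function.Injective (fun i : ℕ => (Nat.card F ^ j) ^ (l * i)) := by
    have h1 : (fun i : ℕ => (Nat.card F ^ j) ^ (l * i)) = fun i => ((Nat.card F ^ j) ^ l) ^ i := by
      funext i
      rw [pow_mul]
    rw [h1]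
    exact Nat.pow_right_injective hRl
  have hP1 : P.coeff ((Nat.card F ^ j) ^ (l * D)) = c D := by
    rw [hcoeff, Finset.sum_eq_single D]
    · rw [if_pos rfl]
    · intro i _ hi
      rw [if_neg]
      intro h
      exact hi (hinj h.symm)
    · intro h
      exact absurd (Finset.mem_range.2 (Nat.lt_succ_self _)) h
  have hnD : n D = 1 := by
    rw [hn]
    simp only
    rw [← hND]
    exact hNm
  have hPdeg : P.natDegree ≤ (Nat.card F ^ j) ^ (l * D) := by
    rw [hP]
    refine Polynomial.natDegree_sum_le_of_forall_le _ _ fun i hi => ?_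
    refine (Polynomial.natDegree_C_mul_X_pow_le _ _).trans ?_
    exact Nat.pow_le_pow_right (by omega)
      (Nat.mul_le_mul_left _ (by have := Finset.mem_range.1 hi; omega))
  have hfin : (F0 F j g Q A : Set H).Finite :=
    (Set.toFinite (A : Set H)).subset fun y hy => hy.1
  have hcard : Nat.card (F0 F j g Q A) = (hfin.toFinset.image fun x => x / x₀).card := by
    rw [Finset.card_image_of_injective _ fun a b hab => by
      simpa [hx00] using (div_left_inj' hx00).1 hab]
    exact Nat.card_eq_card_finite_toFinset hfin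
  rw [hcard]
  refine (card_roots_residue P hP0 ⟨(Nat.card F ^ j) ^ (l * D), ?_⟩ ?_ ?_ ?_).trans hPdeg
  · rw [hP1, hc]
    simp only
    rw [hnD, map_one, one_mul, DV.not_G (div_ne_zero (mul_ne_zero (hγne _) (pow_ne_zero _ hx00)) hx00),
      hunit]
    norm_num
  · intro z hz
    obtain ⟨x, hx, rfl⟩ := Finset.mem_image.1 hz
    rw [Set.Finite.mem_toFinset] at hx
    by_cases h0 : x = 0
    · exact Or.inl (by rw [h0, zero_div])
    · exact Or.inr (by rw [Q.ord_div h0 hx00, hV0' x hx h0, ← hm', sub_self])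
  · intro z hz w hw hne
    obtain ⟨x, hx, rfl⟩ := Finset.mem_image.1 hz
    obtain ⟨y, hy, rfl⟩ := Finset.mem_image.1 hw
    rw [Set.Finite.mem_toFinset] at hx hy
    have h2 : x - y ≠ 0 := by
      intro h
      exact hne (by rw [sub_eq_zero.1 h])
    have h3 : x - y ∈ F0 F j g Q A := sub_mem hx hy
    rw [← sub_div, DV.not_G (div_ne_zero h2 hx00), Q.ord_div h2 hx00, hV0' _ h3 h2, ← hm', sub_self]
    norm_num
  · intro z hz
    obtain ⟨x, hx, rfl⟩ := Finset.mem_image.1 hz
    rw [Set.Finite.mem_toFinset] at hx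
    have h2 : ∑ i ∈ Finset.range (D + 1), n i • ((psi F j l g) ^ (l * i)) x = 0 := by
      have h3 := hN0 x hx.1
      rw [aeval_sum, hND] at h3
      rw [← h3]
      refine Finset.sum_congr rfl fun i _ => ?_
      rw [pow_mul]
    have h3 : P.eval (x / x₀) = (∑ i ∈ Finset.range (D + 1),
        n i • (γ (l * i) * x ^ (Nat.card F ^ j) ^ (l * i))) / x₀ := by
      rw [hP, Polynomial.eval_finsetSum, Finset.sum_div]
      refine Finset.sum_congr rfl fun i _ => ?_
      rw [Polynomial.eval_mul, Polynomial.eval_C, Polynomial.eval_pow, Polynomial.eval_X, hc,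
        Algebra.smul_def]
      simp only
      rw [div_pow]
      field_simp
    have h4 : (∑ i ∈ Finset.range (D + 1),
        n i • (γ (l * i) * x ^ (Nat.card F ^ j) ^ (l * i))) =
        - ∑ i ∈ Finset.range (D + 1),
          n i • (((psi F j l g) ^ (l * i)) x - γ (l * i) * x ^ (Nat.card F ^ j) ^ (l * i)) := by
      simp only [smul_sub, Finset.sum_sub_distrib]
      rw [h2]
      ring
    have h5 : Q.G (m + 1) (∑ i ∈ Finset.range (D + 1),
        n i • (γ (l * i) * x ^ (Nat.card F ^ j) ^ (l * i))) := by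
      rw [h4]
      exact (G_sum _ _ fun i _ => G_smul (hδ x hx (l * i)).2 _).neg
    rw [h3, div_eq_mul_inv]
    have h6 : Q.G (-m) (x₀⁻¹) := DV.G_of_le (by rw [Q.ord_inv hx00])
    have h7 := h5.mul h6
    exact h7.mono (by omega)

theorem finite_F0 (h : St F j l g D A) : Finite (F0 F j g Q A) := by
  have := h.fin
  have h1 : (F0 F j g Q A : Set H).Finite :=
    (Set.toFinite (A : Set H)).subset fun y hy => hy.1
  exact h1.to_subtype

/-- all layers occur -/
theorem card_UT (h : St F j l g D A) (hg : Q.ord g < 0)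
    (hA : Nat.card A = (Nat.card F ^ l) ^ ((j + l) * D)) {t : ℕ} (ht : t ≤ l * D) :
    Nat.card (UT F j l g Q A t) = (Nat.card F ^ l) ^ ((j + l) * D - t) ∧
      Nat.card (F0 F j g Q A) = (Nat.card F ^ l) ^ (j * D) := by
  have hr : 1 < Nat.card F := Finite.one_lt_card
  have hlp := h.hl
  have hS : 0 < Nat.card F ^ l := by positivity
  have hfA := h.fin
  have hjD : (j + l) * D = j * D + l * D := by ring
  have hF0fin : Finite (F0 F j g Q A) := finite_F0 h
  have hlow : ∀ t, (Nat.card F ^ l) ^ ((j + l) * D) ≤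
      (Nat.card F ^ l) ^ t * Nat.card (UT F j l g Q A t) := by
    intro t
    induction t with
    | zero => rw [pow_zero, one_mul, UT_zero h hg, hA]
    | succ t ih =>
      refine ih.trans ?_
      rw [pow_succ, mul_assoc]
      exact Nat.mul_le_mul_left _ (card_UT_le h hg t)
  have htop : Nat.card (UT F j l g Q A (l * D)) ≤ Nat.card (F0 F j g Q A) :=
    Nat.card_le_card_of_injective
      (fun x => (⟨x.1, UT_top_le h hg x.2⟩ : F0 F j g Q A))
      fun a b hab => Subtype.ext (congrArg (fun z : F0 F j g Q A => (z : H)) hab)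
  have hV0 : Nat.card (F0 F j g Q A) ≤ (Nat.card F ^ l) ^ (j * D) := by
    refine (card_F0_le h hg).trans (le_of_eq ?_)
    rw [← pow_mul, ← pow_mul]
    congr 1
    ring
  have hup : ∀ s ≤ l * D, Nat.card (UT F j l g Q A (l * D - s)) ≤
      (Nat.card F ^ l) ^ (j * D + s) := by
    intro s
    induction s with
    | zero => intro _; rw [Nat.sub_zero, add_zero]; exact htop.trans hV0
    | succ s ih =>
      intro hs
      have h2 := ih (by omega)
      have h3 := card_UT_le (Q := Q) h hg (l * D - (s + 1))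
      rw [show l * D - (s + 1) + 1 = l * D - s by omega] at h3
      refine h3.trans ((Nat.mul_le_mul_left _ h2).trans ?_)
      rw [← add_assoc, pow_succ, mul_comm]
  refine ⟨le_antisymm ?_ ?_, le_antisymm hV0 ?_⟩
  · have h2 := hup (l * D - t) (by omega)
    rw [show l * D - (l * D - t) = t by omega,
      show j * D + (l * D - t) = (j + l) * D - t by rw [hjD]; omega] at h2
    exact h2
  · have h2 := hlow t
    have e : (j + l) * D = t + ((j + l) * D - t) := by
      rw [hjD]
      omega
    rw [e, pow_add] at h2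
    exact Nat.le_of_mul_le_mul_left h2 (by positivity)
  · have h2 := (hlow (l * D)).trans (Nat.mul_le_mul_left _ htop)
    rw [hjD, pow_add, mul_comm ((Nat.card F ^ l) ^ (j * D))] at h2
    exact Nat.le_of_mul_le_mul_left h2 (by positivity)

/-- an element in the deepest layer -/
theorem exists_deep (h : St F j l g D A) (hg : Q.ord g < 0)
    (hA : Nat.card A = (Nat.card F ^ l) ^ ((j + l) * D)) (hD : 0 < D) :
    ∃ z ∈ A, z ≠ 0 ∧ 0 < bL F j g Q z ∧ ((Nat.card F : ℤ) ^ j) ^ (l * D) *
      (((Nat.card F : ℤ) ^ l - 1) * bL F j g Q z) = eL F j l g Q := by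
  have hr := two_le F
  have hlp := h.hl
  have hR := two_le_pow F h.hj
  have hSZ := two_le_pow F h.hl
  have hrN : 1 < Nat.card F := Finite.one_lt_card
  have hSN : 1 < Nat.card F ^ l := Nat.one_lt_pow (by omega) hrN
  have hlD : 1 ≤ l * D := Nat.mul_pos (by omega) hD
  have hjD : (j + l) * D = j * D + l * D := by ring
  have hfin0 : Finite (F0 F j g Q A) := finite_F0 h
  obtain ⟨h1, h2⟩ := card_UT (Q := Q) h hg hA (t := l * D - 1) (by omega)
  obtain ⟨z, hz, hz0⟩ : ∃ z ∈ UT F j l g Q A (l * D - 1), z ∉ F0 F j g Q A := by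
    by_contra hno
    push Not at hno
    have h3 : Nat.card (UT F j l g Q A (l * D - 1)) ≤ Nat.card (F0 F j g Q A) :=
      Nat.card_le_card_of_injective (fun x => (⟨x.1, hno x.1 x.2⟩ : F0 F j g Q A))
        fun a b hab => Subtype.ext (congrArg (fun z : F0 F j g Q A => (z : H)) hab)
    rw [h1, h2] at h3
    have h4 := (Nat.pow_le_pow_iff_right hSN).1 h3
    rw [hjD] at h4
    omega
  have hne : z ≠ 0 := by
    rintro rfl
    exact hz0 (zero_mem _)
  have hb : 0 < bL F j g Q z := by
    by_contra hb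
    push Not at hb
    exact hz0 ⟨hz.1, Or.inr hb⟩
  obtain ⟨t, ht, h3⟩ := exists_val h hg hz.1 hne hb
  have h4 := hz.2.resolve_left hne
  rw [← h3, show l * D - 1 + 1 = l * D by omega] at h4
  have h5 := le_of_mul_le_mul_right h4 (mul_pos (by omega) hb)
  have h6 := (pow_le_pow_iff_right₀ (by omega)).1 h5
  have h7 : t + 1 = l * D := by omega
  rw [h7] at h3
  exact ⟨z, hz.1, hne, hb, h3⟩

end

end Pool.Agent.FF.FVl
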