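import Pool.Agent.FE.NumR

/-!
# From log-dense families of curves to bounds for `L(q)`, with a constant in the genus bound (93)
-/

set_option autoImplicit false

namespace Pool.Agent.FF

/-- log-dense curves of slope `s`: `s G ≤ N + C`, `N ∈ [X, (1 + η) X]` rational places for all
large `X`, many places of all degrees `≥ A (log X + 1)` -/
def DenseFamC (k : Type) [Field k] (s : ℝ) : Prop :=
  ∃ (A : ℕ) (C : ℝ), ∀ η : ℝ, 0 < η → ∃ X0 : ℝ, ∀ X : ℝ, X0 ≤ X →
    ∃ (E : Type) (_ : Field E) (_ : Algebra k E) (G : ℕ) (T : Finset (DV E)),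
      IsFF k E ∧ Cv k E G ∧ s * G ≤ T.card + C ∧ (∀ P ∈ T, P.Rat k) ∧ X ≤ T.card ∧
      (T.card : ℝ) ≤ X * (1 + η) ∧
      ∀ d : ℕ, (A : ℝ) * (Real.logb 2 X + 1) ≤ d → ∃ Q : Finset (DV E),
        (∀ v ∈ Q, v.deg (Nat.card k) = d) ∧ Nat.card k ^ d ≤ 2 * d * Q.card

theorem DenseFamC.aux {k : Type} [Field k] {s : ℝ} (hs : 0 < s) (H : DenseFamC k s) :
    ∃ A : ℕ, ∀ η : ℝ, 0 < η → η < 1 → ∃ m0 : ℝ, ∀ m : ℝ, m0 ≤ m → ∃ (E : Type) (_ : Field E)
      (_ : Algebra k E) (G : ℕ) (T : Finset (DV E)), IsFF k E ∧ Cv k E G ∧ (G : ℝ) ≤ m ∧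
        (∀ P ∈ T, P.Rat k) ∧ T.Nonempty ∧ s * (1 - η) * m ≤ T.card ∧
        ∀ d : ℕ, (A : ℝ) * (Real.logb 2 m + 1) ≤ d → ∃ Q : Finset (DV E),
          (∀ v ∈ Q, v.deg (Nat.card k) = d) ∧ Nat.card k ^ d ≤ 2 * d * Q.card := by
  obtain ⟨A, C, hA⟩ := H
  refine ⟨A * (⌈s⌉₊ + 1), fun η h0 h1 => ?_⟩
  obtain ⟨X0, hX0⟩ := hA η h0
  set c : ℝ := max C 0 with hc
  have hc0 : 0 ≤ c := le_max_right _ _
  have hcC : C ≤ c := le_max_left _ _
  refine ⟨max (max 1 ((X0 * (1 + η) + c) / s)) (max (c / (s * η ^ 2)) ((c + 1) / s)),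
    fun m hm => ?_⟩
  have hm1 : 1 ≤ m := (le_max_left _ _).trans ((le_max_left _ _).trans hm)
  have hm2 : (X0 * (1 + η) + c) / s ≤ m := (le_max_right _ _).trans ((le_max_left _ _).trans hm)
  have hm3 : c / (s * η ^ 2) ≤ m := (le_max_left _ _).trans ((le_max_right _ _).trans hm)
  have hm4 : (c + 1) / s ≤ m := (le_max_right _ _).trans ((le_max_right _ _).trans hm)
  have hm0 : 0 < m := by linarith
  have h1η : 0 < 1 + η := by linarith
  have hsm : 0 < s * m := by positivity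
  rw [div_le_iff₀ hs] at hm2 hm4
  rw [div_le_iff₀ (by positivity)] at hm3
  have hpos : 0 < s * m - c := by linarith
  obtain ⟨E, iE, iAE, G, T, hFF, hC, hG, hrat, hlo, hhi, hpl⟩ := hX0 ((s * m - c) / (1 + η)) (by
    rw [le_div_iff₀ h1η]
    linarith)
  have hhi' : (T.card : ℝ) ≤ s * m - c := by
    refine hhi.trans (le_of_eq ?_)
    field_simp
  refine ⟨E, iE, iAE, G, T, hFF, hC, ?_, hrat, ?_, ?_, ?_⟩
  · refine le_of_mul_le_mul_left (hG.trans ?_) hs
    linarith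
  · rw [← Finset.card_pos]
    have : (0 : ℝ) < T.card := lt_of_lt_of_le (by positivity) hlo
    exact_mod_cast this
  · refine le_trans ?_ hlo
    rw [le_div_iff₀ h1η]
    nlinarith
  · intro d hd
    refine hpl d ?_
    have h3 : Real.logb 2 ((s * m - c) / (1 + η)) ≤ Real.logb 2 m + ⌈s⌉₊ := by
      have h4 : Real.logb 2 ((s * m - c) / (1 + η)) ≤ Real.logb 2 (s * m) := by
        refine Real.logb_le_logb_of_le (by norm_num) (by positivity) ?_
        rw [div_le_iff₀ h1η]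
        nlinarith
      have h5 : Real.logb 2 (s * m) = Real.logb 2 s + Real.logb 2 m :=
        Real.logb_mul hs.ne' hm0.ne'
      have h6 : Real.logb 2 s ≤ ⌈s⌉₊ := by
        rw [Real.logb_le_iff_le_rpow (by norm_num) hs, Real.rpow_natCast]
        refine (Nat.le_ceil s).trans ?_
        exact_mod_cast (Nat.lt_two_pow_self (n := ⌈s⌉₊)).le
      linarith
    have hl0 : 0 ≤ Real.logb 2 m := Real.logb_nonneg (by norm_num) hm1
    have hA0 : (0 : ℝ) ≤ A := Nat.cast_nonneg _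
    have hc0 : (0 : ℝ) ≤ ⌈s⌉₊ := Nat.cast_nonneg _
    refine le_trans ?_ hd
    push_cast
    have h7 : Real.logb 2 ((s * m - c) / (1 + η)) + 1 ≤
        ((⌈s⌉₊ : ℝ) + 1) * (Real.logb 2 m + 1) := by nlinarith
    calc (A : ℝ) * (Real.logb 2 ((s * m - c) / (1 + η)) + 1) ≤
          A * (((⌈s⌉₊ : ℝ) + 1) * (Real.logb 2 m + 1)) := mul_le_mul_of_nonneg_left h7 hA0
      _ = _ := by ring

/-- odd characteristic -/
theorem DenseFamC.good_odd {k : Type} [Field k] [Finite k] (h2 : (2 : k) ≠ 0) {s lam : ℝ}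
    (hs : 0 < s) (hlam0 : 0 < lam) (hlam : (2 : ℝ) ^ lam ≤ Nat.card k) (H : DenseFamC k s) :
    Good k s 2 lam := by
  obtain ⟨A, hA⟩ := H.aux hs
  refine Pool.Agent.FF.good_odd h2 hlam0 hlam hs (A := A) fun η h0 h1 => ?_
  obtain ⟨m0, hm0⟩ := hA η h0 h1
  refine ⟨m0, fun m hm => ?_⟩
  obtain ⟨E, iE, iAE, G, T, hFF, hC, hG, hrat, hne, hT, hpl⟩ := hm0 m hm
  obtain ⟨R, hR⟩ := hne
  refine ⟨E, iE, iAE, G, 2 * G, T, hFF, hC, ?_, seAll h2 E G hC ⟨R, hrat R hR⟩, ?_, hrat, ⟨R, hR⟩,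
    ?_, hpl⟩
  · simpa using hG
  · push_cast
    linarith
  · simpa using hT

/-- characteristic two -/
theorem DenseFamC.good_even {k : Type} [Field k] [Finite k] {e : ℕ} (he : 1 ≤ e)
    (hk : Nat.card k = 2 ^ e) {s : ℝ} (hs : 0 < s) (H : DenseFamC k s) : Good k s 1 e := by
  have := Fintype.ofFinite k
  have : Fact (Nat.Prime 2) := ⟨Nat.prime_two⟩
  have : CharP k 2 := charP_of_card_eq_prime_pow (p := 2) (f := e) (by
    rw [← Nat.card_eq_fintype_card, hk])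
  obtain ⟨A, hA⟩ := H.aux hs
  refine Pool.Agent.FF.good_even he hk hs (A := A) fun η h0 h1 => ?_
  obtain ⟨m0, hm0⟩ := hA η h0 h1
  refine ⟨m0, fun m hm => ?_⟩
  obtain ⟨E, iE, iAE, G, T, hFF, hC, hG, hrat, hne, hT, hpl⟩ := hm0 m hm
  have hE : CharP E 2 := charP_of_injective_algebraMap (algebraMap k E).injective 2
  refine ⟨E, iE, iAE, hE, G, G, T, hFF, hC, ?_, ob_genus hC, ?_, hrat, ?_, fun d hd => ?_⟩
  · simpa using hG
  · simpa using hG
  · simpa using hT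
  · obtain ⟨Q, hQ, hQc⟩ := hpl d hd
    have hpos : 0 < Q.card := by
      rcases Nat.eq_zero_or_pos Q.card with h | h
      · rw [h, mul_zero] at hQc
        have : 0 < Nat.card k ^ d := pow_pos Nat.card_pos _
        omega
      · exact h
    obtain ⟨v, hv⟩ := Finset.card_pos.1 hpos
    exact ⟨v, hQ v hv⟩

theorem DenseFamC.good {k : Type} [Field k] [Finite k] {s κ : ℝ} (hs : 0 < s)
    (hκ : κ = if Even (Nat.card k) then 1 else 2) (H : DenseFamC k s) :
    Good k s κ (Real.logb 2 (Nat.card k)) := by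
  have hq1 : (1 : ℝ) < Nat.card k := by exact_mod_cast Finite.one_lt_card
  have hlam0 : 0 < Real.logb 2 (Nat.card k) := Real.logb_pos (by norm_num) hq1
  have hfin := Fintype.ofFinite k
  obtain ⟨p, hp⟩ := CharP.exists k
  obtain ⟨e, hpp, hc⟩ := FiniteField.card k p
  rw [← Nat.card_eq_fintype_card] at hc
  rw [hκ]
  split_ifs with h
  · have h2 : p = 2 := by
      have h3 : 2 ∣ p ^ (e : ℕ) := by
        rw [← hc]
        exact h.two_dvd
      exact ((Nat.prime_dvd_prime_iff_eq Nat.prime_two hpp).1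
        (Nat.prime_two.dvd_of_dvd_pow h3)).symm
    subst h2
    have h5 : Real.logb 2 (Nat.card k) = ((e : ℕ) : ℝ) := by
      rw [hc]
      push_cast
      rw [Real.logb_pow, Real.logb_self_eq_one (by norm_num), mul_one]
    rw [h5]
    exact H.good_even e.pos hc hs
  · have h2 : (2 : k) ≠ 0 := by
      intro h0
      have hp2 : CharP k 2 := CharTwo.of_one_ne_zero_of_two_eq_zero one_ne_zero h0
      have hp' : p = 2 := CharP.eq k hp hp2
      subst hp'
      exact h (by rw [hc]; exact (Nat.even_pow' e.ne_zero).2 even_two)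
    refine H.good_odd h2 hs hlam0 ?_
    rw [Real.rpow_logb (by norm_num) (by norm_num) (by linarith)]

/-- **The bounds from a log-dense family of slope `s`.** -/
theorem DenseFamC.bounds {k : Type} [Field k] [Finite k] {s κ : ℝ} (hs : 0 < s)
    (hsq : s + 1 ≤ √(Nat.card k : ℝ)) (hκ : κ = if Even (Nat.card k) then 1 else 2)
    (H : DenseFamC k s) :
    ENNReal.ofReal (2 * s / (2 + (s + κ) / Real.logb 2 (Nat.card k))) ≤ LL k ∧
    (6 ≤ s → ENNReal.ofReal ((s + 2) / (2 + κ / Real.logb 2 (Nat.card k))) ≤ LL k) := by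
  have hq1 : (1 : ℝ) < Nat.card k := by exact_mod_cast Finite.one_lt_card
  have hlam0 : 0 < Real.logb 2 (Nat.card k) := Real.logb_pos (by norm_num) hq1
  have hκ1 : 1 ≤ κ := by rw [hκ]; split_ifs <;> norm_num
  have G := H.good hs hκ
  refine ⟨?_, fun h6 => ?_⟩
  · rw [add_comm s κ]
    exact G.split hs (by linarith) hlam0
  · refine G.plus_two h6 hκ1 ?_
    have h1 : Real.logb 2 (s + 1) ≤ Real.logb 2 (√(Nat.card k : ℝ)) :=
      Real.logb_le_logb_of_le (by norm_num) (by linarith) hsq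
    have h2 : 2 * Real.logb 2 (√(Nat.card k : ℝ)) = Real.logb 2 (Nat.card k) := by
      have h3 : Real.logb 2 ((√(Nat.card k : ℝ)) ^ 2) = 2 * Real.logb 2 (√(Nat.card k : ℝ)) := by
        rw [Real.logb_pow]
        norm_num
      rw [← h3, Real.sq_sqrt (by linarith)]
    linarith

/-- the slope `2 / (1 / (r ^ j - 1) + 1 / (r ^ l - 1))` is at most `√q - 1` -/
theorem slope_sqrt {r : ℝ} (hr : 2 ≤ r) {j l : ℕ} (hj : 0 < j) (hl : 0 < l) :
    0 < 2 / (1 / (r ^ j - 1) + 1 / (r ^ l - 1)) ∧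
      2 / (1 / (r ^ j - 1) + 1 / (r ^ l - 1)) + 1 ≤ √(r ^ (j + l)) := by
  have h1 : r ≤ r ^ j := le_self_pow₀ (by linarith) hj.ne'
  have h2 : r ≤ r ^ l := le_self_pow₀ (by linarith) hl.ne'
  have ha : 0 < r ^ j - 1 := by linarith
  have hb : 0 < r ^ l - 1 := by linarith
  refine ⟨by positivity, ?_⟩
  set x : ℝ := √(r ^ j) with hx
  set y : ℝ := √(r ^ l) with hy
  have hxx : x ^ 2 = r ^ j := Real.sq_sqrt (by positivity)
  have hyy : y ^ 2 = r ^ l := Real.sq_sqrt (by positivity)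
  have hx1 : 1 < x := by
    rw [hx, Real.lt_sqrt (by norm_num)]
    linarith
  have hy1 : 1 < y := by
    rw [hy, Real.lt_sqrt (by norm_num)]
    linarith
  have hxy : √(r ^ (j + l)) = x * y := by
    rw [pow_add, Real.sqrt_mul (by positivity)]
  rw [hxy]
  have h3 : 2 / (1 / (r ^ j - 1) + 1 / (r ^ l - 1)) =
      2 * ((r ^ j - 1) * (r ^ l - 1)) / (r ^ j + r ^ l - 2) := by
    have : r ^ j - 1 ≠ 0 := ha.ne'
    have : r ^ l - 1 ≠ 0 := hb.ne'
    have h4 : r ^ j + r ^ l - 2 ≠ 0 := by linarith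
    have h5 : (1 / (r ^ j - 1) + 1 / (r ^ l - 1)) =
        (r ^ j + r ^ l - 2) / ((r ^ j - 1) * (r ^ l - 1)) := by
      field_simp
      ring
    rw [h5]
    field_simp
  rw [h3, ← hxx, ← hyy]
  rw [← hxx] at ha
  rw [← hyy] at hb
  have hsum : 0 < x ^ 2 + y ^ 2 - 2 := by linarith
  have h6 : 2 * ((x ^ 2 - 1) * (y ^ 2 - 1)) / (x ^ 2 + y ^ 2 - 2) ≤ x * y - 1 := by
    rw [div_le_iff₀ hsum]
    nlinarith [mul_nonneg (by nlinarith : 0 ≤ x * y - 1) (sq_nonneg (x - y)),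
      mul_nonneg (mul_nonneg (by linarith : (0 : ℝ) ≤ x - 1) (by linarith : (0 : ℝ) ≤ y - 1))
        (sq_nonneg (x - y)), mul_pos (by linarith : (0 : ℝ) < x) (by linarith : (0 : ℝ) < y)]
  linarith

end Pool.Agent.FF
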