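import Pool.Agent.FG.SizesP

/-! # The sizes are log-dense (41) -/

set_option autoImplicit false

namespace Pool.Agent.FF.Jl

open Polynomial

/-- a sequence of good primes, its length is a multiple of `w` -/
theorem exists_seqG {F : Type*} [Field F] [Finite F] {l w : ℕ} (hw : 0 < w)
    (hper : ∀ c : ℕ, Nat.Coprime l (yG (Nat.card F) (w * c + 1))) (D0 : ℕ) (B : ℝ) :
    ∃ (T : ℕ) (M : Fin (w * T) → F[X]), Function.Injective M ∧
      (∀ i, PrG F l (M i) ∧ D0 < (M i).natDegree ∧ ∃ c, (M i).natDegree = w * c + 1) ∧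
      B ≤ ∏ i, (1 + 1 / (Nat.card F : ℝ) ^ (M i).natDegree) := by
  classical
  let G := {f : F[X] // PrG F l f ∧ D0 < f.natDegree ∧ ∃ c, f.natDegree = w * c + 1}
  have hinf : Infinite G := by
    rw [← not_finite_iff_infinite]
    intro hfin
    have := Fintype.ofFinite G
    set N := Finset.univ.sup (fun f : G => f.1.natDegree) with hN
    obtain ⟨f, h1, h2⟩ := exists_irG (F := F) hper (c := N + D0 + 4)
      (le_trans (by omega) (Nat.le_mul_of_pos_left (N + D0 + 4) hw))
    have h3 : N + D0 + 4 ≤ w * (N + D0 + 4) := Nat.le_mul_of_pos_left _ hw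
    have h4 : f.natDegree ≤ N :=
      Finset.le_sup (f := fun f : G => f.1.natDegree)
        (Finset.mem_univ (⟨f, h1, by omega, _, h2⟩ : G))
    omega
  obtain ⟨S, hS, hB⟩ := exists_sumG (F := F) (l := l) hw hper D0 B
  let S' : Finset G := S.attach.image fun f => ⟨f.1, hS f.1 f.2⟩
  obtain ⟨t, ht1, ht2⟩ := Infinite.exists_superset_card_eq S' (w * S'.card)
    (Nat.le_mul_of_pos_left _ hw)
  refine ⟨S'.card, fun i => ((t.equivFinOfCardEq ht2).symm i).1.1, ?_, fun i =>
    ((t.equivFinOfCardEq ht2).symm i).1.2, ?_⟩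
  · exact Subtype.val_injective.comp
      (Subtype.val_injective.comp (t.equivFinOfCardEq ht2).symm.injective)
  · rw [Equiv.prod_comp (t.equivFinOfCardEq ht2).symm
      fun f : t => (1 + 1 / (Nat.card F : ℝ) ^ f.1.1.natDegree),
      Finset.prod_coe_sort t fun f => (1 + 1 / (Nat.card F : ℝ) ^ f.1.natDegree)]
    have h1 := one_add_sum_le t (fun f => 1 / (Nat.card F : ℝ) ^ f.1.natDegree)
      fun f _ => by positivity
    have h2 : ∑ f ∈ S', 1 / (Nat.card F : ℝ) ^ f.1.natDegree ≤
        ∑ f ∈ t, 1 / (Nat.card F : ℝ) ^ f.1.natDegree :=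
      Finset.sum_le_sum_of_subset_of_nonneg ht1 fun _ _ _ => by positivity
    have h3 : ∑ f ∈ S', 1 / (Nat.card F : ℝ) ^ f.1.natDegree =
        ∑ f ∈ S, 1 / (Nat.card F : ℝ) ^ f.natDegree := by
      rw [Finset.sum_image]
      · exact Finset.sum_attach S fun f => 1 / (Nat.card F : ℝ) ^ f.natDegree
      · intro f _ g _ h
        exact Subtype.ext (congrArg (fun x : G => x.1) h)
    linarith

theorem sizes (F : Type*) [Field F] [Finite F] {n l : ℕ} (hn : 2 ≤ n) (hl : 0 < l) {eta : ℝ}
    (he : 0 < eta) : ∃ X0 : ℝ, ∀ X : ℝ, X0 ≤ X →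
      ∃ (s : ℕ) (M : Fin s → Polynomial F), Function.Injective M ∧ (∀ i, PrG F l (M i)) ∧
        X ≤ psiN n M ∧ (psiN n M : ℝ) ≤ (1 + eta) * X := by
  classical
  obtain ⟨j, rfl⟩ : ∃ j, n = j + 1 := ⟨n - 1, by omega⟩
  have hj : 1 ≤ j := by omega
  have hr2 : 2 ≤ Nat.card F := Finite.one_lt_card
  obtain ⟨w, hw, hper⟩ := exists_period hr2 hl
  set r : ℝ := (Nat.card F : ℝ) with hr
  have hr1 : (2 : ℝ) ≤ r := by rw [hr]; exact_mod_cast hr2
  have hr0 : 0 < r := by linarith
  set b : ℝ := r ^ j with hb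
  have hb2 : 2 ≤ b := by
    calc (2 : ℝ) ≤ r := hr1
      _ = r ^ 1 := (pow_one r).symm
      _ ≤ r ^ j := pow_le_pow_right₀ (by linarith) hj
  have hb0 : 0 < b := by linarith
  -- the small parameters
  set δ : ℝ := min eta 1 / 3 with hδ
  have hδ0 : 0 < δ := by rw [hδ]; positivity
  have hδ1 : (1 + δ) * (1 + δ) ≤ 1 + eta := by
    have h1 : min eta 1 ≤ eta := min_le_left _ _
    have h2 : min eta 1 ≤ 1 := min_le_right _ _
    have h3 : min eta 1 = 3 * δ := by rw [hδ]; ring
    rw [h3] at h1 h2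
    nlinarith
  obtain ⟨γ, hγ0, hγ1, hγ2⟩ : ∃ γ : ℝ, 0 < γ ∧ γ ≤ δ ∧ (1 + γ) ^ w ≤ 1 + δ := by
    have h1 : Filter.Tendsto (fun x : ℝ => (1 + x) ^ w) (nhds 0) (nhds ((1 + 0) ^ w)) :=
      (Continuous.pow (continuous_const.add continuous_id) w).tendsto 0
    rw [add_zero, one_pow] at h1
    have h2 := h1.eventually (eventually_le_nhds (show (1 : ℝ) < 1 + δ by linarith))
    obtain ⟨ε, hε, h3⟩ := Metric.eventually_nhds_iff.1 h2
    refine ⟨min δ (ε / 2), by positivity, min_le_left _ _, h3 ?_⟩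
    rw [Real.dist_eq, sub_zero, abs_of_pos (by positivity)]
    exact (min_le_right _ _).trans_lt (by linarith)
  obtain ⟨D0, hD0⟩ := exists_pow_lt_of_lt_one (show 0 < γ / 2 by positivity) (show 1 / r < 1 by
    rw [div_lt_one hr0]; linarith)
  have hsmall : ∀ n, D0 < n → epJ r j n ≤ γ := by
    intro n hn
    have h1 : 1 / r ^ n ≤ 1 / r ^ D0 :=
      one_div_le_one_div_of_le (by positivity) (pow_le_pow_right₀ (by linarith) hn.le)
    rw [one_div_pow] at hD0
    have h2 := epJ_le hr1 j (show 1 ≤ n by omega)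
    have h3 : 2 / r ^ n = 2 * (1 / r ^ n) := by ring
    linarith
  obtain ⟨T, M, hinj, hM, hB⟩ := exists_seqG (F := F) hw hper (D0 + 1) (b ^ w)
  set N : ℕ → F[X] := fun i => if h : i < w * T then M ⟨i, h⟩ else 1 with hN
  have hNi : ∀ i (h : i < w * T), N i = M ⟨i, h⟩ := fun i h => by rw [hN]; simp only [dif_pos h]
  set dd : ℕ → ℕ := fun i => (N i).natDegree with hdd
  have hdd1 : ∀ i < w * T, D0 + 1 < dd i := fun i h => by
    rw [hdd]; simp only; rw [hNi i h]; exact (hM _).2.1
  have hdd2 : ∀ i < w * T, ∃ c, dd i = w * c + 1 := fun i h => by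
    rw [hdd]; simp only; rw [hNi i h]; exact (hM _).2.2
  set κ : ℕ → ℝ := fun t => ∏ i ∈ Finset.range (w * t), (1 + epJ r j (dd i)) with hκ
  have hκT : b ^ w ≤ κ T := by
    refine hB.trans ?_
    rw [hκ]
    simp only
    rw [← Fin.prod_univ_eq_prod_range (fun i => 1 + epJ r j (dd i)) (w * T)]
    refine Finset.prod_le_prod (fun i _ => by positivity) fun i _ => ?_
    have h1 := le_epJ hr0 hj (dd i)
    rw [hdd] at h1 ⊢
    simp only at h1 ⊢
    rw [hNi i i.isLt] at h1 ⊢
    simpa using h1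
  have hκ0 : ∀ t, 0 < κ t := fun t => Finset.prod_pos fun i _ => by
    have := epJ_nonneg hr0 j (dd i)
    linarith
  set S : ℕ := ∑ i ∈ Finset.range (w * T), dd i with hS
  have hbw : 1 < b ^ w := one_lt_pow₀ (by linarith) hw.ne'
  refine ⟨b * (b ^ w) ^ (S + (S + D0 + 6)), fun X hX => ?_⟩
  have hX1 : 1 ≤ X / b := by
    rw [le_div_iff₀ hb0, one_mul]
    refine le_trans ?_ hX
    exact le_mul_of_one_le_right hb0.le (one_le_pow₀ hbw.le)
  obtain ⟨k, hm1, hm2⟩ := exists_nat_pow_near hX1 hbw
  set m : ℕ := w * k + 1 with hm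
  have hbm : b ^ m = b * (b ^ w) ^ k := by rw [hm, pow_succ, pow_mul, mul_comm]
  have hm1' : b ^ m ≤ X := by
    rw [hbm, mul_comm]
    exact (le_div_iff₀ hb0).1 hm1
  have hm2' : X < b ^ m * b ^ w := by
    rw [hbm, mul_assoc, ← pow_succ, mul_comm]
    exact (div_lt_iff₀ hb0).1 hm2
  have hrm : 0 < b ^ m := by positivity
  have hX0 : 0 < X := lt_of_lt_of_le hrm hm1'
  have hkS : S + (S + D0 + 6) ≤ k := by
    have h1 : (b ^ w) ^ (S + (S + D0 + 6)) < (b ^ w) ^ (k + 1) := by
      refine lt_of_le_of_lt ?_ hm2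
      rw [le_div_iff₀ hb0, mul_comm]
      exact hX
    have h2 := (pow_lt_pow_iff_right₀ hbw).1 h1
    omega
  have hkm : k ≤ w * k := Nat.le_mul_of_pos_left k hw
  -- the index
  have hex : ∃ t, X / b ^ m ≤ κ t := by
    refine ⟨T, le_trans ?_ hκT⟩
    rw [div_le_iff₀ hrm, mul_comm]
    exact hm2'.le
  set t := Nat.find hex with ht
  have htT : t ≤ T := by
    apply Nat.find_min' hex
    refine le_trans ?_ hκT
    rw [div_le_iff₀ hrm, mul_comm]
    exact hm2'.le
  have hwt : w * t ≤ w * T := Nat.mul_le_mul_left w htT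
  have ht1 : X / b ^ m ≤ κ t := Nat.find_spec hex
  have hlow : X ≤ b ^ m * κ t := by
    rw [div_le_iff₀ hrm] at ht1
    linarith
  have hupp : b ^ m * κ t ≤ (1 + δ) * X := by
    rcases Nat.eq_zero_or_pos t with h0 | h0
    · rw [h0, hκ]
      simp only [mul_zero, Finset.range_zero, Finset.prod_empty, mul_one]
      nlinarith
    · have h1 : ¬ X / b ^ m ≤ κ (t - 1) := Nat.find_min hex (by omega)
      push Not at h1
      obtain ⟨u, hu⟩ : ∃ u, t = u + 1 := ⟨t - 1, by omega⟩
      have h2 : κ t = κ (t - 1) * ∏ i ∈ Finset.range w, (1 + epJ r j (dd (w * (t - 1) + i))) := by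
        rw [hκ]
        simp only
        rw [hu, Nat.add_sub_cancel, mul_add, mul_one, Finset.prod_range_add]
      have h3 : ∏ i ∈ Finset.range w, (1 + epJ r j (dd (w * (t - 1) + i))) ≤ 1 + δ := by
        refine le_trans (Finset.prod_le_prod (g := fun _ => 1 + γ) (fun i _ => ?_)
          fun i hi => ?_) ?_
        · have := epJ_nonneg hr0 j (dd (w * (t - 1) + i))
          linarith
        · rw [Finset.mem_range] at hi
          have h4 : w * (t - 1) + i < w * T := by
            have : w * t = w * (t - 1) + w := by rw [hu, Nat.add_sub_cancel]; ring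
            omega
          have := hsmall _ (show D0 < dd (w * (t - 1) + i) by have := hdd1 _ h4; omega)
          linarith
        · rw [Finset.prod_const, Finset.card_range]
          exact hγ2
      have h5 : 0 ≤ ∏ i ∈ Finset.range w, (1 + epJ r j (dd (w * (t - 1) + i))) :=
        Finset.prod_nonneg fun i _ => by
          have := epJ_nonneg hr0 j (dd (w * (t - 1) + i))
          linarith
      rw [lt_div_iff₀ hrm] at h1
      rw [h2]
      calc b ^ m * (κ (t - 1) * ∏ i ∈ Finset.range w, (1 + epJ r j (dd (w * (t - 1) + i))))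
          = (κ (t - 1) * b ^ m) * ∏ i ∈ Finset.range w, (1 + epJ r j (dd (w * (t - 1) + i))) := by
            ring
        _ ≤ X * (1 + δ) := by
            apply mul_le_mul h1.le h3 h5 (by linarith)
        _ = (1 + δ) * X := by ring
  -- the last polynomial
  set St : ℕ := ∑ i ∈ Finset.range (w * t), dd i with hSt
  have hStS : St ≤ S := Finset.sum_le_sum_of_subset (Finset.range_mono hwt)
  have hStw : w ∣ St := by
    have h1 : ∀ v ≤ w * T, ∃ c, ∑ i ∈ Finset.range v, dd i = w * c + v := by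
      intro v
      induction v with
      | zero => intro _; exact ⟨0, by simp⟩
      | succ v ih =>
        intro hv
        obtain ⟨c, hc⟩ := ih (by omega)
        obtain ⟨c', hc'⟩ := hdd2 v (by omega)
        exact ⟨c + c', by rw [Finset.sum_range_succ, hc, hc']; ring⟩
    obtain ⟨c, hc⟩ := h1 (w * t) hwt
    exact ⟨c + t, by rw [hSt, hc]; ring⟩
  obtain ⟨c1, hc1⟩ := hStw
  have hc1k : c1 + 4 ≤ k := by
    have h1 : c1 ≤ St := by rw [hc1]; exact Nat.le_mul_of_pos_left c1 hw
    omega
  have hmSt : m - St = w * (k - c1) + 1 := by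
    have h1 : w * k = w * (k - c1) + w * c1 := by
      rw [← mul_add]; congr 1; omega
    omega
  obtain ⟨f, hf1, hf3⟩ := exists_irG (F := F) hper (c := k - c1)
    (le_trans (by omega) (Nat.le_mul_of_pos_left (k - c1) hw))
  rw [← hmSt] at hf3
  have hle : ∀ i < w * T, dd i ≤ S := fun i hi =>
    Finset.single_le_sum (f := dd) (fun _ _ => Nat.zero_le _) (Finset.mem_range.2 hi)
  have hfN : ∀ i < w * T, N i ≠ f := by
    intro i hi h
    have h1 := hle i hi
    have h2 : dd i = m - St := by rw [hdd]; simp only; rw [h, hf3]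
    have h3 : m - St ≤ S := h2 ▸ h1
    clear_value S St
    omega
  refine ⟨w * t + 1, Fin.snoc (fun i : Fin (w * t) => N i) f, ?_, ?_, ?_⟩
  · intro i k hij
    induction i using Fin.lastCases with
    | last =>
      induction k using Fin.lastCases with
      | last => rfl
      | cast k =>
        rw [Fin.snoc_last, Fin.snoc_castSucc] at hij
        exact absurd hij.symm (hfN k (by have := k.isLt; omega))
    | cast i =>
      induction k using Fin.lastCases with
      | last =>
        rw [Fin.snoc_last, Fin.snoc_castSucc] at hij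
        exact absurd hij (hfN i (by have := i.isLt; omega))
      | cast k =>
        rw [Fin.snoc_castSucc, Fin.snoc_castSucc] at hij
        rw [hNi i (by have := i.isLt; omega), hNi k (by have := k.isLt; omega)] at hij
        have h1 := hinj hij
        have h2 : (i : ℕ) = k := by simpa using h1
        rw [Fin.ext h2]
  · intro i
    induction i using Fin.lastCases with
    | last =>
      rw [Fin.snoc_last]
      exact hf1
    | cast i =>
      rw [Fin.snoc_castSucc]
      have hi : (i : ℕ) < w * T := by have := i.isLt; omega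
      rw [hNi i hi]
      exact (hM _).1
  · have hpsi : ((psiN (j + 1) (Fin.snoc (fun i : Fin (w * t) => N i) f :
        Fin (w * t + 1) → F[X]) : ℕ) : ℝ) = b ^ m * κ t * (1 + epJ r j (m - St)) := by
      rw [psiN, Fin.prod_univ_castSucc]
      simp only [Fin.snoc_castSucc, Fin.snoc_last]
      push_cast
      rw [hf3, ← hr, sum_epJ hr0]
      have h1 : ∏ i : Fin (w * t), ∑ l ∈ Finset.range (j + 1), r ^ (l * (N i).natDegree) =
          b ^ St * κ t := by
        rw [Fin.prod_univ_eq_prod_range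
          (fun i => ∑ l ∈ Finset.range (j + 1), r ^ (l * (N i).natDegree)) (w * t), hSt,
          ← Finset.prod_pow_eq_pow_sum, hκ, ← Finset.prod_mul_distrib]
        refine Finset.prod_congr rfl fun i _ => ?_
        rw [sum_epJ hr0, hb, ← pow_mul, ← pow_mul, mul_comm j]
      rw [h1]
      have h2 : b ^ m = b ^ St * b ^ (m - St) := by
        rw [← pow_add]; congr 1; omega
      rw [h2, hb, ← pow_mul, ← pow_mul, ← pow_mul, mul_comm (m - St) j]
      ring
    rw [hpsi]
    have hd : epJ r j (m - St) ≤ δ := (hsmall _ (by omega)).trans hγ1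
    have hd0 := epJ_nonneg hr0 j (m - St)
    constructor
    · have : 0 < b ^ m * κ t := mul_pos hrm (hκ0 t)
      nlinarith
    · calc b ^ m * κ t * (1 + epJ r j (m - St)) ≤ ((1 + δ) * X) * (1 + δ) := by
            apply mul_le_mul hupp (by linarith) (by linarith) (by positivity)
        _ = (1 + δ) * (1 + δ) * X := by ring
        _ ≤ (1 + eta) * X := mul_le_mul_of_nonneg_right hδ1 (by linarith)

theorem pow_dgM_le {F : Type*} [Field F] [Finite F] {n : ℕ} (hn : 2 ≤ n) {s : ℕ}
    (M : Fin s → Polynomial F) : Nat.card F ^ dgM M Finset.univ ≤ psiN n M := by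
  rw [dgM, psiN, ← Finset.prod_pow_eq_pow_sum]
  refine Finset.prod_le_prod' fun i _ => ?_
  have h := Finset.single_le_sum (f := fun l => Nat.card F ^ (l * (M i).natDegree))
    (fun _ _ => Nat.zero_le _) (Finset.mem_range.2 (show 1 < n by omega))
  simpa using h

end Pool.Agent.FF.Jl
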