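import Pool.Agent.FG.Drin
import Pool.Agent.FG.Sizes
import Pool.Agent.FG.GoodC
import Pool.Agent.FE.Fam

/-!
# The log-dense families over the field with `r ^ (j + l)` elements (93)
-/

set_option autoImplicit false

namespace Pool.Agent.FF.Jl

/-- the slope `2 / (1 / (r ^ j - 1) + 1 / (r ^ l - 1))` -/
theorem slope_eq {r j l : ℕ} (hr : 2 ≤ r) (hj : 0 < j) (hl : 0 < l) :
    2 / (1 / ((r : ℝ) ^ j - 1) + 1 / ((r : ℝ) ^ l - 1)) =
      2 * (((r : ℝ) ^ j - 1) * ((r : ℝ) ^ l - 1)) / ((r : ℝ) ^ j + (r : ℝ) ^ l - 2) := by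
  have hr2 : (2 : ℝ) ≤ r := by exact_mod_cast hr
  have h1 : (r : ℝ) ≤ (r : ℝ) ^ j := le_self_pow₀ (by linarith) hj.ne'
  have h2 : (r : ℝ) ≤ (r : ℝ) ^ l := le_self_pow₀ (by linarith) hl.ne'
  have h3 : (0 : ℝ) < (r : ℝ) ^ j - 1 := by linarith
  have h3' : (0 : ℝ) < (r : ℝ) ^ l - 1 := by linarith
  have h4 : (0 : ℝ) < (r : ℝ) ^ j + (r : ℝ) ^ l - 2 := by linarith
  have h5 : (1 / ((r : ℝ) ^ j - 1) + 1 / ((r : ℝ) ^ l - 1)) =
      ((r : ℝ) ^ j + (r : ℝ) ^ l - 2) / (((r : ℝ) ^ j - 1) * ((r : ℝ) ^ l - 1)) := by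
    field_simp
    ring
  rw [h5]
  field_simp

theorem denseFam {k : Type} [Field k] [Finite k] {r j l : ℕ} (hr : 2 ≤ r) (hj : 0 < j)
    (hl : 0 < l) (hjl : Nat.Coprime j l) (hk : Nat.card k = r ^ (j + l)) :
    DenseFamC k (2 / (1 / ((r : ℝ) ^ j - 1) + 1 / ((r : ℝ) ^ l - 1))) := by
  obtain ⟨F, iF, iFin, iA, hF⟩ := Rk.exists_subF (by omega) hk
  obtain ⟨A, hA⟩ := drin F hj hl hjl k (by rw [hk, hF])
  have hr2 : (2 : ℝ) ≤ r := by exact_mod_cast hr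
  have h1 : (r : ℝ) ≤ (r : ℝ) ^ j := le_self_pow₀ (by linarith) hj.ne'
  have h2 : (r : ℝ) ≤ (r : ℝ) ^ l := le_self_pow₀ (by linarith) hl.ne'
  have h4 : (0 : ℝ) < (r : ℝ) ^ j + (r : ℝ) ^ l - 2 := by linarith
  refine ⟨2 * A, 2 / (1 / ((r : ℝ) ^ j - 1) + 1 / ((r : ℝ) ^ l - 1)), fun η h0 => ?_⟩
  have hm0 : 0 < min η 1 := lt_min h0 one_pos
  obtain ⟨X0, hX0⟩ := sizes F (n := j + l) (by omega) hl hm0
  refine ⟨max 1 X0, fun X hX => ?_⟩
  have hX1 : 1 ≤ X := (le_max_left _ _).trans hX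
  obtain ⟨s, M, hinj, hM, hlo, hhi⟩ := hX0 X ((le_max_right _ _).trans hX)
  obtain ⟨E, iE, iAE, G, T, hFF, hC, hG, hT, hrat, hpl⟩ := hA s M hM hinj
  refine ⟨E, iE, iAE, G, T, hFF, hC, ?_, hrat, by rw [hT]; exact hlo, ?_, ?_⟩
  · rw [slope_eq hr hj hl, hT, div_mul_eq_mul_div, ← sub_le_iff_le_add, ← sub_div,
      div_le_iff₀ h4]
    rw [hF] at hG
    have h5 : 1 ≤ r ^ j := Nat.one_le_pow _ _ (by omega)
    have h5' : 1 ≤ r ^ l := Nat.one_le_pow _ _ (by omega)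
    have h6 : ((2 * ((r ^ j - 1) * (r ^ l - 1)) * G : ℕ) : ℝ) ≤
        (((r ^ j + r ^ l - 2) * psiN (j + l) M + 2 * ((r ^ j - 1) * (r ^ l - 1)) : ℕ) : ℝ) := by
      exact_mod_cast hG
    have h8 : (((r ^ j + r ^ l - 2 : ℕ)) : ℝ) = (r : ℝ) ^ j + (r : ℝ) ^ l - 2 := by
      rw [Nat.cast_sub (by omega)]
      push_cast
      ring
    simp only [Nat.cast_add, Nat.cast_mul, h8, Nat.cast_sub h5, Nat.cast_sub h5', Nat.cast_pow,
      Nat.cast_one, Nat.cast_ofNat] at h6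
    linarith
  · rw [hT]
    refine hhi.trans ?_
    rw [mul_comm]
    exact mul_le_mul_of_nonneg_left (by have := min_le_left η 1; linarith) (by linarith)
  · intro d hd
    refine hpl d ?_
    have h5 : (dgM M Finset.univ : ℝ) ≤ Real.logb 2 X + 1 := by
      have h6 : 2 ^ dgM M Finset.univ ≤ psiN (j + l) M := by
        refine le_trans ?_ (pow_dgM_le (by omega) M)
        rw [hF]
        exact Nat.pow_le_pow_left hr _
      have h7 : (2 : ℝ) ^ dgM M Finset.univ ≤ (psiN (j + l) M : ℝ) := by exact_mod_cast h6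
      have h8 : (2 : ℝ) ^ dgM M Finset.univ ≤ X * 2 := by
        refine h7.trans (hhi.trans ?_)
        have := min_le_right η 1
        nlinarith
      have h9 : (dgM M Finset.univ : ℝ) ≤ Real.logb 2 (X * 2) := by
        rw [Real.le_logb_iff_rpow_le (by norm_num) (by positivity), Real.rpow_natCast]
        exact h8
      rwa [Real.logb_mul (by positivity) (by norm_num), Real.logb_self_eq_one (by norm_num)] at h9
    have hl0 : 0 ≤ Real.logb 2 X := Real.logb_nonneg (by norm_num) hX1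
    have hA0 : (0 : ℝ) ≤ A := Nat.cast_nonneg _
    have h6 : ((A * (dgM M Finset.univ + 1) : ℕ) : ℝ) ≤ d := by
      refine le_trans ?_ hd
      push_cast
      have h7 : (dgM M Finset.univ : ℝ) + 1 ≤ 2 * (Real.logb 2 X + 1) := by linarith
      calc (A : ℝ) * ((dgM M Finset.univ : ℝ) + 1) ≤ A * (2 * (Real.logb 2 X + 1)) :=
            mul_le_mul_of_nonneg_left h7 hA0
        _ = _ := by ring
    exact_mod_cast h6

theorem good_jl {k : Type} [Field k] {r j l : ℕ} (hr : 2 ≤ r) (hj : 0 < j) (hl : 0 < l)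
    (hjl : Nat.Coprime j l) (hk : Nat.card k = r ^ (j + l)) {s κ : ℝ}
    (hs : s = 2 / (1 / ((r : ℝ) ^ j - 1) + 1 / ((r : ℝ) ^ l - 1)))
    (hκ : κ = if Even r then 1 else 2) : Good k s κ (Real.logb 2 (Nat.card k)) := by
  have : Finite k := Nat.finite_of_card_ne_zero (by rw [hk]; positivity)
  have hr2 : (2 : ℝ) ≤ r := by exact_mod_cast hr
  have hev : Even (Nat.card k) ↔ Even r := by
    rw [hk, Nat.even_pow' (by omega)]
  subst hs
  refine (denseFam hr hj hl hjl hk).good (slope_sqrt hr2 hj hl).1 ?_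
  simp only [hκ, hev]

/-- **Lower bounds for `L(q)` for all `q = r ^ (j + l)`, `j`, `l` coprime.** -/
theorem LL_jl {k : Type} [Field k] {r j l : ℕ} (hr : 2 ≤ r) (hj : 0 < j) (hl : 0 < l)
    (hjl : Nat.Coprime j l) (hk : Nat.card k = r ^ (j + l)) {s κ : ℝ}
    (hs : s = 2 / (1 / ((r : ℝ) ^ j - 1) + 1 / ((r : ℝ) ^ l - 1)))
    (hκ : κ = if Even r then 1 else 2) :
    ENNReal.ofReal (2 * s / (2 + (s + κ) / Real.logb 2 (Nat.card k))) ≤ LL k ∧
    (6 ≤ s → ENNReal.ofReal ((s + 2) / (2 + κ / Real.logb 2 (Nat.card k))) ≤ LL k) := by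
  have : Finite k := Nat.finite_of_card_ne_zero (by rw [hk]; positivity)
  have hr2 : (2 : ℝ) ≤ r := by exact_mod_cast hr
  obtain ⟨h1, h2⟩ := slope_sqrt hr2 hj hl
  have hev : Even (Nat.card k) ↔ Even r := by
    rw [hk, Nat.even_pow' (by omega)]
  have hk' : ((r : ℝ) ^ (j + l)) = (Nat.card k : ℝ) := by rw [hk]; push_cast; ring
  rw [hk'] at h2
  subst hs
  refine (denseFam hr hj hl hjl hk).bounds h1 h2 ?_
  simp only [hκ, hev]

end Pool.Agent.FF.Jl
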