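import Pool.Agent.FG.FV
import Pool.Agent.FG.LinesC
import Pool.Agent.FD.LinesB
import Pool.Agent.FE.Inf0
import Pool.Agent.FF.RatAd

/-! # The wild inertia group at infinity is full (42) -/

set_option autoImplicit false

namespace Pool.Agent.FF.Jl

section

variable {F k H : Type} {j l : ℕ} [Field F] [Finite F] [Field k] [Finite k] [Field H]
  [Algebra F k] [Algebra F H] [Algebra k H] [Algebra (RatFunc k) H]
  [IsScalarTower k (RatFunc k) H]

/-- an automorphism over `k(g)` as a homomorphism over `F` -/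
noncomputable def Fu.hom {N : Polynomial F} (h : DrS F j l k H N) (σ : H ≃ₐ[RatFunc k] H) :
    H →ₐ[F] H :=
  { (σ : H →+* H) with
    commutes' := fun c => by
      rw [h.tower]
      exact σ.commutes _ }

theorem Fu.hom_apply {N : Polynomial F} (h : DrS F j l k H N) (σ : H ≃ₐ[RatFunc k] H) (x : H) :
    Fu.hom h σ x = σ x := rfl

theorem Fu.gX_fix (σ : H ≃ₐ[RatFunc k] H) : σ (gX k H) = gX k H := σ.commutes _

theorem Fu.map_phT (j l : ℕ) (σ : H ≃ₐ[RatFunc k] H) (x : H) :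
    σ (phT F j l (gX k H) x) = phT F j l (gX k H) (σ x) := by
  rw [phT_apply, phT_apply, map_sub, map_add, map_mul, map_pow, map_pow, Fu.gX_fix]

theorem Fu.mem_VN {N : Polynomial F} (h : DrS F j l k H N) (σ : H ≃ₐ[RatFunc k] H)
    (N' : Polynomial F) (x : H) :
    x ∈ VN F j l (gX k H) N' ↔ σ x ∈ VN F j l (gX k H) N' := by
  have h1 := map_phN (j := j) (l := l) (Fu.hom h σ) (gX k H) x N'
  rw [Fu.hom_apply, Fu.hom_apply, Fu.hom_apply, Fu.gX_fix] at h1
  show phN F j l (gX k H) N' x = 0 ↔ phN F j l (gX k H) N' (σ x) = 0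
  rw [← h1]
  exact (map_eq_zero σ).symm

/-- the elements of the inertia group preserve `V_0` -/
theorem Fu.mem_V0 {N : Polynomial F} (h : DrS F j l k H N) {Q : DV H} {ρ : H ≃ₐ[RatFunc k] H}
    (hρ : Inert Q ρ) (N' : Polynomial F) (x : H) :
    x ∈ V0 F j l (gX k H) Q N' ↔ ρ x ∈ V0 F j l (gX k H) Q N' := by
  show (x ∈ VN F j l (gX k H) N' ∧ Q.G 0 x ∧ InV0 F j (gX k H) Q x) ↔
    (ρ x ∈ VN F j l (gX k H) N' ∧ Q.G 0 (ρ x) ∧ InV0 F j (gX k H) Q (ρ x))
  rw [← Fu.mem_VN h ρ, hρ.G]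
  unfold InV0
  rw [hρ.ord, map_eq_zero ρ]

/-- the elements of the inertia group fix the constants -/
theorem Fu.fix_CC {Q : DV H} {ρ : H ≃ₐ[RatFunc k] H} (hρ : Inert Q ρ) (hl : 0 < l) {ζ : H}
    (hζ : ζ ∈ CC F l H) : ρ ζ = ζ := by
  have hq : 1 < Nat.card F ^ l := Nat.one_lt_pow hl.ne' Finite.one_lt_card
  have hord : ∀ u : H, u ^ Nat.card F ^ l = u → u ≠ 0 → Q.ord u = 0 := by
    intro u hu h0
    have h1 := Q.ord_pow h0 (Nat.card F ^ l)
    rw [hu] at h1
    have h2 : (1 : ℤ) < ((Nat.card F ^ l : ℕ) : ℤ) := by exact_mod_cast hq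
    by_contra h3
    have h4 : (((Nat.card F ^ l : ℕ) : ℤ) - 1) * Q.ord u = 0 := by linarith
    rcases mul_eq_zero.1 h4 with h5 | h5
    · omega
    · exact h3 h5
  by_contra hne
  have h0 : ρ ζ - ζ ≠ 0 := sub_ne_zero.2 hne
  have h1 : (ρ ζ - ζ) ^ Nat.card F ^ l = ρ ζ - ζ := by
    rw [InfJ.sub_pow F, ← map_pow]
    rw [show ζ ^ Nat.card F ^ l = ζ from hζ]
  have h2 : Q.G 0 ζ := by
    by_cases hz : ζ = 0
    · exact Or.inl hz
    · exact DV.G_of_le (hord ζ hζ hz).ge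
  have h3 := (hρ ζ h2).le h0
  rw [hord _ h1 h0] at h3
  omega

/-- the wild inertia group acts trivially on `V_0` -/
theorem Fu.fix_V0 {N : Polynomial F} (h : DrS F j l k H N) {Q : DV H}
    (hg : Q.ord (gX k H) < 0) {σ : H ≃ₐ[RatFunc k] H} (hσ : σ ∈ wildG (RatFunc k) Q) {v : H}
    (hv : v ∈ V0 F j l (gX k H) Q N) : σ v = v := by
  by_contra hne
  have h0 : σ v - v ≠ 0 := sub_ne_zero.2 hne
  have hv0 : v ≠ 0 := by
    rintro rfl
    exact hne (map_zero σ)
  have h1 : σ v - v ∈ V0 F j l (gX k H) Q N :=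
    sub_mem ((Fu.mem_V0 h hσ.1 N v).1 hv) hv
  have h2 := inf_V0 h.pos h.pos' hg h.monic h.one h1 h0
  have h3 := inf_V0 h.pos h.pos' hg h.monic h.one hv hv0
  have h4 : σ v / v - 1 = (σ v - v) / v := by field_simp
  have h5 := hσ.2 v hv0
  rw [h4] at h5
  have h6 := h5.le (div_ne_zero h0 hv0)
  rw [Q.ord_div h0 hv0] at h6
  have hr : (2 : ℤ) ≤ (Nat.card F : ℤ) ^ j := InfJ.two_le_pow F h.pos
  have h7 : ((Nat.card F : ℤ) ^ j - 1) * (Q.ord (σ v - v) - Q.ord v) = 0 := by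
    rw [mul_sub, h2, h3, sub_self]
  rcases mul_eq_zero.1 h7 with h8 | h8 <;> omega

/-- an automorphism is determined by its values on the torsion and on the constants -/
theorem Fu.ext {N : Polynomial F} (h : DrS F j l k H N) {σ τ : H ≃ₐ[RatFunc k] H}
    (h1 : ∀ y ∈ VN F j l (gX k H) N, σ y = τ y) (h2 : ∀ ζ ∈ CC F l H, σ ζ = τ ζ) : σ = τ := by
  have h3 : (σ : H →ₐ[RatFunc k] H) = τ := by
    have h4 : ∀ x : H, σ x = τ x := by
      intro x
      have hx : x ∈ (⊤ : IntermediateField (RatFunc k) H) := IntermediateField.mem_top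
      rw [← h.gen] at hx
      induction hx using IntermediateField.adjoin_induction with
      | mem y hy =>
        rcases hy with hy | hy
        · exact h1 y hy
        · exact h2 y hy
      | algebraMap y => rw [σ.commutes, τ.commutes]
      | add x y _ _ hx hy => rw [map_add, map_add, hx, hy]
      | inv x _ hx => rw [map_inv₀, map_inv₀, hx]
      | mul x y _ _ hx hy => rw [map_mul, map_mul, hx, hy]
    exact AlgHom.ext h4
  exact AlgEquiv.ext fun x => AlgHom.congr_fun h3 x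

/-- the `A`-linear maps `V / V_0 → V_0` -/
def Fu.Th (F : Type) (j l : ℕ) (k H : Type) [Field F] [Finite F] [Field k] [Field H]
    [Algebra F H] [Algebra (RatFunc k) H] (Q : DV H) (N : Polynomial F) : Type :=
  {θ : VN F j l (gX k H) N →ₗ[F] H // (∀ y, θ y ∈ V0 F j l (gX k H) Q N) ∧
    (∀ y : VN F j l (gX k H) N, (y : H) ∈ V0 F j l (gX k H) Q N → θ y = 0) ∧
    ∀ y (hy : y ∈ VN F j l (gX k H) N)
      (hy' : phT F j l (gX k H) y ∈ VN F j l (gX k H) N),
        θ ⟨phT F j l (gX k H) y, hy'⟩ = phT F j l (gX k H) (θ ⟨y, hy⟩)}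

theorem Fu.phT_mem {g : H} {N : Polynomial F} {y : H} (hy : y ∈ VN F j l g N) :
    phT F j l g y ∈ VN F j l g N := by
  have h1 := phN_mem g Polynomial.X N hy
  rwa [phN, Polynomial.aeval_X] at h1

/-- every `A`-linear map `V / V_0 → V_0` comes from the inertia group -/
theorem full {N : Polynomial F} (h : DrS F j l k H N) (hN : OrdG l N) {Q : DV H}
    (hQ : Over Q (Rat.inf k)) (θ : VN F j l (gX k H) N →ₗ[F] H)
    (h1 : ∀ y, θ y ∈ V0 F j l (gX k H) Q N)
    (h2 : ∀ y : VN F j l (gX k H) N, (y : H) ∈ V0 F j l (gX k H) Q N → θ y = 0)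
    (h3 : ∀ y (hy : y ∈ VN F j l (gX k H) N)
      (hy' : phT F j l (gX k H) y ∈ VN F j l (gX k H) N),
        θ ⟨phT F j l (gX k H) y, hy'⟩ = phT F j l (gX k H) (θ ⟨y, hy⟩)) :
    ∃ σ : H ≃ₐ[RatFunc k] H, Inert Q σ ∧ ∀ y : VN F j l (gX k H) N, σ y = y + θ y := by
  classical
  have hfd := h.fin
  have hg : Q.ord (gX k H) < 0 := by
    obtain ⟨e, he⟩ := hQ.overE
    have h4 : Q.ord (gX k H) = e * (Rat.inf k).ord RatFunc.X := he.2 _
    rw [h4, Rat.inf_X]
    have h5 := he.1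
    have h6 : (1 : ℤ) ≤ e := by exact_mod_cast h5
    linarith
  have hVf : Finite (VN F j l (gX k H) N) := finite_VN h.pos' _ h.monic.ne_zero
  by_cases hD : 0 < N.natDegree
  swap
  · -- the torsion is zero
    have h0 : N.natDegree = 0 := by omega
    have h4 := h.cardV
    rw [h0, mul_zero, pow_zero] at h4
    have h5 : ∀ y : VN F j l (gX k H) N, y = 0 := by
      intro y
      have h6 := (Nat.card_eq_one_iff_unique.1 h4).1
      exact Subsingleton.elim _ _
    refine ⟨1, fun x _ => ?_, fun y => ?_⟩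
    · rw [AlgEquiv.one_apply, sub_self]
      exact DV.G_zero _
    · rw [h5 y, map_zero, AlgEquiv.one_apply, add_zero]
  obtain ⟨z, hz0, ⟨ζ, x, hζ, hx, hz, hgen⟩, -, -⟩ := exists_z h hN hD hQ
  -- the maps are determined by their values on the `x i`
  have hV0f : Finite (V0 F j l (gX k H) Q N) := by
    apply Nat.finite_of_card_ne_zero
    rw [card_V0 h hN hQ]
    exact pow_ne_zero _ Nat.card_pos.ne'
  let ev : Fu.Th F j l k H Q N → (Fin l → V0 F j l (gX k H) Q N) :=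
    fun θ i => ⟨θ.1 ⟨x i, hx i⟩, θ.2.1 _⟩
  have hev : Function.Injective ev := by
    intro θ θ' hθ
    have h4 : ∀ i, θ.1 ⟨x i, hx i⟩ = θ'.1 ⟨x i, hx i⟩ := fun i =>
      congrArg Subtype.val (congrFun hθ i)
    let Y : Submodule F H := (LinearMap.eqLocus θ.1 θ'.1).map (VN F j l (gX k H) N).subtype
    have hY : ∀ y (hy : y ∈ VN F j l (gX k H) N), y ∈ Y ↔ θ.1 ⟨y, hy⟩ = θ'.1 ⟨y, hy⟩ := by
      intro y hy
      constructor
      · rintro ⟨u, hu, hu'⟩
        have h5 : u = ⟨y, hy⟩ := Subtype.ext hu'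
        rw [← h5]
        exact hu
      · intro h5
        exact ⟨⟨y, hy⟩, h5, rfl⟩
    have hYle : ∀ y ∈ Y, y ∈ VN F j l (gX k H) N := by
      rintro y ⟨u, _, rfl⟩
      exact u.2
    have h5 : VN F j l (gX k H) N ≤ Y := by
      refine hgen Y (fun i => (hY _ (hx i)).2 (h4 i)) (fun v hv => ?_) (fun y hy => ?_)
      · rw [hY v hv.1, θ.2.2.1 ⟨v, hv.1⟩ hv, θ'.2.2.1 ⟨v, hv.1⟩ hv]
      · have hy' := hYle y hy
        rw [hY _ (Fu.phT_mem hy'), θ.2.2.2 y hy' (Fu.phT_mem hy'),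
          θ'.2.2.2 y hy' (Fu.phT_mem hy'), (hY y hy').1 hy]
    refine Subtype.ext (LinearMap.ext fun y => ?_)
    exact (hY y y.2).1 (h5 y.2)
  have hThf : Finite (Fu.Th F j l k H Q N) := Finite.of_injective ev hev
  -- the map from the wild inertia group
  let Φ : wildG (RatFunc k) Q → Fu.Th F j l k H Q N := fun σ =>
    ⟨((Fu.hom h σ.1).toLinearMap - LinearMap.id).comp (VN F j l (gX k H) N).subtype,
      fun y => wild_sub h hN hQ σ.2 y.2,
      fun y hy => by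
        show σ.1 (y : H) - y = 0
        rw [Fu.fix_V0 h hg σ.2 hy, sub_self],
      fun y hy hy' => by
        show σ.1 (phT F j l (gX k H) y) - phT F j l (gX k H) y =
          phT F j l (gX k H) (σ.1 y - y)
        rw [Fu.map_phT, map_sub]⟩
  have hΦ : Function.Injective Φ := by
    intro σ τ hστ
    apply Subtype.ext
    refine Fu.ext h (fun y hy => ?_) (fun ζ hζ => ?_)
    · have h4 : σ.1 y - y = τ.1 y - y :=
        LinearMap.congr_fun (congrArg Subtype.val hστ) ⟨y, hy⟩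
      exact sub_left_injective h4
    · rw [Fu.fix_CC σ.2.1 h.pos' hζ, Fu.fix_CC τ.2.1 h.pos' hζ]
  have hcard : Nat.card (Fu.Th F j l k H Q N) ≤ Nat.card (wildG (RatFunc k) Q) := by
    have h4 := Nat.card_le_card_of_injective ev hev
    rw [Nat.card_fun, Nat.card_fin, card_V0 h hN hQ, ← pow_mul] at h4
    rw [card_wild h hN hQ]
    refine h4.trans_eq ?_
    congr 1
    ring
  have hbij : Function.Bijective Φ := by
    have := Fintype.ofFinite (Fu.Th F j l k H Q N)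
    have hfW : Finite (wildG (RatFunc k) Q) := Finite.of_injective Φ hΦ
    have := Fintype.ofFinite (wildG (RatFunc k) Q)
    rw [Fintype.bijective_iff_injective_and_card]
    refine ⟨hΦ, le_antisymm (Fintype.card_le_of_injective Φ hΦ) ?_⟩
    rwa [Nat.card_eq_fintype_card, Nat.card_eq_fintype_card] at hcard
  obtain ⟨σ, hσ⟩ := hbij.2 ⟨θ, h1, h2, h3⟩
  refine ⟨σ.1, σ.2.1, fun y => ?_⟩
  have h4 : σ.1 (y : H) - y = θ y := LinearMap.congr_fun (congrArg Subtype.val hσ) y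
  rw [← h4]
  ring

variable {s : ℕ} {M : Fin s → Polynomial F}

theorem ordG_prod (hM : ∀ i, PrG F l (M i)) (hinj : Function.Injective M) :
    OrdG l (∏ i, M i) := by
  classical
  have h1 := fun i => (hM i).ord
  choose a ha hc hd using h1
  refine ⟨∏ i, a i, Finset.prod_pos fun i _ => ha i,
    Nat.Coprime.prod_right fun i _ => hc i, ?_⟩
  have h2 : ∀ i, M i ∣ (Polynomial.X - 1) ^ (∏ i, a i) - 1 := by
    intro i
    refine (hd i).trans ?_
    obtain ⟨b, hb⟩ : a i ∣ ∏ i, a i := Finset.dvd_prod_of_mem _ (Finset.mem_univ i)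
    rw [hb, pow_mul]
    exact sub_one_dvd_pow_sub_one _ _
  refine Finset.prod_dvd_of_coprime (fun i _ i' _ hne => ?_) fun i _ => h2 i
  exact LnB.cop (fun i => (hM i).monic) (fun i => (hM i).irr) hinj hne

/-- the transvections: `x ↦ x + v`, trivial on the other components -/
theorem exists_trans (h : DrS F j l k H (∏ i, M i)) (hM : ∀ i, PrG F l (M i))
    (hinj : Function.Injective M) {Q : DV H} (hQ : Over Q (Rat.inf k)) {i : Fin s} {x v : H}
    (hx : x ∈ VN F j l (gX k H) (M i)) (hx0 : x ∉ V0 F j l (gX k H) Q (M i))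
    (hv : v ∈ V0 F j l (gX k H) Q (M i)) :
    ∃ σ : H ≃ₐ[RatFunc k] H, σ x = x + v ∧
      ∀ i' ≠ i, ∀ y ∈ VN F j l (gX k H) (M i'), σ y = y := by
  have hg : Q.ord (gX k H) < 0 := by
    have hfd := h.fin
    obtain ⟨e, he⟩ := hQ.overE
    have h4 : Q.ord (gX k H) = e * (Rat.inf k).ord RatFunc.X := he.2 _
    rw [h4, Rat.inf_X]
    have h5 := he.1
    have h6 : (1 : ℤ) ≤ e := by exact_mod_cast h5
    linarith
  obtain ⟨θ, h1, h2, h3, h4, h5⟩ := exists_thetaN h.pos h.pos' hg hM hinj hx hx0 hv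
  obtain ⟨σ, -, hσ⟩ := full h (ordG_prod hM hinj) hQ θ h1 h2 h5
  have hmono : ∀ i, VN F j l (gX k H) (M i) ≤ VN F j l (gX k H) (∏ i, M i) := by
    intro i y hy
    obtain ⟨P, hP⟩ : M i ∣ ∏ i, M i := Finset.dvd_prod_of_mem _ (Finset.mem_univ i)
    rw [VN, LinearMap.mem_ker] at hy ⊢
    rw [hP, mul_comm, phN_mul, hy, map_zero]
  refine ⟨σ, ?_, fun i' hi' y hy => ?_⟩
  · rw [hσ ⟨x, hmono i hx⟩, h3 ⟨x, hmono i hx⟩ rfl]
  · rw [hσ ⟨y, hmono i' hy⟩, h4 i' hi' ⟨y, hmono i' hy⟩ hy, add_zero]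

end

end Pool.Agent.FF.Jl
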