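import Pool.Agent.FG.Split
import Pool.Agent.FE.Inf0

/-! # D1: the torsion at infinity (81) -/

set_option autoImplicit false

namespace Pool.Agent.FF.Jl

namespace InfG

open InfJ

section

variable {F : Type*} {H : Type*} [Field F] [Finite F] [Field H] [Algebra F H]

theorem delta_apply (j l : ℕ) (g x : H) :
    (phT F j l g - 1) x = g * x ^ Nat.card F ^ j - x ^ Nat.card F ^ (j + l) := by
  rw [LinearMap.sub_apply, phT_apply, Module.End.one_apply]
  ring

theorem delta_G {j l : ℕ} {g : H} {Q : DV H} {m c : ℤ} {x : H}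
    (hx : Q.G m x) (h1 : c ≤ Q.ord g + (Nat.card F : ℤ) ^ j * m)
    (h2 : c ≤ (Nat.card F : ℤ) ^ (j + l) * m) : Q.G c ((phT F j l g - 1) x) := by
  rw [delta_apply]
  refine DV.G.sub (((DV.G_ord g).mul (hx.pow _)).mono ?_) ((hx.pow _).mono ?_)
  · push_cast
    exact h1
  · push_cast
    exact h2

/-- no torsion element is smaller than the elements of `V_0` -/
theorem ord_le {j l : ℕ} (hj : 1 ≤ j) {g : H} {Q : DV H}
    (hg : Q.ord g < 0) {N : Polynomial F} (h1 : N.eval 1 ≠ 0) {x : H} (hx : x ∈ VN F j l g N)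
    (h0 : x ≠ 0) : ((Nat.card F : ℤ) ^ j - 1) * Q.ord x ≤ - Q.ord g := by
  by_contra hlt
  push Not at hlt
  have hR := two_le_pow F hj
  have hRS := two_le_pow F (j := j + l) (by omega)
  have hm : 1 ≤ Q.ord x := by
    by_contra h
    push Not at h
    nlinarith
  set m := Q.ord x with hm'
  have hd : ∀ y : H, Q.G m y → Q.G (m + 1) ((phT F j l g - 1) y) := by
    intro y hy
    refine delta_G hy ?_ ?_
    · nlinarith
    · nlinarith
  have hd2 : ∀ i : ℕ, Q.G m (((phT F j l g - 1) ^ i) x) := by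
    intro i
    induction i with
    | zero =>
      rw [pow_zero, Module.End.one_apply]
      exact DV.G_ord x
    | succ i ih =>
      rw [pow_succ', Module.End.mul_apply]
      exact (hd _ ih).mono (by omega)
  have h2 : Polynomial.aeval (phT F j l g) N x = 0 := hx
  rw [aeval_taylor, Finset.sum_range_succ', Polynomial.taylor_coeff_zero, pow_zero,
    Module.End.one_apply, add_comm] at h2
  refine (DV.ord_add_of_lt (v := Q) (a := N.eval 1 • x) (smul_ne_zero h1 h0) ?_).1 h2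
  rw [ord_smul Q h1 h0]
  refine G_sum _ _ fun i _ => G_smul ?_ _
  rw [pow_succ', Module.End.mul_apply]
  exact hd _ (hd2 i)

/-- the middle range -/
theorem step {j l : ℕ} (hj : 1 ≤ j) {g : H} {Q : DV H} (hg : Q.ord g < 0) {x : H} (h0 : x ≠ 0)
    (h1 : ((Nat.card F : ℤ) ^ j - 1) * Q.ord x < - Q.ord g)
    (h2 : Q.ord g < (Nat.card F : ℤ) ^ j * ((Nat.card F : ℤ) ^ l - 1) * Q.ord x) :
    phT F j l g x ≠ 0 ∧ Q.ord (phT F j l g x) = Q.ord g + (Nat.card F : ℤ) ^ j * Q.ord x := by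
  have hg0 : g ≠ 0 := by
    rintro rfl
    rw [Q.ord_zero] at hg
    omega
  have h3 : g * x ^ Nat.card F ^ j ≠ 0 := mul_ne_zero hg0 (pow_ne_zero _ h0)
  have h4 : Q.ord (g * x ^ Nat.card F ^ j) = Q.ord g + (Nat.card F : ℤ) ^ j * Q.ord x := by
    rw [Q.ord_mul _ _ hg0 (pow_ne_zero _ h0), Q.ord_pow h0]
    push_cast
    ring
  have h5 : phT F j l g x = g * x ^ Nat.card F ^ j + (x - x ^ Nat.card F ^ (j + l)) := by
    rw [phT_apply]
    ring
  have h6 : Q.G (Q.ord (g * x ^ Nat.card F ^ j) + 1) (x - x ^ Nat.card F ^ (j + l)) := by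
    rw [h4]
    refine DV.G.sub ((DV.G_ord x).mono (by linarith)) (((DV.G_ord x).pow _).mono ?_)
    push_cast
    rw [pow_add]
    linarith
  have h7 := DV.ord_add_of_lt h3 h6
  rw [h5]
  exact ⟨h7.1, h7.2.trans h4⟩

theorem ord_neg {j l : ℕ} (hj : 1 ≤ j) (hl : 1 ≤ l) {g : H} {Q : DV H} (hg : Q.ord g < 0) {x : H}
    (h2 : (Nat.card F : ℤ) ^ j * ((Nat.card F : ℤ) ^ l - 1) * Q.ord x < Q.ord g) :
    Q.ord x < 0 := by
  have hR := two_le_pow F hj
  have hS := two_le_pow F hl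
  by_contra h
  push Not at h
  have : 0 ≤ (Nat.card F : ℤ) ^ j * ((Nat.card F : ℤ) ^ l - 1) * Q.ord x := by
    apply mul_nonneg _ h
    apply mul_nonneg <;> omega
  omega

/-- the range of the large elements -/
theorem big {j l : ℕ} (hj : 1 ≤ j) (hl : 1 ≤ l) {g : H} {Q : DV H}
    (hg : Q.ord g < 0) {x : H} (h0 : x ≠ 0)
    (h2 : (Nat.card F : ℤ) ^ j * ((Nat.card F : ℤ) ^ l - 1) * Q.ord x < Q.ord g) :
    phT F j l g x ≠ 0 ∧ Q.ord (phT F j l g x) = (Nat.card F : ℤ) ^ (j + l) * Q.ord x := by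
  have hR := two_le_pow F hj
  have hS := two_le_pow F hl
  have hx := ord_neg hj hl hg h2
  have h3 : - x ^ Nat.card F ^ (j + l) ≠ 0 := neg_ne_zero.2 (pow_ne_zero _ h0)
  have h4 : Q.ord (- x ^ Nat.card F ^ (j + l)) = (Nat.card F : ℤ) ^ (j + l) * Q.ord x := by
    rw [Q.ord_neg, Q.ord_pow h0]
    push_cast
    ring
  have h5 : phT F j l g x = - x ^ Nat.card F ^ (j + l) + (x + g * x ^ Nat.card F ^ j) := by
    rw [phT_apply]
    ring
  have h6 : Q.G (Q.ord (- x ^ Nat.card F ^ (j + l)) + 1) (x + g * x ^ Nat.card F ^ j) := by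
    rw [h4, pow_add]
    refine DV.G.add ((DV.G_ord x).mono ?_)
      (((DV.G_ord g).mul ((DV.G_ord x).pow _)).mono ?_)
    · have h7 : (4 : ℤ) ≤ (Nat.card F : ℤ) ^ j * (Nat.card F : ℤ) ^ l := by nlinarith
      nlinarith
    · push_cast
      linarith
  have h7 := DV.ord_add_of_lt h3 h6
  rw [h5]
  exact ⟨h7.1, h7.2.trans h4⟩

theorem VN_pow {j l : ℕ} {g : H} {N : Polynomial F} {x : H} (hx : x ∈ VN F j l g N) (i : ℕ) :
    (phT F j l g ^ i) x ∈ VN F j l g N :=
  V_pow (φ := phT F j l g) hx i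

theorem VN_ph {j l : ℕ} {g : H} {N : Polynomial F} {x : H} (hx : x ∈ VN F j l g N) :
    phT F j l g x ∈ VN F j l g N :=
  V_ph (φ := phT F j l g) hx

/-- no torsion element is large -/
theorem ord_ge {j l : ℕ} (hj : 1 ≤ j) (hl : 1 ≤ l) {g : H} {Q : DV H}
    (hg : Q.ord g < 0) {N : Polynomial F} (hf : Finite (VN F j l g N)) {x : H}
    (hx : x ∈ VN F j l g N) (h0 : x ≠ 0) :
    Q.ord g ≤ (Nat.card F : ℤ) ^ j * ((Nat.card F : ℤ) ^ l - 1) * Q.ord x := by
  have hR := two_le_pow F hj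
  have hS := two_le_pow F hl
  by_contra hlt
  push Not at hlt
  have hfin : (VN F j l g N : Set H).Finite := Set.toFinite _
  have hS' : {y : H | y ∈ VN F j l g N ∧ y ≠ 0 ∧
      (Nat.card F : ℤ) ^ j * ((Nat.card F : ℤ) ^ l - 1) * Q.ord y < Q.ord g}.Finite :=
    hfin.subset fun y hy => hy.1
  obtain ⟨y, ⟨hy1, hy2, hy3⟩, hmin⟩ := Set.exists_min_image _ (fun y => Q.ord y) hS'
    ⟨x, hx, h0, hlt⟩
  obtain ⟨h4, h5⟩ := big hj hl hg hy2 hy3
  have hy0 := ord_neg hj hl hg hy3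
  have h6 : (2 : ℤ) ≤ (Nat.card F : ℤ) ^ (j + l) := two_le_pow F (by omega)
  have h7 : (Nat.card F : ℤ) ^ (j + l) * Q.ord y < Q.ord y := by nlinarith
  have h8 := hmin (phT F j l g y) ⟨VN_ph hy1, h4, by
    rw [h5]
    have h9 : (0 : ℤ) ≤ (Nat.card F : ℤ) ^ j * ((Nat.card F : ℤ) ^ l - 1) := by
      apply mul_nonneg <;> omega
    have := mul_le_mul_of_nonneg_left h7.le h9
    linarith⟩
  have h9 : Q.ord y ≤ Q.ord (phT F j l g y) := h8
  rw [h5] at h9
  omega

/-- `(R - 1) (S - 1) R e β` -/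
noncomputable def eJ (F : Type*) (j l : ℕ) (g : H) (Q : DV H) : ℤ :=
  ((Nat.card F : ℤ) ^ (j + l) - 1) * (- Q.ord g)

theorem eJ_pos {j l : ℕ} (hj : 1 ≤ j) {g : H} {Q : DV H} (hg : Q.ord g < 0) :
    0 < eJ F j l g Q := by
  have := two_le_pow F (j := j + l) (by omega)
  exact mul_pos (by omega) (by omega)

theorem iter {j l : ℕ} (hj : 1 ≤ j) (hl : 1 ≤ l) {g : H} {Q : DV H}
    (hg : Q.ord g < 0) {x : H} (h0 : x ≠ 0) (hb : 0 < bJ F j g Q x) (i : ℕ)
    (hi : ((Nat.card F : ℤ) ^ j) ^ i * (((Nat.card F : ℤ) ^ l - 1) * bJ F j g Q x) <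
      eJ F j l g Q) :
    (phT F j l g ^ i) x ≠ 0 ∧
      bJ F j g Q ((phT F j l g ^ i) x) = ((Nat.card F : ℤ) ^ j) ^ i * bJ F j g Q x := by
  have hR := two_le_pow F hj
  have hS := two_le_pow F hl
  induction i with
  | zero => simpa using h0
  | succ i ih =>
    set R : ℤ := (Nat.card F : ℤ) ^ j with hRd
    set S : ℤ := (Nat.card F : ℤ) ^ l with hSd
    have hpos : (0 : ℤ) < R ^ i := by positivity
    have hb1 : 0 < (S - 1) * bJ F j g Q x := mul_pos (by omega) hb
    have hlt : R ^ i * ((S - 1) * bJ F j g Q x) < eJ F j l g Q := by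
      refine lt_of_le_of_lt ?_ hi
      rw [pow_succ]
      have : 0 < R ^ i * ((S - 1) * bJ F j g Q x) := mul_pos hpos hb1
      nlinarith
    obtain ⟨h1, h2⟩ := ih hlt
    have h3 : 0 < bJ F j g Q ((phT F j l g ^ i) x) := by
      rw [h2]
      exact mul_pos hpos hb
    have h4 : R * ((S - 1) * bJ F j g Q ((phT F j l g ^ i) x)) < eJ F j l g Q := by
      rw [h2]
      refine lt_of_eq_of_lt ?_ hi
      rw [pow_succ]
      ring
    rw [bJ, ← hRd] at h3 h4
    rw [eJ, pow_add, ← hRd, ← hSd] at h4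
    obtain ⟨h5, h6⟩ := step (F := F) (l := l) hj hg h1 (by rw [← hRd]; linarith) (by
      rw [← hRd, ← hSd]
      have h7 : (R - 1) * Q.ord g <
          (R - 1) * (R * (S - 1) * Q.ord ((phT F j l g ^ i) x)) := by linarith
      exact lt_of_mul_lt_mul_left h7 (by omega))
    rw [pow_succ', Module.End.mul_apply]
    refine ⟨h5, ?_⟩
    rw [bJ, h6, pow_succ, ← hRd]
    rw [bJ, ← hRd] at h2
    linear_combination R * h2

theorem exists_val {j l : ℕ} (hj : 1 ≤ j) (hl : 1 ≤ l) {g : H} {Q : DV H}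
    (hg : Q.ord g < 0) {N : Polynomial F} (hf : Finite (VN F j l g N)) {x : H}
    (hx : x ∈ VN F j l g N) (h0 : x ≠ 0) (hb : 0 < bJ F j g Q x) :
    ∃ t : ℕ, ((Nat.card F : ℤ) ^ j) ^ (t + 1) * (((Nat.card F : ℤ) ^ l - 1) * bJ F j g Q x) =
      eJ F j l g Q := by
  classical
  have hR := two_le_pow F hj
  have hS := two_le_pow F hl
  set R : ℤ := (Nat.card F : ℤ) ^ j with hRd
  set S : ℤ := (Nat.card F : ℤ) ^ l with hSd
  have hle : ∀ y : H, y ∈ VN F j l g N → y ≠ 0 →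
      R * ((S - 1) * bJ F j g Q y) ≤ eJ F j l g Q := by
    intro y hy hy0
    have h1 := ord_ge hj hl hg hf hy hy0
    rw [← hRd, ← hSd] at h1
    rw [bJ, eJ, ← hRd, pow_add, ← hRd, ← hSd]
    have h2 := mul_le_mul_of_nonneg_left h1 (by omega : (0 : ℤ) ≤ R - 1)
    linarith
  have hb1 : 0 < (S - 1) * bJ F j g Q x := mul_pos (by omega) hb
  have hex : ∃ t : ℕ, eJ F j l g Q < R ^ (t + 1) * ((S - 1) * bJ F j g Q x) := by
    obtain ⟨n, hn⟩ := pow_unbounded_of_one_lt (eJ F j l g Q) (by omega : (1 : ℤ) < R)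
    refine ⟨n, hn.trans_le ?_⟩
    have h1 : R ^ n ≤ R ^ (n + 1) := pow_le_pow_right₀ (by omega) (by omega)
    have h2 : (0 : ℤ) < R ^ (n + 1) := by positivity
    nlinarith
  set t0 := Nat.find hex with ht0
  have hspec := Nat.find_spec hex
  rw [← ht0] at hspec
  rcases Nat.eq_zero_or_pos t0 with h | h
  · rw [h, zero_add, pow_one] at hspec
    exact absurd (hle x hx h0) (by omega)
  · obtain ⟨t, ht⟩ : ∃ t, t0 = t + 1 := ⟨t0 - 1, by omega⟩
    have h1 := Nat.find_min hex (m := t) (by omega)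
    push Not at h1
    refine ⟨t, le_antisymm h1 ?_⟩
    by_contra hlt
    push Not at hlt
    obtain ⟨h2, h3⟩ := iter hj hl hg h0 hb (t + 1) hlt
    have h4 := hle _ (VN_pow hx (t + 1)) h2
    rw [h3, ← hRd, mul_left_comm (S - 1), ← mul_assoc, ← pow_succ', ← ht] at h4
    rw [ht] at hspec h4
    omega

theorem b_pos {j l : ℕ} (hj : 1 ≤ j) {g : H} {Q : DV H} (hg : Q.ord g < 0) {N : Polynomial F}
    {x : H} (hx : x ∈ VN F j l g N) (h0 : x ∉ V0 F j l g Q N) :
    x ≠ 0 ∧ 0 < bJ F j g Q x := by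
  have hR := two_le_pow F hj
  have hx0 : x ≠ 0 := by
    rintro rfl
    exact h0 (zero_mem _)
  refine ⟨hx0, ?_⟩
  by_contra h
  push Not at h
  rw [bJ] at h
  have h2 : 0 ≤ Q.ord x := by
    by_contra h'
    push Not at h'
    nlinarith
  exact h0 ⟨hx, DV.G_of_le h2, Or.inr (by linarith)⟩

/-- the values of `b` outside `V_0` -/
theorem val {j l : ℕ} (hj : 1 ≤ j) (hl : 1 ≤ l) {g : H} {Q : DV H}
    (hg : Q.ord g < 0) {N : Polynomial F} (hN : N.Monic) (hf : Finite (VN F j l g N)) {x : H}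
    (hx : x ∈ VN F j l g N) (h0 : x ∉ V0 F j l g Q N) :
    ∃ t < N.natDegree, ((Nat.card F : ℤ) ^ j) ^ (t + 1) *
      (((Nat.card F : ℤ) ^ l - 1) * bJ F j g Q x) = eJ F j l g Q := by
  have hR := two_le_pow F hj
  have hS := two_le_pow F hl
  obtain ⟨hx0, hb⟩ := b_pos hj hg hx h0
  obtain ⟨t, ht⟩ := exists_val hj hl hg hf hx hx0 hb
  refine ⟨t, ?_, ht⟩
  by_contra hle
  push Not at hle
  have hb1 : 0 < ((Nat.card F : ℤ) ^ l - 1) * bJ F j g Q x := mul_pos (by omega) hb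
  have hi : ∀ i ≤ t, (phT F j l g ^ i) x ≠ 0 ∧
      bJ F j g Q ((phT F j l g ^ i) x) = ((Nat.card F : ℤ) ^ j) ^ i * bJ F j g Q x := by
    intro i hi
    refine iter hj hl hg hx0 hb i ?_
    rw [← ht]
    exact mul_lt_mul_of_pos_right (pow_lt_pow_right₀ (by omega) (by omega)) hb1
  have h2 : Polynomial.aeval (phT F j l g) N x = 0 := hx
  rw [aeval_sum, Finset.sum_range_succ, hN.coeff_natDegree, one_smul, add_comm] at h2
  obtain ⟨h3, h4⟩ := hi N.natDegree hle
  refine (DV.ord_add_of_lt (v := Q) h3 ?_).1 h2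
  refine G_sum _ _ fun i hi' => G_smul ?_ _
  have hlt : i < N.natDegree := Finset.mem_range.1 hi'
  obtain ⟨h5, h6⟩ := hi i (by omega)
  have h7 : ((Nat.card F : ℤ) ^ j) ^ i * bJ F j g Q x <
      ((Nat.card F : ℤ) ^ j) ^ N.natDegree * bJ F j g Q x :=
    mul_lt_mul_of_pos_right (pow_lt_pow_right₀ (by omega) hlt) hb
  rw [← h6, ← h4, bJ, bJ] at h7
  refine DV.G_of_le ?_
  by_contra h8
  push Not at h8
  have h9 := mul_le_mul_of_nonneg_left (Int.lt_add_one_iff.1 h8)
    (by omega : (0 : ℤ) ≤ (Nat.card F : ℤ) ^ j - 1)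
  linarith

end

end InfG

section

variable {F : Type*} {j l : ℕ} {H : Type*} [Field F] [Finite F] [Field H] [Algebra F H]

open InfJ in
/-- `V_0` is stable -/
theorem V0_st (hj : 0 < j) (hl : 0 < l) {g : H} {Q : DV H} (hg : Q.ord g < 0)
    {N : Polynomial F} {x : H} (hx : x ∈ V0 F j l g Q N) : phT F j l g x ∈ V0 F j l g Q N := by
  obtain ⟨h1, h2, h3⟩ := hx
  have hR := two_le_pow F (j := j) hj
  by_cases h0 : x = 0
  · rw [h0, map_zero]
    exact zero_mem _
  have h4 := h3.resolve_left h0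
  have hm : 1 ≤ Q.ord x := by
    by_contra h
    push Not at h
    nlinarith
  have h5 : Q.G (Q.ord x) (phT F j l g x) := by
    rw [ph_eq]
    refine (DV.G_ord x).add (InfG.delta_G (DV.G_ord x) (by nlinarith) ?_)
    have h6 : (2 : ℤ) ≤ (Nat.card F : ℤ) ^ (j + l) := two_le_pow F (by omega)
    nlinarith
  refine ⟨InfG.VN_ph h1, h5.mono (by omega), ?_⟩
  rcases h5 with h5 | h5
  · exact Or.inl h5
  · exact Or.inr (h4.trans (mul_le_mul_of_nonneg_left h5 (by omega)))

theorem inf_V0 (hj : 0 < j) (hl : 0 < l) {g : H} {Q : DV H} (hg : Q.ord g < 0)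
    {N : Polynomial F} (hN : N.Monic) (h1 : N.eval 1 ≠ 0) {x : H} (hx : x ∈ V0 F j l g Q N)
    (h0 : x ≠ 0) : ((Nat.card F : ℤ) ^ j - 1) * Q.ord x = - Q.ord g :=
  le_antisymm (InfG.ord_le hj hg h1 hx.1 h0) (hx.2.2.resolve_left h0)

open InfJ in
/-- `|V_0| ≤ r ^ (j D)` -/
theorem card_V0_le (hj : 0 < j) (hl : 0 < l) {g : H} {Q : DV H} (hg : Q.ord g < 0)
    {N : Polynomial F} (hN : N.Monic) (h1 : N.eval 1 ≠ 0) :
    Nat.card (V0 F j l g Q N) ≤ Nat.card F ^ (j * N.natDegree) := by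
  classical
  have hf : Finite (VN F j l g N) := finite_VN hl g hN.ne_zero
  have hR := two_le_pow F (j := j) hj
  have hrN : 1 < Nat.card F := Finite.one_lt_card
  have hRN : 1 < Nat.card F ^ j := Nat.one_lt_pow (by omega) hrN
  rw [pow_mul]
  by_cases htriv : ∃ x₀ ∈ V0 F j l g Q N, x₀ ≠ 0
  swap
  · push Not at htriv
    have h2 : V0 F j l g Q N = ⊥ := (Submodule.eq_bot_iff _).2 htriv
    rw [h2, Nat.card_unique]
    exact Nat.one_le_pow _ _ (by omega)
  obtain ⟨x₀, hx₀, hx00⟩ := htriv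
  have hm := inf_V0 hj hl hg hN h1 hx₀ hx00
  set m := Q.ord x₀ with hm'
  have hm1 : 1 ≤ m := by
    by_contra h
    push Not at h
    nlinarith
  have hV0' : ∀ x ∈ V0 F j l g Q N, x ≠ 0 → Q.ord x = m := by
    intro x hx h0
    have h2 := inf_V0 hj hl hg hN h1 hx h0
    rw [← hm] at h2
    exact mul_left_cancel₀ (by omega) h2
  have hg0 : g ≠ 0 := by
    rintro rfl
    rw [Q.ord_zero] at hg
    omega
  let γ : ℕ → H := fun i => Nat.rec 1 (fun _ a => g * a ^ Nat.card F ^ j) i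
  have hγ0 : γ 0 = 1 := rfl
  have hγs : ∀ i, γ (i + 1) = g * γ i ^ Nat.card F ^ j := fun i => rfl
  have hγne : ∀ i, γ i ≠ 0 := by
    intro i
    induction i with
    | zero => rw [hγ0]; exact one_ne_zero
    | succ i ih => rw [hγs]; exact mul_ne_zero hg0 (pow_ne_zero _ ih)
  have hγord : ∀ i, Q.ord (γ i) = - (((Nat.card F : ℤ) ^ j) ^ i - 1) * m := by
    intro i
    induction i with
    | zero => rw [hγ0, Q.ord_one]; ring
    | succ i ih =>
      rw [hγs, Q.ord_mul _ _ hg0 (pow_ne_zero _ (hγne i)), Q.ord_pow (hγne i), ih, pow_succ]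
      push_cast
      linear_combination hm
  have hδ : ∀ x ∈ V0 F j l g Q N, ∀ i : ℕ, Q.G m (((phT F j l g - 1) ^ i) x) ∧
      Q.G (m + 1) (((phT F j l g - 1) ^ i) x - γ i * x ^ (Nat.card F ^ j) ^ i) := by
    intro x hx i
    induction i with
    | zero =>
      rw [pow_zero, Module.End.one_apply, hγ0, pow_zero, pow_one, one_mul, sub_self]
      refine ⟨?_, DV.G_zero _⟩
      by_cases h0 : x = 0
      · exact Or.inl h0
      · exact Or.inr (hV0' x hx h0).ge
    | succ i ih =>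
      obtain ⟨ih1, ih2⟩ := ih
      rw [pow_succ', Module.End.mul_apply]
      set y := ((phT F j l g - 1) ^ i) x with hy
      have h6 : (2 : ℤ) ≤ (Nat.card F : ℤ) ^ (j + l) := two_le_pow F (by omega)
      refine ⟨InfG.delta_G ih1 (by nlinarith) (by nlinarith), ?_⟩
      have h2 : (phT F j l g - 1) y - γ (i + 1) * x ^ (Nat.card F ^ j) ^ (i + 1) =
          g * (y - γ i * x ^ (Nat.card F ^ j) ^ i) ^ Nat.card F ^ j -
            y ^ Nat.card F ^ (j + l) := by
        have e : x ^ (Nat.card F ^ j) ^ (i + 1) =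
            (x ^ (Nat.card F ^ j) ^ i) ^ Nat.card F ^ j := by
          rw [pow_succ (Nat.card F ^ j) i, pow_mul]
        rw [InfG.delta_apply, hγs, sub_pow F, mul_pow, e]
        ring
      rw [h2]
      refine DV.G.sub (((DV.G_ord g).mul (ih2.pow _)).mono ?_) ((ih1.pow _).mono ?_)
      · push_cast
        nlinarith
      · push_cast
        nlinarith
  -- the polynomial
  set n : ℕ → F := fun i => (Polynomial.taylor 1 N).coeff i with hn
  set c : ℕ → H := fun i => algebraMap F H (n i) * (γ i * x₀ ^ (Nat.card F ^ j) ^ i / x₀) with hc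
  have hunit : ∀ i, Q.ord (γ i * x₀ ^ (Nat.card F ^ j) ^ i / x₀) = 0 := by
    intro i
    rw [Q.ord_div (mul_ne_zero (hγne i) (pow_ne_zero _ hx00)) hx00,
      Q.ord_mul _ _ (hγne i) (pow_ne_zero _ hx00), hγord, Q.ord_pow hx00, ← hm']
    push_cast
    ring
  set P : Polynomial H := ∑ i ∈ Finset.range (N.natDegree + 1),
    Polynomial.C (c i) * Polynomial.X ^ ((Nat.card F ^ j) ^ i) with hP
  have hcoeff : ∀ k, P.coeff k = ∑ i ∈ Finset.range (N.natDegree + 1),
      if k = (Nat.card F ^ j) ^ i then c i else 0 := by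
    intro k
    rw [hP, Polynomial.finsetSum_coeff]
    refine Finset.sum_congr rfl fun i _ => ?_
    rw [Polynomial.coeff_C_mul_X_pow]
  have hcG : ∀ i, Q.G 0 (c i) := by
    intro i
    have h2 := (RRD.G_algebraMap Q (n i)).mul (DV.G_of_le (hunit i).ge)
    rwa [zero_add] at h2
  have hP0 : ∀ k, Q.G 0 (P.coeff k) := by
    intro k
    rw [hcoeff]
    refine G_sum _ _ fun i _ => ?_
    split_ifs
    · exact hcG i
    · exact DV.G_zero _
  have hinj : Function.Injective (fun i : ℕ => (Nat.card F ^ j) ^ i) :=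
    Nat.pow_right_injective hRN
  have hP1 : P.coeff ((Nat.card F ^ j) ^ N.natDegree) = c N.natDegree := by
    rw [hcoeff, Finset.sum_eq_single N.natDegree]
    · rw [if_pos rfl]
    · intro i _ hi
      rw [if_neg]
      intro h
      exact hi (hinj h.symm)
    · intro h
      exact absurd (Finset.mem_range.2 (Nat.lt_succ_self _)) h
  have hnD : n N.natDegree = 1 := by
    rw [hn]
    simp only
    rw [Polynomial.coeff_taylor_natDegree]
    exact hN
  have hPdeg : P.natDegree ≤ (Nat.card F ^ j) ^ N.natDegree := by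
    rw [hP]
    refine Polynomial.natDegree_sum_le_of_forall_le _ _ fun i hi => ?_
    refine (Polynomial.natDegree_C_mul_X_pow_le _ _).trans ?_
    exact Nat.pow_le_pow_right (by omega) (by have := Finset.mem_range.1 hi; omega)
  have hfin : (V0 F j l g Q N : Set H).Finite :=
    (Set.toFinite (VN F j l g N : Set H)).subset fun y hy => hy.1
  have hcard : Nat.card (V0 F j l g Q N) = (hfin.toFinset.image fun x => x / x₀).card := by
    rw [Finset.card_image_of_injective _ fun a b hab => by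
      simpa [hx00] using (div_left_inj' hx00).1 hab]
    exact Nat.card_eq_card_finite_toFinset hfin
  rw [hcard]
  refine (card_roots_residue P hP0 ⟨(Nat.card F ^ j) ^ N.natDegree, ?_⟩ ?_ ?_ ?_).trans hPdeg
  · rw [hP1, hc]
    simp only
    rw [hnD, map_one, one_mul, DV.not_G (div_ne_zero (mul_ne_zero (hγne _) (pow_ne_zero _ hx00)) hx00),
      hunit]
    norm_num
  · intro z hz
    obtain ⟨x, hx, rfl⟩ := Finset.mem_image.1 hz
    rw [Set.Finite.mem_toFinset] at hx
    by_cases h0 : x = 0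
    · exact Or.inl (by rw [h0, zero_div])
    · exact Or.inr (by rw [Q.ord_div h0 hx00, hV0' x hx h0, ← hm', sub_self])
  · intro z hz w hw hne
    obtain ⟨x, hx, rfl⟩ := Finset.mem_image.1 hz
    obtain ⟨y, hy, rfl⟩ := Finset.mem_image.1 hw
    rw [Set.Finite.mem_toFinset] at hx hy
    have h2 : x - y ≠ 0 := by
      intro h
      exact hne (by rw [sub_eq_zero.1 h])
    have h3 : x - y ∈ V0 F j l g Q N := sub_mem hx hy
    rw [← sub_div, DV.not_G (div_ne_zero h2 hx00), Q.ord_div h2 hx00, hV0' _ h3 h2, ← hm', sub_self]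
    norm_num
  · intro z hz
    obtain ⟨x, hx, rfl⟩ := Finset.mem_image.1 hz
    rw [Set.Finite.mem_toFinset] at hx
    have h2 : Polynomial.aeval (phT F j l g) N x = 0 := hx.1
    rw [aeval_taylor] at h2
    have h3 : P.eval (x / x₀) = (∑ i ∈ Finset.range (N.natDegree + 1),
        n i • (γ i * x ^ (Nat.card F ^ j) ^ i)) / x₀ := by
      rw [hP, Polynomial.eval_finsetSum, Finset.sum_div]
      refine Finset.sum_congr rfl fun i _ => ?_
      rw [Polynomial.eval_mul, Polynomial.eval_C, Polynomial.eval_pow, Polynomial.eval_X, hc,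
        Algebra.smul_def]
      simp only
      rw [div_pow]
      field_simp
    have h4 : (∑ i ∈ Finset.range (N.natDegree + 1), n i • (γ i * x ^ (Nat.card F ^ j) ^ i)) =
        - ∑ i ∈ Finset.range (N.natDegree + 1),
          n i • (((phT F j l g - 1) ^ i) x - γ i * x ^ (Nat.card F ^ j) ^ i) := by
      simp only [smul_sub, Finset.sum_sub_distrib]
      rw [h2]
      ring
    have h5 : Q.G (m + 1) (∑ i ∈ Finset.range (N.natDegree + 1),
        n i • (γ i * x ^ (Nat.card F ^ j) ^ i)) := by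
      rw [h4]
      exact (G_sum _ _ fun i _ => G_smul (hδ x hx i).2 _).neg
    rw [h3, div_eq_mul_inv]
    have h6 : Q.G (-m) (x₀⁻¹) := DV.G_of_le (by rw [Q.ord_inv hx00])
    have h7 := h5.mul h6
    exact h7.mono (by omega)

/-- the lower bound outside `V_0` -/
theorem inf_out (hj : 0 < j) (hl : 0 < l) {g : H} {Q : DV H} (hg : Q.ord g < 0)
    {N : Polynomial F} (hN : N.Monic) (h1 : N.eval 1 ≠ 0) {x : H} (hx : x ∈ VN F j l g N)
    (h0 : x ∉ V0 F j l g Q N) : ((Nat.card F : ℤ) ^ (j + l) - 1) * (- Q.ord g) ≤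
      (Nat.card F : ℤ) ^ (j * N.natDegree) * (((Nat.card F : ℤ) ^ l - 1) *
        (- Q.ord g - ((Nat.card F : ℤ) ^ j - 1) * Q.ord x)) := by
  obtain ⟨t, ht, h2⟩ := InfG.val hj hl hg hN (finite_VN hl g hN.ne_zero) hx h0
  obtain ⟨-, hb⟩ := InfG.b_pos hj hg hx h0
  have hR := InfJ.two_le_pow F (j := j) hj
  have hS := InfJ.two_le_pow F (j := l) hl
  rw [InfG.eJ, InfJ.bJ] at h2
  rw [InfJ.bJ] at hb
  rw [← h2, pow_mul]
  exact mul_le_mul_of_nonneg_right (pow_le_pow_right₀ (by omega) (by omega))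
    (mul_nonneg (by omega) hb.le)

end

end Pool.Agent.FF.Jl
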