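import Pool.Agent.FG.FVD

/-! # T6: the layers of a finite space stable under `ψ` (81): stubs by 31 -/

set_option autoImplicit false

namespace Pool.Agent.FF.FVl

open InfJ

section

variable {F : Type*} {H : Type*} [Field F] [Finite F] [Field H] [Algebra F H] {j l D : ℕ} {g : H}
  {A : Submodule F H} {Q : DV H}

theorem ord_psi (hg0 : g ≠ 0) {x : H} (h0 : x ≠ 0) :
    g * x ^ Nat.card F ^ j ≠ 0 ∧
      Q.ord (g * x ^ Nat.card F ^ j) = Q.ord g + (Nat.card F : ℤ) ^ j * Q.ord x ∧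
      - x ^ Nat.card F ^ (j + l) ≠ 0 ∧ Q.ord (- x ^ Nat.card F ^ (j + l)) =
        (Nat.card F : ℤ) ^ j * (Nat.card F : ℤ) ^ l * Q.ord x := by
  refine ⟨mul_ne_zero hg0 (pow_ne_zero _ h0), ?_, neg_ne_zero.2 (pow_ne_zero _ h0), ?_⟩
  · rw [Q.ord_mul _ _ hg0 (pow_ne_zero _ h0), Q.ord_pow h0]
    push_cast
    ring
  · rw [Q.ord_neg, Q.ord_pow h0, pow_add]
    push_cast
    ring

theorem g_ne (hg : Q.ord g < 0) : g ≠ 0 := by
  rintro rfl
  rw [Q.ord_zero] at hg
  omega

/-- no element is smaller than the elements of `F_0` -/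
theorem ord_le (h : St F j l g D A) (hg : Q.ord g < 0) {x : H} (hx : x ∈ A) (h0 : x ≠ 0) :
    ((Nat.card F : ℤ) ^ j - 1) * Q.ord x ≤ - Q.ord g := by
  have hR := two_le_pow F h.hj
  have hS := two_le_pow F h.hl
  have := h.fin
  by_contra hlt
  push Not at hlt
  have hfin : {y : H | y ∈ A ∧ y ≠ 0}.Finite := (Set.toFinite (A : Set H)).subset fun y hy => hy.1
  obtain ⟨y, ⟨hy1, hy2⟩, hmax⟩ := Set.exists_max_image _ (fun y => Q.ord y) hfin ⟨x, hx, h0⟩
  have hxy : Q.ord x ≤ Q.ord y := hmax x ⟨hx, h0⟩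
  have hlt' : - Q.ord g < ((Nat.card F : ℤ) ^ j - 1) * Q.ord y :=
    hlt.trans_le (mul_le_mul_of_nonneg_left hxy (by omega))
  have hm : 1 ≤ Q.ord y := by
    by_contra h
    push Not at h
    nlinarith
  have h1 : psi F j l g y ≠ 0 := fun h1 => hy2 (h.inj y hy1 h1)
  have h2 : Q.ord (psi F j l g y) ≤ Q.ord y := hmax _ ⟨h.st y hy1, h1⟩
  obtain ⟨h3, h4, h5, h6⟩ := ord_psi (F := F) (j := j) (l := l) (Q := Q) (g_ne hg) hy2
  have h7 : Q.G (Q.ord y + 1) (psi F j l g y) := by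
    rw [psi_apply, sub_eq_add_neg]
    refine DV.G.add (DV.G_of_le ?_) (DV.G_of_le ?_)
    · rw [h4]
      linarith
    · rw [h6]
      have h8 : (4 : ℤ) ≤ (Nat.card F : ℤ) ^ j * (Nat.card F : ℤ) ^ l := by nlinarith
      nlinarith
  have h8 := h7.le h1
  omega

theorem ord_neg (h : St F j l g D A) (hg : Q.ord g < 0) {x : H}
    (h2 : (Nat.card F : ℤ) ^ j * ((Nat.card F : ℤ) ^ l - 1) * Q.ord x ≤ Q.ord g) :
    Q.ord x < 0 := by
  have hR := two_le_pow F h.hj
  have hS := two_le_pow F h.hl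
  by_contra h
  push Not at h
  have : 0 ≤ (Nat.card F : ℤ) ^ j * ((Nat.card F : ℤ) ^ l - 1) * Q.ord x := by
    apply mul_nonneg _ h
    apply mul_nonneg <;> omega
  omega

/-- no element is large -/
theorem ord_ge (h : St F j l g D A) (hg : Q.ord g < 0) {x : H} (hx : x ∈ A) (h0 : x ≠ 0) :
    Q.ord g ≤ (Nat.card F : ℤ) ^ j * ((Nat.card F : ℤ) ^ l - 1) * Q.ord x := by
  have hR := two_le_pow F h.hj
  have hS := two_le_pow F h.hl
  have := h.fin
  by_contra hlt
  push Not at hlt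
  have hfin : {y : H | y ∈ A ∧ y ≠ 0}.Finite := (Set.toFinite (A : Set H)).subset fun y hy => hy.1
  obtain ⟨y, ⟨hy1, hy2⟩, hmin⟩ := Set.exists_min_image _ (fun y => Q.ord y) hfin ⟨x, hx, h0⟩
  have hxy : Q.ord y ≤ Q.ord x := hmin x ⟨hx, h0⟩
  have hlt' : (Nat.card F : ℤ) ^ j * ((Nat.card F : ℤ) ^ l - 1) * Q.ord y < Q.ord g :=
    (mul_le_mul_of_nonneg_left hxy (by apply mul_nonneg <;> omega)).trans_lt hlt
  have hm := ord_neg h hg hlt'.le
  have h1 : psi F j l g y ≠ 0 := fun h1 => hy2 (h.inj y hy1 h1)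
  have h2 : Q.ord y ≤ Q.ord (psi F j l g y) := hmin _ ⟨h.st y hy1, h1⟩
  obtain ⟨h3, h4, h5, h6⟩ := ord_psi (F := F) (j := j) (l := l) (Q := Q) (g_ne hg) hy2
  have h7 : Q.G (Q.ord (- y ^ Nat.card F ^ (j + l)) + 1) (g * y ^ Nat.card F ^ j) := by
    refine DV.G_of_le ?_
    rw [h4, h6]
    linarith
  have h8 := DV.ord_add_of_lt h5 h7
  have h9 : psi F j l g y = - y ^ Nat.card F ^ (j + l) + g * y ^ Nat.card F ^ j := by
    rw [psi_apply]
    ring
  rw [h9, h8.2, h6] at h2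
  have h10 : (4 : ℤ) ≤ (Nat.card F : ℤ) ^ j * (Nat.card F : ℤ) ^ l := by nlinarith
  nlinarith

/-- `ψ` multiplies `b` by `R` below the top layer -/
theorem step (h : St F j l g D A) (hg : Q.ord g < 0) {x : H} (h0 : x ≠ 0)
    (h2 : Q.ord g < (Nat.card F : ℤ) ^ j * ((Nat.card F : ℤ) ^ l - 1) * Q.ord x) :
    psi F j l g x ≠ 0 ∧ bL F j g Q (psi F j l g x) = (Nat.card F : ℤ) ^ j * bL F j g Q x := by
  obtain ⟨h3, h4, h5, h6⟩ := ord_psi (F := F) (j := j) (l := l) (Q := Q) (g_ne hg) h0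
  have h7 : Q.G (Q.ord (g * x ^ Nat.card F ^ j) + 1) (- x ^ Nat.card F ^ (j + l)) := by
    refine DV.G_of_le ?_
    rw [h4, h6]
    linarith
  have h8 := DV.ord_add_of_lt h3 h7
  rw [psi_apply, sub_eq_add_neg]
  refine ⟨h8.1, ?_⟩
  rw [bL, bL, h8.2, h4]
  ring

theorem eL_pos (h : St F j l g D A) (hg : Q.ord g < 0) : 0 < eL F j l g Q := by
  have hR := two_le_pow F h.hj
  have hS := two_le_pow F h.hl
  have h1 : (4 : ℤ) ≤ (Nat.card F : ℤ) ^ j * (Nat.card F : ℤ) ^ l := by nlinarith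
  exact mul_pos (by omega) (by omega)

theorem iter (h : St F j l g D A) (hg : Q.ord g < 0) {x : H} (h0 : x ≠ 0)
    (hb : 0 < bL F j g Q x) (i : ℕ)
    (hi : ((Nat.card F : ℤ) ^ j) ^ i * (((Nat.card F : ℤ) ^ l - 1) * bL F j g Q x) <
      eL F j l g Q) :
    (psi F j l g ^ i) x ≠ 0 ∧
      bL F j g Q ((psi F j l g ^ i) x) = ((Nat.card F : ℤ) ^ j) ^ i * bL F j g Q x := by
  have hR := two_le_pow F h.hj
  have hS := two_le_pow F h.hl
  induction i with
  | zero => simpa using h0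
  | succ i ih =>
    set R : ℤ := (Nat.card F : ℤ) ^ j with hRd
    set S : ℤ := (Nat.card F : ℤ) ^ l with hSd
    have hpos : (0 : ℤ) < R ^ i := by positivity
    have hb1 : 0 < (S - 1) * bL F j g Q x := mul_pos (by omega) hb
    have hlt : R ^ i * ((S - 1) * bL F j g Q x) < eL F j l g Q := by
      refine lt_of_le_of_lt ?_ hi
      rw [pow_succ]
      have : 0 < R ^ i * ((S - 1) * bL F j g Q x) := mul_pos hpos hb1
      nlinarith
    obtain ⟨h1, h2⟩ := ih hlt
    have h4 : R * ((S - 1) * bL F j g Q ((psi F j l g ^ i) x)) < eL F j l g Q := by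
      rw [h2]
      refine lt_of_eq_of_lt ?_ hi
      rw [pow_succ]
      ring
    rw [bL, eL, ← hRd, ← hSd] at h4
    obtain ⟨h5, h6⟩ := step h hg h1 (by
      rw [← hRd, ← hSd]
      have h7 : (R - 1) * Q.ord g <
          (R - 1) * (R * (S - 1) * Q.ord ((psi F j l g ^ i) x)) := by linarith
      exact lt_of_mul_lt_mul_left h7 (by omega))
    rw [pow_succ', Module.End.mul_apply]
    refine ⟨h5, ?_⟩
    rw [h6, h2, pow_succ, ← hRd]
    ring

theorem mem_pow (h : St F j l g D A) {x : H} (hx : x ∈ A) (i : ℕ) :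
    (psi F j l g ^ i) x ∈ A := by
  induction i with
  | zero => simpa using hx
  | succ i ih =>
    rw [pow_succ', Module.End.mul_apply]
    exact h.st _ ih

theorem le_eL (h : St F j l g D A) (hg : Q.ord g < 0) {y : H} (hy : y ∈ A) (hy0 : y ≠ 0) :
    (Nat.card F : ℤ) ^ j * (((Nat.card F : ℤ) ^ l - 1) * bL F j g Q y) ≤ eL F j l g Q := by
  have hR := two_le_pow F h.hj
  have h1 := ord_ge h hg hy hy0
  rw [bL, eL]
  have h2 := mul_le_mul_of_nonneg_left h1 (by omega : (0 : ℤ) ≤ (Nat.card F : ℤ) ^ j - 1)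
  linarith

/-- the values of `b` -/
theorem exists_val (h : St F j l g D A) (hg : Q.ord g < 0) {x : H} (hx : x ∈ A) (h0 : x ≠ 0)
    (hb : 0 < bL F j g Q x) : ∃ t < l * D, ((Nat.card F : ℤ) ^ j) ^ (t + 1) *
      (((Nat.card F : ℤ) ^ l - 1) * bL F j g Q x) = eL F j l g Q := by
  classical
  have hR := two_le_pow F h.hj
  have hS := two_le_pow F h.hl
  set R : ℤ := (Nat.card F : ℤ) ^ j with hRd
  set S : ℤ := (Nat.card F : ℤ) ^ l with hSd
  have hb1 : 0 < (S - 1) * bL F j g Q x := mul_pos (by omega) hb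
  have hex : ∃ t : ℕ, eL F j l g Q < R ^ (t + 1) * ((S - 1) * bL F j g Q x) := by
    obtain ⟨n, hn⟩ := pow_unbounded_of_one_lt (eL F j l g Q) (by omega : (1 : ℤ) < R)
    refine ⟨n, hn.trans_le ?_⟩
    have h1 : R ^ n ≤ R ^ (n + 1) := pow_le_pow_right₀ (by omega) (by omega)
    have h2 : (0 : ℤ) < R ^ (n + 1) := by positivity
    nlinarith
  obtain ⟨t, ht⟩ : ∃ t : ℕ, R ^ (t + 1) * ((S - 1) * bL F j g Q x) = eL F j l g Q := by
    set t0 := Nat.find hex with ht0
    have hspec := Nat.find_spec hex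
    rw [← ht0] at hspec
    rcases Nat.eq_zero_or_pos t0 with h1 | h1
    · rw [h1, zero_add, pow_one] at hspec
      exact absurd (le_eL h hg hx h0) (not_le.2 hspec)
    · obtain ⟨t, ht⟩ : ∃ t, t0 = t + 1 := ⟨t0 - 1, by omega⟩
      have h1 := Nat.find_min hex (m := t) (by omega)
      push Not at h1
      refine ⟨t, le_antisymm h1 ?_⟩
      by_contra hlt
      push Not at hlt
      obtain ⟨h2, h3⟩ := iter h hg h0 hb (t + 1) hlt
      have h4 := le_eL h hg (mem_pow h hx (t + 1)) h2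
      rw [h3, ← hRd, ← hSd, mul_left_comm (S - 1), ← mul_assoc, ← pow_succ', ← ht] at h4
      rw [ht] at hspec h4
      omega
  refine ⟨t, ?_, ht⟩
  by_contra hle
  push Not at hle
  have hi : ∀ i ≤ t, (psi F j l g ^ i) x ≠ 0 ∧
      bL F j g Q ((psi F j l g ^ i) x) = R ^ i * bL F j g Q x := by
    intro i hi
    refine iter h hg h0 hb i ?_
    rw [← ht]
    exact mul_lt_mul_of_pos_right (pow_lt_pow_right₀ (by omega) (by omega)) hb1
  obtain ⟨P, hP, hPd, hPx⟩ := h.pol
  have h2 := hPx x hx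
  rw [aeval_sum, Finset.sum_range_succ, hP.coeff_natDegree, one_smul, add_comm, hPd,
    ← pow_mul] at h2
  obtain ⟨h3, h4⟩ := hi (l * D) hle
  refine (DV.ord_add_of_lt (v := Q) h3 ?_).1 h2
  refine G_sum _ _ fun i hi' => G_smul ?_ _
  have hlt : i < D := Finset.mem_range.1 hi'
  have hlt' : l * i < l * D := Nat.mul_lt_mul_of_pos_left hlt h.hl
  rw [← pow_mul]
  obtain ⟨h5, h6⟩ := hi (l * i) (by omega)
  have h7 : R ^ (l * i) * bL F j g Q x < R ^ (l * D) * bL F j g Q x :=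
    mul_lt_mul_of_pos_right (pow_lt_pow_right₀ (by omega) hlt') hb
  rw [← h6, ← h4, bL, bL, ← hRd] at h7
  refine DV.G_of_le ?_
  by_contra h8
  push Not at h8
  have h9 := mul_le_mul_of_nonneg_left (Int.lt_add_one_iff.1 h8)
    (by omega : (0 : ℤ) ≤ R - 1)
  linarith

theorem UT_anti (h : St F j l g D A) (hg : Q.ord g < 0) (t : ℕ) :
    UT F j l g Q A (t + 1) ≤ UT F j l g Q A t := by
  rintro x ⟨hx, hU⟩
  refine ⟨hx, ?_⟩
  rcases hU with hU | hU
  · exact Or.inl hU
  right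
  have hR := two_le_pow F h.hj
  have he := eL_pos h hg
  rcases le_or_gt (((Nat.card F : ℤ) ^ l - 1) * bL F j g Q x) 0 with h1 | h1
  · exact le_trans (mul_nonpos_of_nonneg_of_nonpos (by positivity) h1) he.le
  · refine le_trans ?_ hU
    exact mul_le_mul_of_nonneg_right (pow_le_pow_right₀ (by omega) (by omega)) h1.le

/-- the exact value -/
theorem UT_val (h : St F j l g D A) (hg : Q.ord g < 0) {t : ℕ} {x : H}
    (hx : x ∈ UT F j l g Q A t) (hx' : x ∉ UT F j l g Q A (t + 1)) :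
    x ≠ 0 ∧ 0 < bL F j g Q x ∧
      ((Nat.card F : ℤ) ^ j) ^ (t + 1) * (((Nat.card F : ℤ) ^ l - 1) * bL F j g Q x) =
        eL F j l g Q := by
  have hR := two_le_pow F h.hj
  have hS := two_le_pow F h.hl
  obtain ⟨hxV, hxU⟩ := hx
  have h0 : x ≠ 0 := by
    rintro rfl
    exact hx' (zero_mem _)
  have h1 := hxU.resolve_left h0
  have h2 : eL F j l g Q <
      ((Nat.card F : ℤ) ^ j) ^ (t + 1 + 1) * (((Nat.card F : ℤ) ^ l - 1) * bL F j g Q x) := by
    by_contra h
    push Not at h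
    exact hx' ⟨hxV, Or.inr h⟩
  have h3 := eL_pos h hg
  have h4' : 0 < ((Nat.card F : ℤ) ^ l - 1) * bL F j g Q x := by
    have h5 := h3.trans h2
    exact (mul_pos_iff_of_pos_left (by positivity)).1 h5
  have h4 : 0 < bL F j g Q x := (mul_pos_iff_of_pos_left (by omega)).1 h4'
  obtain ⟨s, -, hs⟩ := exists_val h hg hxV h0 h4
  have hp : ∀ a b : ℕ, ((Nat.card F : ℤ) ^ j) ^ a * (((Nat.card F : ℤ) ^ l - 1) *
      bL F j g Q x) < ((Nat.card F : ℤ) ^ j) ^ b * (((Nat.card F : ℤ) ^ l - 1) *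
      bL F j g Q x) → a < b := by
    intro a b hab
    have := lt_of_mul_lt_mul_right hab h4'.le
    exact (pow_lt_pow_iff_right₀ (by omega)).1 this
  have h5 : s < t + 1 := by
    have := hp (s + 1) (t + 1 + 1) (by rw [hs]; exact h2)
    omega
  have h6 : t ≤ s := by
    by_contra h
    push Not at h
    have h7 : ((Nat.card F : ℤ) ^ j) ^ (s + 1) * (((Nat.card F : ℤ) ^ l - 1) * bL F j g Q x) <
        ((Nat.card F : ℤ) ^ j) ^ (t + 1) * (((Nat.card F : ℤ) ^ l - 1) * bL F j g Q x) :=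
      mul_lt_mul_of_pos_right (pow_lt_pow_right₀ (by omega) (by omega)) h4'
    rw [hs] at h7
    exact absurd h1 (not_le.2 h7)
  obtain rfl : s = t := by omega
  exact ⟨h0, h4, hs⟩

theorem UT_of_val (h : St F j l g D A) {t : ℕ} {x : H} (hx : x ∈ A) (h0 : x ≠ 0)
    (hb : 0 < bL F j g Q x)
    (hv : ((Nat.card F : ℤ) ^ j) ^ (t + 1) * (((Nat.card F : ℤ) ^ l - 1) * bL F j g Q x) =
      eL F j l g Q) :
    x ∈ UT F j l g Q A t ∧ x ∉ UT F j l g Q A (t + 1) := by
  have hR := two_le_pow F h.hj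
  have hS := two_le_pow F h.hl
  refine ⟨⟨hx, Or.inr hv.le⟩, fun h1 => ?_⟩
  have h2 := h1.2.resolve_left h0
  have h3 : ((Nat.card F : ℤ) ^ j) ^ (t + 1) * (((Nat.card F : ℤ) ^ l - 1) * bL F j g Q x) <
      ((Nat.card F : ℤ) ^ j) ^ (t + 1 + 1) * (((Nat.card F : ℤ) ^ l - 1) * bL F j g Q x) :=
    mul_lt_mul_of_pos_right (pow_lt_pow_right₀ (by omega) (by omega)) (mul_pos (by omega) hb)
  rw [hv] at h3
  exact absurd h2 (not_le.2 h3)

theorem UT_step (h : St F j l g D A) (hg : Q.ord g < 0) {t : ℕ} {x : H}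
    (hx : x ∈ UT F j l g Q A (t + 1)) (hx' : x ∉ UT F j l g Q A (t + 1 + 1)) :
    psi F j l g x ∈ UT F j l g Q A t ∧ psi F j l g x ∉ UT F j l g Q A (t + 1) := by
  have hR := two_le_pow F h.hj
  have hS := two_le_pow F h.hl
  obtain ⟨h0, h1, h2⟩ := UT_val h hg hx hx'
  have h3 := iter h hg h0 h1 1 (by
    rw [← h2]
    exact mul_lt_mul_of_pos_right (pow_lt_pow_right₀ (by omega) (by omega))
      (mul_pos (by omega) h1))
  rw [pow_one, pow_one] at h3
  refine UT_of_val h (h.st _ hx.1) h3.1 ?_ ?_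
  · rw [h3.2]
    exact mul_pos (by omega) h1
  · rw [h3.2, ← h2, pow_succ _ (t + 1)]
    ring

/-- the numbers of the field with `r ^ l` elements are units -/
theorem ord_InL (hl : 1 ≤ l) (Q : DV H) {c : H} (hc : InL F l c) (h0 : c ≠ 0) : Q.ord c = 0 := by
  have hS := two_le_pow F hl
  have h1 := congrArg Q.ord (show c ^ Nat.card F ^ l = c from hc)
  rw [Q.ord_pow h0] at h1
  push_cast at h1
  have h2 : ((Nat.card F : ℤ) ^ l - 1) * Q.ord c = 0 := by linear_combination h1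
  rcases mul_eq_zero.1 h2 with h3 | h3
  · omega
  · exact h3

theorem UT_mul (h : St F j l g D A) {t : ℕ} {c x : H} (hc : InL F l c)
    (hx : x ∈ UT F j l g Q A t) : c * x ∈ UT F j l g Q A t := by
  obtain ⟨hx1, hx2⟩ := hx
  refine ⟨h.mul c hc x hx1, ?_⟩
  by_cases h0 : c = 0
  · exact Or.inl (by rw [h0, zero_mul])
  rcases hx2 with hx2 | hx2
  · exact Or.inl (by rw [hx2, mul_zero])
  by_cases h1 : x = 0
  · exact Or.inl (by rw [h1, mul_zero])
  right
  rw [bL, Q.ord_mul _ _ h0 h1, ord_InL h.hl Q hc h0, zero_add]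
  exact hx2

theorem finite_InL (h : St F j l g D A) : {z : H | InL F l z}.Finite := by
  have h1 : Nat.card {z : H // InL F l z} ≠ 0 := by
    rw [h.hL]
    exact pow_ne_zero _ Nat.card_pos.ne'
  exact Set.finite_coe_iff.1 (Nat.finite_of_card_ne_zero h1)

theorem prod_InL (h : St F j l g D A) (u : H) :
    ∏ c ∈ (finite_InL h).toFinset, (u - c) = u ^ Nat.card F ^ l - u := by
  classical
  have hS : 1 < Nat.card F ^ l := Nat.one_lt_pow (by have := h.hl; omega) Finite.one_lt_card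
  set P : Polynomial H := Polynomial.X ^ Nat.card F ^ l - Polynomial.X with hP
  have h1 : P.Monic := Polynomial.monic_X_pow_sub (by
    rw [Polynomial.degree_X]
    exact_mod_cast hS)
  have h2 : P.natDegree = Nat.card F ^ l := by
    rw [hP]
    exact FiniteField.X_pow_card_sub_X_natDegree_eq H hS
  have h3 : (finite_InL h).toFinset.card = Nat.card F ^ l := by
    rw [← h.hL]
    exact (Nat.card_eq_card_finite_toFinset (finite_InL h)).symm
  have h4 : (finite_InL h).toFinset.val ≤ P.roots := by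
    rw [Multiset.le_iff_subset (Finset.nodup _)]
    intro z hz
    have h5 : InL F l z := by
      rw [Finset.mem_val, Set.Finite.mem_toFinset] at hz
      exact hz
    rw [Polynomial.mem_roots h1.ne_zero, Polynomial.IsRoot.def, hP, Polynomial.eval_sub,
      Polynomial.eval_pow, Polynomial.eval_X, show z ^ Nat.card F ^ l = z from h5, sub_self]
  have h5 : (finite_InL h).toFinset.val = P.roots := by
    refine Multiset.eq_of_le_of_card_le h4 ?_
    rw [Finset.card_val, h3, ← h2]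
    exact Polynomial.card_roots' P
  have h6 := Polynomial.prod_multiset_X_sub_C_of_monic_of_roots_card_eq h1 (by
    rw [← h5, Finset.card_val, h3, h2])
  rw [← h5] at h6
  have h7 : P = ∏ c ∈ (finite_InL h).toFinset, (Polynomial.X - Polynomial.C c) := h6.symm
  have h8 := congrArg (Polynomial.eval u) h7
  rw [hP, Polynomial.eval_sub, Polynomial.eval_pow, Polynomial.eval_X, Polynomial.eval_prod] at h8
  rw [h8]
  refine Finset.prod_congr rfl fun c _ => ?_
  rw [Polynomial.eval_sub, Polynomial.eval_X, Polynomial.eval_C]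

theorem exists_c_zero (h : St F j l g D A) (hg : Q.ord g < 0) {x y : H}
    (hx : x ∈ UT F j l g Q A 0) (hx' : x ∉ UT F j l g Q A 1)
    (hy : y ∈ UT F j l g Q A 0) (hy' : y ∉ UT F j l g Q A 1) :
    ∃ c : H, InL F l c ∧ y - c * x ∈ UT F j l g Q A 1 := by
  classical
  have hR := two_le_pow F h.hj
  have hS := two_le_pow F h.hl
  set R : ℤ := (Nat.card F : ℤ) ^ j with hRd
  set S : ℤ := (Nat.card F : ℤ) ^ l with hSd
  set B : ℤ := R * (S - 1) with hB
  have hB0 : 0 < B := mul_pos (by omega) (by omega)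
  -- the orders
  have key : ∀ z ∈ UT F j l g Q A 0, z ∉ UT F j l g Q A 1 → z ≠ 0 ∧
      B * Q.ord z = Q.ord g ∧ Q.G (Q.ord z) (psi F j l g z) := by
    intro z hz hz'
    obtain ⟨h0, h1, h2⟩ := UT_val h hg hz hz'
    rw [zero_add, pow_one, bL, eL, ← hRd, ← hSd] at h2
    have h3 : B * Q.ord z = Q.ord g := by
      have h4 : (R - 1) * (B * Q.ord z) = (R - 1) * Q.ord g := by
        rw [hB]
        linear_combination -h2
      exact mul_left_cancel₀ (by omega) h4
    refine ⟨h0, h3, ?_⟩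
    by_cases h5 : psi F j l g z = 0
    · exact Or.inl h5
    · right
      have h6 := ord_ge h hg (h.st _ hz.1) h5
      rw [← hRd, ← hSd, ← hB, ← h3] at h6
      exact le_of_mul_le_mul_left h6 hB0
  obtain ⟨hx0, hxo, hxG⟩ := key x hx hx'
  obtain ⟨hy0, hyo, hyG⟩ := key y hy hy'
  have hxy : Q.ord y = Q.ord x := mul_left_cancel₀ hB0.ne' (hyo.trans hxo.symm)
  have hneg : Q.ord x < 0 := by
    by_contra h
    push Not at h
    have : 0 ≤ B * Q.ord x := mul_nonneg hB0.le h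
    omega
  set m := Q.ord x with hm
  set u := y / x with hu
  have hu0 : u ≠ 0 := div_ne_zero hy0 hx0
  have hux : y = u * x := by rw [hu]; field_simp
  have hord : Q.ord u = 0 := by rw [hu, Q.ord_div hy0 hx0, hxy, hm, sub_self]
  -- the congruence
  have h1 : (u - u ^ Nat.card F ^ l) ^ Nat.card F ^ j *
      (x ^ Nat.card F ^ (j + l) * x ^ Nat.card F ^ j) =
      psi F j l g y * x ^ Nat.card F ^ j - psi F j l g x * y ^ Nat.card F ^ j := by
    have e : (u ^ Nat.card F ^ l) ^ Nat.card F ^ j = u ^ Nat.card F ^ (j + l) := by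
      rw [← pow_mul, ← pow_add, add_comm]
    rw [sub_pow F, e, psi_apply, psi_apply, hux, mul_pow, mul_pow]
    ring
  have h2 : Q.G (m + R * m) ((u - u ^ Nat.card F ^ l) ^ Nat.card F ^ j *
      (x ^ Nat.card F ^ (j + l) * x ^ Nat.card F ^ j)) := by
    rw [h1]
    rw [hxy] at hyG
    have hyo' : Q.G m y := DV.G_of_le hxy.ge
    have a1 := hyG.mul ((DV.G_ord x).pow (Nat.card F ^ j))
    have a2 := hxG.mul (hyo'.pow (Nat.card F ^ j))
    rw [← hm] at a1
    push_cast at a1 a2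
    exact DV.G.sub a1 a2
  have h3 : Q.G 1 (u - u ^ Nat.card F ^ l) := by
    by_cases h0 : u - u ^ Nat.card F ^ l = 0
    · exact Or.inl h0
    right
    have h4 := h2.le (mul_ne_zero (pow_ne_zero _ h0)
      (mul_ne_zero (pow_ne_zero _ hx0) (pow_ne_zero _ hx0)))
    rw [Q.ord_mul _ _ (pow_ne_zero _ h0) (mul_ne_zero (pow_ne_zero _ hx0) (pow_ne_zero _ hx0)),
      Q.ord_mul _ _ (pow_ne_zero _ hx0) (pow_ne_zero _ hx0), Q.ord_pow h0, Q.ord_pow hx0,
      Q.ord_pow hx0, ← hm] at h4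
    push_cast at h4
    rw [pow_add, ← hRd, ← hSd] at h4
    by_contra h5
    push Not at h5
    have h6 : R * Q.ord (u - u ^ Nat.card F ^ l) ≤ 0 :=
      mul_nonpos_of_nonneg_of_nonpos (by omega) (by omega)
    have h7 : (4 : ℤ) ≤ R * S := by nlinarith
    nlinarith
  -- the product
  obtain ⟨c, hcL, hc⟩ : ∃ c : H, InL F l c ∧ Q.G 1 (u - c) := by
    by_contra hall
    push Not at hall
    refine prod_not_G (Q := Q) (finite_InL h).toFinset (fun c : H => u - c) (fun c hc' => hall c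
      ((finite_InL h).mem_toFinset.1 hc')) ?_
    rw [prod_InL h]
    have := h3.neg
    rwa [neg_sub] at this
  refine ⟨c, hcL, ?_⟩
  have h5 : y - c * x = (u - c) * x := by
    rw [sub_mul, ← hux]
  have h6 : Q.G (m + 1) (y - c * x) := by
    rw [h5]
    exact (hc.mul (DV.G_ord x)).mono (by omega)
  have hzA : y - c * x ∈ A := sub_mem hy.1 (h.mul c hcL x hx.1)
  refine ⟨hzA, ?_⟩
  by_cases hz0 : y - c * x = 0
  · exact Or.inl hz0
  right
  have h7 := h6.le hz0
  set z := y - c * x with hz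
  rcases le_or_gt (bL F j g Q z) 0 with h8 | h8
  · refine le_trans (mul_nonpos_of_nonneg_of_nonpos (by positivity)
      (mul_nonpos_of_nonneg_of_nonpos (by omega) h8)) (eL_pos h hg).le
  · obtain ⟨t, -, ht⟩ := exists_val h hg hzA hz0 h8
    have h9 : t ≠ 0 := by
      rintro rfl
      rw [zero_add, pow_one, bL, eL, ← hRd, ← hSd] at ht
      have h10 : B * Q.ord z = Q.ord g := by
        have h4 : (R - 1) * (B * Q.ord z) = (R - 1) * Q.ord g := by
          rw [hB]
          linear_combination -ht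
        exact mul_left_cancel₀ (by omega) h4
      rw [← hxo] at h10
      have h11 : Q.ord z = m := mul_left_cancel₀ hB0.ne' h10
      omega
    refine le_trans (mul_le_mul_of_nonneg_right (pow_le_pow_right₀ (by omega : (1 : ℤ) ≤ _)
      (by omega : 1 + 1 ≤ t + 1)) (mul_nonneg (by omega) h8.le)) ht.le

/-- the `R`-th root in the field with `r ^ l` elements -/
theorem exists_root (hl : 1 ≤ l) (j : ℕ) {c : H} (hc : InL F l c) :
    ∃ d : H, InL F l d ∧ d ^ Nat.card F ^ j = c := by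
  have h1 : ∀ i : ℕ, c ^ Nat.card F ^ (l * i) = c := by
    intro i
    induction i with
    | zero => rw [mul_zero, pow_zero, pow_one]
    | succ i ih =>
      rw [mul_add, mul_one, pow_add, pow_mul, ih]
      exact hc
  refine ⟨c ^ Nat.card F ^ (l * j - j), ?_, ?_⟩
  · rw [InL, ← pow_mul, mul_comm, pow_mul, show c ^ Nat.card F ^ l = c from hc]
  · rw [← pow_mul, ← pow_add, Nat.sub_add_cancel (Nat.le_mul_of_pos_left _ hl)]
    exact h1 j

/-- a layer is a line over the field with `r ^ l` elements -/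
theorem exists_c (h : St F j l g D A) (hg : Q.ord g < 0) (t : ℕ) {x y : H}
    (hx : x ∈ UT F j l g Q A t) (hx' : x ∉ UT F j l g Q A (t + 1))
    (hy : y ∈ UT F j l g Q A t) :
    ∃ c : H, InL F l c ∧ y - c * x ∈ UT F j l g Q A (t + 1) := by
  have hz : InL F l (0 : H) := zero_pow (pow_ne_zero _ Nat.card_pos.ne')
  by_cases hy' : y ∈ UT F j l g Q A (t + 1)
  · exact ⟨0, hz, by rwa [zero_mul, sub_zero]⟩
  induction t generalizing x y with
  | zero => exact exists_c_zero h hg hx hx' hy hy'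
  | succ t ih =>
    obtain ⟨a1, a2⟩ := UT_step h hg hx hx'
    obtain ⟨b1, b2⟩ := UT_step h hg hy hy'
    obtain ⟨c', hcL', hc'⟩ := ih a1 a2 b1 b2
    obtain ⟨c, hcL, hc⟩ := exists_root h.hl j hcL'
    refine ⟨c, hcL, ?_⟩
    by_contra hz'
    have h1 := (UT_step h hg (sub_mem hy (UT_mul h hcL hx)) hz').2
    rw [map_sub, psi_mul g hcL, hc] at h1
    exact h1 hc'

theorem finite_UT (h : St F j l g D A) (t : ℕ) : Finite (UT F j l g Q A t) := by
  have := h.fin
  have h1 : (UT F j l g Q A t : Set H).Finite :=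
    (Set.toFinite (A : Set H)).subset fun y hy => hy.1
  exact h1.to_subtype

theorem card_UT_le (h : St F j l g D A) (hg : Q.ord g < 0) (t : ℕ) :
    Nat.card (UT F j l g Q A t) ≤ Nat.card F ^ l * Nat.card (UT F j l g Q A (t + 1)) := by
  have := finite_UT (Q := Q) h t
  have := finite_UT (Q := Q) h (t + 1)
  have hfL : Finite {z : H // InL F l z} := (finite_InL h).to_subtype
  by_cases hex : ∃ x ∈ UT F j l g Q A t, x ∉ UT F j l g Q A (t + 1)
  · obtain ⟨x, hx, hx'⟩ := hex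
    rw [← h.hL, ← Nat.card_prod]
    refine Nat.card_le_card_of_surjective (fun p : {z : H // InL F l z} ×
      UT F j l g Q A (t + 1) => (⟨p.1.1 * x + p.2, add_mem (UT_mul h p.1.2 hx)
        (UT_anti h hg t p.2.2)⟩ : UT F j l g Q A t)) ?_
    rintro ⟨y, hy⟩
    obtain ⟨c, hcL, hc⟩ := exists_c h hg t hx hx' hy
    exact ⟨(⟨c, hcL⟩, ⟨_, hc⟩), by simp⟩
  · push Not at hex
    have h1 : Nat.card (UT F j l g Q A t) ≤ Nat.card (UT F j l g Q A (t + 1)) :=
      Nat.card_le_card_of_injective (fun x => (⟨x.1, hex x.1 x.2⟩ : UT F j l g Q A (t + 1)))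
        fun a b hab => Subtype.ext (congrArg (fun z : UT F j l g Q A (t + 1) => (z : H)) hab)
    exact h1.trans (Nat.le_mul_of_pos_left _ (pow_pos Nat.card_pos _))

theorem UT_zero (h : St F j l g D A) (hg : Q.ord g < 0) : UT F j l g Q A 0 = A := by
  refine le_antisymm (fun x hx => hx.1) fun x hx => ⟨hx, ?_⟩
  by_cases h0 : x = 0
  · exact Or.inl h0
  right
  rw [zero_add, pow_one]
  exact le_eL h hg hx h0

theorem UT_top_le (h : St F j l g D A) (hg : Q.ord g < 0) :
    UT F j l g Q A (l * D) ≤ F0 F j g Q A := by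
  intro x hx
  refine ⟨hx.1, ?_⟩
  by_cases hx0 : x = 0
  · exact Or.inl hx0
  right
  by_contra hb
  push Not at hb
  have hR := two_le_pow F h.hj
  have hS := two_le_pow F h.hl
  obtain ⟨t, ht, h2⟩ := exists_val h hg hx.1 hx0 hb
  have h3 := hx.2.resolve_left hx0
  rw [← h2] at h3
  have h4 := le_of_mul_le_mul_right h3 (mul_pos (by omega) hb)
  have h5 := (pow_le_pow_iff_right₀ (by omega)).1 h4
  omega

end

end Pool.Agent.FF.FVl
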