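import Pool.Agent.FG.Fam

/-! # Lower bounds for `L(q)` for all non-prime `q` (93) -/

set_option autoImplicit false

namespace Pool.Agent.FF.Jl

/-- the slope plus two -/
theorem slope_add_two {r j l : ℕ} (hr : 2 ≤ r) (hj : 0 < j) (hl : 0 < l) :
    2 * (r : ℝ) ^ (j + l) / ((r : ℝ) ^ j + (r : ℝ) ^ l) ≤
      2 / (1 / ((r : ℝ) ^ j - 1) + 1 / ((r : ℝ) ^ l - 1)) + 2 := by
  rw [slope_eq hr hj hl]
  have hr2 : (2 : ℝ) ≤ r := by exact_mod_cast hr
  have h1 : (r : ℝ) ≤ (r : ℝ) ^ j := le_self_pow₀ (by linarith) hj.ne'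
  have h2 : (r : ℝ) ≤ (r : ℝ) ^ l := le_self_pow₀ (by linarith) hl.ne'
  rw [pow_add]
  set a : ℝ := (r : ℝ) ^ j with ha
  set b : ℝ := (r : ℝ) ^ l with hb
  have h4 : (0 : ℝ) < a + b - 2 := by linarith
  have h5 : (0 : ℝ) < a + b := by linarith
  have e : 2 * ((a - 1) * (b - 1)) / (a + b - 2) + 2 = 2 * (a * b - 1) / (a + b - 2) := by
    field_simp
    ring
  rw [e, div_le_div_iff₀ h5 h4]
  nlinarith [mul_nonneg (by linarith : (0 : ℝ) ≤ a - 1) (by linarith : (0 : ℝ) ≤ b - 1)]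

/-- the slope plus two has the order `√q` -/
theorem slope_order {p n : ℕ} (hp : 2 ≤ p) (hn : 2 ≤ n) {s : ℝ}
    (hs : s = 2 / (1 / ((p : ℝ) ^ (n / 2) - 1) + 1 / ((p : ℝ) ^ ((n + 1) / 2) - 1))) :
    2 * √p / (p + 1) * √((p : ℝ) ^ n) ≤ s + 2 := by
  have hpr : (2 : ℝ) ≤ p := by exact_mod_cast hp
  have hsp : (√(p : ℝ)) ^ 2 = p := Real.sq_sqrt (by linarith)
  have hsp0 : 0 < √(p : ℝ) := Real.sqrt_pos.2 (by linarith)
  have hadd := slope_add_two hp (by omega : 0 < n / 2) (by omega : 0 < (n + 1) / 2)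
  rw [hs]
  refine le_trans ?_ hadd
  obtain ⟨m, hm | hm⟩ := Nat.even_or_odd' n
  · have e1 : n / 2 = m := by omega
    have e2 : (n + 1) / 2 = m := by omega
    rw [e1, e2, hm]
    set x : ℝ := (p : ℝ) ^ m with hx
    have hx0 : 0 < x := by positivity
    have hsq : √((p : ℝ) ^ (2 * m)) = x := by
      rw [mul_comm, pow_mul]
      exact Real.sqrt_sq hx0.le
    have e3 : (p : ℝ) ^ (m + m) = x * x := by rw [hx, pow_add]
    rw [hsq, e3]
    have e4 : 2 * (x * x) / (x + x) = x := by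
      field_simp
      ring
    rw [e4]
    have h1 : 2 * √(p : ℝ) / (p + 1) ≤ 1 := by
      rw [div_le_one (by linarith)]
      nlinarith [sq_nonneg (√(p : ℝ) - 1)]
    have h2 := mul_le_mul_of_nonneg_right h1 hx0.le
    linarith
  · have e1 : n / 2 = m := by omega
    have e2 : (n + 1) / 2 = m + 1 := by omega
    rw [e1, e2, hm]
    set x : ℝ := (p : ℝ) ^ m with hx
    have hx0 : 0 < x := by positivity
    have e3 : (p : ℝ) ^ (m + (m + 1)) = x * x * p := by rw [hx]; ring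
    have e4 : (p : ℝ) ^ (m + 1) = x * p := by rw [hx]; ring
    have e5 : (p : ℝ) ^ (2 * m + 1) = (x * √(p : ℝ)) ^ 2 := by
      rw [mul_pow, hsp, hx]
      ring
    have hsq : √((p : ℝ) ^ (2 * m + 1)) = x * √(p : ℝ) := by
      rw [e5]
      exact Real.sqrt_sq (by positivity)
    rw [hsq, e3, e4]
    refine le_of_eq ?_
    have : (p : ℝ) + 1 ≠ 0 := by linarith
    have : x + x * p ≠ 0 := by positivity
    field_simp
    rw [hsp]
    ring

/-- the slope is at least `6` for `q ≥ 49` -/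
theorem six_le_slope {p n : ℕ} (hp : p.Prime) (hn : 2 ≤ n) (h49 : 49 ≤ p ^ n) {s : ℝ}
    (hs : s = 2 / (1 / ((p : ℝ) ^ (n / 2) - 1) + 1 / ((p : ℝ) ^ ((n + 1) / 2) - 1))) :
    6 ≤ s := by
  have hp2 : 2 ≤ p := hp.two_le
  have hpr : (2 : ℝ) ≤ p := by exact_mod_cast hp2
  obtain ⟨m, hm | hm⟩ := Nat.even_or_odd' n
  · have e1 : n / 2 = m := by omega
    have e2 : (n + 1) / 2 = m := by omega
    have hr7 : 7 ≤ p ^ m := by
      have h1 : p ^ n = p ^ m * p ^ m := by rw [hm, two_mul, pow_add]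
      by_contra h
      have h2 : p ^ m ≤ 6 := by omega
      have h3 : p ^ m * p ^ m ≤ 6 * 6 := Nat.mul_le_mul h2 h2
      omega
    have hrr : (7 : ℝ) ≤ (p : ℝ) ^ m := by exact_mod_cast hr7
    rw [hs, e1, e2]
    have h1 : (p : ℝ) ^ m - 1 ≠ 0 := by linarith
    have h2 : 2 / (1 / ((p : ℝ) ^ m - 1) + 1 / ((p : ℝ) ^ m - 1)) = (p : ℝ) ^ m - 1 := by
      field_simp
      norm_num
    rw [h2]
    linarith
  · have e1 : n / 2 = m := by omega
    have e2 : (n + 1) / 2 = m + 1 := by omega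
    have hm1 : 1 ≤ m := by omega
    have hadd := slope_add_two hp2 (by omega : 0 < m) (by omega : 0 < m + 1)
    rw [hs, e1, e2]
    have h8 : 4 * (p + 1) ≤ p ^ m * p := by
      rcases Nat.lt_or_ge p 4 with h4 | h4
      · obtain rfl | rfl : p = 2 ∨ p = 3 := by omega
        · have hm3 : 3 ≤ m := by
            by_contra h
            have h1 : 2 ^ n ≤ 2 ^ 5 := Nat.pow_le_pow_right (by norm_num) (by omega)
            omega
          have h1 : 2 ^ 3 ≤ 2 ^ m := Nat.pow_le_pow_right (by norm_num) hm3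
          omega
        · have hm2 : 2 ≤ m := by
            by_contra h
            have h1 : 3 ^ n ≤ 3 ^ 3 := Nat.pow_le_pow_right (by norm_num) (by omega)
            omega
          have h1 : 3 ^ 2 ≤ 3 ^ m := Nat.pow_le_pow_right (by norm_num) hm2
          omega
      · have h5 : 5 ≤ p := by
          rcases Nat.lt_or_ge 4 p with h | h
          · exact h
          · obtain rfl : p = 4 := by omega
            exact absurd hp (by norm_num)
        have h1 : p ≤ p ^ m := Nat.le_self_pow (by omega) p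
        nlinarith [Nat.mul_le_mul h1 (le_refl p), Nat.mul_le_mul h5 (le_refl p)]
    set x : ℝ := (p : ℝ) ^ m with hx
    have hx0 : 0 < x := by positivity
    have h9 : 4 * ((p : ℝ) + 1) ≤ x * p := by
      rw [hx]
      exact_mod_cast h8
    have e3 : (p : ℝ) ^ (m + (m + 1)) = x * (x * p) := by rw [hx]; ring
    have e4 : (p : ℝ) ^ (m + 1) = x * p := by rw [hx]; ring
    rw [e3, e4] at hadd
    have h10 : 8 ≤ 2 * (x * (x * p)) / (x + x * p) := by
      rw [le_div_iff₀ (by positivity)]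
      nlinarith [mul_le_mul_of_nonneg_left h9 hx0.le]
    rw [e4]
    linarith

/-- **Lower bounds for `L(q)` for all non-prime `q`.** -/
theorem LL_nonprime {k : Type} [Field k] {p n : ℕ} (hp : p.Prime) (hn : 2 ≤ n)
    (hk : Nat.card k = p ^ n) {s κ : ℝ}
    (hs : s = 2 / (1 / ((p : ℝ) ^ (n / 2) - 1) + 1 / ((p : ℝ) ^ ((n + 1) / 2) - 1)))
    (hκ : κ = if Even p then 1 else 2) :
    ENNReal.ofReal (2 * s / (2 + (s + κ) / Real.logb 2 (Nat.card k))) ≤ LL k ∧
    (49 ≤ Nat.card k →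
      ENNReal.ofReal ((s + 2) / (2 + κ / Real.logb 2 (Nat.card k))) ≤ LL k) ∧
    2 * √p / (p + 1) * √(Nat.card k : ℝ) ≤ s + 2 := by
  have hp2 : 2 ≤ p := hp.two_le
  have H : ENNReal.ofReal (2 * s / (2 + (s + κ) / Real.logb 2 (Nat.card k))) ≤ LL k ∧
      (6 ≤ s → ENNReal.ofReal ((s + 2) / (2 + κ / Real.logb 2 (Nat.card k))) ≤ LL k) := by
    obtain ⟨m, hm | hm⟩ := Nat.even_or_odd' n
    · have e1 : n / 2 = m := by omega
      have e2 : (n + 1) / 2 = m := by omega
      have hk' : Nat.card k = (p ^ m) ^ (1 + 1) := by rw [hk, hm, ← pow_mul]; congr 1; ring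
      have hev : Even (p ^ m) ↔ Even p := Nat.even_pow' (by omega)
      refine LL_jl (k := k) (r := p ^ m) (j := 1) (l := 1) (hp2.trans (Nat.le_self_pow (by omega) p))
        one_pos one_pos (by norm_num) hk' ?_ (by simp only [hκ, hev])
      rw [hs, e1, e2, pow_one, Nat.cast_pow]
    · have e1 : n / 2 = m := by omega
      have e2 : (n + 1) / 2 = m + 1 := by omega
      have hk' : Nat.card k = p ^ (m + (m + 1)) := by rw [hk, hm]; congr 1; ring
      exact LL_jl hp2 (by omega : 0 < m) (by omega : 0 < m + 1) (by simp) hk'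
        (by rw [hs, e1, e2]) hκ
  refine ⟨H.1, fun h49 => H.2 (six_le_slope hp hn (hk ▸ h49) hs), ?_⟩
  have h1 := slope_order hp2 hn hs
  rw [hk, Nat.cast_pow]
  exact h1

end Pool.Agent.FF.Jl
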