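import Pool.Agent.FG.Fam
import Pool.Agent.FD.NumS

/-!
# Numbers for some non-prime `q` which are not squares (93)
-/

set_option autoImplicit false

namespace Pool.Agent.FF.Jl

theorem logb_two_pow {k : Type} [Field k] {n : ℕ} (hk : Nat.card k = 2 ^ n) :
    Real.logb 2 (Nat.card k) = n := by
  rw [hk]
  push_cast
  rw [Real.logb_pow, Real.logb_self_eq_one (by norm_num), mul_one]

theorem N6.b32 : BlkF 189 180 (2 * (1 : ℕ) * (((189 : ℕ) : ℝ) - (1 : ℕ)) / (189 : ℕ)) :=
  blkF_eb (by norm_num) (by norm_num) (by decide +kernel)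

theorem N6.L32 {k : Type} [Field k] (hk : Nat.card k = 32) : ENNReal.ofReal (277 / 100) ≤ LL k := by
  have H := good_jl (k := k) (r := 2) (j := 2) (l := 3) (s := 21 / 5) (κ := 1) (by norm_num)
    (by norm_num) (by norm_num) (by norm_num) (by rw [hk]; norm_num) (by norm_num) (by norm_num)
  rw [logb_two_pow (n := 5) (by rw [hk]; norm_num)] at H
  refine H.num (lam' := 5) (by norm_num) (by norm_num) (by norm_num) (by norm_num) N6.b32
    (by norm_num) (by norm_num) (by norm_num) ?_
  norm_num

theorem N6.b128 : BlkF 252 196 (2 * (9 : ℕ) * (((252 : ℕ) : ℝ) - (9 : ℕ)) / (252 : ℕ)) :=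
  blkF_eb (by norm_num) (by norm_num) (by decide +kernel)

theorem N6.L128 {k : Type} [Field k] (hk : Nat.card k = 128) :
    ENNReal.ofReal (1387 / 250) ≤ LL k := by
  have H := good_jl (k := k) (r := 2) (j := 3) (l := 4) (s := 105 / 11) (κ := 1) (by norm_num)
    (by norm_num) (by norm_num) (by norm_num) (by rw [hk]; norm_num) (by norm_num) (by norm_num)
  rw [logb_two_pow (n := 7) (by rw [hk]; norm_num)] at H
  refine H.num (lam' := 7) (by norm_num) (by norm_num) (by norm_num) (by norm_num) N6.b128
    (by norm_num) (by norm_num) (by norm_num) ?_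
  norm_num

theorem N6.b243 : BlkF 105 76 (2 * (5 : ℕ) * (((105 : ℕ) : ℝ) - (5 : ℕ)) / (105 : ℕ)) :=
  blkF_eb (by norm_num) (by norm_num) (by decide +kernel)

theorem N6.L243 {k : Type} [Field k] (hk : Nat.card k = 243) :
    ENNReal.ofReal (3301 / 500) ≤ LL k := by
  have H := good_jl (k := k) (r := 3) (j := 2) (l := 3) (s := 208 / 17) (κ := 2) (by norm_num)
    (by norm_num) (by norm_num) (by norm_num) (by rw [hk]; norm_num) (by norm_num)
    (by norm_num [Nat.even_iff])
  have h1 := AllP.le_logb_of_pow (x := 420) (y := 243) (n := 53) (by norm_num)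
    (by decide +kernel) (by norm_num)
  rw [hk] at H
  refine H.num (lam' := 420 / 53) (by norm_num) (by exact_mod_cast h1) (by norm_num)
    (by norm_num) N6.b243 (by norm_num) (by norm_num) (by norm_num) ?_
  norm_num

theorem N6.b512 : BlkF 248 46 ((83 : ℕ) : ℝ) :=
  blkF_lp (a := 7) (by norm_num) (by norm_num) (by decide +kernel) (by norm_num) (by norm_num)

theorem N6.L512 {k : Type} [Field k] (hk : Nat.card k = 512) :
    ENNReal.ofReal (266 / 25) ≤ LL k := by
  have H := good_jl (k := k) (r := 2) (j := 4) (l := 5) (s := 465 / 23) (κ := 1) (by norm_num)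
    (by norm_num) (by norm_num) (by norm_num) (by rw [hk]; norm_num) (by norm_num) (by norm_num)
  rw [logb_two_pow (n := 9) (by rw [hk]; norm_num)] at H
  refine H.num (lam' := 9) (by norm_num) (by norm_num) (by norm_num) (by norm_num) N6.b512
    (by norm_num) (by norm_num) (by norm_num) ?_
  norm_num

theorem N6.b1331 : BlkF 251 78 ((68 : ℕ) : ℝ) :=
  blkF_lp (a := 14) (by norm_num) (by norm_num) (by decide +kernel) (by norm_num) (by norm_num)

theorem N6.L1331 {k : Type} [Field k] (hk : Nat.card k = 1331) :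
    ENNReal.ofReal (49 / 5) ≤ LL k := by
  have H := good_jl (k := k) (r := 11) (j := 1) (l := 2) (s := 240 / 13) (κ := 2) (by norm_num)
    (by norm_num) (by norm_num) (by norm_num) (by rw [hk]; norm_num) (by norm_num)
    (by norm_num [Nat.even_iff])
  have h1 := AllP.le_logb_of_pow (x := 467) (y := 1331) (n := 45) (by norm_num)
    (by decide +kernel) (by norm_num)
  rw [hk] at H
  refine H.num (lam' := 467 / 45) (by norm_num) (by exact_mod_cast h1) (by norm_num)
    (by norm_num) N6.b1331 (by norm_num) (by norm_num) (by norm_num) ?_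
  norm_num

end Pool.Agent.FF.Jl
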