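import Pool.Agent.FE.Ine
import Pool.Agent.FE.IneB
import Pool.Agent.FE.PiMinK

/-! # Sums over cosets of subgroups of the inertia group (31, 35) -/

set_option autoImplicit false

namespace Pool.Agent.FF.Jl

open GalAux

namespace RamAux

section

variable {K E H : Type*} [Field K] [Field E] [Field H] [Algebra K E] [Algebra K H] [Algebra E H]
  [IsScalarTower K E H]

theorem over_refl (Q : DV H) : Over Q Q := ⟨1, one_pos, fun x _ => by
  rw [one_mul]
  rfl⟩

/-- the coefficients of a product of linear factors with integral roots are integral -/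
theorem coeff_prod_int {Q : DV H} {ι : Type*} (s : Finset ι) (f : ι → H)
    (hf : ∀ i ∈ s, Q.G 0 (f i)) (n : ℕ) :
    Q.G 0 ((∏ i ∈ s, (Polynomial.X - Polynomial.C (f i))).coeff n) := by
  classical
  induction s using Finset.induction_on generalizing n with
  | empty =>
    rw [Finset.prod_empty, Polynomial.coeff_one]
    split_ifs
    · exact DV.G_one
    · exact DV.G_zero _
  | insert a s ha ih =>
    have ih' := ih fun i hi => hf i (Finset.mem_insert_of_mem hi)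
    rw [Finset.prod_insert ha, sub_mul, Polynomial.coeff_sub, Polynomial.coeff_C_mul]
    refine DV.G.sub ?_ (G_zero_mul (hf a (Finset.mem_insert_self a s)) (ih' n))
    cases n with
    | zero =>
      rw [Polynomial.coeff_X_mul_zero]
      exact DV.G_zero _
    | succ n =>
      rw [Polynomial.coeff_X_mul]
      exact ih' n

variable [FiniteDimensional E H]

open Classical in
theorem coeff_fixed (x : H) (δ : H ≃ₐ[E] H) (n : ℕ) :
    δ ((∏ γ : H ≃ₐ[E] H, (Polynomial.X - Polynomial.C (γ x))).coeff n) =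
      (∏ γ : H ≃ₐ[E] H, (Polynomial.X - Polynomial.C (γ x))).coeff n := by
  have h1 : (∏ γ : H ≃ₐ[E] H, (Polynomial.X - Polynomial.C (γ x))).map (δ : H →+* H) =
      ∏ γ : H ≃ₐ[E] H, (Polynomial.X - Polynomial.C (γ x)) := by
    rw [Polynomial.map_prod]
    simp only [Polynomial.map_sub, Polynomial.map_X, Polynomial.map_C]
    exact Fintype.prod_equiv (Equiv.mulLeft δ) _ _ (fun γ => rfl)
  have h2 := congrArg (fun p => p.coeff n) h1
  beta_reduce at h2
  rw [Polynomial.coeff_map] at h2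
  exact h2

omit [Algebra K E] [IsScalarTower K E H] in
open Classical in
/-- the characteristic polynomial is moved by as much as its coefficients -/
theorem prod_bound [IsGalois E H] {Q : DV H} {P : DV E} (hQ : Over Q P) (ρ₀ : H ≃ₐ[K] H) {n : ℕ}
    (hn : ∀ y : E, P.G 0 y → Q.G n (ρ₀ (algebraMap E H y) - algebraMap E H y)) {x : H}
    (hx : ∀ γ : H ≃ₐ[E] H, Q.G 0 (γ x)) : Q.G n (∏ γ : H ≃ₐ[E] H, (x - ρ₀ (γ x))) := by
  obtain ⟨p, hp⟩ : ∃ p : Polynomial H,
      p = ∏ γ : H ≃ₐ[E] H, (Polynomial.X - Polynomial.C (γ x)) := ⟨_, rfl⟩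
  have h0 : p.eval x = 0 := by
    rw [hp, Polynomial.eval_prod]
    refine Finset.prod_eq_zero (Finset.mem_univ (1 : H ≃ₐ[E] H)) ?_
    simp
  have h1 : (p.map (ρ₀ : H →+* H)).eval x = ∏ γ : H ≃ₐ[E] H, (x - ρ₀ (γ x)) := by
    rw [hp, Polynomial.map_prod, Polynomial.eval_prod]
    refine Finset.prod_congr rfl fun γ _ => ?_
    simp
  have h2 : ∏ γ : H ≃ₐ[E] H, (x - ρ₀ (γ x)) =
      ∑ i ∈ Finset.range (p.natDegree + 1), (ρ₀ (p.coeff i) - p.coeff i) * x ^ i := by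
    rw [← h1, Polynomial.eval_map, Polynomial.eval₂_eq_sum_range]
    have h3 := h0
    rw [Polynomial.eval_eq_sum_range] at h3
    simp only [sub_mul, Finset.sum_sub_distrib, h3, sub_zero]
    rfl
  rw [h2]
  have h4 : ∀ i, Q.G n ((ρ₀ (p.coeff i) - p.coeff i) * x ^ i) := by
    intro i
    obtain ⟨a, ha⟩ : p.coeff i ∈ Set.range (algebraMap E H) := by
      rw [IsGalois.mem_range_algebraMap_iff_fixed]
      intro δ
      rw [hp]
      exact coeff_fixed x δ i
    have ha0 : P.G 0 a := by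
      rw [← hQ.G_zero_iff, ha, hp]
      exact coeff_prod_int _ _ (fun γ _ => hx γ) i
    rw [← ha]
    have hx0 : Q.G 0 x := hx 1
    have h5 := (hn a ha0).mul (G_zero_pow hx0 i)
    rwa [add_zero] at h5
  exact sum_mem (S := Q.grp n) (fun i _ => h4 i)

/-- an element which sees all the elements of the decomposition group -/
theorem exists_x {Q : DV H} {P : DV E} (hQ : Over Q P) (hQr : Q.resCard ≠ 0) {π : H}
    (hπ : Q.ord π = 1) {N : ℕ} (hN : 2 ≤ N) (hadd : ∀ a b : H, (a - b) ^ N = a ^ N - b ^ N)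
    {M : ℕ} (hM : 1 ≤ M) :
    ∃ x : H, (∀ γ : H ≃ₐ[E] H, Q.G 0 (γ x)) ∧
      (∀ ρ : H ≃ₐ[K] H, Inert Q ρ → Q.G M ((x - ρ x) - (π - ρ π))) ∧
      ∀ (ρ₀ : H ≃ₐ[K] H) (γ : H ≃ₐ[E] H), Inert Q ρ₀ →
        ¬ Inert Q ((γ.restrictScalars K).trans ρ₀) → ¬ Q.G 1 (x - ρ₀ (γ x)) := by
  classical
  obtain ⟨g, hg0, hg1, hg⟩ := exists_gen Q hQr
  have hpow : ∀ (m : ℕ) (a b : H), (a - b) ^ N ^ m = a ^ N ^ m - b ^ N ^ m := by
    intro m
    induction m with
    | zero => intro a b; simp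
    | succ m ih => intro a b; rw [pow_succ, pow_mul, ih, hadd, ← pow_mul, ← pow_mul]
  obtain ⟨π', hπ'⟩ := DV.weak_approx (over_finite' (L := H) P).toFinset
    (fun u => if u = Q then π else 0) M
  obtain ⟨α, hα⟩ := DV.weak_approx (over_finite' (L := H) P).toFinset
    (fun u => if u = Q then g else 0) 1
  have hM1 : (1 : ℤ) ≤ (M : ℤ) := by exact_mod_cast hM
  have hπQ : Q.G M (π' - π) := by
    have h1 := hπ' Q (by rw [Set.Finite.mem_toFinset]; exact hQ)
    rwa [if_pos rfl] at h1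
  have hαQ : Q.G 1 (α - g) := by
    have h1 := hα Q (by rw [Set.Finite.mem_toFinset]; exact hQ)
    rw [if_pos rfl] at h1
    exact_mod_cast h1
  have hπu : ∀ u : DV H, Over u P → u ≠ Q → u.G 1 π' := by
    intro u hu hne
    have h1 := hπ' u (by rw [Set.Finite.mem_toFinset]; exact hu)
    rw [if_neg hne, sub_zero] at h1
    exact h1.mono hM1
  have hαu : ∀ u : DV H, Over u P → u ≠ Q → u.G 1 α := by
    intro u hu hne
    have h1 := hα u (by rw [Set.Finite.mem_toFinset]; exact hu)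
    rw [if_neg hne, sub_zero] at h1
    exact_mod_cast h1
  have hπ1 : Q.G 1 π' := by
    have h1 : Q.G 1 π := DV.G_of_le hπ.ge
    have h2 := (hπQ.mono hM1).add h1
    rwa [sub_add_cancel] at h2
  have hα0 : Q.G 0 α := G_zero_of_sub hg0 hαQ
  have hNM : N ^ M ≠ 0 := pow_ne_zero _ (by omega)
  have hMN : (M : ℤ) ≤ ((N ^ M : ℕ) : ℤ) * 1 := by
    rw [mul_one]
    exact_mod_cast (Nat.lt_pow_self (by omega : 1 < N)).le
  obtain ⟨x, hx⟩ : ∃ x : H, x = π' + α ^ N ^ M := ⟨_, rfl⟩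
  -- the element is integral over `P`
  have hxu : ∀ u : DV H, Over u P → u ≠ Q → u.G 1 x := by
    intro u hu hne
    rw [hx]
    exact (hπu u hu hne).add (G_one_pow (hαu u hu hne) hNM)
  have hxg : Q.G 1 (x - g ^ N ^ M) := by
    have h1 : x - g ^ N ^ M = π' + (α ^ N ^ M - g ^ N ^ M) := by rw [hx]; ring
    rw [h1]
    exact hπ1.add (G_one_pow_sub hα0 hg0 hαQ _)
  have hxQ : Q.G 0 x := G_zero_of_sub (G_zero_pow hg0 _) hxg
  have hxint : ∀ u : DV H, Over u P → u.G 0 x := by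
    intro u hu
    by_cases hne : u = Q
    · rw [hne]
      exact hxQ
    · exact (hxu u hu hne).mono (by norm_num)
  have hγ : ∀ (γ : H ≃ₐ[E] H) (n : ℤ) (a : H), Q.G n (γ a) ↔ (Q.act γ.symm).G n a := by
    intro γ n a
    rw [act_G, AlgEquiv.symm_symm]
  refine ⟨x, fun γ => ?_, fun ρ hρ => ?_, fun ρ₀ γ h0 hnot h1 => ?_⟩
  · rw [hγ]
    exact hxint _ (hQ.act γ.symm)
  · have h1 : (x - ρ x) - (π - ρ π) = (π' - π) - ρ (π' - π) + (α - ρ α) ^ N ^ M := by
      rw [hpow, hx, map_add, map_sub, map_pow]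
      ring
    rw [h1]
    refine (hπQ.sub ((hρ.G _ _).2 hπQ)).add ?_
    have h2 : Q.G 1 (α - ρ α) := G_one_sub_symm (hρ α hα0)
    exact (h2.pow _).mono hMN
  · have hgp : ¬ Q.G 1 (g ^ N ^ M) := fun h => hg1 (G_one_of_pow h)
    by_cases hne : Q.act γ.symm = Q
    · -- the decomposition group
      have hγQ : ∀ (n : ℤ) (a : H), Q.G n (γ a) ↔ Q.G n a := by
        intro n a
        rw [hγ, hne]
      have hρ : ∀ (n : ℤ) (a : H), Q.G n (ρ₀ (γ a)) ↔ Q.G n a := by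
        intro n a
        rw [h0.G, hγQ]
      have h2 : Q.G 1 (ρ₀ (γ (x - g ^ N ^ M))) := (hρ _ _).2 hxg
      rw [map_sub, map_sub, map_pow, map_pow] at h2
      have h3 : Q.G 1 ((g - ρ₀ (γ g)) ^ N ^ M) := by
        rw [hpow]
        have h4 : g ^ N ^ M - ρ₀ (γ g) ^ N ^ M = (x - ρ₀ (γ x)) - (x - g ^ N ^ M) +
            (ρ₀ (γ x) - ρ₀ (γ g) ^ N ^ M) := by ring
        rw [h4]
        exact (h1.sub hxg).add h2
      have h4 : Q.G 1 (g - ρ₀ (γ g)) := G_one_of_pow h3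
      have h5 : Q.G 0 (ρ₀ (γ g)) := (hρ _ _).2 hg0
      refine hnot fun a ha => ?_
      have h6 : ((γ.restrictScalars K).trans ρ₀) a = ρ₀ (γ a) := rfl
      rw [h6]
      rcases hg a ha with h7 | ⟨i, h7⟩
      · exact ((hρ _ _).2 h7).sub h7
      · have h8 : Q.G 1 (ρ₀ (γ (a - g ^ i))) := (hρ _ _).2 h7
        rw [map_sub, map_sub, map_pow, map_pow] at h8
        have h9 : ρ₀ (γ a) - a = (ρ₀ (γ a) - ρ₀ (γ g) ^ i) - (g ^ i - ρ₀ (γ g) ^ i) -
            (a - g ^ i) := by ring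
        rw [h9]
        exact (h8.sub (G_one_pow_sub hg0 h5 h4 i)).sub h7
    · -- another place
      have h2 : Q.G 1 (γ x) := by
        rw [hγ]
        exact hxu _ (hQ.act γ.symm) hne
      have h3 : Q.G 1 (ρ₀ (γ x)) := (h0.G _ _).2 h2
      have h4 := (h1.add h3).sub hxg
      rw [sub_add_cancel, sub_sub_cancel] at h4
      exact hgp h4

end

end RamAux

open RamAux

section

variable {k K E H : Type*} [Field k] [Finite k] [Field K] [Field E] [Field H] [Algebra K E]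
  [Algebra K H] [Algebra E H] [IsScalarTower K E H] [Algebra k K] [Algebra k E] [Algebra k H]
  [IsScalarTower k E H] [FiniteDimensional K H] [IsGalois K H]

theorem resCard_ne {Q : DV H} {v : DV K} (hQ : Over Q v) (hv : v.resCard ≠ 0) :
    Q.resCard ≠ 0 := by
  obtain ⟨T, e, f, -, hT, hTf, -⟩ := sum_ef (E := H) v hv
  rw [(hTf Q ((hT Q).2 hQ)).2.2]
  exact pow_ne_zero _ hv

/-- (R0) only the identity fixes the uniformiser -/
theorem inert_ne (k : Type*) [Field k] [Finite k] [Algebra k K] [Algebra k H]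
    [IsScalarTower k K H] {Q : DV H} {v : DV K} (hQ : Over Q v) (hv : v.resCard ≠ 0) {π : H}
    (hπ : Q.ord π = 1) {ρ : H ≃ₐ[K] H} (hρ : Inert Q ρ) (h1 : ρ ≠ 1) : ρ π - π ≠ 0 := by
  obtain ⟨z, hz⟩ : ∃ z : H, ρ z ≠ z := by
    by_contra hcon
    push Not at hcon
    exact h1 (AlgEquiv.ext hcon)
  have h2 := (Inert.pi_min_k (K := K) (E := H) k (over_refl Q) (resCard_ne hQ hv) hρ hπ (z := z)
    hz).1
  rw [← neg_sub]
  exact neg_ne_zero.2 h2

open Classical in
/-- (R3) restriction to a subfield: the distance of an embedding is at most the sum of the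
distances of its extensions in the inertia group -/
theorem ram_le (k : Type*) [Field k] [Finite k] [Algebra k K] [Algebra k E] [Algebra k H]
    [IsScalarTower k K H] [IsScalarTower k E H] [Fintype (H ≃ₐ[K] H)] {Q : DV H} {P : DV E}
    {v : DV K} (hQ : Over Q P) (hP : Over P v) (hv : v.resCard ≠ 0) {π : H} (hπ : Q.ord π = 1)
    {ϖ : E} (hϖ : P.ord ϖ = 1) (τ : E →ₐ[K] H)
    (hτ : ∃ ρ : H ≃ₐ[K] H, Inert Q ρ ∧ ∀ x : E, ρ (algebraMap E H x) = τ x)
    (hne : τ ≠ IsScalarTower.toAlgHom K E H) :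
    algebraMap E H ϖ - τ ϖ ≠ 0 ∧ Q.ord (algebraMap E H ϖ - τ ϖ) ≤
      ∑ ρ ∈ Finset.univ.filter (fun ρ : H ≃ₐ[K] H =>
        Inert Q ρ ∧ ∀ x : E, ρ (algebraMap E H x) = τ x), Q.ord (ρ π - π) := by
  have : FiniteDimensional E H := FiniteDimensional.right K E H
  have : FiniteDimensional K E := FiniteDimensional.left K E H
  have : IsGalois E H := IsGalois.tower_top_of_isGalois K E H
  have : Algebra.IsSeparable K E := Algebra.isSeparable_tower_bot_of_isSeparable K E H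
  have hQv : Over Q v := over_trans hQ hP
  have hQr : Q.resCard ≠ 0 := resCard_ne hQv hv
  have hPr : P.resCard ≠ 0 := by
    obtain ⟨T, e, f, -, hT, hTf, -⟩ := sum_ef (E := E) v hv
    rw [(hTf P ((hT P).2 hP)).2.2]
    exact pow_ne_zero _ hv
  have hN : 2 ≤ P.resCard := by
    have h3 := DV.resCard_ne_one (v := P)
    omega
  obtain ⟨ρ₀, hρ₀, hρτ⟩ := hτ
  -- a bound
  obtain ⟨M, hM1, hM⟩ : ∃ M : ℕ, 1 ≤ M ∧ ∀ ρ : H ≃ₐ[K] H, Q.ord (ρ π - π) < M := by
    obtain ⟨S, hS⟩ : ∃ S : ℕ, S = ∑ ρ : H ≃ₐ[K] H, (Q.ord (ρ π - π)).toNat := ⟨_, rfl⟩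
    refine ⟨1 + S, by omega, fun ρ => ?_⟩
    have h1 := Finset.single_le_sum (f := fun ρ : H ≃ₐ[K] H => (Q.ord (ρ π - π)).toNat)
      (fun _ _ => Nat.zero_le _) (Finset.mem_univ ρ)
    beta_reduce at h1
    rw [← hS] at h1
    push_cast
    omega
  obtain ⟨x, hx0, hx1, hx2⟩ := exists_x (K := K) hQ hQr hπ hN (sub_pow_resCard k hPr) hM1
  -- the terms
  have hcoset : ∀ γ : H ≃ₐ[E] H, (γ.restrictScalars K).trans ρ₀ ≠ 1 := by
    intro γ h1
    apply hne
    ext y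
    have h2 := DFunLike.congr_fun h1 (algebraMap E H y)
    have h3 : ((γ.restrictScalars K).trans ρ₀) (algebraMap E H y) = ρ₀ (γ (algebraMap E H y)) := rfl
    rw [h3, AlgEquiv.commutes, hρτ] at h2
    exact h2
  have hterm : ∀ γ : H ≃ₐ[E] H, x - ρ₀ (γ x) ≠ 0 ∧ Q.ord (x - ρ₀ (γ x)) =
      if Inert Q ((γ.restrictScalars K).trans ρ₀) then
        Q.ord (((γ.restrictScalars K).trans ρ₀) π - π) else 0 := by
    intro γ
    split_ifs with hi
    · have h1 := inert_ne (K := K) k hQv hv hπ hi (hcoset γ)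
      have h2 := hx1 _ hi
      have h3 := hM ((γ.restrictScalars K).trans ρ₀)
      obtain ⟨β, hβ⟩ : ∃ β : H, β = ((γ.restrictScalars K).trans ρ₀) π - π := ⟨_, rfl⟩
      rw [← hβ] at h1 h3 ⊢
      have h4 : x - ρ₀ (γ x) = -β +
          ((x - ((γ.restrictScalars K).trans ρ₀) x) - (π - ((γ.restrictScalars K).trans ρ₀) π)) := by
        rw [hβ]
        change x - ρ₀ (γ x) = _ + ((x - ρ₀ (γ x)) - _)
        ring
      have h5 := DV.ord_add_of_lt (v := Q) (a := -β)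
        (b := (x - ((γ.restrictScalars K).trans ρ₀) x) - (π - ((γ.restrictScalars K).trans ρ₀) π))
        (neg_ne_zero.2 h1) (h2.mono (by rw [Q.ord_neg]; omega))
      rw [← h4, Q.ord_neg] at h5
      exact h5
    · have h1 := hx2 ρ₀ γ hρ₀ hi
      have h2 := DV.ne_zero_of_not_G h1
      have h3 := (DV.not_G h2).1 h1
      have h4 : Q.G 0 (x - ρ₀ (γ x)) := (hx0 1).sub ((hρ₀.G _ _).2 (hx0 γ))
      have h5 := h4.le h2
      exact ⟨h2, by omega⟩
  have hprod0 : ∏ γ : H ≃ₐ[E] H, (x - ρ₀ (γ x)) ≠ 0 :=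
    Finset.prod_ne_zero_iff.2 fun γ _ => (hterm γ).1
  have hprod : Q.ord (∏ γ : H ≃ₐ[E] H, (x - ρ₀ (γ x))) = ∑ γ : H ≃ₐ[E] H,
      if Inert Q ((γ.restrictScalars K).trans ρ₀) then
        Q.ord (((γ.restrictScalars K).trans ρ₀) π - π) else 0 := by
    have h1 : ∀ s : Finset (H ≃ₐ[E] H), Q.ord (∏ γ ∈ s, (x - ρ₀ (γ x))) = ∑ γ ∈ s,
        if Inert Q ((γ.restrictScalars K).trans ρ₀) then
          Q.ord (((γ.restrictScalars K).trans ρ₀) π - π) else 0 := by
      intro s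
      induction s using Finset.induction_on with
      | empty => rw [Finset.prod_empty, Finset.sum_empty, Q.ord_one]
      | insert a s ha ih =>
        rw [Finset.prod_insert ha, Finset.sum_insert ha, Q.ord_mul _ _ (hterm a).1
          (Finset.prod_ne_zero_iff.2 fun γ _ => (hterm γ).1), ih, (hterm a).2]
    exact h1 _
  -- the sum
  have hsum : (∑ γ : H ≃ₐ[E] H, if Inert Q ((γ.restrictScalars K).trans ρ₀) then
        Q.ord (((γ.restrictScalars K).trans ρ₀) π - π) else 0) ≤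
      ∑ ρ ∈ Finset.univ.filter (fun ρ : H ≃ₐ[K] H =>
        Inert Q ρ ∧ ∀ x : E, ρ (algebraMap E H x) = τ x), Q.ord (ρ π - π) := by
    rw [← Finset.sum_filter]
    have hinj : Set.InjOn (fun γ : H ≃ₐ[E] H => (γ.restrictScalars K).trans ρ₀)
        (Finset.univ.filter fun γ : H ≃ₐ[E] H =>
          Inert Q ((γ.restrictScalars K).trans ρ₀) : Finset (H ≃ₐ[E] H)) := by
      intro γ _ γ' _ h1
      ext a
      have h2 := DFunLike.congr_fun h1 a
      exact ρ₀.injective h2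
    rw [← Finset.sum_image (f := fun ρ : H ≃ₐ[K] H => Q.ord (ρ π - π)) hinj]
    refine Finset.sum_le_sum_of_subset_of_nonneg ?_ ?_
    · intro ρ hρ
      obtain ⟨γ, hγ, rfl⟩ := Finset.mem_image.1 hρ
      refine Finset.mem_filter.2 ⟨Finset.mem_univ _, (Finset.mem_filter.1 hγ).2, fun y => ?_⟩
      change ρ₀ (γ (algebraMap E H y)) = τ y
      rw [AlgEquiv.commutes, hρτ]
    · intro ρ hρ _
      obtain ⟨-, hi, hr⟩ := Finset.mem_filter.1 hρ
      have h1 : ρ ≠ 1 := by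
        rintro rfl
        apply hne
        ext y
        exact (hr y).symm
      have h2 := inert_ne (K := K) k hQv hv hπ hi h1
      have h3 := (hi π ((DV.G_of_le hπ.ge : Q.G 1 π).mono (by norm_num))).le h2
      omega
  -- the uniformiser of `E`
  have hϖH : Q.G 0 (algebraMap E H ϖ) :=
    (hQ.G_zero_iff ϖ).2 ((DV.G_of_le hϖ.ge : P.G 1 ϖ).mono (by norm_num))
  have hint : ∀ n : ℕ, Q.G n (ρ₀ (algebraMap E H ϖ) - algebraMap E H ϖ) →
      Q.G n (∏ γ : H ≃ₐ[E] H, (x - ρ₀ (γ x))) := by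
    intro n hn
    refine prod_bound hQ ρ₀ ?_ hx0
    refine hρ₀.pi_int hQ hN (sub_pow_resCard k hPr) (fun y hy => ?_) hϖ hn n le_rfl
    have h3 := (P.pow_resCard hPr hy).neg
    rwa [neg_sub] at h3
  have hne0 : ρ₀ (algebraMap E H ϖ) - algebraMap E H ϖ ≠ 0 := by
    intro h0
    obtain ⟨n, hn⟩ : ∃ n : ℕ, Q.ord (∏ γ : H ≃ₐ[E] H, (x - ρ₀ (γ x))) < n :=
      ⟨(Q.ord (∏ γ : H ≃ₐ[E] H, (x - ρ₀ (γ x)))).toNat + 1, by push_cast; omega⟩
    have h1 := (hint n (by rw [h0]; exact DV.G_zero _)).le hprod0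
    omega
  obtain ⟨n, hn⟩ : ∃ n : ℕ, Q.ord (ρ₀ (algebraMap E H ϖ) - algebraMap E H ϖ) = n := by
    have h2 := (hρ₀ _ hϖH).le hne0
    exact ⟨(Q.ord (ρ₀ (algebraMap E H ϖ) - algebraMap E H ϖ)).toNat, by omega⟩
  have hfin := (hint n (DV.G_of_le hn.ge)).le hprod0
  rw [← hρτ, ← neg_sub (ρ₀ (algebraMap E H ϖ)), Q.ord_neg, hn]
  refine ⟨neg_ne_zero.2 hne0, ?_⟩
  rw [hprod] at hfin
  exact hfin.trans hsum

end

end Pool.Agent.FF.Jl
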