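import Pool.Agent.FG.Base

/-! # Primes `M` with `T - 1` of order prime to `l` modulo `M` (41) -/

set_option autoImplicit false

namespace Pool.Agent.FF.Jl

open Polynomial UniqueFactorizationMonoid

/-- `(q ^ n - 1) / (q - 1)` -/
def yG (q n : ℕ) : ℕ := ∑ i ∈ Finset.range n, q ^ i

theorem yG_succ (q n : ℕ) : yG q (n + 1) = 1 + q * yG q n := by
  rw [yG, yG, Finset.sum_range_succ', pow_zero, Finset.mul_sum, add_comm]
  congr 1
  exact Finset.sum_congr rfl fun i _ => by rw [pow_succ, mul_comm]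

theorem yG_add (q m n : ℕ) : yG q (m + n) = yG q m + q ^ m * yG q n := by
  induction m with
  | zero => simp [yG]
  | succ m ih =>
    rw [show m + 1 + n = (m + n) + 1 by ring, yG_succ, ih, yG_succ, pow_succ]
    ring

theorem dvd_yG_mul (q w c : ℕ) : yG q w ∣ yG q (w * c) := by
  induction c with
  | zero => simp [yG]
  | succ c ih =>
    rw [mul_add, mul_one, yG_add]
    exact dvd_add ih (Dvd.intro_left _ rfl)

theorem yG_geom {q : ℕ} (hq : 1 ≤ q) (n : ℕ) : (q - 1) * yG q n = q ^ n - 1 := by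
  have h : (q - 1) * yG q n + 1 = q ^ n := by
    induction n with
    | zero => simp [yG]
    | succ n ih =>
      rw [yG_succ, pow_succ, ← ih]
      obtain ⟨k, rfl⟩ : ∃ k, q = k + 1 := ⟨q - 1, by omega⟩
      simp only [Nat.add_sub_cancel]
      ring
  omega

theorem pow_le_yG (q n : ℕ) : q ^ n ≤ yG q (n + 1) :=
  Finset.single_le_sum (f := fun i => q ^ i) (fun _ _ => Nat.zero_le _)
    (Finset.mem_range.2 (Nat.lt_succ_self n))

theorem exists_period {q l : ℕ} (hq : 2 ≤ q) (hl : 0 < l) : ∃ w : ℕ, 0 < w ∧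
    ∀ c : ℕ, Nat.Coprime l (yG q (w * c + 1)) := by
  refine ⟨∏ p ∈ l.primeFactors, Nat.totient (p * (q - 1)), ?_, fun c => ?_⟩
  · refine Finset.prod_pos fun p hp => Nat.totient_pos.2 ?_
    exact Nat.mul_pos (Nat.prime_of_mem_primeFactors hp).pos (by omega)
  · by_contra h
    obtain ⟨p, hp, hpl, hpY⟩ := Nat.Prime.not_coprime_iff_dvd.1 h
    rw [yG_succ] at hpY
    have h1 : p ∣ q * yG q ((∏ p ∈ l.primeFactors, Nat.totient (p * (q - 1))) * c) := by
      by_cases hq' : p ∣ q
      · exact Dvd.dvd.mul_right hq' _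
      · refine Dvd.dvd.mul_left ?_ _
        refine dvd_trans ?_ (dvd_yG_mul _ _ c)
        have hmem : p ∈ l.primeFactors := Nat.mem_primeFactors.2 ⟨hp, hpl, hl.ne'⟩
        obtain ⟨c', hc'⟩ := Finset.dvd_prod_of_mem (fun p => Nat.totient (p * (q - 1))) hmem
        rw [hc']
        refine dvd_trans ?_ (dvd_yG_mul _ _ c')
        have hcop : Nat.Coprime q (p * (q - 1)) := by
          refine Nat.Coprime.mul_right ((Nat.Prime.coprime_iff_not_dvd hp).2 hq').symm ?_
          exact (Nat.coprime_self_sub_right (show 1 ≤ q by omega)).2 (Nat.coprime_one_right q)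
        have h2 := Nat.ModEq.pow_totient hcop
        have h3 : p * (q - 1) ∣ q ^ Nat.totient (p * (q - 1)) - 1 :=
          (Nat.modEq_iff_dvd' (Nat.one_le_pow _ _ (by omega))).1 h2.symm
        have h4 : (q - 1) * p ∣ (q - 1) * yG q (Nat.totient (p * (q - 1))) := by
          rw [yG_geom (by omega), mul_comm (q - 1) p]
          exact h3
        exact Nat.dvd_of_mul_dvd_mul_left (show 0 < q - 1 by omega) h4
    have h2 := (Nat.dvd_add_iff_left h1).2 hpY
    exact hp.one_lt.ne' (Nat.dvd_one.1 h2)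

section

variable {F : Type*} [Field F] [Finite F]

variable (F) in
/-- `(X - 1) ^ Y - 1` -/
noncomputable def pG (n : ℕ) : F[X] := (X - C 1) ^ yG (Nat.card F) n - 1

theorem pG_dvd (n : ℕ) : pG F n ∣ X ^ (Nat.card F) ^ n - X := by
  obtain ⟨p, hp⟩ := CharP.exists F
  have hp1 : Nat.Prime p := CharP.char_is_prime F p
  have : Fact p.Prime := ⟨hp1⟩
  have hq : 2 ≤ Nat.card F := Finite.one_lt_card
  obtain ⟨m, hm⟩ : ∃ m : ℕ, (Nat.card F) ^ n = p ^ m := by
    have := Fintype.ofFinite F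
    obtain ⟨m, _, hm⟩ := FiniteField.card F p
    exact ⟨m * n, by rw [Nat.card_eq_fintype_card, hm, pow_mul]⟩
  have h1 : (X - C 1 : F[X]) ^ (Nat.card F) ^ n = X ^ (Nat.card F) ^ n - C 1 := by
    rw [hm, sub_pow_char_pow, ← C_pow, one_pow]
  have h2 : (X ^ (Nat.card F) ^ n - X : F[X]) =
      (X - C 1) * (((X - C 1) ^ yG (Nat.card F) n) ^ (Nat.card F - 1) - 1 ^ (Nat.card F - 1)) := by
    rw [mul_sub, one_pow, mul_one, ← pow_mul, mul_comm (yG _ _), yG_geom (by omega), ← pow_succ',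
      Nat.sub_add_cancel (Nat.one_le_pow _ _ (by omega)), h1]
    ring
  rw [h2, pG]
  exact Dvd.dvd.mul_left (sub_dvd_pow_sub_pow _ _ _) _

theorem yG_pos {q n : ℕ} (hn : n ≠ 0) : 0 < yG q n := by
  obtain ⟨k, rfl⟩ := Nat.exists_eq_succ_of_ne_zero hn
  rw [Nat.succ_eq_add_one, yG_succ]
  omega

omit [Finite F] in
theorem pG_monic {n : ℕ} (hn : n ≠ 0) : (pG F n).Monic ∧
    (pG F n).natDegree = yG (Nat.card F) n := by
  have h0 := yG_pos (q := Nat.card F) hn
  have h1 : ((X - C 1 : F[X]) ^ yG (Nat.card F) n).Monic := (monic_X_sub_C 1).pow _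
  have h2 : ((X - C 1 : F[X]) ^ yG (Nat.card F) n).natDegree = yG (Nat.card F) n := by
    rw [(monic_X_sub_C (1 : F)).natDegree_pow, natDegree_X_sub_C, mul_one]
  have h3 : (1 : F[X]).natDegree < ((X - C 1 : F[X]) ^ yG (Nat.card F) n).natDegree := by
    rw [h2, natDegree_one]; exact h0
  refine ⟨h1.sub_of_left (degree_lt_degree h3), ?_⟩
  rw [pG, natDegree_sub_eq_left_of_natDegree_lt h3, h2]

omit [Finite F] in
theorem pG_eval {n : ℕ} (hn : n ≠ 0) : (pG F n).eval 1 = -1 := by
  rw [pG]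
  simp [yG_pos (q := Nat.card F) hn |>.ne']

theorem prG_of_dvd {l n : ℕ} (hn : n ≠ 0) (hl : Nat.Coprime l (yG (Nat.card F) n)) {f : F[X]}
    (h1 : f.Monic) (h2 : Irreducible f) (h3 : f ∣ pG F n) : PrG F l f := by
  refine ⟨h1, h2, fun h => ?_, yG (Nat.card F) n, yG_pos hn, hl, ?_⟩
  · have h4 := eval_dvd (x := (1 : F)) h3
    rw [h, zero_dvd_iff, pG_eval hn] at h4
    simp at h4
  · rw [pG, C_1] at h3
    exact h3

variable (F) in
open Classical in
/-- the monic irreducible divisors of degree `n` of `(X - 1) ^ Y - 1` -/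
noncomputable def irG (n : ℕ) : Finset F[X] := (irr F n).filter fun f => f ∣ pG F n

theorem mem_irG {n : ℕ} (hn : n ≠ 0) {f : F[X]} :
    f ∈ irG F n ↔ (f.Monic ∧ Irreducible f ∧ f.natDegree = n) ∧ f ∣ pG F n := by
  classical
  rw [irG, Finset.mem_filter, mem_irr hn]

/-- the lower bound for their number -/
theorem card_irG {n : ℕ} (hn : n ≠ 0) :
    yG (Nat.card F) n ≤ n * (irG F n).card + ∑ d ∈ Finset.Icc 1 (n / 2), (Nat.card F) ^ d := by
  classical
  have hne : pG F n ≠ 0 := (pG_monic hn).1.ne_zero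
  have hsep : Squarefree (X ^ (Nat.card F) ^ n - X : F[X]) := by
    obtain ⟨p, hp⟩ := CharP.exists F
    have hp1 : Nat.Prime p := CharP.char_is_prime F p
    have hcard : p ∣ (Nat.card F) ^ n := by
      have : Fact p.Prime := ⟨hp1⟩
      have := Fintype.ofFinite F
      obtain ⟨m, _, hm⟩ := FiniteField.card F p
      rw [Nat.card_eq_fintype_card, hm]
      exact dvd_pow (dvd_pow_self p m.ne_zero) hn
    exact (galois_poly_separable p _ hcard).squarefree
  have hsq : Squarefree (pG F n) := hsep.squarefree_of_dvd (pG_dvd n)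
  have hnd := (squarefree_iff_nodup_normalizedFactors hne).1 hsq
  set S : Finset F[X] := (normalizedFactors (pG F n)).toFinset with hS
  have hmem : ∀ f ∈ S, f.Monic ∧ Irreducible f ∧ f.natDegree ∣ n ∧ f ∣ pG F n := by
    intro f hf
    rw [hS, Multiset.mem_toFinset, mem_normalizedFactors_iff' hne] at hf
    obtain ⟨h1, h2, h3⟩ := hf
    refine ⟨?_, h1, h1.natDegree_dvd_of_dvd_X_pow_card_pow_sub_X (h3.trans (pG_dvd n)), h3⟩
    rw [← h2]
    exact Polynomial.monic_normalize h1.ne_zero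
  have hsum : ∑ f ∈ S, f.natDegree = yG (Nat.card F) n := by
    have h1 : ∑ f ∈ S, f.natDegree = ((normalizedFactors (pG F n)).map natDegree).sum := by
      rw [hS, Finset.sum, Multiset.toFinset_val, hnd.dedup]
    have h2 : (normalizedFactors (pG F n)).prod = pG F n := by
      rw [prod_normalizedFactors_eq hne, (pG_monic hn).1.normalize_eq_self]
    rw [h1, ← natDegree_multiset_prod_of_monic, h2, (pG_monic hn).2]
    intro f hf
    exact (hmem f (by rw [hS, Multiset.mem_toFinset]; exact hf)).1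
  rw [← hsum, ← Finset.sum_filter_add_sum_filter_not _ fun f : F[X] => f.natDegree = n]
  apply add_le_add
  · have h1 : ∑ f ∈ S.filter (fun f : F[X] => f.natDegree = n), f.natDegree =
        ∑ f ∈ S.filter (fun f : F[X] => f.natDegree = n), n :=
      Finset.sum_congr rfl fun f hf => (Finset.mem_filter.1 hf).2
    rw [h1, Finset.sum_const, smul_eq_mul, mul_comm]
    refine Nat.mul_le_mul_left _ (Finset.card_le_card fun f hf => ?_)
    rw [Finset.mem_filter] at hf
    obtain ⟨h2, h3, _, h5⟩ := hmem f hf.1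
    exact (mem_irG hn).2 ⟨⟨h2, h3, hf.2⟩, h5⟩
  · rw [← Finset.sum_fiberwise_of_maps_to (t := Finset.Icc 1 (n / 2)) (g := natDegree)]
    · apply Finset.sum_le_sum
      intro d hd
      rw [Finset.mem_Icc] at hd
      rw [← sum_irrDvd (F := F) (n := d) (by omega)]
      apply Finset.sum_le_sum_of_subset
      intro f hf
      simp only [Finset.mem_filter] at hf
      rw [mem_irrDvd (by omega)]
      have h1 := hmem f hf.1.1
      exact ⟨h1.1, h1.2.1, hf.2.dvd⟩
    · intro f hf
      rw [Finset.mem_filter] at hf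
      obtain ⟨_, h2, h3, _⟩ := hmem f hf.1
      rw [Finset.mem_Icc]
      refine ⟨h2.natDegree_pos, ?_⟩
      obtain ⟨c, hc⟩ := h3
      have h4 : c ≠ 0 := by rintro rfl; exact hn (by rw [hc, mul_zero])
      have h5 : c ≠ 1 := by rintro rfl; exact hf.2 (by rw [hc, mul_one])
      have h6 : 2 ≤ c := by omega
      rw [Nat.le_div_iff_mul_le (by norm_num)]
      calc f.natDegree * 2 ≤ f.natDegree * c := Nat.mul_le_mul_left _ h6
        _ = n := hc.symm

theorem card_irG_ge {n : ℕ} (hn : 5 ≤ n) : (Nat.card F) ^ (n - 1) ≤ 2 * n * (irG F n).card := by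
  have hq : 2 ≤ Nat.card F := Finite.one_lt_card
  have h1 := card_irG (F := F) (n := n) (by omega)
  have h2 := geom_le hq (n / 2)
  have h3 := pow_le_yG (Nat.card F) (n - 1)
  rw [Nat.sub_add_cancel (by omega)] at h3
  have h4 : 4 * (Nat.card F) ^ (n / 2) ≤ (Nat.card F) ^ (n - 1) := by
    have h5 : n / 2 + 2 ≤ n - 1 := by omega
    calc 4 * (Nat.card F) ^ (n / 2) ≤ (Nat.card F) ^ 2 * (Nat.card F) ^ (n / 2) :=
          Nat.mul_le_mul_right _ (by nlinarith)
      _ = (Nat.card F) ^ (n / 2 + 2) := by rw [pow_add, mul_comm]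
      _ ≤ (Nat.card F) ^ (n - 1) := Nat.pow_le_pow_right (by omega) h5
  have h6 : 2 * n * (irG F n).card = 2 * (n * (irG F n).card) := by ring
  omega

/-- A good prime of degree `w c + 1`. -/
theorem exists_irG {l w : ℕ} (hper : ∀ c : ℕ, Nat.Coprime l (yG (Nat.card F) (w * c + 1)))
    {c : ℕ} (hc : 4 ≤ w * c) : ∃ f : F[X], PrG F l f ∧ f.natDegree = w * c + 1 := by
  have hq : 2 ≤ Nat.card F := Finite.one_lt_card
  have h1 := card_irG_ge (F := F) (n := w * c + 1) (by omega)
  have h2 : 0 < (irG F (w * c + 1)).card := by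
    rcases Nat.eq_zero_or_pos (irG F (w * c + 1)).card with h | h
    · rw [h, mul_zero] at h1
      have := pow_pos (show 0 < Nat.card F by omega) (w * c + 1 - 1)
      omega
    · exact h
  obtain ⟨f, hf⟩ := Finset.card_pos.1 h2
  obtain ⟨⟨h3, h4, h5⟩, h6⟩ := (mem_irG (by omega)).1 hf
  exact ⟨f, prG_of_dvd (by omega) (hper c) h3 h4 h6, h5⟩

/-- The divergence of the sum of the `r ^ (- deg M)`. -/
theorem exists_sumG {l w : ℕ} (hw : 0 < w)
    (hper : ∀ c : ℕ, Nat.Coprime l (yG (Nat.card F) (w * c + 1))) (D0 : ℕ) (B : ℝ) :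
    ∃ S : Finset F[X],
      (∀ f ∈ S, PrG F l f ∧ D0 < f.natDegree ∧ ∃ c, f.natDegree = w * c + 1) ∧
      B ≤ ∑ f ∈ S, 1 / (Nat.card F : ℝ) ^ f.natDegree := by
  classical
  have hq : (0 : ℝ) < Nat.card F := by
    have : 0 < Nat.card F := Nat.card_pos
    exact_mod_cast this
  set E := D0 + 5 with hE
  have h1 := Real.tendsto_sum_range_one_div_nat_succ_atTop
  obtain ⟨m, hm⟩ := (h1.eventually_ge_atTop
    (2 * Nat.card F * w * B + ∑ i ∈ Finset.range E, 1 / ((i : ℝ) + 1))).exists
  have h2 : ∑ i ∈ Finset.range m, 1 / ((i : ℝ) + 1) ≤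
      ∑ i ∈ Finset.range E, 1 / ((i : ℝ) + 1) + ∑ i ∈ Finset.Ico E (E + m), 1 / ((i : ℝ) + 1) := by
    rw [Finset.sum_range_add_sum_Ico _ (by omega)]
    apply Finset.sum_le_sum_of_subset_of_nonneg
    · exact Finset.range_mono (by omega)
    · intro i _ _; positivity
  have h3 : 2 * Nat.card F * w * B ≤ ∑ i ∈ Finset.Ico E (E + m), 1 / ((i : ℝ) + 1) := by
    linarith
  have hE' : ∀ i, E ≤ i → D0 + 5 ≤ w * i := fun i hi =>
    le_trans (by omega) (Nat.le_mul_of_pos_left i hw)
  refine ⟨(Finset.Ico E (E + m)).biUnion fun i => irG F (w * i + 1), ?_, ?_⟩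
  · intro f hf
    rw [Finset.mem_biUnion] at hf
    obtain ⟨i, hi, hf⟩ := hf
    rw [Finset.mem_Ico] at hi
    obtain ⟨⟨h4, h5, h6⟩, h7⟩ := (mem_irG (by omega)).1 hf
    have := hE' i hi.1
    exact ⟨prG_of_dvd (by omega) (hper i) h4 h5 h7, by omega, i, h6⟩
  · rw [Finset.sum_biUnion]
    · have h4 : ∀ i ∈ Finset.Ico E (E + m),
          1 / (2 * Nat.card F * w : ℝ) * (1 / ((i : ℝ) + 1)) ≤
          ∑ f ∈ irG F (w * i + 1), 1 / (Nat.card F : ℝ) ^ f.natDegree := by
        intro i hi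
        rw [Finset.mem_Ico] at hi
        have hi' := hE' i hi.1
        have h5 : ∑ f ∈ irG F (w * i + 1), 1 / (Nat.card F : ℝ) ^ f.natDegree =
            ∑ f ∈ irG F (w * i + 1), 1 / (Nat.card F : ℝ) ^ (w * i + 1) :=
          Finset.sum_congr rfl fun f hf => by rw [((mem_irG (by omega)).1 hf).1.2.2]
        rw [h5, Finset.sum_const, nsmul_eq_mul]
        have h6 := card_irG_ge (F := F) (n := w * i + 1) (by omega)
        rw [Nat.add_sub_cancel] at h6
        have h7 : (Nat.card F : ℝ) ^ (w * i) ≤ 2 * ((w * i : ℝ) + 1) * (irG F (w * i + 1)).card := by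
          exact_mod_cast h6
        have hw' : (1 : ℝ) ≤ w := by exact_mod_cast hw
        have h8 : (w * i : ℝ) + 1 ≤ w * (i + 1) := by nlinarith
        have h9 : (Nat.card F : ℝ) ^ (w * i) ≤
            2 * (w * (i + 1)) * (irG F (w * i + 1)).card :=
          h7.trans (mul_le_mul_of_nonneg_right (by linarith) (Nat.cast_nonneg _))
        rw [mul_one_div, div_div, mul_one_div, div_le_div_iff₀ (by positivity) (by positivity),
          pow_succ, one_mul]
        calc (Nat.card F : ℝ) ^ (w * i) * Nat.card F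
            ≤ (2 * (w * (i + 1)) * (irG F (w * i + 1)).card) * Nat.card F :=
              mul_le_mul_of_nonneg_right h9 hq.le
          _ = (irG F (w * i + 1)).card * (2 * Nat.card F * w * (i + 1)) := by ring
      have h5 := Finset.sum_le_sum h4
      rw [← Finset.mul_sum] at h5
      refine le_trans ?_ h5
      have hpos : (0 : ℝ) < 2 * Nat.card F * w := by positivity
      rw [one_div, inv_mul_eq_div, le_div_iff₀ hpos]
      linarith
    · intro i hi k hk hik
      rw [Function.onFun, Finset.disjoint_left]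
      intro f hf hf'
      have h6 := ((mem_irG (by omega)).1 hf).1.2.2
      have h7 := ((mem_irG (by omega)).1 hf').1.2.2
      rw [h6] at h7
      have h8 : w * i = w * k := by omega
      exact hik (Nat.eq_of_mul_eq_mul_left hw h8)

end

end Pool.Agent.FF.Jl
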